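import Mathlib
import Pool.Agent.H76.CQ.Qb
import Pool.Agent.H76.CQ.Qc
import Pool.Agent.H76.CQ.Qd
import Pool.Agent.H76.MP.M1

/-! This file joins several modules to save build time (X1). -/

set_option autoImplicit false

section S_H36_MX_Df

set_option autoImplicit false
set_option linter.unusedSectionVars false
open scoped Classical

open WithZero NumberField IsDedekindDomain H38RT
open H38T1 (SC sc scu rep rep_ne sc_rep sc_mul sc_eq_zero sc_surj eo la si Pri OddP tp unif ka)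
open H76PP

namespace H36MX

section Hilb

variable {F : Type} [Field F]

/-- The conic `a x^2 + b y^2 = 1` has a point. -/
def Sol (a b : F) : Prop := ∃ x y : F, a * x ^ 2 + b * y ^ 2 = 1

/-- The Hilbert symbol, additively. -/
noncomputable def hs (a b : F) : ZMod 2 := if Sol a b then 0 else 1

lemma hs_eq_zero {a b : F} : hs a b = 0 ↔ Sol a b := by
  unfold hs
  split_ifs with h
  · exact ⟨fun _ => h, fun _ => rfl⟩
  · exact ⟨fun h1 => absurd h1 (by decide), fun h1 => absurd h1 h⟩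

lemma hs_eq_one {a b : F} : hs a b = 1 ↔ ¬ Sol a b := by
  unfold hs
  split_ifs with h
  · exact ⟨fun h1 => absurd h1 (by decide), fun h1 => absurd h h1⟩
  · exact ⟨fun _ => h, fun _ => rfl⟩

variable (F) in
/-- The Hilbert symbol of `F` is bilinear and nondegenerate. -/
structure HF : Prop where
  two : (2 : F) ≠ 0
  mul : ∀ a b c : F, a ≠ 0 → b ≠ 0 → c ≠ 0 → hs (a * b) c = hs a c + hs b c
  nd : ∀ a : F, a ≠ 0 → ¬ IsSquare a → ∃ b : F, b ≠ 0 ∧ hs a b = 1

/-- The Hilbert symbol of square classes. -/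
noncomputable def hsc (x y : SC F) : ZMod 2 := hs (rep x) (rep y)

end Hilb

section Split

variable {F : Type} [Field F]

/-- `x^3 + a x + b` is the product of the `x - e i`, which are different; the derivatives at `e 0` and `e 2` are
squares. -/
structure Spl (a b : F) (e : Fin 3 → F) : Prop where
  s1 : e 0 + e 1 + e 2 = 0
  s2 : e 0 * e 1 + e 0 * e 2 + e 1 * e 2 = a
  s3 : e 0 * e 1 * e 2 = -b
  ne01 : e 0 ≠ e 1
  ne02 : e 0 ≠ e 2
  ne12 : e 1 ≠ e 2
  sq0 : IsSquare ((e 0 - e 1) * (e 0 - e 2))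
  sq2 : IsSquare ((e 2 - e 0) * (e 2 - e 1))

lemma Spl.root {a b : F} {e : Fin 3 → F} (h : Spl a b e) (i : Fin 3) :
    e i ^ 3 + a * e i + b = 0 := by
  have h1 := h.s1
  have h2 := h.s2
  have h3 := h.s3
  have key : ∀ x : F, x ^ 3 + a * x + b = (x - e 0) * (x - e 1) * (x - e 2) := by
    intro x
    linear_combination (-x) * h2 + h3 + x ^ 2 * h1
  rw [key]
  fin_cases i <;> simp

variable {K L : Type} [Field K] [Field L] [Algebra K L] {A B : K} {θ : L}

/-- The homomorphism `L → F` which maps `θ` to the root `t`. -/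
noncomputable def rh (h : Cub K L A B θ) (i : K →+* F) {t : F} (ht : t ^ 3 + i A * t + i B = 0) :
    L →+* F where
  toFun y := i (h.co 0 y) + i (h.co 1 y) * t + i (h.co 2 y) * t ^ 2
  map_zero' := by simp
  map_one' := by
    obtain ⟨h0, h1, h2⟩ := h.co_one
    rw [h0, h1, h2]
    simp
  map_add' x y := by
    simp only [map_add]
    ring
  map_mul' x y := by
    obtain ⟨h0, h1, h2⟩ := h.co_mul x y
    rw [h0, h1, h2]
    simp only [map_add, map_sub, map_mul]
    generalize i (h.co 0 x) = a0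
    generalize i (h.co 1 x) = a1
    generalize i (h.co 2 x) = a2
    generalize i (h.co 0 y) = b0
    generalize i (h.co 1 y) = b1
    generalize i (h.co 2 y) = b2
    linear_combination (-(a1 * b2 + a2 * b1 + a2 * b2 * t)) * ht

lemma rh_apply (h : Cub K L A B θ) (i : K →+* F) {t : F} (ht : t ^ 3 + i A * t + i B = 0) (y : L) :
    rh h i ht y = i (h.co 0 y) + i (h.co 1 y) * t + i (h.co 2 y) * t ^ 2 := rfl

lemma rh_algebraMap (h : Cub K L A B θ) (i : K →+* F) {t : F} (ht : t ^ 3 + i A * t + i B = 0)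
    (x : K) : rh h i ht (algebraMap K L x) = i x := by
  have h1 := h.co_mk' x 0 0
  simp only [map_zero, zero_mul, add_zero] at h1
  rw [rh_apply, h1.1, h1.2.1, h1.2.2]
  simp

lemma rh_theta (h : Cub K L A B θ) (i : K →+* F) {t : F} (ht : t ^ 3 + i A * t + i B = 0) :
    rh h i ht θ = t := by
  obtain ⟨h0, h1, h2⟩ := h.co_theta
  rw [rh_apply, h0, h1, h2]
  simp

/-- The local class of `c` at the root `e j`. -/
noncomputable def lcl (h : Cub K L A B θ) (i : K →+* F) {e : Fin 3 → F} (hs : Spl (i A) (i B) e)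
    (j : Fin 3) : SC L →+ SC F := scm ((rh h i (hs.root j) : L →+* F) : L →* F)

lemma lcl_sc (h : Cub K L A B θ) (i : K →+* F) {e : Fin 3 → F} (hs : Spl (i A) (i B) e)
    (j : Fin 3) {y : L} (hy : y ≠ 0) : lcl h i hs j (sc y) = sc (rh h i (hs.root j) y) :=
  scm_sc _ hy

end Split

section Cond

variable {F : Type} [Field F]

/-- The local condition on the classes `c0`, `c2` (at the roots `e 0` and `e 2`); `x` is the class of the twist (or
its replacement). -/
def LW (x c0 c2 : SC F) : Prop := (c0 = 0 ∨ c0 = x) ∧ hsc c2 x = 0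

variable [Valued F (WithZero (Multiplicative ℤ))]

/-- `g` is a unit of the form `1 + 4 ρ` which generates the unramified quadratic extension (above two). -/
def Unr (g : F) : Prop := ∃ ρ : F, Valued.v ρ ≤ 1 ∧
  (∀ t : F, Valued.v t ≤ 1 → Valued.v (t ^ 2 + t - ρ) = 1) ∧ g = 1 + 4 * ρ

end Cond

section Glob

variable {K : Type} [Field K] [NumberField K]

/-- The Hilbert symbol of elements of `K` at the place `v`. -/
noncomputable def hsv (v : HeightOneSpectrum (𝓞 K)) (a b : K) : ZMod 2 :=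
  hs (algebraMap K (v.adicCompletion K) a) (algebraMap K (v.adicCompletion K) b)

/-- The sum of all local symbols. -/
noncomputable def BB (a b : K) : ZMod 2 :=
  ∑ᶠ v : HeightOneSpectrum (𝓞 K), hsv v a b + ∑ s : K →+* ℝ, si s (sc a) * si s (sc b)

end Glob

end H36MX

end S_H36_MX_Df

section S_H36_MX_Ha

set_option autoImplicit false
set_option linter.unusedSectionVars false
open scoped Classical

open WithZero NumberField IsDedekindDomain H38RT
open H38T1 (SC sc scu rep rep_ne sc_rep sc_mul sc_eq_zero sc_surj eo la si Pri OddP tp unif ka)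
open H76PP

namespace H36MX

variable {F : Type} [Field F]

private lemma Ha_congr {a b c d : F} (h : Sol a b ↔ Sol c d) : hs a b = hs c d := by
  by_cases h1 : Sol a b
  · rw [hs_eq_zero.2 h1, hs_eq_zero.2 (h.1 h1)]
  · rw [hs_eq_one.2 h1, hs_eq_one.2 (fun h2 => h1 (h.2 h2))]

theorem hs_comm (a b : F) : hs a b = hs b a := by
  apply Ha_congr
  constructor
  · rintro ⟨x, y, h⟩
    exact ⟨y, x, by rw [add_comm]; exact h⟩
  · rintro ⟨x, y, h⟩
    exact ⟨y, x, by rw [add_comm]; exact h⟩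

theorem hs_sq {a b c : F} (hc : c ≠ 0) : hs (a * c ^ 2) b = hs a b := by
  apply Ha_congr
  constructor
  · rintro ⟨x, y, h⟩
    exact ⟨c * x, y, by rw [← h]; ring⟩
  · rintro ⟨x, y, h⟩
    refine ⟨c⁻¹ * x, y, ?_⟩
    have e : c * c⁻¹ = 1 := mul_inv_cancel₀ hc
    linear_combination h + (a * x ^ 2 * (c * c⁻¹ + 1)) * e

theorem hs_of_sq {a b : F} (ha : a ≠ 0) (h : IsSquare a) : hs a b = 0 := by
  obtain ⟨r, hr⟩ := h
  have hr0 : r ≠ 0 := by
    rintro rfl
    exact ha (by rw [hr]; ring)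
  refine hs_eq_zero.2 ⟨r⁻¹, 0, ?_⟩
  have e : r * r⁻¹ = 1 := mul_inv_cancel₀ hr0
  rw [hr]
  linear_combination (r * r⁻¹ + 1) * e

theorem sol_iff (h2 : (2 : F) ≠ 0) {a b : F} (ha : a ≠ 0) (hb : b ≠ 0) :
    Sol a b ↔ ∃ X Y : F, b = X ^ 2 - a * Y ^ 2 := by
  obtain ⟨u, hu⟩ : ∃ u : F, 2 * u = 1 := ⟨2⁻¹, mul_inv_cancel₀ h2⟩
  constructor
  · rintro ⟨x, y, h⟩
    by_cases hy : y = 0
    · subst hy
      have h1 : a * x ^ 2 = 1 := by linear_combination h
      refine ⟨(b + 1) * u, x * (b - 1) * u, ?_⟩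
      linear_combination (u ^ 2 * (b - 1) ^ 2) * h1 - (b * (1 + 2 * u)) * hu
    · have e : y * y⁻¹ = 1 := mul_inv_cancel₀ hy
      refine ⟨y⁻¹, x * y⁻¹, ?_⟩
      linear_combination (y⁻¹ ^ 2) * h - (b * (y * y⁻¹ + 1)) * e
  · rintro ⟨X, Y, h⟩
    by_cases hX : X = 0
    · subst hX
      have hY : Y ≠ 0 := by
        rintro rfl
        exact hb (by rw [h]; ring)
      have e1 : Y * Y⁻¹ = 1 := mul_inv_cancel₀ hY
      have e2 : a * a⁻¹ = 1 := mul_inv_cancel₀ ha
      refine ⟨(1 + a⁻¹) * u, (a⁻¹ - 1) * u * Y⁻¹, ?_⟩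
      rw [h]
      linear_combination (-(a * (a⁻¹ - 1) ^ 2 * u ^ 2 * (Y * Y⁻¹ + 1))) * e1 + (4 * u ^ 2) * e2 +
        (2 * u + 1) * hu
    · have e : X * X⁻¹ = 1 := mul_inv_cancel₀ hX
      refine ⟨Y * X⁻¹, X⁻¹, ?_⟩
      linear_combination (X⁻¹ ^ 2) * h + (X * X⁻¹ + 1) * e

theorem sol_mul (h2 : (2 : F) ≠ 0) {a b c : F} (ha : a ≠ 0) (hb : b ≠ 0) (hc : c ≠ 0)
    (h : Sol a b) (h' : Sol a c) : Sol a (b * c) := by
  obtain ⟨X, Y, e⟩ := (sol_iff h2 ha hb).1 h
  obtain ⟨Z, W, e'⟩ := (sol_iff h2 ha hc).1 h'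
  refine (sol_iff h2 ha (mul_ne_zero hb hc)).2 ⟨X * Z + a * Y * W, X * W + Y * Z, ?_⟩
  rw [e, e']
  ring

theorem hs_neg (h2 : (2 : F) ≠ 0) {a : F} (ha : a ≠ 0) : hs a (-a) = 0 :=
  hs_eq_zero.2 ((sol_iff h2 ha (neg_ne_zero.2 ha)).2 ⟨0, 1, by ring⟩)

theorem hs_one_sub (a : F) : hs a (1 - a) = 0 :=
  hs_eq_zero.2 ⟨1, 1, by ring⟩

theorem sol_of_iso (h2 : (2 : F) ≠ 0) {a b X Y Z : F} (ha : a ≠ 0) (hb : b ≠ 0)
    (h : a * X ^ 2 + b * Y ^ 2 = Z ^ 2) (hne : X ≠ 0 ∨ Y ≠ 0 ∨ Z ≠ 0) : Sol a b := by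
  by_cases hZ : Z = 0
  · subst hZ
    have hY : Y ≠ 0 := by
      rintro rfl
      have h1 : a * X ^ 2 = 0 := by linear_combination h
      have h3 : X = 0 := by
        rcases mul_eq_zero.1 h1 with h4 | h4
        · exact absurd h4 ha
        · exact pow_eq_zero_iff (two_ne_zero) |>.1 h4
      rcases hne with h4 | h4 | h4
      · exact h4 h3
      · exact h4 rfl
      · exact h4 rfl
    have e : Y * Y⁻¹ = 1 := mul_inv_cancel₀ hY
    refine (sol_iff h2 ha hb).2 ⟨0, X * Y⁻¹, ?_⟩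
    linear_combination (Y⁻¹ ^ 2) * h - (b * (Y * Y⁻¹ + 1)) * e
  · have e : Z * Z⁻¹ = 1 := mul_inv_cancel₀ hZ
    refine ⟨X * Z⁻¹, Y * Z⁻¹, ?_⟩
    linear_combination (Z⁻¹ ^ 2) * h + (Z * Z⁻¹ + 1) * e

end H36MX

end S_H36_MX_Ha

section S_H36_MX_Bk

set_option autoImplicit false
set_option linter.unusedSectionVars false
open scoped Classical

open WithZero NumberField IsDedekindDomain H38RT
open H38T1 (SC sc scu rep rep_ne sc_rep sc_mul sc_eq_zero sc_surj eo la si Pri OddP tp unif ka)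
open H76PP

namespace H36MX

theorem kum_Z {K L F : Type} [Field K] [Field L] [Algebra K L] [Field F] {A B : K} {θ : L}
    (h : Cub K L A B θ) (i : K →+* F) {e : Fin 3 → F} (hs : Spl (i A) (i B) e) {E : K}
    (hE : E ≠ 0) {d : Fin 3 → K} (hd : ev (algebraMap K L E * θ) d ≠ 0)
    (hLC : LC i (E ^ 2 * A) (E ^ 3 * B) d) :
    ∃ x : F, (∀ j, x ≠ e j) ∧ IsSquare (i E * ((x - e 0) * (x - e 1) * (x - e 2))) ∧
      ∀ j, lcl h i hs j (sc (ev (algebraMap K L E * θ) d)) = sc (i E * (x - e j)) := by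
  obtain ⟨X, y, z, hy0, hy, hm⟩ := hLC
  have hE' : i E ≠ 0 := fun h0 => hE ((map_eq_zero i).1 h0)
  have hEi : i E * (i E)⁻¹ = 1 := mul_inv_cancel₀ hE'
  obtain ⟨x, hx⟩ : ∃ x, x = X * (i E)⁻¹ := ⟨_, rfl⟩
  have hXx : X = i E * x := by
    rw [hx]
    linear_combination (-X) * hEi
  have h1 := hs.s1
  have h2 := hs.s2
  have h3 := hs.s3
  have hprod : y ^ 2 = (i E) ^ 3 * ((x - e 0) * (x - e 1) * (x - e 2)) := by
    rw [hy, hXx]
    simp only [map_mul, map_pow]
    linear_combination (-(i E) ^ 3 * x) * h2 + (i E) ^ 3 * h3 + (i E) ^ 3 * x ^ 2 * h1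
  have hxj : ∀ j, x ≠ e j := by
    intro j hj
    have h4 : (x - e 0) * (x - e 1) * (x - e 2) = 0 := by
      fin_cases j
      · have h5 : x = e 0 := hj
        rw [h5]
        ring
      · have h5 : x = e 1 := hj
        rw [h5]
        ring
      · have h5 : x = e 2 := hj
        rw [h5]
        ring
    rw [h4, mul_zero] at hprod
    exact hy0 (pow_eq_zero_iff (two_ne_zero) |>.1 hprod)
  refine ⟨x, hxj, ⟨y * (i E)⁻¹, ?_⟩, ?_⟩
  · have h4 : (i E) ^ 2 * (i E * ((x - e 0) * (x - e 1) * (x - e 2))) =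
        (i E) ^ 2 * (y * (i E)⁻¹ * (y * (i E)⁻¹)) := by
      linear_combination (-1 : F) * hprod - y ^ 2 * (i E * (i E)⁻¹ + 1) * hEi
    exact mul_left_cancel₀ (pow_ne_zero 2 hE') h4
  · intro j
    rw [lcl_sc h i hs j hd]
    set u := rh h i (hs.root j) (ev (algebraMap K L E * θ) d) with hu
    have hu0 : u ≠ 0 := fun h0 => hd ((map_eq_zero _).1 h0)
    have hw0 : i E * (x - e j) ≠ 0 := mul_ne_zero hE' (sub_ne_zero.2 (hxj j))
    have hroot : (i E * e j) ^ 3 + i (E ^ 2 * A) * (i E * e j) + i (E ^ 3 * B) = 0 := by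
      simp only [map_mul, map_pow]
      linear_combination ((i E) ^ 3) * hs.root j
    have hue : u = H36CY.e1 (i E * e j) (fun k => i (d k)) := by
      rw [hu]
      unfold ev H36CY.e1
      simp only [map_add, map_mul, map_pow, rh_algebraMap, rh_theta]
    have hmul : u * (i E * (x - e j)) =
        H36CY.e1 (i E * e j) z * H36CY.e1 (i E * e j) z := by
      rw [← H36CY.e1_m3 hroot z z, ← hm, H36CY.e1_m3 hroot, ← hue]
      have h5 : H36CY.e1 (i E * e j) ![X, -1, 0] = X - i E * e j := by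
        unfold H36CY.e1
        simp only [Matrix.cons_val_zero, Matrix.cons_val_one, Matrix.cons_val_two,
          Matrix.head_cons, Matrix.tail_cons, Matrix.cons_val]
        ring
      rw [h5, hXx]
      ring
    have h6 : sc (u * (i E * (x - e j))) = 0 :=
      (sc_eq_zero (mul_ne_zero hu0 hw0)).2 ⟨_, hmul⟩
    rw [sc_mul hu0 hw0] at h6
    have h7 := H38T1.SC.two_smul (sc (i E * (x - e j)))
    rw [two_nsmul] at h7
    exact add_right_cancel (h6.trans h7.symm)

theorem iso_pt {F : Type} [Field F] (h2 : (2 : F) ≠ 0) {a b : F} {e : Fin 3 → F} (h : Spl a b e)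
    {E x : F} (hE : E ≠ 0) (hx : ∀ j, x ≠ e j)
    (hsq : IsSquare (E * ((x - e 0) * (x - e 1) * (x - e 2)))) :
    hs (E * (x - e 0)) (E * (x - e 2)) = 0 := by
  obtain ⟨ν, hν⟩ := hsq
  have n01 : e 0 - e 1 ≠ 0 := sub_ne_zero.2 h.ne01
  have n02 : e 0 - e 2 ≠ 0 := sub_ne_zero.2 h.ne02
  have n12 : e 1 - e 2 ≠ 0 := sub_ne_zero.2 h.ne12
  have n20 : e 2 - e 0 ≠ 0 := sub_ne_zero.2 h.ne02.symm
  have n21 : e 2 - e 1 ≠ 0 := sub_ne_zero.2 h.ne12.symm
  have x0 : x - e 0 ≠ 0 := sub_ne_zero.2 (hx 0)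
  have x1 : x - e 1 ≠ 0 := sub_ne_zero.2 (hx 1)
  have x2 : x - e 2 ≠ 0 := sub_ne_zero.2 (hx 2)
  obtain ⟨r0, hr0⟩ := h.sq0
  obtain ⟨r2, hr2⟩ := h.sq2
  have r0ne : r0 ≠ 0 := by
    rintro rfl
    exact mul_ne_zero n01 n02 (by rw [hr0]; ring)
  have r2ne : r2 ≠ 0 := by
    rintro rfl
    exact mul_ne_zero n20 n21 (by rw [hr2]; ring)
  obtain ⟨a0, ha0⟩ : ∃ a0, a0 = E * (x - e 0) / (r0 * r0) := ⟨_, rfl⟩
  obtain ⟨a2, ha2⟩ : ∃ a2, a2 = E * (x - e 2) / (r2 * r2) := ⟨_, rfl⟩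
  have a0ne : a0 ≠ 0 := by
    rw [ha0]
    exact div_ne_zero (mul_ne_zero hE x0) (mul_ne_zero r0ne r0ne)
  have a2ne : a2 ≠ 0 := by
    rw [ha2]
    exact div_ne_zero (mul_ne_zero hE x2) (mul_ne_zero r2ne r2ne)
  -- `a_0 + a_2 = - a_1`
  have hsum : a0 + a2 = -(E * (x - e 1) / ((e 1 - e 0) * (e 1 - e 2))) := by
    have n10 : e 1 - e 0 ≠ 0 := sub_ne_zero.2 h.ne01.symm
    rw [ha0, ha2, ← hr0, ← hr2]
    field_simp
    ring
  obtain ⟨D, hD⟩ : ∃ D, D = (e 0 - e 1) * (e 0 - e 2) * (e 1 - e 2) := ⟨_, rfl⟩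
  have Dne : D ≠ 0 := by
    rw [hD]
    exact mul_ne_zero (mul_ne_zero n01 n02) n12
  have hmain : a2 * a0 ^ 2 + a0 * a2 ^ 2 = (E * ν / D) ^ 2 := by
    have e1 : a2 * a0 ^ 2 + a0 * a2 ^ 2 = a0 * a2 * (a0 + a2) := by ring
    have n10 : e 1 - e 0 ≠ 0 := sub_ne_zero.2 h.ne01.symm
    rw [e1, hsum, ha0, ha2, ← hr0, ← hr2]
    have e2 : (E * ν / D) ^ 2 = E ^ 2 * (E * ((x - e 0) * (x - e 1) * (x - e 2))) / D ^ 2 := by
      rw [hν]
      ring
    rw [e2, hD]
    field_simp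
    ring
  have hSol : Sol a2 a0 := by
    refine sol_of_iso h2 a2ne a0ne (X := a0) (Y := a2) (Z := E * ν / D) ?_ (Or.inl a0ne)
    exact hmain
  have h0 : hs a2 a0 = 0 := hs_eq_zero.2 hSol
  have c0 : E * (x - e 0) = a0 * r0 ^ 2 := by
    rw [ha0]
    field_simp
  have c2 : E * (x - e 2) = a2 * r2 ^ 2 := by
    rw [ha2]
    field_simp
  rw [c0, c2, hs_sq r0ne, hs_comm, hs_sq r2ne]
  exact h0

end H36MX

end S_H36_MX_Bk

section S_H36_MX_Hh

set_option autoImplicit false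
set_option linter.unusedSectionVars false
open scoped Classical

open WithZero NumberField IsDedekindDomain H38RT
open H38T1 (SC sc scu rep rep_ne sc_rep sc_mul sc_eq_zero sc_surj eo la si Pri OddP tp unif ka)
open H76PP

namespace H36MX

variable {F : Type} [Field F]

private lemma Hh_rep {a : F} (ha : a ≠ 0) : ∃ r : F, r ≠ 0 ∧ rep (sc a) = a * r ^ 2 := by
  have h1 : sc (a * rep (sc a)) = 0 := by
    rw [sc_mul ha (rep_ne _), sc_rep, ← two_nsmul, H38T1.SC.two_smul]
  rw [sc_eq_zero (mul_ne_zero ha (rep_ne _))] at h1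
  obtain ⟨s, hs⟩ := h1
  have hs0 : s ≠ 0 := by
    rintro rfl
    rw [mul_zero] at hs
    exact (mul_ne_zero ha (rep_ne _)) hs
  refine ⟨s / a, div_ne_zero hs0 ha, ?_⟩
  have h2 : a * rep (sc a) = a * (a * (s / a) ^ 2) := by
    rw [hs]
    field_simp
  exact mul_left_cancel₀ ha h2

theorem hsc_sc {a b : F} (ha : a ≠ 0) (hb : b ≠ 0) : hsc (sc a) (sc b) = hs a b := by
  obtain ⟨r, hr, h1⟩ := Hh_rep ha
  obtain ⟨t, ht, h2⟩ := Hh_rep hb
  unfold hsc
  rw [h1, h2, hs_sq hr, hs_comm, hs_sq ht, hs_comm]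

theorem hsc_comm (x y : SC F) : hsc x y = hsc y x := hs_comm _ _

theorem hsc_zero_left (x : SC F) : hsc 0 x = 0 := by
  have h1 : IsSquare (rep (0 : SC F)) := (sc_eq_zero (rep_ne _)).1 (sc_rep 0)
  exact hs_of_sq (rep_ne _) h1

theorem hsc_add_left (h : HF F) (x y z : SC F) : hsc (x + y) z = hsc x z + hsc y z := by
  obtain ⟨a, ha, rfl⟩ := sc_surj x
  obtain ⟨b, hb, rfl⟩ := sc_surj y
  obtain ⟨c, hc, rfl⟩ := sc_surj z
  rw [← sc_mul ha hb, hsc_sc (mul_ne_zero ha hb) hc, hsc_sc ha hc, hsc_sc hb hc,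
    h.mul a b c ha hb hc]

theorem hsc_add_right (h : HF F) (x y z : SC F) : hsc x (y + z) = hsc x y + hsc x z := by
  rw [hsc_comm, hsc_add_left h, hsc_comm y, hsc_comm z]

theorem hsc_nd (h : HF F) {x : SC F} (hx : x ≠ 0) : ∃ y : SC F, hsc x y = 1 := by
  obtain ⟨a, ha, rfl⟩ := sc_surj x
  obtain ⟨b, hb, h1⟩ := h.nd a ha (fun h2 => hx ((sc_eq_zero ha).2 h2))
  exact ⟨sc b, by rw [hsc_sc ha hb, h1]⟩

private lemma Hh_smul_left (c : ZMod 2) (x y : SC F) : hsc (c • x) y = c • hsc x y := by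
  fin_cases c
  · change hsc ((0 : ZMod 2) • x) y = (0 : ZMod 2) • hsc x y
    rw [zero_smul, zero_smul, hsc_zero_left]
  · change hsc ((1 : ZMod 2) • x) y = (1 : ZMod 2) • hsc x y
    rw [one_smul, one_smul]

/-- The Hilbert symbol as a bilinear form. -/
theorem exists_hsB (h : HF F) : ∃ b : SC F →ₗ[ZMod 2] SC F →ₗ[ZMod 2] ZMod 2,
    ∀ x y : SC F, b x y = hsc x y := by
  refine ⟨LinearMap.mk₂ (ZMod 2) hsc (hsc_add_left h) Hh_smul_left (hsc_add_right h)
    (fun c x y => ?_), fun x y => rfl⟩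
  rw [hsc_comm, Hh_smul_left, hsc_comm]

theorem hs_mul_right (h : HF F) {a b c : F} (ha : a ≠ 0) (hb : b ≠ 0) (hc : c ≠ 0) :
    hs c (a * b) = hs c a + hs c b := by
  rw [hs_comm, h.mul a b c ha hb hc, hs_comm a, hs_comm b]

theorem hs_congr {a b c : F} {r : F} (hr : r ≠ 0) (h : b = a * r ^ 2) : hs b c = hs a c := by
  rw [h, hs_sq hr]

theorem hs_congr_right {a b c : F} {r : F} (hr : r ≠ 0) (h : b = a * r ^ 2) : hs c b = hs c a := by
  rw [hs_comm, hs_congr hr h, hs_comm]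

end H36MX

end S_H36_MX_Hh

section S_H36_MX_Hu

set_option autoImplicit false
set_option linter.unusedSectionVars false
open scoped Classical

open WithZero NumberField IsDedekindDomain H38RT
open H38T1 (SC sc scu rep rep_ne sc_rep sc_mul sc_eq_zero sc_surj eo la si Pri OddP tp unif ka)
open H76PP

namespace H36MX

variable {K : Type} [Field K] [NumberField K] {v : HeightOneSpectrum (𝓞 K)}

private theorem Hu_dense (v : HeightOneSpectrum (𝓞 K)) (x : v.adicCompletion K) :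
    ∃ k : K, Valued.v (algebraMap K (v.adicCompletion K) k - x) < 1 := by
  have hd := HeightOneSpectrum.denseRange_algebraMap (K := K) v
  have hopen : IsOpen {y : v.adicCompletion K | Valued.v (y - x) < 1} := by
    have h1 : IsOpen {y : v.adicCompletion K | Valued.v y < 1} := by
      obtain ⟨t, ht⟩ := v.valuedAdicCompletion_surjective K (1 : WithZero (Multiplicative ℤ))
      have := Valued.isOpen_ball (v.adicCompletion K) (Valued.v.restrict t)
      simp_rw [Valuation.restrict_lt_iff] at this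
      rwa [ht] at this
    exact h1.preimage (continuous_sub_right x)
  obtain ⟨k, hk⟩ := hd.exists_mem_open hopen ⟨x, by simp⟩
  exact ⟨k, hk⟩

private theorem Hu_val (x : K) :
    Valued.v (algebraMap K (v.adicCompletion K) x) = v.valuation K x :=
  v.valuedAdicCompletion_eq_valuation' (K := K) x

private theorem Hu_app {t : v.adicCompletion K} (ht : Valued.v t ≤ 1) :
    ∃ a : 𝓞 K, Valued.v (t - algebraMap K (v.adicCompletion K) (a : K)) < 1 := by
  obtain ⟨k, hk⟩ := Hu_dense v t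
  have h1 : v.valuation K k ≤ 1 := by
    rw [← Hu_val (v := v) k]
    have e1 : algebraMap K (v.adicCompletion K) k =
        (algebraMap K (v.adicCompletion K) k - t) + t := by ring
    rw [e1]
    exact Valuation.map_add_le _ hk.le ht
  obtain ⟨a, ha⟩ := Tf_approx v h1
  refine ⟨a, ?_⟩
  have e1 : t - algebraMap K (v.adicCompletion K) (a : K) =
      -(algebraMap K (v.adicCompletion K) k - t) +
        algebraMap K (v.adicCompletion K) (k - (a : K)) := by
    rw [map_sub]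
    ring
  rw [e1]
  refine Valuation.map_add_lt _ ?_ ?_
  · rw [Valuation.map_neg]
    exact hk
  · rw [Hu_val]
    exact ha

private theorem Hu_lt (x : 𝓞 K) :
    Valued.v (algebraMap K (v.adicCompletion K) (x : K)) < 1 ↔ x ∈ v.asIdeal := by
  rw [Hu_val]
  exact v.valuation_lt_one_iff_mem x

private theorem Hu_le (x : 𝓞 K) :
    Valued.v (algebraMap K (v.adicCompletion K) (x : K)) ≤ 1 := by
  rw [Hu_val]
  exact v.valuation_le_one x

private theorem Hu_two (h2 : v.valuation K 2 < 1) : (2 : 𝓞 K) ∈ v.asIdeal := by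
  rw [← v.valuation_lt_one_iff_mem (K := K) 2]
  have h1 : algebraMap (𝓞 K) K 2 = 2 := map_ofNat (algebraMap (𝓞 K) K) 2
  have h3 : v.valuation K (algebraMap (𝓞 K) K 2) < 1 := by
    rw [h1]
    exact h2
  exact h3

private theorem Hu_V2 (h2 : v.valuation K 2 < 1) :
    Valued.v (2 : v.adicCompletion K) < 1 := by
  have h1 := Hu_val (v := v) (2 : K)
  rw [map_ofNat] at h1
  rw [h1]
  exact h2

private theorem Hu_V4 (h2 : v.valuation K 2 < 1) :
    Valued.v (4 : v.adicCompletion K) < 1 := by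
  have h : (4 : v.adicCompletion K) = 2 * 2 := by norm_num
  rw [h, map_mul]
  exact mul_lt_one_of_lt_of_le (Hu_V2 h2) (Hu_V2 h2).le

private theorem Hu_ne2 : (2 : v.adicCompletion K) ≠ 0 := by
  have h1 : (algebraMap K (v.adicCompletion K)) 2 ≠ 0 := (map_ne_zero _).2 two_ne_zero
  rwa [map_ofNat] at h1

private theorem Hu_ne4 : (4 : v.adicCompletion K) ≠ 0 := by
  have h : (4 : v.adicCompletion K) = 2 * 2 := by norm_num
  rw [h]
  exact mul_ne_zero Hu_ne2 Hu_ne2

/-- In a finite field of characteristic two the image of `t ^ 2 + t` has index two. -/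
private theorem Hu_field {k : Type} [CommRing k] [IsDomain k] [Finite k] (h2 : (2 : k) = 0)
    (r : k) (hr : ∀ t : k, t ^ 2 + t ≠ r) (x : k) :
    ∃ t : k, t ^ 2 + t = x ∨ t ^ 2 + t = x + r := by
  obtain ⟨φ, hφ⟩ : ∃ φ : k →+ k, ∀ t, φ t = t ^ 2 + t :=
    ⟨{ toFun := fun t => t ^ 2 + t
       map_zero' := by ring
       map_add' := by
        intro a b
        have e : (a + b) ^ 2 + (a + b) = a ^ 2 + a + (b ^ 2 + b) + 2 * (a * b) := by ring
        rw [e, h2]
        ring }, fun _ => rfl⟩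
  have hker : Nat.card φ.ker = 2 := by
    rw [Nat.card_eq_two_iff]
    refine ⟨0, ⟨1, ?_⟩, ?_, ?_⟩
    · rw [AddMonoidHom.mem_ker, hφ]
      have e : (1 : k) ^ 2 + 1 = 2 := by ring
      rw [e, h2]
    · intro h
      have h1 := congrArg Subtype.val h
      exact zero_ne_one h1
    · rw [Set.eq_univ_iff_forall]
      rintro ⟨t, ht⟩
      rw [AddMonoidHom.mem_ker, hφ] at ht
      have e : t ^ 2 + t = t * (t + 1) := by ring
      rw [e, mul_eq_zero] at ht
      rcases ht with ht | ht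
      · left
        exact Subtype.ext ht
      · right
        refine Subtype.ext ?_
        change t = 1
        have e2 : t = (t + 1) + 1 - 2 := by ring
        rw [e2, ht, h2]
        ring
  have h3 := AddSubgroup.index_ker φ
  have h4 := AddSubgroup.card_mul_index φ.ker
  have h5 := AddSubgroup.card_mul_index φ.range
  have h6 : 0 < Nat.card φ.range := Nat.card_pos
  have hidx : φ.range.index = 2 := by
    rw [hker, h3] at h4
    rw [← h4, mul_comm 2] at h5
    exact Nat.eq_of_mul_eq_mul_left h6 h5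
  have hrn : r ∉ φ.range := by
    rintro ⟨t, ht⟩
    rw [hφ] at ht
    exact hr t ht
  by_cases hx : x ∈ φ.range
  · obtain ⟨t, ht⟩ := hx
    rw [hφ] at ht
    exact ⟨t, Or.inl ht⟩
  · have h7 : x + r ∈ φ.range := by
      rw [AddSubgroup.add_mem_iff_of_index_two hidx]
      exact ⟨fun h => absurd h hx, fun h => absurd h hrn⟩
    obtain ⟨t, ht⟩ := h7
    rw [hφ] at ht
    exact ⟨t, Or.inr ht⟩

/-- The lift to the completion. -/
private theorem Hu_as (h2 : v.valuation K 2 < 1) {ρ : v.adicCompletion K}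
    (hρ1 : Valued.v ρ ≤ 1)
    (hρ : ∀ t : v.adicCompletion K, Valued.v t ≤ 1 → Valued.v (t ^ 2 + t - ρ) = 1)
    {x : v.adicCompletion K} (hx : Valued.v x ≤ 1) :
    ∃ t : v.adicCompletion K, Valued.v t ≤ 1 ∧
      (Valued.v (t ^ 2 + t - x) < 1 ∨ Valued.v (t ^ 2 + t - (x + ρ)) < 1) := by
  have hfin : Finite (𝓞 K ⧸ v.asIdeal) := Ideal.finiteQuotientOfFreeOfNeBot _ v.ne_bot
  have hpr : v.asIdeal.IsPrime := v.isPrime
  have hdom : IsDomain (𝓞 K ⧸ v.asIdeal) := Ideal.Quotient.isDomain _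
  have h20 : (2 : 𝓞 K ⧸ v.asIdeal) = 0 := by
    have h1 := Ideal.Quotient.eq_zero_iff_mem.2 (Hu_two h2)
    rwa [map_ofNat] at h1
  obtain ⟨a, ha⟩ := Hu_app hx
  obtain ⟨r, hr⟩ := Hu_app hρ1
  have key : ∀ (t : 𝓞 K) (y : v.adicCompletion K) (b : 𝓞 K),
      Valued.v (y - algebraMap K (v.adicCompletion K) (b : K)) < 1 →
      Ideal.Quotient.mk v.asIdeal t ^ 2 + Ideal.Quotient.mk v.asIdeal t =
        Ideal.Quotient.mk v.asIdeal b →
      Valued.v ((algebraMap K (v.adicCompletion K) (t : K)) ^ 2 +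
        algebraMap K (v.adicCompletion K) (t : K) - y) < 1 := by
    intro t y b hy htb
    rw [← map_pow, ← map_add] at htb
    have h3 : t ^ 2 + t - b ∈ v.asIdeal := Ideal.Quotient.eq.1 htb
    have h4 := (Hu_lt (v := v) _).2 h3
    have e0 : ((t ^ 2 + t - b : 𝓞 K) : K) = (t : K) ^ 2 + (t : K) - (b : K) := by
      push_cast
      rfl
    rw [e0, map_sub, map_add, map_pow] at h4
    have e1 : (algebraMap K (v.adicCompletion K) (t : K)) ^ 2 +
        algebraMap K (v.adicCompletion K) (t : K) - y =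
        ((algebraMap K (v.adicCompletion K) (t : K)) ^ 2 +
        algebraMap K (v.adicCompletion K) (t : K) - algebraMap K (v.adicCompletion K) (b : K)) +
        -(y - algebraMap K (v.adicCompletion K) (b : K)) := by ring
    rw [e1]
    refine Valuation.map_add_lt _ h4 ?_
    rw [Valuation.map_neg]
    exact hy
  have hrn : ∀ t : 𝓞 K ⧸ v.asIdeal, t ^ 2 + t ≠ Ideal.Quotient.mk v.asIdeal r := by
    intro t ht
    obtain ⟨t, rfl⟩ := Ideal.Quotient.mk_surjective t
    have h3 := key t ρ r hr ht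
    rw [hρ _ (Hu_le t)] at h3
    exact lt_irrefl _ h3
  obtain ⟨t, ht⟩ := Hu_field h20 (Ideal.Quotient.mk v.asIdeal r) hrn (Ideal.Quotient.mk v.asIdeal a)
  obtain ⟨t, rfl⟩ := Ideal.Quotient.mk_surjective t
  refine ⟨algebraMap K (v.adicCompletion K) (t : K), Hu_le t, ?_⟩
  rcases ht with ht | ht
  · left
    exact key t x a ha ht
  · right
    rw [← map_add] at ht
    refine key t (x + ρ) (a + r) ?_ ht
    have e0 : ((a + r : 𝓞 K) : K) = (a : K) + (r : K) := by
      push_cast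
      rfl
    rw [e0, map_add]
    have e1 : x + ρ - (algebraMap K (v.adicCompletion K) (a : K) +
        algebraMap K (v.adicCompletion K) (r : K)) =
        (x - algebraMap K (v.adicCompletion K) (a : K)) +
        (ρ - algebraMap K (v.adicCompletion K) (r : K)) := by ring
    rw [e1]
    exact Valuation.map_add_lt _ ha hr

/-- Elements near the square of `1 + 2 t`. -/
private theorem Hu_near (h2 : v.valuation K 2 < 1) {t y z : v.adicCompletion K}
    (ht : Valued.v t ≤ 1) (hz : Valued.v z < 1)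
    (h : y - (1 + 2 * t) ^ 2 = 4 * z) : IsSquare y := by
  have hc : CharZero (v.adicCompletion K) := H36CY.char_zero v
  have h1 : Valued.v (1 + 2 * t) = 1 := by
    refine Valuation.map_one_add_of_lt _ ?_
    rw [map_mul]
    exact mul_lt_one_of_lt_of_le (Hu_V2 h2) ht
  obtain ⟨r, -, hr⟩ := H36CY.sq_near (y := y) (z := (1 + 2 * t) ^ 2) (by
    rw [h, map_mul, map_mul, map_pow, h1, one_pow, mul_one]
    have h4 : Valued.v (4 : v.adicCompletion K) ≠ 0 := (Valuation.ne_zero_iff _).2 Hu_ne4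
    calc Valued.v (4 : v.adicCompletion K) * Valued.v z
        < Valued.v (4 : v.adicCompletion K) * 1 :=
          mul_lt_mul_of_pos_left hz (zero_lt_iff.2 h4)
      _ = _ := mul_one _)
  refine ⟨(1 + 2 * t) * r, ?_⟩
  rw [hr]
  ring

private theorem Hu_exp {γ : WithZero (Multiplicative ℤ)} (hγ : γ ≠ 0) :
    ∃ n : ℤ, γ ^ 2 = exp (2 * n) := by
  refine ⟨log γ, ?_⟩
  rw [two_mul, exp_add, exp_log hγ, sq]

theorem exists_unr (h2 : v.valuation K 2 < 1) : ∃ g : v.adicCompletion K, Unr g := by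
  obtain ⟨ρ, h1, h3⟩ := H36CY.exists_rho h2
  exact ⟨1 + 4 * ρ, ρ, h1, h3, rfl⟩

theorem unr_one (h2 : v.valuation K 2 < 1) {g : v.adicCompletion K} (hg : Unr g) :
    Valued.v g = 1 := by
  obtain ⟨ρ, h1, h3, rfl⟩ := hg
  refine Valuation.map_one_add_of_lt _ ?_
  rw [map_mul]
  exact mul_lt_one_of_lt_of_le (Hu_V4 h2) h1

theorem unr_nsq (h2 : v.valuation K 2 < 1) {g : v.adicCompletion K} (hg : Unr g) :
    ¬ IsSquare g := by
  rintro ⟨r, hr⟩
  obtain ⟨ρ, h1, h3, rfl⟩ := hg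
  obtain ⟨γ, hγ, h4⟩ := H36CY.rho_even h2 h1 h3 (A := r) (B := 1) (Or.inr one_ne_zero)
  have e : r ^ 2 - (1 + 4 * ρ) * 1 ^ 2 = 0 := by
    rw [hr]
    ring
  rw [e, map_zero] at h4
  exact hγ (pow_eq_zero_iff two_ne_zero |>.1 h4.symm)

theorem unr_even (h2 : v.valuation K 2 < 1) (hF : HF (v.adicCompletion K))
    {g : v.adicCompletion K} (hg : Unr g) {z : v.adicCompletion K} (hz : z ≠ 0) :
    hs g z = 0 ↔ ∃ n : ℤ, Valued.v z = exp (2 * n) := by
  have hg0 : g ≠ 0 := by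
    intro h
    have h1 := unr_one h2 hg
    rw [h, map_zero] at h1
    exact zero_ne_one h1
  have key : ∀ y : v.adicCompletion K, y ≠ 0 → hs g y = 0 →
      ∃ n : ℤ, Valued.v y = exp (2 * n) := by
    intro y hy h
    rw [hs_eq_zero, sol_iff hF.two hg0 hy] at h
    obtain ⟨X, Y, hXY⟩ := h
    obtain ⟨ρ, h1, h3, rfl⟩ := hg
    have hne : X ≠ 0 ∨ Y ≠ 0 := by
      by_contra hcon
      push Not at hcon
      apply hy
      rw [hXY, hcon.1, hcon.2]
      ring
    obtain ⟨γ, hγ, h4⟩ := H36CY.rho_even h2 h1 h3 hne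
    obtain ⟨n, hn⟩ := Hu_exp hγ
    exact ⟨n, by rw [hXY, h4, hn]⟩
  constructor
  · exact key z hz
  · rintro ⟨n, hn⟩
    by_contra hcon
    have h1 : hs g z = 1 := by
      rcases (show hs g z = 0 ∨ hs g z = 1 by
        generalize hs g z = w
        revert w
        decide) with h | h
      · exact absurd h hcon
      · exact h
    obtain ⟨π, hπ⟩ := v.valuedAdicCompletion_surjective K (exp (-1 : ℤ))
    have hπ0 : π ≠ 0 := by
      rintro rfl
      rw [map_zero] at hπ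
      exact exp_ne_zero hπ.symm
    have h3 : hs g π = 1 := by
      rcases (show hs g π = 0 ∨ hs g π = 1 by
        generalize hs g π = w
        revert w
        decide) with h | h
      · obtain ⟨m, hm⟩ := key π hπ0 h
        rw [hπ, exp_inj] at hm
        omega
      · exact h
    have h4 : hs g (z * π) = 0 := by
      rw [hs_mul_right hF hz hπ0 hg0, h1, h3]
      decide
    obtain ⟨m, hm⟩ := key (z * π) (mul_ne_zero hz hπ0) h4
    rw [map_mul, hn, hπ, ← exp_add, exp_inj] at hm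
    omega

theorem unr_cases (h2 : v.valuation K 2 < 1) {g : v.adicCompletion K} (hg : Unr g)
    {u : v.adicCompletion K} (hu : Valued.v u ≤ Valued.v (4 : v.adicCompletion K)) :
    IsSquare (1 + u) ∨ IsSquare ((1 + u) * g) := by
  obtain ⟨ρ, h1, h3, rfl⟩ := hg
  have h4 : Valued.v (4 : v.adicCompletion K) ≠ 0 := (Valuation.ne_zero_iff _).2 Hu_ne4
  obtain ⟨w, rfl⟩ : ∃ w, u = 4 * w := ⟨u / 4, by rw [mul_div_cancel₀ _ Hu_ne4]⟩
  have hw : Valued.v w ≤ 1 := by
    rw [map_mul] at hu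
    have h5 : Valued.v (4 : v.adicCompletion K) * Valued.v w ≤
        Valued.v (4 : v.adicCompletion K) * 1 := by rw [mul_one]; exact hu
    exact le_of_mul_le_mul_left h5 (zero_lt_iff.2 h4)
  obtain ⟨t, ht, h5 | h5⟩ := Hu_as h2 h1 h3 hw
  · left
    refine Hu_near h2 ht (z := -(t ^ 2 + t - w)) (by rw [Valuation.map_neg]; exact h5) ?_
    ring
  · right
    refine Hu_near h2 ht (z := -(t ^ 2 + t - (w + ρ)) + 4 * (w * ρ)) ?_ ?_
    · refine Valuation.map_add_lt _ (by rw [Valuation.map_neg]; exact h5) ?_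
      rw [map_mul, map_mul]
      exact mul_lt_one_of_lt_of_le (Hu_V4 h2) (mul_le_one' hw h1)
    · ring

end H36MX

end S_H36_MX_Hu

section S_H36_MX_Wa

set_option autoImplicit false
set_option linter.unusedSectionVars false
open scoped Classical

open WithZero NumberField IsDedekindDomain H38RT
open H76PP

namespace H36MX

private theorem Wa_pow {N : Type} [Field N] [NumberField N] (S : Finset (HeightOneSpectrum (𝓞 N)))
    {b : 𝓞 N} (hb : b ≠ 0) {ε : HeightOneSpectrum (𝓞 N) → WithZero (Multiplicative ℤ)}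
    (hε : ∀ w, ε w ≠ 0) :
    ∃ k : ℕ, ∀ V ∈ S, exp (-(k : ℤ)) < ε V * V.intValuation b := by
  induction S using Finset.induction_on with
  | empty => exact ⟨0, fun V hV => absurd hV (Finset.notMem_empty V)⟩
  | insert V S hV ih =>
    obtain ⟨k, hk⟩ := ih
    have h0 : ε V * V.intValuation b ≠ 0 := mul_ne_zero (hε V) (V.intValuation_ne_zero b hb)
    obtain ⟨l, hl⟩ : ∃ l : ℕ, exp (-(l : ℤ)) < ε V * V.intValuation b := by
      refine ⟨(-(log (ε V * V.intValuation b)) + 1).toNat, ?_⟩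
      have h2 := Int.self_le_toNat (-(log (ε V * V.intValuation b)) + 1)
      have h3 : exp (-((-(log (ε V * V.intValuation b)) + 1).toNat : ℤ)) <
          exp (log (ε V * V.intValuation b)) := by
        rw [exp_lt_exp]
        omega
      rwa [exp_log h0] at h3
    refine ⟨max k l, fun U hU => ?_⟩
    rcases Finset.mem_insert.mp hU with rfl | hU
    · refine lt_of_le_of_lt ?_ hl
      rw [exp_le_exp]
      have : (l : ℤ) ≤ ((max k l : ℕ) : ℤ) := by exact_mod_cast le_max_right k l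
      omega
    · refine lt_of_le_of_lt ?_ (hk U hU)
      rw [exp_le_exp]
      have : (k : ℤ) ≤ ((max k l : ℕ) : ℤ) := by exact_mod_cast le_max_left k l
      omega

theorem weak {N : Type} [Field N] [NumberField N]
    (S : Finset (HeightOneSpectrum (𝓞 N))) (x : HeightOneSpectrum (𝓞 N) → N)
    {ε : HeightOneSpectrum (𝓞 N) → WithZero (Multiplicative ℤ)} (hε : ∀ w, ε w ≠ 0) :
    ∃ y : N, ∀ V ∈ S, V.valuation N (y - x V) < ε V := by
  obtain ⟨b, hb⟩ := IsLocalization.exist_integer_multiples_of_finset (nonZeroDivisors (𝓞 N))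
    (S.image x)
  have hb0 : (b : 𝓞 N) ≠ 0 := nonZeroDivisors.ne_zero b.2
  have ha : ∀ V : HeightOneSpectrum (𝓞 N), V ∈ S → ∃ a : 𝓞 N,
      algebraMap (𝓞 N) N a = algebraMap (𝓞 N) N b * x V := by
    intro V hV
    obtain ⟨a, ha⟩ := hb (x V) (Finset.mem_image_of_mem x hV)
    refine ⟨a, ?_⟩
    rw [ha, Algebra.smul_def]
  obtain ⟨k, hk⟩ := Wa_pow S hb0 hε
  obtain ⟨z, hz⟩ := IsDedekindDomain.exists_forall_sub_mem_ideal
    (s := S) (fun V : HeightOneSpectrum (𝓞 N) => V.asIdeal) (fun _ => k)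
    (fun V _ => V.prime)
    (fun V _ U _ hVU h => hVU (HeightOneSpectrum.ext h))
    (fun V => (ha V.1 V.2).choose)
  have hbN : algebraMap (𝓞 N) N b ≠ 0 := by
    intro h
    exact hb0 ((FaithfulSMul.algebraMap_injective (𝓞 N) N) (by rw [h, map_zero]))
  refine ⟨algebraMap (𝓞 N) N z / algebraMap (𝓞 N) N b, fun V hV => ?_⟩
  have h1 := hz V hV
  have h2 := (ha V hV).choose_spec
  set a := (ha V hV).choose with hadef
  have h3 : algebraMap (𝓞 N) N z / algebraMap (𝓞 N) N b - x V =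
      algebraMap (𝓞 N) N (z - a) / algebraMap (𝓞 N) N b := by
    rw [map_sub, h2]
    field_simp
  rw [h3, map_div₀, V.valuation_of_algebraMap, V.valuation_of_algebraMap,
    div_lt_iff₀ (zero_lt_iff.mpr (V.intValuation_ne_zero b hb0))]
  exact lt_of_le_of_lt ((V.intValuation_le_pow_iff_mem (z - a) k).mpr h1) (hk V hV)

variable {K : Type} [Field K] [NumberField K]

/-- Approximation of elements of the completions. -/
theorem weak_F (S : Finset (HeightOneSpectrum (𝓞 K)))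
    (x : ∀ v : HeightOneSpectrum (𝓞 K), v.adicCompletion K)
    {ε : HeightOneSpectrum (𝓞 K) → WithZero (Multiplicative ℤ)} (hε : ∀ v, ε v ≠ 0) :
    ∃ y : K, ∀ v ∈ S, Valued.v (algebraMap K (v.adicCompletion K) y - x v) < ε v := by
  have h1 : ∀ v : HeightOneSpectrum (𝓞 K), ∃ c : v.adicCompletion K, c ≠ 0 ∧ Valued.v c = ε v := by
    intro v
    obtain ⟨π, hπ⟩ := v.valuation_exists_uniformizer K
    refine ⟨algebraMap K (v.adicCompletion K) (π ^ (-log (ε v))), ?_, ?_⟩
    · refine (map_ne_zero _).2 (zpow_ne_zero _ ?_)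
      rintro rfl
      rw [map_zero] at hπ
      exact exp_ne_zero hπ.symm
    · rw [H36CY.val_coe, map_zpow₀, hπ, ← exp_zsmul]
      rw [smul_eq_mul, mul_neg, mul_one, neg_neg, exp_log (hε v)]
  have h2 : ∀ v : HeightOneSpectrum (𝓞 K), ∃ y : K,
      Valued.v (algebraMap K (v.adicCompletion K) y - x v) < ε v := by
    intro v
    obtain ⟨c, hc, hcv⟩ := h1 v
    obtain ⟨y, hy⟩ := H36CY.near_coe v (x v) hc
    exact ⟨y, by rw [← hcv]; exact hy⟩
  choose z hz using h2
  obtain ⟨y, hy⟩ := weak S z hε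
  refine ⟨y, fun v hv => ?_⟩
  have e1 : algebraMap K (v.adicCompletion K) y - x v =
      algebraMap K (v.adicCompletion K) (y - z v) +
        (algebraMap K (v.adicCompletion K) (z v) - x v) := by
    rw [map_sub]
    ring
  rw [e1]
  refine Valuation.map_add_lt _ ?_ (hz v)
  rw [H36CY.val_coe]
  exact hy v hv

/-- An element of `K` in given square classes of finitely many completions. -/
theorem weak_sq (S : Finset (HeightOneSpectrum (𝓞 K)))
    (x : ∀ v : HeightOneSpectrum (𝓞 K), v.adicCompletion K) (hx : ∀ v, x v ≠ 0) :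
    ∃ y : K, y ≠ 0 ∧ ∀ v ∈ S, ∃ r : v.adicCompletion K, r ≠ 0 ∧
      algebraMap K (v.adicCompletion K) y = x v * r ^ 2 := by
  have h4 : ∀ v : HeightOneSpectrum (𝓞 K), Valued.v (4 * x v) ≠ 0 := by
    intro v
    have _ := H36CY.char_zero v
    exact (Valuation.ne_zero_iff _).2 (mul_ne_zero (by norm_num) (hx v))
  obtain ⟨y, hy⟩ := weak_F S x (ε := fun v => Valued.v (4 * x v)) h4
  have key : ∀ v ∈ S, ∃ r : v.adicCompletion K, r ≠ 0 ∧
      algebraMap K (v.adicCompletion K) y = x v * r ^ 2 := by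
    intro v hv
    have _ := H36CY.char_zero v
    exact H36CY.sq_near (hy v hv)
  by_cases hS : S.Nonempty
  · refine ⟨y, ?_, key⟩
    rintro rfl
    obtain ⟨v, hv⟩ := hS
    obtain ⟨r, hr, h⟩ := key v hv
    rw [map_zero] at h
    exact mul_ne_zero (hx v) (pow_ne_zero 2 hr) h.symm
  · rw [Finset.not_nonempty_iff_eq_empty] at hS
    refine ⟨1, one_ne_zero, fun v hv => ?_⟩
    rw [hS] at hv
    exact absurd hv (Finset.notMem_empty v)

end H36MX

end S_H36_MX_Wa
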