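import Mathlib
import Pool.Agent.H38.T1.Ea
import Pool.Agent.H76.CQ.Qb
import Pool.Agent.H76.CQ.Qc
import Pool.Agent.H76.PN.A5
import Pool.Agent.H76.ZQ.Y6
import Pool.Agent.H76.XP.X1

/-! This file joins several modules to save build time (X2). -/

set_option autoImplicit false

section S_H36_MX_Br

set_option autoImplicit false
set_option linter.unusedSectionVars false
open scoped Classical

open WithZero NumberField IsDedekindDomain H38RT
open H38T1 (SC sc scu rep rep_ne sc_rep sc_mul sc_eq_zero sc_surj eo la si Pri OddP tp unif ka)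
open H76PP

namespace H36MX

section BrF

variable {F : Type} [Field F] [CharZero F] [Valued F (WithZero (Multiplicative ℤ))]

lemma Br_nat (n : ℕ) : Valued.v (n : F) ≤ 1 := H36CY.v_nat_le n

lemma Br_root [CompleteSpace F] {a b r : F} (hr : Valued.v r ≤ 1)
    (h0 : Valued.v (r ^ 3 + a * r + b) < 1) (h1 : Valued.v (3 * r ^ 2 + a) = 1) :
    ∃ e : F, e ^ 3 + a * e + b = 0 ∧ Valued.v (e - r) ≤ Valued.v (r ^ 3 + a * r + b) := by
  have h3 : Valued.v (3 * r) ≤ 1 := by
    rw [map_mul]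
    have := Br_nat (F := F) 3
    rw [Nat.cast_ofNat] at this
    exact mul_le_one' this hr
  obtain ⟨y, hy1, hy⟩ := H30ZO.Bd_hens h0 h1 h3 (by rw [map_one] : Valued.v (1 : F) ≤ 1)
  refine ⟨r + y, by linear_combination hy, ?_⟩
  have e1 : r + y - r = y := by ring
  rw [e1]
  by_contra hlt
  rw [not_le] at hlt
  have hy0 : Valued.v y ≠ 0 := by
    intro h
    rw [h] at hlt
    exact not_lt_zero' hlt
  have e2 : (3 * r ^ 2 + a) * y = -(r ^ 3 + a * r + b) - y * y * (3 * r + y) := by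
    linear_combination hy
  have h4 : Valued.v ((3 * r ^ 2 + a) * y) = Valued.v y := by rw [map_mul, h1, one_mul]
  have h5 : Valued.v (y * y * (3 * r + y)) < Valued.v y := by
    rw [map_mul, map_mul]
    have h6 : Valued.v (3 * r + y) ≤ 1 :=
      (Valuation.map_add _ _ _).trans (max_le h3 hy1.le)
    calc Valued.v y * Valued.v y * Valued.v (3 * r + y) ≤ Valued.v y * Valued.v y * 1 :=
          mul_le_mul' le_rfl h6
      _ = Valued.v y * Valued.v y := mul_one _
      _ < Valued.v y * 1 := (mul_lt_mul_iff_right₀ (zero_lt_iff.2 hy0)).2 hy1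
      _ = Valued.v y := mul_one _
  rw [e2] at h4
  have h7 : Valued.v (-(r ^ 3 + a * r + b) - y * y * (3 * r + y)) < Valued.v y := by
    refine lt_of_le_of_lt (Valuation.map_sub _ _ _) (max_lt ?_ h5)
    rw [Valuation.map_neg]
    exact hlt
  rw [h4] at h7
  exact lt_irrefl _ h7

/-- The three roots from one root and a square root of the discriminant of the quotient. -/
lemma Br_spl {a b e r : F} (he : e ^ 3 + a * e + b = 0) (hr : r ^ 2 = -3 * e ^ 2 - 4 * a)
    (h01 : (-3 * e - r) / 2 ≠ 0) (h02 : (-3 * e + r) / 2 ≠ 0) (h12 : r ≠ 0)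
    (s0 : IsSquare (3 * e ^ 2 + a)) (s2 : IsSquare ((-3 * e + r) / 2 * r)) :
    Spl a b ![e, (-e - r) / 2, (-e + r) / 2] := by
  have e0 : (![e, (-e - r) / 2, (-e + r) / 2] : Fin 3 → F) 0 = e := rfl
  have e1 : (![e, (-e - r) / 2, (-e + r) / 2] : Fin 3 → F) 1 = (-e - r) / 2 := rfl
  have e2 : (![e, (-e - r) / 2, (-e + r) / 2] : Fin 3 → F) 2 = (-e + r) / 2 := rfl
  constructor
  · rw [e0, e1, e2]; ring
  · rw [e0, e1, e2]; linear_combination (-1 / 4 : F) * hr
  · rw [e0, e1, e2]; linear_combination (-e / 4 : F) * hr + he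
  · rw [e0, e1]
    intro h
    apply h01
    linear_combination -h
  · rw [e0, e2]
    intro h
    apply h02
    linear_combination -h
  · rw [e1, e2]
    intro h
    apply h12
    linear_combination -h
  · rw [e0, e1, e2]
    have : (e - (-e - r) / 2) * (e - (-e + r) / 2) = 3 * e ^ 2 + a := by
      linear_combination (-1 / 4 : F) * hr
    rw [this]
    exact s0
  · rw [e0, e1, e2]
    have : ((-e + r) / 2 - e) * ((-e + r) / 2 - (-e - r) / 2) = (-3 * e + r) / 2 * r := by
      ring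
    rw [this]
    exact s2

lemma Br_sq [CompleteSpace F] {y z : F} (h : Valued.v (y - z) < Valued.v (4 * z))
    (hz : IsSquare z) : IsSquare y := by
  obtain ⟨r, _, hr⟩ := H36CY.sq_near h
  obtain ⟨w, hw⟩ := hz
  exact ⟨w * r, by rw [hr, hw]; ring⟩

lemma Br_one {x y : F} (hy : Valued.v y = 1) (h : Valued.v (x - y) < 1) : Valued.v x = 1 := by
  have e : x = y + (x - y) := by ring
  rw [e, Valuation.map_add_eq_of_lt_left _ (by rw [hy]; exact h), hy]

lemma Br_add {x y : F} {c : WithZero (Multiplicative ℤ)} (hx : Valued.v x < c)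
    (hy : Valued.v y < c) : Valued.v (x + y) < c :=
  lt_of_le_of_lt (Valuation.map_add _ _ _) (max_lt hx hy)

lemma Br_sub {x y : F} {c : WithZero (Multiplicative ℤ)} (hx : Valued.v x < c)
    (hy : Valued.v y < c) : Valued.v (x - y) < c :=
  lt_of_le_of_lt (Valuation.map_sub _ _ _) (max_lt hx hy)

lemma Br_mul {x y : F} {c : WithZero (Multiplicative ℤ)} (hx : Valued.v x ≤ 1)
    (hy : Valued.v y < c) : Valued.v (x * y) < c := by
  rw [map_mul]
  exact lt_of_le_of_lt (by calc Valued.v x * Valued.v y ≤ 1 * Valued.v y := mul_le_mul' hx le_rfl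
    _ = _ := one_mul _) hy

lemma Br_two_pow (h2 : Valued.v (2 : F) < 1) {m n : ℕ} (h : m < n) :
    Valued.v ((2 : F) ^ n) < Valued.v ((2 : F) ^ m) := by
  have h20 : (2 : F) ≠ 0 := two_ne_zero
  rw [map_pow, map_pow]
  exact pow_lt_pow_right_of_lt_one₀ (zero_lt_iff.2 ((Valuation.ne_zero_iff _).2 h20)) h2 h

theorem Br_two [CompleteSpace F] (h2 : Valued.v (2 : F) < 1) {a b : F}
    (ha : Valued.v (a + 91) ≤ Valued.v ((2 : F) ^ 14))
    (hb : Valued.v (b + 330) ≤ Valued.v ((2 : F) ^ 14)) :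
    ∃ e : Fin 3 → F, Spl a b e ∧ IsSquare (e 1 - e 0) ∧
      Valued.v (e 1 - e 0) = 1 ∧ Valued.v (e 2 - e 1) = Valued.v (16 : F) := by
  have h20 : (2 : F) ≠ 0 := two_ne_zero
  have h2v : Valued.v (2 : F) ≠ 0 := (Valuation.ne_zero_iff _).2 h20
  have hN : ∀ n : ℕ, n < 14 → Valued.v ((2 : F) ^ 14) < Valued.v ((2 : F) ^ n) :=
    fun n hn => Br_two_pow h2 hn
  have p0 : Valued.v ((2 : F) ^ 0) = 1 := by rw [pow_zero, map_one]
  have hN1 : Valued.v ((2 : F) ^ 14) < 1 := by
    have := hN 0 (by norm_num)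
    rwa [p0] at this
  -- the small numbers
  have n6 : Valued.v (6 : F) ≤ 1 := by exact_mod_cast Br_nat (F := F) 6
  have n3 : Valued.v (3 : F) ≤ 1 := by exact_mod_cast Br_nat (F := F) 3
  have n4 : Valued.v (4 : F) ≤ 1 := by exact_mod_cast Br_nat (F := F) 4
  have f0 : Valued.v ((-6 : F) ^ 3 + a * (-6) + b) ≤ Valued.v ((2 : F) ^ 14) := by
    have e : (-6 : F) ^ 3 + a * (-6) + b = (b + 330) - 6 * (a + 91) := by ring
    rw [e]
    refine (Valuation.map_sub _ _ _).trans (max_le hb ?_)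
    rw [map_mul]
    calc Valued.v (6 : F) * Valued.v (a + 91) ≤ 1 * Valued.v ((2 : F) ^ 14) := mul_le_mul' n6 ha
      _ = _ := one_mul _
  have h17 : Valued.v (17 : F) = 1 := by
    refine Br_one (y := 1) (map_one _) ?_
    have e : (17 : F) - 1 = 8 * 2 := by norm_num
    rw [e]
    exact Br_mul (by exact_mod_cast Br_nat (F := F) 8) h2
  have f1 : Valued.v (3 * (-6 : F) ^ 2 + a) = 1 := by
    refine Br_one h17 ?_
    have e : 3 * (-6 : F) ^ 2 + a - 17 = a + 91 := by ring
    rw [e]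
    exact lt_of_le_of_lt ha hN1
  obtain ⟨e, he, hen⟩ := Br_root (a := a) (b := b) (r := (-6 : F))
    (by rw [Valuation.map_neg]; exact n6) (lt_of_le_of_lt f0 hN1) f1
  have he6 : Valued.v (e + 6) ≤ Valued.v ((2 : F) ^ 14) := by
    have e1 : e + 6 = e - (-6) := by ring
    rw [e1]
    exact hen.trans f0
  have hem : Valued.v (e - 6) ≤ 1 := by
    have e1 : e - 6 = (e + 6) - (12 : ℕ) := by push_cast; ring
    rw [e1]
    exact (Valuation.map_sub _ _ _).trans (max_le (he6.trans hN1.le) (Br_nat 12))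
  have hq : ∀ c : WithZero (Multiplicative ℤ), Valued.v ((2 : F) ^ 14) < c →
      Valued.v (3 * (e - 6) * (e + 6)) < c ∧ Valued.v (a + 91) < c ∧ Valued.v (3 * (e + 6)) < c := by
    intro c hc
    refine ⟨Br_mul ?_ (lt_of_le_of_lt he6 hc), lt_of_le_of_lt ha hc,
      Br_mul n3 (lt_of_le_of_lt he6 hc)⟩
    rw [map_mul]
    exact mul_le_one' n3 hem
  -- the discriminant
  have hD : Valued.v ((-3 * e ^ 2 - 4 * a) - 256) < Valued.v ((2 : F) ^ 12) := by
    have e1 : (-3 * e ^ 2 - 4 * a) - 256 = -(3 * (e - 6) * (e + 6)) - 4 * (a + 91) := by ring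
    rw [e1]
    obtain ⟨q1, q2, _⟩ := hq _ (hN 12 (by norm_num))
    refine Br_sub ?_ (Br_mul n4 q2)
    rw [Valuation.map_neg]
    exact q1
  obtain ⟨ρ, hρ0, hρ⟩ := H36CY.sq_near (y := -3 * e ^ 2 - 4 * a) (z := (256 : F)) (by
    refine hD.trans ?_
    have e1 : (4 : F) * 256 = 2 ^ 10 := by norm_num
    rw [e1]
    exact Br_two_pow h2 (by norm_num))
  obtain ⟨n, hn1, hn2⟩ := H36CY.close_one h2 (n := ρ) (by
    have e1 : (256 : F) * (ρ ^ 2 - 1) = (-3 * e ^ 2 - 4 * a) - 256 := by rw [hρ]; ring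
    have e2 : Valued.v (256 : F) * Valued.v (ρ ^ 2 - 1) < Valued.v (256 : F) * Valued.v (16 : F) := by
      rw [← map_mul, ← map_mul, e1]
      have e3 : (256 : F) * 16 = 2 ^ 12 := by norm_num
      rw [e3]
      exact hD
    exact lt_of_mul_lt_mul_left e2 zero_le)
  have hr : (16 * n) ^ 2 = -3 * e ^ 2 - 4 * a := by
    rw [hρ, ← hn1]; ring
  have hn1' : Valued.v n = 1 := Br_one (map_one _) (lt_of_lt_of_le hn2
    (by exact_mod_cast Br_nat (F := F) 8))
  have h84 : Valued.v (8 : F) < Valued.v (4 : F) := by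
    have := Br_two_pow (F := F) h2 (m := 2) (n := 3) (by norm_num)
    norm_num at this
    exact this
  have h164 : Valued.v (16 : F) < Valued.v (4 : F) := by
    have := Br_two_pow (F := F) h2 (m := 2) (n := 4) (by norm_num)
    norm_num at this
    exact this
  have h41 : Valued.v (4 : F) < 1 := by
    have := Br_two_pow (F := F) h2 (m := 0) (n := 2) (by norm_num)
    norm_num at this
    exact this
  -- r - 16
  have hr16 : Valued.v (16 * n - 16) < Valued.v (8 : F) := by
    have e1 : 16 * n - 16 = 16 * (n - 1) := by ring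
    rw [e1]
    exact Br_mul (by exact_mod_cast Br_nat (F := F) 16) hn2
  have hhalf : ∀ x : F, Valued.v x < Valued.v (8 : F) → Valued.v (x / 2) < Valued.v (4 : F) := by
    intro x hx
    have e1 : Valued.v (2 : F) * Valued.v (x / 2) < Valued.v (2 : F) * Valued.v (4 : F) := by
      rw [← map_mul, ← map_mul, mul_div_cancel₀ _ h20]
      have e2 : (2 : F) * 4 = 8 := by norm_num
      rw [e2]
      exact hx
    exact lt_of_mul_lt_mul_left e1 zero_le
  have h8 : Valued.v ((2 : F) ^ 14) < Valued.v (8 : F) := by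
    have := hN 3 (by norm_num)
    norm_num at this ⊢
    exact this
  have d1 : Valued.v ((-3 * e - 16 * n) / 2 - 1) < Valued.v (4 : F) := by
    have e1 : (-3 * e - 16 * n) / 2 - 1 = (-(3 * (e + 6)) - (16 * n - 16)) / 2 := by ring
    rw [e1]
    refine hhalf _ (Br_sub ?_ hr16)
    rw [Valuation.map_neg]
    exact (hq _ h8).2.2
  have d2 : Valued.v ((-3 * e + 16 * n) / 2 - 1) < Valued.v (4 : F) := by
    have e1 : (-3 * e + 16 * n) / 2 - 1 = (-(3 * (e + 6)) + (16 * n - 16)) / 2 + 16 := by ring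
    rw [e1]
    refine Br_add (hhalf _ (Br_add ?_ hr16)) h164
    rw [Valuation.map_neg]
    exact (hq _ h8).2.2
  have v1 : Valued.v ((-3 * e - 16 * n) / 2) = 1 := Br_one (map_one _) (d1.trans h41)
  have v2 : Valued.v ((-3 * e + 16 * n) / 2) = 1 := Br_one (map_one _) (d2.trans h41)
  have ne1 : ∀ x : F, Valued.v x = 1 → x ≠ 0 := by
    rintro x hx rfl
    rw [map_zero] at hx
    exact zero_ne_one hx
  have sq1 : ∀ x : F, Valued.v (x - 1) < Valued.v (4 : F) → IsSquare x := by
    intro x hx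
    exact Br_sq (z := 1) (by rw [mul_one]; exact hx) ⟨1, by ring⟩
  have h16 : (16 : F) ≠ 0 := by norm_num
  refine ⟨_, Br_spl he hr (ne1 _ v1) (ne1 _ v2) (mul_ne_zero h16 (ne1 _ hn1')) ?_ ?_, ?_, ?_, ?_⟩
  · refine sq1 _ ?_
    have e1 : 3 * e ^ 2 + a - 1 = (3 * (e - 6) * (e + 6) + (a + 91)) + 16 := by ring
    rw [e1]
    obtain ⟨q1, q2, _⟩ := hq (Valued.v (4 : F)) (h8.trans h84)
    exact Br_add (Br_add q1 q2) h164
  · refine (sq1 _ d2).mul ?_
    exact IsSquare.mul ⟨4, by norm_num⟩ (sq1 _ (hn2.trans h84))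
  · have e1 : (![e, (-e - 16 * n) / 2, (-e + 16 * n) / 2] : Fin 3 → F) 1 -
        (![e, (-e - 16 * n) / 2, (-e + 16 * n) / 2] : Fin 3 → F) 0 = (-3 * e - 16 * n) / 2 := by
      change (-e - 16 * n) / 2 - e = _
      ring
    rw [e1]
    exact sq1 _ d1
  · have e1 : (![e, (-e - 16 * n) / 2, (-e + 16 * n) / 2] : Fin 3 → F) 1 -
        (![e, (-e - 16 * n) / 2, (-e + 16 * n) / 2] : Fin 3 → F) 0 = (-3 * e - 16 * n) / 2 := by
      change (-e - 16 * n) / 2 - e = _
      ring
    rw [e1]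
    exact v1
  · have e1 : (![e, (-e - 16 * n) / 2, (-e + 16 * n) / 2] : Fin 3 → F) 2 -
        (![e, (-e - 16 * n) / 2, (-e + 16 * n) / 2] : Fin 3 → F) 1 = 16 * n := by
      change (-e + 16 * n) / 2 - (-e - 16 * n) / 2 = _
      ring
    rw [e1, map_mul, hn1', mul_one]

theorem Br_odd [CompleteSpace F] (h2 : Valued.v (2 : F) = 1) (h3 : Valued.v (3 : F) = 1)
    {s t a b : F} (hs : Valued.v s = 1) (ht : Valued.v t = exp (-2 : ℤ))
    (hst : IsSquare (3 * s * t))
    (ha : Valued.v (a + (27 * s ^ 2 + 9 * s * t + 3 * t ^ 2)) ≤ exp (-5 : ℤ))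
    (hb : Valued.v (b - (54 * s ^ 3 + 27 * s ^ 2 * t - 9 * s * t ^ 2 - 2 * t ^ 3)) ≤
      exp (-5 : ℤ)) :
    ∃ e : Fin 3 → F, Spl a b e ∧ Valued.v (e 1 - e 0) = 1 ∧
      Valued.v (e 2 - e 1) < 1 ∧ IsSquare ((e 1 - e 0) * s) := by
  have h20 : (2 : F) ≠ 0 := two_ne_zero
  have x5 : (exp (-5 : ℤ) : WithZero (Multiplicative ℤ)) < 1 := by
    rw [← exp_zero, exp_lt_exp]; norm_num
  have x52 : (exp (-5 : ℤ) : WithZero (Multiplicative ℤ)) < exp (-4 : ℤ) := by
    rw [exp_lt_exp]; norm_num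
  have x2 : (exp (-2 : ℤ) : WithZero (Multiplicative ℤ)) < 1 := by
    rw [← exp_zero, exp_lt_exp]; norm_num
  have n4 : Valued.v (4 : F) = 1 := by
    have e : (4 : F) = 2 * 2 := by norm_num
    rw [e, map_mul, h2, one_mul]
  have n9 : Valued.v (9 : F) = 1 := by
    have e : (9 : F) = 3 * 3 := by norm_num
    rw [e, map_mul, h3, one_mul]
  have t1 : Valued.v t < 1 := by rw [ht]; exact x2
  have t0 : t ≠ 0 := by
    rintro rfl
    rw [map_zero] at ht
    exact exp_ne_zero ht.symm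
  obtain ⟨A, hA⟩ : ∃ A, A = a + (27 * s ^ 2 + 9 * s * t + 3 * t ^ 2) := ⟨_, rfl⟩
  obtain ⟨B, hB⟩ : ∃ B, B = b - (54 * s ^ 3 + 27 * s ^ 2 * t - 9 * s * t ^ 2 - 2 * t ^ 3) :=
    ⟨_, rfl⟩
  rw [← hA] at ha
  rw [← hB] at hb
  have ea : a = A - (27 * s ^ 2 + 9 * s * t + 3 * t ^ 2) := by rw [hA]; ring
  have eb : b = B + (54 * s ^ 3 + 27 * s ^ 2 * t - 9 * s * t ^ 2 - 2 * t ^ 3) := by rw [hB]; ring
  have r1 : Valued.v (-6 * s - t) ≤ 1 := by
    refine (Valuation.map_sub _ _ _).trans (max_le ?_ t1.le)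
    rw [map_mul, hs, mul_one, Valuation.map_neg]
    exact_mod_cast Br_nat (F := F) 6
  have f0 : Valued.v ((-6 * s - t) ^ 3 + a * (-6 * s - t) + b) ≤ exp (-5 : ℤ) := by
    have e : (-6 * s - t) ^ 3 + a * (-6 * s - t) + b = (-6 * s - t) * A + B := by
      rw [ea, eb]; ring
    rw [e]
    refine (Valuation.map_add _ _ _).trans (max_le ?_ hb)
    rw [map_mul]
    calc Valued.v (-6 * s - t) * Valued.v A ≤ 1 * exp (-5 : ℤ) := mul_le_mul' r1 ha
      _ = _ := one_mul _
  have n81 : Valued.v (81 * s ^ 2) = 1 := by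
    have e : (81 : F) = 9 * 9 := by norm_num
    rw [e, map_mul, map_mul, map_pow, n9, hs]
    norm_num
  have hA1 : Valued.v A < 1 := lt_of_le_of_lt ha x5
  have st27 : Valued.v (27 * s * t) < 1 := by
    refine Br_mul ?_ t1
    rw [map_mul, hs, mul_one]
    exact_mod_cast Br_nat (F := F) 27
  have f1 : Valued.v (3 * (-6 * s - t) ^ 2 + a) = 1 := by
    refine Br_one n81 ?_
    have e : 3 * (-6 * s - t) ^ 2 + a - 81 * s ^ 2 = 27 * s * t + A := by
      rw [ea]; ring
    rw [e]
    exact Br_add st27 hA1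
  obtain ⟨e, he, hen⟩ := Br_root (a := a) (b := b) r1 (lt_of_le_of_lt f0 x5) f1
  obtain ⟨y, hy⟩ : ∃ y, y = e - (-6 * s - t) := ⟨_, rfl⟩
  rw [← hy] at hen
  have hy5 : Valued.v y ≤ exp (-5 : ℤ) := hen.trans f0
  have hy1 : Valued.v y < 1 := lt_of_le_of_lt hy5 x5
  have ee : e = y + (-6 * s - t) := by rw [hy]; ring
  have e1' : Valued.v e ≤ 1 := by
    rw [ee]
    exact (Valuation.map_add _ _ _).trans (max_le hy1.le r1)
  have hsum : Valued.v (3 * (e + (-6 * s - t))) ≤ 1 := by
    rw [map_mul, h3, one_mul]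
    exact (Valuation.map_add _ _ _).trans (max_le e1' r1)
  have hz : Valued.v (4 * (9 * t ^ 2)) = exp (-4 : ℤ) := by
    rw [map_mul, map_mul, map_pow, n4, n9, ht, one_mul, one_mul, ← exp_nsmul]
    norm_num
  have hz0 : Valued.v (9 * t ^ 2) = exp (-4 : ℤ) := by
    rw [← hz, map_mul (Valued.v) 4, n4, one_mul]
  have hD : Valued.v ((-3 * e ^ 2 - 4 * a) - 9 * t ^ 2) ≤ exp (-5 : ℤ) := by
    have e1 : (-3 * e ^ 2 - 4 * a) - 9 * t ^ 2 =
        -(3 * (e + (-6 * s - t)) * y) - 4 * A := by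
      rw [ea, hy]; ring
    rw [e1]
    refine (Valuation.map_sub _ _ _).trans (max_le ?_ ?_)
    · rw [Valuation.map_neg, map_mul]
      calc Valued.v (3 * (e + (-6 * s - t))) * Valued.v y ≤ 1 * exp (-5 : ℤ) :=
            mul_le_mul' hsum hy5
        _ = _ := one_mul _
    · rw [map_mul, n4, one_mul]
      exact ha
  obtain ⟨ρ, hρ0, hρ⟩ := H36CY.sq_near (y := -3 * e ^ 2 - 4 * a) (z := 9 * t ^ 2)
    (by rw [hz]; exact lt_of_le_of_lt hD x52)
  have hρ1 : Valued.v ((ρ - 1) * (ρ + 1)) < 1 := by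
    have e1 : (9 * t ^ 2) * ((ρ - 1) * (ρ + 1)) = (-3 * e ^ 2 - 4 * a) - 9 * t ^ 2 := by
      rw [hρ]; ring
    have e2 : Valued.v (9 * t ^ 2) * Valued.v ((ρ - 1) * (ρ + 1)) < Valued.v (9 * t ^ 2) * 1 := by
      rw [← map_mul, e1, mul_one, hz0]
      exact lt_of_le_of_lt hD x52
    exact lt_of_mul_lt_mul_left e2 zero_le
  obtain ⟨n, hn1, hn2⟩ : ∃ n : F, n ^ 2 = ρ ^ 2 ∧ Valued.v (n - 1) < 1 := by
    by_cases h : Valued.v (ρ - 1) < 1
    · exact ⟨ρ, rfl, h⟩
    · refine ⟨-ρ, by ring, ?_⟩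
      rw [not_lt] at h
      have e1 : -ρ - 1 = -(ρ + 1) := by ring
      rw [e1, Valuation.map_neg]
      by_contra h'
      rw [not_lt] at h'
      rw [map_mul] at hρ1
      exact absurd hρ1 (not_lt.2 (one_le_mul h h'))
  have hnv : Valued.v n = 1 := Br_one (map_one _) hn2
  have hr : (3 * t * n) ^ 2 = -3 * e ^ 2 - 4 * a := by
    rw [hρ, ← hn1]; ring
  have hrv : Valued.v (3 * t * n) = exp (-2 : ℤ) := by
    rw [map_mul, map_mul, h3, hnv, ht, one_mul, mul_one]
  have hr1 : Valued.v (3 * t * n) < 1 := by rw [hrv]; exact x2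
  have hhalf : ∀ x : F, Valued.v x < 1 → Valued.v (x / 2) < 1 := by
    intro x hx
    rw [map_div₀, h2, div_one]
    exact hx
  have h3t : Valued.v (3 * t) < 1 := Br_mul h3.le t1
  have h3y : Valued.v (3 * y) < 1 := Br_mul h3.le hy1
  have d1 : Valued.v ((-3 * e - 3 * t * n) / 2 - 9 * s) < 1 := by
    have e1 : (-3 * e - 3 * t * n) / 2 - 9 * s = (3 * t - 3 * y - 3 * t * n) / 2 := by
      rw [ee]; ring
    rw [e1]
    exact hhalf _ (Br_sub (Br_sub h3t h3y) hr1)
  have d2 : Valued.v ((-3 * e + 3 * t * n) / 2 - 9 * s) < 1 := by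
    have e1 : (-3 * e + 3 * t * n) / 2 - 9 * s = (3 * t - 3 * y + 3 * t * n) / 2 := by
      rw [ee]; ring
    rw [e1]
    exact hhalf _ (Br_add (Br_sub h3t h3y) hr1)
  have n9s : Valued.v (9 * s) = 1 := by rw [map_mul, n9, hs, one_mul]
  have v1 : Valued.v ((-3 * e - 3 * t * n) / 2) = 1 := Br_one n9s d1
  have v2 : Valued.v ((-3 * e + 3 * t * n) / 2) = 1 := Br_one n9s d2
  have ne1 : ∀ x : F, Valued.v x = 1 → x ≠ 0 := by
    rintro x hx rfl
    rw [map_zero] at hx
    exact zero_ne_one hx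
  have h30 : (3 : F) ≠ 0 := ne1 _ h3
  have q1 : (![e, (-e - 3 * t * n) / 2, (-e + 3 * t * n) / 2] : Fin 3 → F) 1 -
      (![e, (-e - 3 * t * n) / 2, (-e + 3 * t * n) / 2] : Fin 3 → F) 0 =
      (-3 * e - 3 * t * n) / 2 := by
    change (-e - 3 * t * n) / 2 - e = _
    ring
  have q2 : (![e, (-e - 3 * t * n) / 2, (-e + 3 * t * n) / 2] : Fin 3 → F) 2 -
      (![e, (-e - 3 * t * n) / 2, (-e + 3 * t * n) / 2] : Fin 3 → F) 1 = 3 * t * n := by
    change (-e + 3 * t * n) / 2 - (-e - 3 * t * n) / 2 = _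
    ring
  refine ⟨_, Br_spl he hr (ne1 _ v1) (ne1 _ v2)
    (mul_ne_zero (mul_ne_zero h30 t0) (ne1 _ hnv)) ?_ ?_, ?_, ?_, ?_⟩
  · refine Br_sq (z := 81 * s ^ 2) ?_ ⟨9 * s, by ring⟩
    rw [map_mul (Valued.v) 4, n4, n81, one_mul]
    have e1 : 3 * e ^ 2 + a - 81 * s ^ 2 = 3 * (e + (-6 * s - t)) * y + (27 * s * t + A) := by
      rw [ea, hy]; ring
    rw [e1]
    exact Br_add (Br_mul hsum hy1) (Br_add st27 hA1)
  · obtain ⟨w, hw⟩ := hst
    refine Br_sq (z := 9 * (3 * s * t)) ?_ ⟨3 * w, by rw [hw]; ring⟩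
    have e2 : Valued.v (4 * (9 * (3 * s * t))) = Valued.v t := by
      rw [map_mul, map_mul, map_mul, map_mul, n4, n9, h3, hs, one_mul, one_mul, one_mul, one_mul]
    have e1 : (-3 * e + 3 * t * n) / 2 * (3 * t * n) - 9 * (3 * s * t) =
        t * (3 * (((-3 * e + 3 * t * n) / 2 - 9 * s) * n + 9 * s * (n - 1))) := by ring
    rw [e2, e1, map_mul]
    have e3 : Valued.v (3 * (((-3 * e + 3 * t * n) / 2 - 9 * s) * n + 9 * s * (n - 1))) < 1 := by
      refine Br_mul h3.le (Br_add ?_ (Br_mul n9s.le hn2))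
      rw [mul_comm]
      exact Br_mul hnv.le d2
    calc Valued.v t * _ < Valued.v t * 1 :=
          (mul_lt_mul_iff_right₀ (zero_lt_iff.2 ((Valuation.ne_zero_iff _).2 t0))).2 e3
      _ = Valued.v t := mul_one _
  · rw [q1]; exact v1
  · rw [q2]; exact hr1
  · rw [q1]
    refine Br_sq (z := 9 * s ^ 2) ?_ ⟨3 * s, by ring⟩
    have e2 : Valued.v (4 * (9 * s ^ 2)) = 1 := by
      rw [map_mul, map_mul, map_pow, n4, n9, hs]
      norm_num
    have e1 : (-3 * e - 3 * t * n) / 2 * s - 9 * s ^ 2 =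
        s * ((-3 * e - 3 * t * n) / 2 - 9 * s) := by ring
    rw [e2, e1]
    exact Br_mul hs.le d1

end BrF

variable {K : Type} [Field K] [NumberField K] {v : HeightOneSpectrum (𝓞 K)}


theorem roots_two (h2 : v.valuation K 2 < 1) {a b : v.adicCompletion K}
    (ha : Valued.v (a + 91) ≤ Valued.v ((2 : v.adicCompletion K) ^ 14))
    (hb : Valued.v (b + 330) ≤ Valued.v ((2 : v.adicCompletion K) ^ 14)) :
    ∃ e : Fin 3 → v.adicCompletion K, Spl a b e ∧ IsSquare (e 1 - e 0) ∧
      Valued.v (e 1 - e 0) = 1 ∧ Valued.v (e 2 - e 1) = Valued.v (16 : v.adicCompletion K) := by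
  have := H36CY.char_zero v
  refine Br_two ?_ ha hb
  have e : (2 : v.adicCompletion K) = algebraMap K (v.adicCompletion K) 2 := by rw [map_ofNat]
  rw [e, H36CY.val_coe]
  exact h2

theorem roots_odd (h6 : v.valuation K 6 = 1) {s t a b : v.adicCompletion K}
    (hs : Valued.v s = 1) (ht : Valued.v t = exp (-2 : ℤ)) (hst : IsSquare (3 * s * t))
    (ha : Valued.v (a + (27 * s ^ 2 + 9 * s * t + 3 * t ^ 2)) ≤ exp (-5 : ℤ))
    (hb : Valued.v (b - (54 * s ^ 3 + 27 * s ^ 2 * t - 9 * s * t ^ 2 - 2 * t ^ 3)) ≤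
      exp (-5 : ℤ)) :
    ∃ e : Fin 3 → v.adicCompletion K, Spl a b e ∧ Valued.v (e 1 - e 0) = 1 ∧
      Valued.v (e 2 - e 1) < 1 ∧ IsSquare ((e 1 - e 0) * s) := by
  have := H36CY.char_zero v
  have h6' : Valued.v (2 : v.adicCompletion K) * Valued.v (3 : v.adicCompletion K) = 1 := by
    have e : (2 : v.adicCompletion K) * 3 = algebraMap K (v.adicCompletion K) 6 := by
      rw [map_ofNat]; norm_num
    rw [← map_mul, e, H36CY.val_coe]
    exact h6
  have h2 : Valued.v (2 : v.adicCompletion K) ≤ 1 := by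
    exact_mod_cast Br_nat (F := v.adicCompletion K) 2
  have h3 : Valued.v (3 : v.adicCompletion K) ≤ 1 := by
    exact_mod_cast Br_nat (F := v.adicCompletion K) 3
  have g2 : Valued.v (2 : v.adicCompletion K) = 1 := by
    refine le_antisymm h2 ?_
    rw [← h6']
    calc Valued.v (2 : v.adicCompletion K) * Valued.v (3 : v.adicCompletion K)
        ≤ Valued.v (2 : v.adicCompletion K) * 1 := mul_le_mul' le_rfl h3
      _ = _ := mul_one _
  have g3 : Valued.v (3 : v.adicCompletion K) = 1 := by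
    rw [g2, one_mul] at h6'
    exact h6'
  exact Br_odd g2 g3 hs ht hst ha hb

end H36MX

end S_H36_MX_Br

section S_H36_MX_Bt

set_option autoImplicit false
set_option linter.unusedSectionVars false
open scoped Classical

open WithZero NumberField IsDedekindDomain H38RT
open H38T1 (SC sc scu rep rep_ne sc_rep sc_mul sc_eq_zero sc_surj eo la si Pri OddP tp unif ka)
open H76PP

namespace H36MX

variable {K : Type} [Field K] [NumberField K] {v : HeightOneSpectrum (𝓞 K)}

private theorem Bt_one {F : Type} [Field F] [CharZero F] [Valued F (WithZero (Multiplicative ℤ))]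
    [CompleteSpace F] {u : F} (h : Valued.v u < Valued.v (4 : F)) :
    ∃ r : F, r ≠ 0 ∧ 1 + u = r ^ 2 := by
  obtain ⟨r, hr, h1⟩ := H36CY.sq_near (y := 1 + u) (z := 1) (by
    rw [add_sub_cancel_left, mul_one]
    exact h)
  exact ⟨r, hr, by rw [h1, one_mul]⟩

private theorem Bt_sqv {F : Type} [Field F] [Valued F (WithZero (Multiplicative ℤ))] {y : F}
    (hy : y ≠ 0) : ∃ n : ℤ, Valued.v (y ^ 2) = exp (2 * n) := by
  have h0 : Valued.v y ≠ 0 := (Valuation.ne_zero_iff _).2 hy
  refine ⟨log (Valued.v y), ?_⟩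
  rw [map_pow, two_mul, exp_add, exp_log h0, pow_two]

private theorem Bt_can {F : Type} [Field F] [Valued F (WithZero (Multiplicative ℤ))] {y z : F}
    (hyz : ∃ n : ℤ, Valued.v (y * z) = exp (2 * n)) (hy : ∃ n : ℤ, Valued.v y = exp (2 * n)) :
    ∃ n : ℤ, Valued.v z = exp (2 * n) := by
  obtain ⟨n, hn⟩ := hyz
  obtain ⟨m, hm⟩ := hy
  rw [map_mul, hm] at hn
  refine ⟨n - m, ?_⟩
  have h0 : (exp (2 * m) : WithZero (Multiplicative ℤ)) ≠ 0 := exp_ne_zero
  apply mul_left_cancel₀ h0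
  rw [hn, ← exp_add]
  congr 1
  ring

private theorem Bt_mul {F : Type} [Field F] [Valued F (WithZero (Multiplicative ℤ))] {y z : F}
    (hy : ∃ n : ℤ, Valued.v y = exp (2 * n)) (hz : ∃ n : ℤ, Valued.v z = exp (2 * n)) :
    ∃ n : ℤ, Valued.v (y * z) = exp (2 * n) := by
  obtain ⟨n, hn⟩ := hy
  obtain ⟨m, hm⟩ := hz
  refine ⟨n + m, ?_⟩
  rw [map_mul, hn, hm, ← exp_add]
  congr 1
  ring

private theorem Bt_even {F : Type} [Field F] [Valued F (WithZero (Multiplicative ℤ))] {u r : F}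
    (h : 1 + u = r ^ 2) (h4 : Valued.v (4 : F) < Valued.v u) :
    ∃ n : ℤ, Valued.v u = exp (2 * n) := by
  have e : u = (r - 1) * (r + 1) := by linear_combination h
  have e4 : Valued.v (4 : F) = Valued.v (2 : F) * Valued.v (2 : F) := by
    rw [← map_mul]
    norm_num
  have h1 : Valued.v (2 : F) < Valued.v (r - 1) := by
    by_contra hcon
    rw [not_lt] at hcon
    have h2 : Valued.v (r + 1) ≤ Valued.v (2 : F) := by
      have e1 : r + 1 = (r - 1) + 2 := by ring
      rw [e1]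
      exact Valuation.map_add_le _ hcon le_rfl
    rw [e, map_mul, e4] at h4
    exact absurd (mul_le_mul' hcon h2) (not_le.2 h4)
  have h2 : Valued.v (r + 1) = Valued.v (r - 1) := by
    have e1 : r + 1 = (r - 1) + 2 := by ring
    rw [e1]
    exact Valuation.map_add_eq_of_lt_left _ h1
  have hr : r - 1 ≠ 0 := by
    intro h0
    rw [h0, map_zero] at h1
    exact not_lt_zero h1
  have h3 : Valued.v u = Valued.v ((r - 1) ^ 2) := by
    rw [e, map_mul, h2, map_pow, pow_two]
  rw [h3]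
  exact Bt_sqv hr

private theorem Bt_div {F : Type} [Field F] {a t : F} (ht : t ≠ 0) (h : IsSquare (a * t ^ 2)) :
    IsSquare a := by
  obtain ⟨m, hm⟩ := h
  refine ⟨m / t, ?_⟩
  field_simp
  rw [hm]
  ring

/-- `a b` a square: `a` is `b` times a square. -/
private theorem Bt_quot {F : Type} [Field F] {a b : F} (ha : a ≠ 0) (hb : b ≠ 0)
    (h : IsSquare (a * b)) : ∃ w : F, w ≠ 0 ∧ a = b * w ^ 2 := by
  obtain ⟨m, hm⟩ := h
  have hm0 : m ≠ 0 := by
    rintro rfl
    rw [mul_zero] at hm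
    exact mul_ne_zero ha hb hm
  refine ⟨m / b, div_ne_zero hm0 hb, ?_⟩
  field_simp
  rw [← pow_two] at hm
  linear_combination hm

private theorem Bt_sc {F : Type} [Field F] {a b : F} (ha : a ≠ 0) (hb : b ≠ 0)
    (h : IsSquare (a * b)) : sc a = sc b := by
  have h1 := (sc_eq_zero (mul_ne_zero ha hb)).2 h
  rw [sc_mul ha hb] at h1
  have h2 := H38T1.SC.two_smul (sc b)
  rw [two_nsmul] at h2
  exact add_right_cancel (h1.trans h2.symm)

private theorem Bt_core (h2 : v.valuation K 2 < 1) (hF : HF (v.adicCompletion K))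
    {E X τ g0 : v.adicCompletion K} (hE : E ≠ 0) (hX : X ≠ 0) (hX1 : X + 1 ≠ 0) (hXτ : X - τ ≠ 0)
    (hτ : Valued.v τ = Valued.v (16 : v.adicCompletion K))
    (hsq : IsSquare (E * (X * (X + 1) * (X - τ)))) (hg0 : Unr g0)
    (iso : hs (E * (X + 1)) (E * (X - τ)) = 0) :
    (IsSquare E → (IsSquare (E * (X + 1)) ∨ IsSquare (E * (X + 1) * g0)) ∧
      hs (E * (X - τ)) g0 = 0) ∧
    (¬ IsSquare E → (IsSquare (E * (X + 1)) ∨ IsSquare (E * (X + 1) * E)) ∧
      hs (E * (X - τ)) E = 0) := by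
  have hc : CharZero (v.adicCompletion K) := H36CY.char_zero v
  have g0ne : g0 ≠ 0 := by
    rintro rfl
    have := unr_one h2 hg0
    rw [map_zero] at this
    exact zero_ne_one this
  have v2 : Valued.v (2 : v.adicCompletion K) ≠ 0 := (Valuation.ne_zero_iff _).2 two_ne_zero
  have v4 : Valued.v (4 : v.adicCompletion K) ≠ 0 := (Valuation.ne_zero_iff _).2 (by norm_num)
  have v16 : Valued.v (16 : v.adicCompletion K) =
      Valued.v (4 : v.adicCompletion K) * Valued.v (4 : v.adicCompletion K) := by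
    rw [← map_mul]
    norm_num
  have vX : Valued.v X ≠ 0 := (Valuation.ne_zero_iff _).2 hX
  have hev4 : ∃ n : ℤ, Valued.v (4 : v.adicCompletion K) = exp (2 * n) := by
    have := Bt_sqv (two_ne_zero : (2 : v.adicCompletion K) ≠ 0)
    have e : (2 : v.adicCompletion K) ^ 2 = 4 := by norm_num
    rwa [e] at this
  have hτX : Valued.v (-(τ / X)) * Valued.v X = Valued.v (4 : v.adicCompletion K) *
      Valued.v (4 : v.adicCompletion K) := by
    rw [Valuation.map_neg, ← map_mul, div_mul_cancel₀ _ hX, hτ, v16]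
  have eXτ : X - τ = X * (1 + -(τ / X)) := by
    field_simp
    ring
  have hBne : 1 + -(τ / X) ≠ 0 := by
    intro h0
    rw [h0, mul_zero] at eXτ
    exact hXτ eXτ
  -- symbols with `g0` when `E` is a square
  have hgE : IsSquare E → (∃ n : ℤ, Valued.v (X - τ) = exp (2 * n)) →
      hs (E * (X - τ)) g0 = 0 := by
    rintro ⟨m, hm⟩ hev
    have hm0 : m ≠ 0 := by
      rintro rfl
      exact hE (by rw [hm]; ring)
    have e : E * (X - τ) = (X - τ) * m ^ 2 := by
      rw [hm]
      ring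
    rw [hs_congr hm0 e, hs_comm]
    exact (unr_even h2 hF hg0 hXτ).2 hev
  rcases lt_trichotomy (Valued.v X) (Valued.v (4 : v.adicCompletion K)) with hlt | heq | hgt
  · -- case (b)
    obtain ⟨r, hr0, hr⟩ := Bt_one hlt
    have hr' : X + 1 = r ^ 2 := by rw [← hr]; ring
    have e1 : E * (X + 1) = E * r ^ 2 := by rw [hr']
    refine ⟨fun hsE => ⟨Or.inl ?_, hgE hsE ?_⟩, fun hnE => ⟨Or.inr ⟨E * r, ?_⟩, ?_⟩⟩
    · obtain ⟨m, hm⟩ := hsE
      exact ⟨m * r, by rw [e1, hm]; ring⟩
    · -- valuation of `X - τ`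
      obtain ⟨m, hm⟩ := hsE
      have hm0 : m ≠ 0 := by
        rintro rfl
        exact hE (by rw [hm]; ring)
      have h3 : IsSquare (1 + -(τ / X)) := by
        apply Bt_div (t := m * r * X) (mul_ne_zero (mul_ne_zero hm0 hr0) hX)
        have e2 : (1 + -(τ / X)) * (m * r * X) ^ 2 = E * (X * (X + 1) * (X - τ)) := by
          rw [eXτ, hr', hm]
          ring
        rw [e2]
        exact hsq
      obtain ⟨s, hs'⟩ := h3
      have h4 : Valued.v (4 : v.adicCompletion K) < Valued.v (-(τ / X)) := by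
        by_contra hcon
        rw [not_lt] at hcon
        have h5 : Valued.v (-(τ / X)) * Valued.v X < Valued.v (4 : v.adicCompletion K) *
            Valued.v (4 : v.adicCompletion K) := by
          calc Valued.v (-(τ / X)) * Valued.v X ≤ Valued.v (4 : v.adicCompletion K) * Valued.v X :=
                mul_le_mul' hcon le_rfl
            _ < _ := (mul_lt_mul_iff_right₀ (zero_lt_iff.2 v4)).2 hlt
        rw [hτX] at h5
        exact lt_irrefl _ h5
      have h6 := Bt_even (r := s) (by rw [hs', pow_two]) h4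
      have h7 : ∃ n : ℤ, Valued.v (-(τ / X) * X) = exp (2 * n) := by
        rw [map_mul, hτX, ← map_mul]
        exact Bt_mul hev4 hev4
      have h8 : ∃ n : ℤ, Valued.v X = exp (2 * n) := Bt_can h7 h6
      have hs0 : s ≠ 0 := by
        rintro rfl
        exact hBne (by rw [hs']; ring)
      rw [eXτ, hs', ← pow_two]
      exact Bt_mul h8 (Bt_sqv hs0)
    · rw [e1]
      ring
    · rw [hs_congr hr0 e1, hs_comm] at iso
      exact iso
  · -- case (c)
    have hA := unr_cases h2 hg0 (u := X) heq.le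
    have hB : IsSquare (1 + -(τ / X)) ∨ IsSquare ((1 + -(τ / X)) * g0) := by
      apply unr_cases h2 hg0
      rw [heq] at hτX
      exact le_of_eq (mul_right_cancel₀ v4 hτX)
    have hvB : Valued.v (X - τ) = Valued.v (4 : v.adicCompletion K) := by
      rw [← heq]
      refine Valuation.map_sub_eq_of_lt_left _ ?_
      rw [hτ, v16, heq]
      have h41 : Valued.v (4 : v.adicCompletion K) < 1 := by
        have h21 : Valued.v (2 : v.adicCompletion K) < 1 := by
          have h1 := v.valuedAdicCompletion_eq_valuation' (K := K) (2 : K)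
          have h3 : ((2 : K) : v.adicCompletion K) = 2 := by
            exact map_ofNat (algebraMap K (v.adicCompletion K)) 2
          rw [h3] at h1
          rw [h1]
          exact h2
        have e4 : (4 : v.adicCompletion K) = 2 * 2 := by norm_num
        rw [e4, map_mul]
        exact mul_lt_one_of_lt_of_le h21 h21.le
      calc Valued.v (4 : v.adicCompletion K) * Valued.v (4 : v.adicCompletion K)
          < Valued.v (4 : v.adicCompletion K) * 1 :=
            (mul_lt_mul_iff_right₀ (zero_lt_iff.2 v4)).2 h41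
        _ = _ := mul_one _
    have hevX : ∃ n : ℤ, Valued.v (X - τ) = exp (2 * n) := by
      rw [hvB]
      exact hev4
    obtain ⟨A, hAd⟩ : ∃ A, A = 1 + X := ⟨_, rfl⟩
    obtain ⟨B, hBd⟩ : ∃ B, B = 1 + -(τ / X) := ⟨_, rfl⟩
    have hA1 : X + 1 = A := by rw [hAd]; ring
    rw [← hAd] at hA
    rw [← hBd] at hB hBne eXτ
    have hAne : A ≠ 0 := by rw [← hA1]; exact hX1
    have hEAB : IsSquare (E * A * B) := by
      apply Bt_div (t := X) hX
      have e2 : E * A * B * X ^ 2 = E * (X * (X + 1) * (X - τ)) := by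
        rw [eXτ, hA1]
        ring
      rw [e2]
      exact hsq
    rw [hA1]
    -- the nonsquare case: `E = g0 * square` gives everything
    have hEg : IsSquare (E * g0) → hs (E * (X - τ)) E = 0 := by
      intro h
      obtain ⟨w, hw, hw'⟩ := Bt_quot hE g0ne h
      have h5 : hs (E * (X - τ)) E = hs (E * (X - τ)) g0 := hs_congr_right hw hw'
      rw [h5, hs_comm]
      refine (unr_even h2 hF hg0 (mul_ne_zero hE hXτ)).2 (Bt_mul ?_ hevX)
      rw [hw', map_mul, unr_one h2 hg0, one_mul]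
      exact Bt_sqv hw
    have hsqg : ∀ y : v.adicCompletion K, IsSquare (y * g0 ^ 2) → IsSquare y :=
      fun y hy => Bt_div g0ne hy
    rcases hA with hA | hA <;> rcases hB with hB | hB
    · -- `E` is a square
      obtain ⟨p, hp⟩ := hA
      obtain ⟨q, hq⟩ := hB
      have hp0 : p ≠ 0 := by rintro rfl; exact hAne (by rw [hp]; ring)
      have hq0 : q ≠ 0 := by rintro rfl; exact hBne (by rw [hq]; ring)
      have hsE : IsSquare E := by
        apply Bt_div (t := p * q) (mul_ne_zero hp0 hq0)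
        have e2 : E * (p * q) ^ 2 = E * A * B := by rw [hp, hq]; ring
        rw [e2]
        exact hEAB
      refine ⟨fun _ => ⟨Or.inl ?_, hgE hsE hevX⟩, fun hn => absurd hsE hn⟩
      obtain ⟨m, hm⟩ := hsE
      exact ⟨m * p, by rw [hm, hp]; ring⟩
    · -- `A` a square, `B g0` a square
      obtain ⟨p, hp⟩ := hA
      obtain ⟨q, hq⟩ := hB
      have hp0 : p ≠ 0 := by rintro rfl; exact hAne (by rw [hp]; ring)
      have hEg0 : IsSquare (E * g0) := by
        obtain ⟨m, hm⟩ := hEAB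
        apply Bt_div (t := p * B) (mul_ne_zero hp0 hBne)
        refine ⟨m * q, ?_⟩
        calc E * g0 * (p * B) ^ 2 = (E * A * B) * (B * g0) := by rw [hp]; ring
          _ = m * m * (q * q) := by rw [hm, hq]
          _ = _ := by ring
      refine ⟨fun hsE => ?_, fun _ => ⟨Or.inr ⟨E * p, by rw [hp]; ring⟩, hEg hEg0⟩⟩
      exfalso
      obtain ⟨m, hm⟩ := hsE
      have hm0 : m ≠ 0 := by rintro rfl; exact hE (by rw [hm]; ring)
      apply unr_nsq h2 hg0
      apply Bt_div (t := m) hm0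
      have e2 : g0 * m ^ 2 = E * g0 := by rw [hm]; ring
      rw [e2]
      exact hEg0
    · -- `A g0` a square, `B` a square
      obtain ⟨p, hp⟩ := hA
      obtain ⟨q, hq⟩ := hB
      have hq0 : q ≠ 0 := by rintro rfl; exact hBne (by rw [hq]; ring)
      have hEA : IsSquare (E * A) := by
        apply Bt_div (t := q) hq0
        have e2 : E * A * q ^ 2 = E * A * B := by rw [hq]; ring
        rw [e2]
        exact hEAB
      have hEg0 : IsSquare (E * g0) := by
        obtain ⟨m, hm⟩ := hEA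
        apply Bt_div (t := A) hAne
        refine ⟨m * p, ?_⟩
        calc E * g0 * A ^ 2 = (E * A) * (A * g0) := by ring
          _ = m * m * (p * p) := by rw [hm, hp]
          _ = _ := by ring
      refine ⟨fun hsE => ⟨Or.inl hEA, hgE hsE hevX⟩, fun _ => ⟨Or.inl hEA, hEg hEg0⟩⟩
    · -- `A g0`, `B g0` squares: `E` is a square
      obtain ⟨p, hp⟩ := hA
      obtain ⟨q, hq⟩ := hB
      have hsE : IsSquare E := by
        obtain ⟨m, hm⟩ := hEAB
        apply Bt_div (t := A * B * g0) (mul_ne_zero (mul_ne_zero hAne hBne) g0ne)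
        refine ⟨m * p * q, ?_⟩
        calc E * (A * B * g0) ^ 2 = (E * A * B) * (A * g0) * (B * g0) := by ring
          _ = m * m * (p * p) * (q * q) := by rw [hm, hp, hq]
          _ = _ := by ring
      refine ⟨fun _ => ⟨Or.inr ?_, hgE hsE hevX⟩, fun hn => absurd hsE hn⟩
      obtain ⟨m, hm⟩ := hsE
      exact ⟨m * p, by
        calc E * A * g0 = E * (A * g0) := by ring
          _ = m * m * (p * p) := by rw [hm, hp]
          _ = _ := by ring⟩
  · -- case (a)
    have h4 : Valued.v (-(τ / X)) < Valued.v (4 : v.adicCompletion K) := by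
      by_contra hcon
      rw [not_lt] at hcon
      have h5 : Valued.v (4 : v.adicCompletion K) * Valued.v (4 : v.adicCompletion K) <
          Valued.v (-(τ / X)) * Valued.v X := by
        calc Valued.v (4 : v.adicCompletion K) * Valued.v (4 : v.adicCompletion K)
            < Valued.v (4 : v.adicCompletion K) * Valued.v X :=
              (mul_lt_mul_iff_right₀ (zero_lt_iff.2 v4)).2 hgt
          _ ≤ _ := mul_le_mul' hcon le_rfl
      rw [hτX] at h5
      exact lt_irrefl _ h5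
    obtain ⟨s, hs0, hs'⟩ := Bt_one h4
    have eXs : X - τ = X * s ^ 2 := by rw [eXτ, hs']
    have hEX1 : IsSquare (E * (X + 1)) := by
      apply Bt_div (t := X * s) (mul_ne_zero hX hs0)
      have e2 : E * (X + 1) * (X * s) ^ 2 = E * (X * (X + 1) * (X - τ)) := by
        rw [eXs]
        ring
      rw [e2]
      exact hsq
    have e3 : E * (X - τ) = E * X * s ^ 2 := by rw [eXs]; ring
    refine ⟨fun hsE => ⟨Or.inl hEX1, ?_⟩, fun _ => ⟨Or.inl hEX1, ?_⟩⟩
    · obtain ⟨m, hm⟩ := hsE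
      have hm0 : m ≠ 0 := by rintro rfl; exact hE (by rw [hm]; ring)
      have h5 : IsSquare (1 + X) := by
        apply Bt_div (t := m) hm0
        have e2 : (1 + X) * m ^ 2 = E * (X + 1) := by rw [hm]; ring
        rw [e2]
        exact hEX1
      obtain ⟨r, hr⟩ := h5
      have e4 : E * X = X * m ^ 2 := by rw [hm]; ring
      rw [hs_congr hs0 e3, hs_congr hm0 e4, hs_comm]
      exact (unr_even h2 hF hg0 hX).2 (Bt_even (r := r) (by rw [hr, pow_two]) hgt)
    · obtain ⟨w, hw, hw'⟩ := Bt_quot hE hX1 hEX1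
      have e4 : E * X = (-(X + 1) * (-X)) * w ^ 2 := by
        rw [hw']
        ring
      have h6 : hs (-(X + 1) * (-X)) (X + 1) = 0 := by
        rw [hF.mul _ _ _ (neg_ne_zero.2 hX1) (neg_ne_zero.2 hX) hX1, hs_comm (-(X + 1)),
          hs_neg hF.two hX1, zero_add]
        have h7 := hs_one_sub (-X)
        have e5 : 1 - -X = X + 1 := by ring
        rwa [e5] at h7
      have h7 : hs (E * (X - τ)) E = hs (E * (X - τ)) (X + 1) := hs_congr_right hw hw'
      rw [h7, hs_congr hs0 e3, hs_congr hw e4]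
      exact h6

theorem cond_two (h2 : v.valuation K 2 < 1) (hF : HF (v.adicCompletion K))
    {a b : v.adicCompletion K} {e : Fin 3 → v.adicCompletion K} (h : Spl a b e)
    (hδ : IsSquare (e 1 - e 0)) (h1 : Valued.v (e 1 - e 0) = 1)
    (h16 : Valued.v (e 2 - e 1) = Valued.v (16 : v.adicCompletion K))
    {E x : v.adicCompletion K} (hE : E ≠ 0) (hx : ∀ j, x ≠ e j)
    (hsq : IsSquare (E * ((x - e 0) * (x - e 1) * (x - e 2))))
    {g0 : v.adicCompletion K} (hg0 : Unr g0) :
    LW (if IsSquare E then sc g0 else sc E) (sc (E * (x - e 0))) (sc (E * (x - e 2))) := by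
  obtain ⟨d, hd⟩ := hδ
  have n10 : e 1 - e 0 ≠ 0 := sub_ne_zero.2 h.ne01.symm
  have hd0 : d ≠ 0 := by
    rintro rfl
    exact n10 (by rw [hd]; ring)
  have g0ne : g0 ≠ 0 := by
    rintro rfl
    have := unr_one h2 hg0
    rw [map_zero] at this
    exact zero_ne_one this
  obtain ⟨X, hX⟩ : ∃ X, X = (x - e 1) / (e 1 - e 0) := ⟨_, rfl⟩
  obtain ⟨τ, hτ⟩ : ∃ τ, τ = (e 2 - e 1) / (e 1 - e 0) := ⟨_, rfl⟩
  have eX : x - e 1 = (e 1 - e 0) * X := by rw [hX]; field_simp
  have eτ : e 2 - e 1 = (e 1 - e 0) * τ := by rw [hτ]; field_simp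
  have eX1 : x - e 0 = (X + 1) * d ^ 2 := by
    rw [pow_two, ← hd]
    linear_combination eX
  have eXτ : x - e 2 = (X - τ) * d ^ 2 := by
    rw [pow_two, ← hd]
    linear_combination eX - eτ
  have eXd : x - e 1 = X * d ^ 2 := by
    rw [pow_two, ← hd]
    linear_combination eX
  have x0 : x - e 0 ≠ 0 := sub_ne_zero.2 (hx 0)
  have x1 : x - e 1 ≠ 0 := sub_ne_zero.2 (hx 1)
  have x2 : x - e 2 ≠ 0 := sub_ne_zero.2 (hx 2)
  have X1ne : X + 1 ≠ 0 := by
    intro h0
    rw [h0, zero_mul] at eX1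
    exact x0 eX1
  have Xne : X ≠ 0 := by
    intro h0
    rw [h0, zero_mul] at eXd
    exact x1 eXd
  have Xτne : X - τ ≠ 0 := by
    intro h0
    rw [h0, zero_mul] at eXτ
    exact x2 eXτ
  have vτ : Valued.v τ = Valued.v (16 : v.adicCompletion K) := by
    rw [← h16, eτ, map_mul, h1, one_mul]
  have e0' : E * (x - e 0) = E * (X + 1) * d ^ 2 := by rw [eX1]; ring
  have e2' : E * (x - e 2) = E * (X - τ) * d ^ 2 := by rw [eXτ]; ring
  have hsq' : IsSquare (E * (X * (X + 1) * (X - τ))) := by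
    apply Bt_div (t := d ^ 3) (pow_ne_zero 3 hd0)
    have e3 : E * (X * (X + 1) * (X - τ)) * (d ^ 3) ^ 2 =
        E * ((x - e 0) * (x - e 1) * (x - e 2)) := by
      rw [eX1, eXτ, eXd]
      ring
    rw [e3]
    exact hsq
  have iso := iso_pt hF.two h hE hx hsq
  rw [hs_congr hd0 e0', hs_congr_right hd0 e2'] at iso
  obtain ⟨hc1, hc2⟩ := Bt_core h2 hF hE Xne X1ne Xτne vτ hsq' hg0 iso
  have hE0 : E * (x - e 0) ≠ 0 := mul_ne_zero hE x0
  have hE2 : E * (x - e 2) ≠ 0 := mul_ne_zero hE x2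
  have hup : ∀ y : v.adicCompletion K, IsSquare y → IsSquare (y * d ^ 2) := by
    rintro y ⟨m, hm⟩
    exact ⟨m * d, by rw [hm]; ring⟩
  unfold LW
  by_cases hsE : IsSquare E
  · rw [if_pos hsE]
    obtain ⟨h3, h4⟩ := hc1 hsE
    refine ⟨?_, ?_⟩
    · rcases h3 with h3 | h3
      · left
        rw [sc_eq_zero hE0, e0']
        exact hup _ h3
      · right
        apply Bt_sc hE0 g0ne
        have e3 : E * (x - e 0) * g0 = E * (X + 1) * g0 * d ^ 2 := by rw [e0']; ring
        rw [e3]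
        exact hup _ h3
    · rw [hsc_sc hE2 g0ne, hs_congr hd0 e2']
      exact h4
  · rw [if_neg hsE]
    obtain ⟨h3, h4⟩ := hc2 hsE
    refine ⟨?_, ?_⟩
    · rcases h3 with h3 | h3
      · left
        rw [sc_eq_zero hE0, e0']
        exact hup _ h3
      · right
        apply Bt_sc hE0 hE
        have e3 : E * (x - e 0) * E = E * (X + 1) * E * d ^ 2 := by rw [e0']; ring
        rw [e3]
        exact hup _ h3
    · rw [hsc_sc hE2 hE, hs_congr hd0 e2']
      exact h4

end H36MX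

end S_H36_MX_Bt

section S_H36_MX_He

set_option autoImplicit false
set_option linter.unusedSectionVars false
open scoped Classical

open WithZero NumberField IsDedekindDomain H38RT
open H38T1 (SC sc scu rep rep_ne sc_rep sc_mul sc_eq_zero sc_surj eo la si Pri OddP tp unif ka)
open H76PP

namespace H36MX

variable {K : Type} [Field K] [NumberField K] {v : HeightOneSpectrum (𝓞 K)}

private theorem He_v4 (hv : OddP v) : v.valuation K 4 = 1 := by
  have h : (4 : K) = 2 * 2 := by norm_num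
  have h2 : v.valuation K 2 = 1 := hv
  rw [h, map_mul, h2, one_mul]

private theorem He_v4' (hv : OddP v) : Valued.v (4 : v.adicCompletion K) = 1 := by
  have h : (4 : v.adicCompletion K) = algebraMap K (v.adicCompletion K) 4 := by rw [map_ofNat]
  rw [h, H36CY.val_coe, He_v4 hv]

private theorem He_near (hv : OddP v) {y z : K} (h : v.valuation K (y - z) < v.valuation K z) :
    ∃ r : v.adicCompletion K, r ≠ 0 ∧ algebraMap K (v.adicCompletion K) y =
      algebraMap K (v.adicCompletion K) z * r ^ 2 := by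
  refine H36CY.sq_near' v ?_
  rw [map_mul, He_v4 hv, one_mul]
  exact h

private theorem He_sqone {t : WithZero (Multiplicative ℤ)} (h : t * t = 1) : t = 1 := by
  have h' : t ^ 2 = 1 := by rw [sq, h]
  exact (pow_eq_one_iff.1 h').resolve_right two_ne_zero

private theorem He_sq (hv : OddP v) {x : K} (hx : v.valuation K x = 1) :
    IsSquare (algebraMap K (v.adicCompletion K) x) ↔ Sq (v.valuation K) x := by
  constructor
  · rintro ⟨s, hs⟩
    have h1 : Valued.v s * Valued.v s = 1 := by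
      rw [← map_mul, ← hs, H36CY.val_coe, hx]
    have h2 : Valued.v s = 1 := He_sqone h1
    obtain ⟨y, hy⟩ := H36CY.near_coe v s (c := 1) one_ne_zero
    rw [map_one] at hy
    refine ⟨y, ?_⟩
    have hy1 : Valued.v (algebraMap K (v.adicCompletion K) y) ≤ 1 := by
      have e : algebraMap K (v.adicCompletion K) y =
          (algebraMap K (v.adicCompletion K) y - s) + s := by ring
      rw [e]
      exact (Valuation.map_add _ _ _).trans (max_le hy.le h2.le)
    have hy2 : Valued.v (s + algebraMap K (v.adicCompletion K) y) ≤ 1 :=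
      (Valuation.map_add _ _ _).trans (max_le h2.le hy1)
    rw [← H36CY.val_coe]
    have e : algebraMap K (v.adicCompletion K) (x - y ^ 2) =
        -((algebraMap K (v.adicCompletion K) y - s) *
          (s + algebraMap K (v.adicCompletion K) y)) := by
      rw [map_sub, map_pow, hs]
      ring
    rw [e, Valuation.map_neg, map_mul]
    exact (mul_le_of_le_one_right' hy2).trans_lt hy
  · rintro ⟨t, ht⟩
    have h1 : v.valuation K (t ^ 2) = 1 := by
      have e : t ^ 2 = x - (x - t ^ 2) := by ring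
      rw [e, Valuation.map_sub_eq_of_lt_left _ (by rw [hx]; exact ht), hx]
    obtain ⟨r, -, hr⟩ := He_near hv (y := x) (z := t ^ 2) (by rw [h1]; exact ht)
    refine ⟨algebraMap K (v.adicCompletion K) t * r, ?_⟩
    rw [hr, map_pow]
    ring

private theorem He_unif_ne (v : HeightOneSpectrum (𝓞 K)) : unif v ≠ 0 := by
  intro h
  have h1 := H38T1.unif_spec v
  rw [h, map_zero] at h1
  exact exp_ne_zero h1.symm

private theorem He_nf (v : HeightOneSpectrum (𝓞 K)) {a : K} (ha : a ≠ 0) :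
    ∃ a' r : K, a' ≠ 0 ∧ r ≠ 0 ∧ a = a' * r ^ 2 ∧
      (v.valuation K a' = 1 ∨ v.valuation K a' = exp (-1)) := by
  obtain ⟨k, hk⟩ := Int.even_or_odd' (ord (v.valuation K) a)
  have hπ := H38T1.unif_spec v
  have hπ0 := He_unif_ne v
  have e1 : (unif v) ^ (-(2 * k)) * ((unif v) ^ k) ^ 2 = 1 := by
    rw [← zpow_natCast, ← zpow_mul, ← zpow_add₀ hπ0]
    have : -(2 * k) + k * ((2 : ℕ) : ℤ) = 0 := by push_cast; ring
    rw [this, zpow_zero]
  refine ⟨a * (unif v) ^ (-(2 * k)), (unif v) ^ k, mul_ne_zero ha (zpow_ne_zero _ hπ0),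
    zpow_ne_zero _ hπ0, ?_, ?_⟩
  · rw [mul_assoc, e1, mul_one]
  · rw [map_mul, map_zpow₀, hπ, H38RT.V_eq (V := v.valuation K) ha, ← exp_zsmul, ← exp_add]
    rcases hk with hk | hk
    · left
      rw [hk]
      have : -(2 * k) + -(2 * k) • (-1 : ℤ) = 0 := by rw [smul_eq_mul]; ring
      rw [this, exp_zero]
    · right
      rw [hk]
      have : -(2 * k + 1) + -(2 * k) • (-1 : ℤ) = -1 := by rw [smul_eq_mul]; ring
      rw [this]

private theorem He_sc {a r : K} (h1 : a ≠ 0) (hr : r ≠ 0) : sc (a * r ^ 2) = sc a := by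
  rw [sc_mul h1 (pow_ne_zero 2 hr), (sc_eq_zero (pow_ne_zero 2 hr)).2 ⟨r, sq r⟩, add_zero]

private theorem He_hsv {a a' r b : K} (hr : r ≠ 0) (h : a = a' * r ^ 2) :
    hsv v a b = hsv v a' b := by
  unfold hsv
  refine hs_congr (r := algebraMap K (v.adicCompletion K) r) ((map_ne_zero _).2 hr) ?_
  rw [h, map_mul, map_pow]

private theorem He_hsv_comm (a b : K) : hsv v a b = hsv v b a := hs_comm _ _

private theorem He_ne {a : K} (h : v.valuation K a = 1) : a ≠ 0 := by
  rintro rfl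
  rw [map_zero] at h
  exact zero_ne_one h

private theorem He_ne' {a : K} (h : v.valuation K a = exp (-1)) : a ≠ 0 := by
  rintro rfl
  rw [map_zero] at h
  exact exp_ne_zero h.symm

private theorem He_eo_one {a : K} (h : v.valuation K a = 1) : eo v (sc a) = 0 := by
  rw [H38T1.eo_sc (He_ne h)]
  have : ord (v.valuation K) a = 0 := by
    unfold ord
    rw [h, log_one, neg_zero]
  rw [this, Int.cast_zero]

private theorem He_eo_exp {a : K} (h : v.valuation K a = exp (-1)) : eo v (sc a) = 1 := by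
  rw [H38T1.eo_sc (He_ne' h)]
  have : ord (v.valuation K) a = 1 := by
    unfold ord
    rw [h, log_exp, neg_neg]
  rw [this, Int.cast_one]

private theorem He_la_one (hv : OddP v) {a : K} (h : v.valuation K a = 1) :
    la v (sc a) = if Sq (v.valuation K) a then 0 else 1 := by
  rw [H38T1.la_sc hv (He_ne h)]
  exact lam_unit h

private theorem He_int (v : HeightOneSpectrum (𝓞 K)) (y : 𝓞 K) : v.valuation K (y : K) ≤ 1 :=
  v.valuation_le_one y

/-- The residue field. -/
private theorem He_res (hv : OddP v) :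
    ∃ (k : Type) (_ : Field k) (_ : Fintype k) (f : 𝓞 K →+* k), Function.Surjective f ∧
      ringChar k ≠ 2 ∧ ∀ x : 𝓞 K, f x = 0 ↔ v.valuation K (x : K) < 1 := by
  have hmax : v.asIdeal.IsMaximal := v.isMaximal
  have hfin : Finite (𝓞 K ⧸ v.asIdeal) := Ideal.finiteQuotientOfFreeOfNeBot v.asIdeal v.ne_bot
  refine ⟨𝓞 K ⧸ v.asIdeal, Ideal.Quotient.field v.asIdeal, Fintype.ofFinite _,
    Ideal.Quotient.mk v.asIdeal, Ideal.Quotient.mk_surjective, ?_, ?_⟩
  · intro h
    have h1 : ((2 : ℕ) : 𝓞 K ⧸ v.asIdeal) = 0 := by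
      have := ringChar.Nat.cast_ringChar (R := 𝓞 K ⧸ v.asIdeal)
      rwa [h] at this
    have h2 : Ideal.Quotient.mk v.asIdeal (2 : 𝓞 K) = 0 := by
      rw [map_ofNat]
      exact_mod_cast h1
    rw [Ideal.Quotient.eq_zero_iff_mem] at h2
    have h3 := (v.valuation_lt_one_iff_mem (K := K) _).2 h2
    have h4 : ((2 : 𝓞 K) : K) = 2 := map_ofNat (algebraMap (𝓞 K) K) 2
    have h5 : v.valuation K 2 < 1 := lt_of_eq_of_lt (congrArg (v.valuation K) h4.symm) h3
    exact absurd hv h5.ne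
  · intro x
    rw [Ideal.Quotient.eq_zero_iff_mem]
    exact (v.valuation_lt_one_iff_mem (K := K) x).symm

private theorem He_case1 (hv : OddP v) {a b : K} (ha : v.valuation K a = 1)
    (hb : v.valuation K b = 1) : hsv v a b = 0 := by
  obtain ⟨k, _, _, f, hf, hchar, hz⟩ := He_res hv
  obtain ⟨α, hα⟩ := Tf_approx v ha.le
  obtain ⟨β, hβ⟩ := Tf_approx v hb.le
  have hvα : v.valuation K (α : K) = 1 := by
    have e : (α : K) = a - (a - α) := by ring
    rw [e, Valuation.map_sub_eq_of_lt_left _ (by rw [ha]; exact hα), ha]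
  have hvβ : v.valuation K (β : K) = 1 := by
    have e : (β : K) = b - (b - β) := by ring
    rw [e, Valuation.map_sub_eq_of_lt_left _ (by rw [hb]; exact hβ), hb]
  have hfα : f α ≠ 0 := by
    intro h
    rw [hz, hvα] at h
    exact lt_irrefl _ h
  have hfβ : f β ≠ 0 := by
    intro h
    rw [hz, hvβ] at h
    exact lt_irrefl _ h
  have hcard : Fintype.card k % 2 = 1 := FiniteField.odd_card_of_char_ne_two hchar
  obtain ⟨x', y', hxy⟩ := FiniteField.exists_root_sum_quadratic
    (f := Polynomial.C (f α) * Polynomial.X ^ 2)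
    (g := Polynomial.C (f β) * Polynomial.X ^ 2 + Polynomial.C 0 * Polynomial.X +
      Polynomial.C (-1))
    (Polynomial.degree_C_mul_X_pow 2 hfα) (Polynomial.degree_quadratic hfβ) hcard
  obtain ⟨x, rfl⟩ := hf x'
  obtain ⟨y, rfl⟩ := hf y'
  have h1 : f (α * x ^ 2 + β * y ^ 2 - 1) = 0 := by
    simp only [Polynomial.eval_mul, Polynomial.eval_C, Polynomial.eval_pow, Polynomial.eval_X,
      Polynomial.eval_add, zero_mul, add_zero] at hxy
    simp only [map_sub, map_add, map_mul, map_pow, map_one]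
    linear_combination hxy
  rw [hz] at h1
  have h2 : v.valuation K (a * x ^ 2 + b * y ^ 2 - 1) < 1 := by
    have e : a * (x : K) ^ 2 + b * (y : K) ^ 2 - 1 =
        ((α * x ^ 2 + β * y ^ 2 - 1 : 𝓞 K) : K) + ((a - α) * (x : K) ^ 2 +
          (b - β) * (y : K) ^ 2) := by
      push_cast
      ring
    rw [e]
    refine Valuation.map_add_lt _ h1 (Valuation.map_add_lt _ ?_ ?_)
    · rw [map_mul, map_pow]
      exact (mul_le_of_le_one_right' (pow_le_one₀ zero_le (He_int v x))).trans_lt hα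
    · rw [map_mul, map_pow]
      exact (mul_le_of_le_one_right' (pow_le_one₀ zero_le (He_int v y))).trans_lt hβ
  have key : ∀ (a b : K) (x y : 𝓞 K), v.valuation K a = 1 → v.valuation K (x : K) = 1 →
      v.valuation K (a * x ^ 2 + b * y ^ 2 - 1) < 1 →
      Sol (algebraMap K (v.adicCompletion K) a) (algebraMap K (v.adicCompletion K) b) := by
    intro a b x y ha hx h
    have hax : v.valuation K (a * (x : K) ^ 2) = 1 := by
      rw [map_mul, map_pow, ha, hx, one_pow, one_mul]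
    obtain ⟨r, -, hr⟩ := He_near hv (y := 1 - b * (y : K) ^ 2) (z := a * (x : K) ^ 2) (by
      rw [hax]
      have e : 1 - b * (y : K) ^ 2 - a * (x : K) ^ 2 = -(a * (x : K) ^ 2 + b * (y : K) ^ 2 - 1) := by
        ring
      rw [e, Valuation.map_neg]
      exact h)
    refine ⟨algebraMap K (v.adicCompletion K) x * r, algebraMap K (v.adicCompletion K) y, ?_⟩
    simp only [map_sub, map_mul, map_pow, map_one] at hr
    linear_combination -hr
  rw [hsv, hs_eq_zero]
  by_cases hx : v.valuation K (x : K) = 1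
  · exact key a b x y ha hx h2
  · have hy : v.valuation K (y : K) = 1 := by
      by_contra hy
      have hx' := lt_of_le_of_ne (He_int v x) hx
      have hy' := lt_of_le_of_ne (He_int v y) hy
      have h3 : v.valuation K (a * (x : K) ^ 2 + b * (y : K) ^ 2) < 1 := by
        refine Valuation.map_add_lt _ ?_ ?_
        · rw [map_mul, map_pow, ha, one_mul]
          exact pow_lt_one₀ zero_le hx' two_ne_zero
        · rw [map_mul, map_pow, hb, one_mul]
          exact pow_lt_one₀ zero_le hy' two_ne_zero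
      have e : (1 : K) = (a * (x : K) ^ 2 + b * (y : K) ^ 2) -
          (a * (x : K) ^ 2 + b * (y : K) ^ 2 - 1) := by ring
      have h4 : v.valuation K (1 : K) < 1 := by
        rw [e]
        exact Valuation.map_sub_lt _ h3 h2
      rw [map_one] at h4
      exact lt_irrefl _ h4
    have h5 := key b a y x hb hy (by
      have e : b * (y : K) ^ 2 + a * (x : K) ^ 2 - 1 = a * (x : K) ^ 2 + b * (y : K) ^ 2 - 1 := by
        ring
      rw [e]
      exact h2)
    obtain ⟨s, t, hst⟩ := h5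
    exact ⟨t, s, by rw [add_comm]; exact hst⟩

private theorem He_case2 (hv : OddP v) {a b : K} (ha : v.valuation K a = 1)
    (hb : v.valuation K b = exp (-1)) : hsv v a b = la v (sc a) := by
  have ha0 := He_ne ha
  have hb0 := He_ne' hb
  rw [He_la_one hv ha]
  by_cases hs : Sq (v.valuation K) a
  · rw [if_pos hs]
    exact hs_of_sq ((map_ne_zero _).2 ha0) ((He_sq hv ha).2 hs)
  · rw [if_neg hs, hsv, hs_eq_one]
    rintro ⟨x, y, hxy⟩
    apply hs
    rw [← He_sq hv ha]
    obtain ⟨A, hA⟩ : ∃ A, A = algebraMap K (v.adicCompletion K) a := ⟨_, rfl⟩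
    obtain ⟨B, hB⟩ : ∃ B, B = algebraMap K (v.adicCompletion K) b := ⟨_, rfl⟩
    have hvA : Valued.v A = 1 := by rw [hA, H36CY.val_coe, ha]
    have hvB : Valued.v B = exp (-1) := by rw [hB, H36CY.val_coe, hb]
    rw [← hA, ← hB] at hxy
    rw [← hA]
    -- the valuation of `B y^2` is less than one
    have hBy : Valued.v (B * y ^ 2) < 1 := by
      by_contra hge
      rw [not_lt] at hge
      have hy0 : Valued.v y ≠ 0 := by
        intro h
        rw [map_mul, map_pow, h, zero_pow two_ne_zero, mul_zero] at hge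
        exact absurd hge (not_le.2 zero_lt_one)
      obtain ⟨n, hn⟩ : ∃ n : ℤ, Valued.v y = exp n := ⟨log (Valued.v y), (exp_log hy0).symm⟩
      have e1 : Valued.v (B * y ^ 2) = exp (2 * n - 1) := by
        rw [map_mul, map_pow, hvB, hn, ← exp_nsmul, ← exp_add]
        congr 1
        rw [nsmul_eq_mul]
        push_cast
        ring
      rw [e1, ← exp_zero, exp_le_exp] at hge
      have e2 : Valued.v (A * x ^ 2) = exp (2 * n - 1) := by
        have e3 : A * x ^ 2 = 1 - B * y ^ 2 := by linear_combination hxy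
        rw [e3, Valuation.map_sub_swap, Valuation.map_sub_eq_of_lt_left, e1]
        rw [e1, map_one, ← exp_zero, exp_lt_exp]
        omega
      rw [map_mul, map_pow, hvA, one_mul] at e2
      have hx0 : Valued.v x ≠ 0 := by
        intro h
        rw [h, zero_pow two_ne_zero] at e2
        exact exp_ne_zero e2.symm
      obtain ⟨m, hm⟩ : ∃ m : ℤ, Valued.v x = exp m := ⟨log (Valued.v x), (exp_log hx0).symm⟩
      rw [hm, ← exp_nsmul, exp_inj, nsmul_eq_mul] at e2
      push_cast at e2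
      omega
    have hAx : Valued.v (A * x ^ 2) = 1 := by
      have e3 : A * x ^ 2 = 1 - B * y ^ 2 := by linear_combination hxy
      rw [e3, Valuation.map_sub_eq_of_lt_left _ (by rw [map_one]; exact hBy), map_one]
    have hx1 : Valued.v x = 1 := by
      rw [map_mul, map_pow, hvA, one_mul, sq] at hAx
      exact He_sqone hAx
    have hx0 : x ≠ 0 := by
      rintro rfl
      rw [map_zero] at hx1
      exact zero_ne_one hx1
    have _ := H36CY.char_zero v
    obtain ⟨r, -, hr⟩ := H36CY.sq_near (y := A) (z := (x⁻¹) ^ 2) (by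
      rw [map_mul, He_v4' hv, one_mul, map_pow, map_inv₀, hx1, inv_one, one_pow]
      have e : A - (x⁻¹) ^ 2 = -(B * y ^ 2) * (x⁻¹) ^ 2 := by
        have h5 : x * x⁻¹ = 1 := mul_inv_cancel₀ hx0
        linear_combination (x⁻¹) ^ 2 * hxy - A * (x * x⁻¹ + 1) * h5
      rw [e, map_mul, Valuation.map_neg, map_pow, map_inv₀, hx1, inv_one, one_pow, mul_one]
      exact hBy)
    exact ⟨x⁻¹ * r, by rw [hr]; ring⟩

private theorem He_two (v : HeightOneSpectrum (𝓞 K)) : (2 : v.adicCompletion K) ≠ 0 := by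
  have _ := H36CY.char_zero v
  exact two_ne_zero

private theorem He_case3 (hv : OddP v) {a b : K} (ha : v.valuation K a = exp (-1))
    (hb : v.valuation K b = exp (-1)) :
    hsv v a b = la v (sc (-1)) + la v (sc a) + la v (sc b) := by
  have ha0 := He_ne' ha
  have hb0 := He_ne' hb
  have h2 := He_two v
  obtain ⟨A, hA⟩ : ∃ A, A = algebraMap K (v.adicCompletion K) a := ⟨_, rfl⟩
  obtain ⟨B, hB⟩ : ∃ B, B = algebraMap K (v.adicCompletion K) b := ⟨_, rfl⟩
  have hA0 : A ≠ 0 := by rw [hA]; exact (map_ne_zero _).2 ha0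
  have hB0 : B ≠ 0 := by rw [hB]; exact (map_ne_zero _).2 hb0
  have hneg : Sol A (-A) := hs_eq_zero.1 (hs_neg h2 hA0)
  have h3 : hs A B = hs A (-(A * B)) := by
    by_cases hs1 : Sol A B
    · have h4 : Sol A (B * -A) := sol_mul h2 hA0 hB0 (neg_ne_zero.2 hA0) hs1 hneg
      have e : B * -A = -(A * B) := by ring
      rw [e] at h4
      rw [hs_eq_zero.2 hs1, hs_eq_zero.2 h4]
    · have h4 : ¬ Sol A (-(A * B)) := by
        intro h5
        apply hs1
        have h6 : Sol A (-(A * B) * -A) :=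
          sol_mul h2 hA0 (neg_ne_zero.2 (mul_ne_zero hA0 hB0)) (neg_ne_zero.2 hA0) h5 hneg
        have h7 : hs A (-(A * B) * -A) = hs A B := hs_congr_right hA0 (by ring)
        rw [← hs_eq_zero, ← h7, hs_eq_zero]
        exact h6
      rw [hs_eq_one.2 hs1, hs_eq_one.2 h4]
  have hπ := H38T1.unif_spec v
  have hπ0 := He_unif_ne v
  have hc : v.valuation K (-(a * b) * ((unif v)⁻¹) ^ 2) = 1 := by
    rw [map_mul, Valuation.map_neg, map_mul, map_pow, map_inv₀, ha, hb, hπ, ← exp_neg,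
      ← exp_nsmul, ← exp_add, ← exp_add]
    have : (-1 : ℤ) + -1 + 2 • (- -1 : ℤ) = 0 := by norm_num
    rw [this, exp_zero]
  have h4 : hs A (-(A * B)) = hsv v a (-(a * b) * ((unif v)⁻¹) ^ 2) := by
    unfold hsv
    rw [← hA]
    refine (hs_congr_right (r := algebraMap K (v.adicCompletion K) (unif v)⁻¹)
      ((map_ne_zero _).2 (inv_ne_zero hπ0)) ?_).symm
    rw [map_mul, map_neg, map_mul, map_pow, ← hA, ← hB]
  have h5 : hsv v a b = hs A B := by
    unfold hsv
    rw [hA, hB]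
  have h1 : (-1 : K) ≠ 0 := neg_ne_zero.2 one_ne_zero
  rw [h5, h3, h4, He_hsv_comm, He_case2 hv hc ha,
    He_sc (neg_ne_zero.2 (mul_ne_zero ha0 hb0)) (inv_ne_zero hπ0)]
  have e : -(a * b) = -1 * (a * b) := by ring
  rw [e, sc_mul h1 (mul_ne_zero ha0 hb0), sc_mul ha0 hb0, H38T1.la_add hv, H38T1.la_add hv,
    add_assoc]

theorem hs_odd (hv : OddP v) {a b : K} (ha : a ≠ 0) (hb : b ≠ 0) :
    hsv v a b = tp v (sc a) (sc b) := by
  obtain ⟨a', r, ha', hr, har, hva⟩ := He_nf v ha
  obtain ⟨b', s, hb', hs, hbs, hvb⟩ := He_nf v hb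
  rw [He_hsv hr har, He_hsv_comm, He_hsv hs hbs, He_hsv_comm, har, hbs, He_sc ha' hr,
    He_sc hb' hs]
  unfold tp
  rcases hva with hva | hva <;> rcases hvb with hvb | hvb
  · rw [He_case1 hv hva hvb, He_eo_one hva, He_eo_one hvb]
    ring
  · rw [He_case2 hv hva hvb, He_eo_one hva, He_eo_exp hvb]
    ring
  · rw [He_hsv_comm, He_case2 hv hvb hva, He_eo_one hvb, He_eo_exp hva]
    ring
  · rw [He_case3 hv hva hvb, He_eo_exp hva, He_eo_exp hvb]
    ring

private theorem He_rep (v : HeightOneSpectrum (𝓞 K)) {x : v.adicCompletion K} (hx : x ≠ 0) :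
    ∃ y : K, y ≠ 0 ∧ ∃ r : v.adicCompletion K, r ≠ 0 ∧
      algebraMap K (v.adicCompletion K) y = x * r ^ 2 := by
  have _ := H36CY.char_zero v
  obtain ⟨y, hy⟩ := H36CY.near_coe v x (c := 4 * x) (mul_ne_zero (by norm_num) hx)
  obtain ⟨r, hr, h⟩ := H36CY.sq_near hy
  refine ⟨y, ?_, r, hr, h⟩
  rintro rfl
  rw [map_zero] at h
  exact mul_ne_zero hx (pow_ne_zero 2 hr) h.symm

private theorem He_hs_rep {v : HeightOneSpectrum (𝓞 K)} {x y r s : v.adicCompletion K} {a b : K}
    (hr : r ≠ 0) (hs : s ≠ 0) (ha : algebraMap K (v.adicCompletion K) a = x * r ^ 2)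
    (hb : algebraMap K (v.adicCompletion K) b = y * s ^ 2) :
    H36MX.hs x y = hsv v a b := by
  unfold hsv
  rw [hs_congr hr ha, hs_congr_right hs hb]

/-- A unit which is not a square modulo `v`. -/
private theorem He_nonsq (hv : OddP v) :
    ∃ b : K, v.valuation K b = 1 ∧ ¬ Sq (v.valuation K) b := by
  obtain ⟨k, _, _, f, hf, hchar, hz⟩ := He_res hv
  obtain ⟨β', hβ'⟩ := FiniteField.exists_nonsquare hchar
  obtain ⟨β, rfl⟩ := hf β'
  have hβ1 : v.valuation K (β : K) = 1 := by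
    refine le_antisymm (He_int v β) (not_lt.1 fun h => ?_)
    rw [← hz] at h
    exact hβ' (by rw [h]; exact IsSquare.zero)
  refine ⟨β, hβ1, ?_⟩
  rintro ⟨t, ht⟩
  have h1 : v.valuation K (t ^ 2) = 1 := by
    have e : t ^ 2 = β - (β - t ^ 2) := by ring
    rw [e, Valuation.map_sub_eq_of_lt_left _ (by rw [hβ1]; exact ht), hβ1]
  have ht1 : v.valuation K t = 1 := by
    rw [map_pow, sq] at h1
    exact He_sqone h1
  obtain ⟨τ, hτ⟩ := Tf_approx v ht1.le
  apply hβ'
  refine ⟨f τ, ?_⟩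
  have h2 : f (β - τ * τ) = 0 := by
    rw [hz]
    have e : ((β - τ * τ : 𝓞 K) : K) = (β - t ^ 2) + (t - τ) * (t + τ) := by
      push_cast
      ring
    rw [e]
    refine Valuation.map_add_lt _ ht ?_
    rw [map_mul]
    exact (mul_le_of_le_one_right' ((Valuation.map_add _ _ _).trans
      (max_le ht1.le (He_int v τ)))).trans_lt hτ
  rw [map_sub, map_mul, sub_eq_zero] at h2
  exact h2

theorem hf_odd (hv : OddP v) : HF (v.adicCompletion K) := by
  refine ⟨He_two v, ?_, ?_⟩
  · intro x y z hx hy hz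
    obtain ⟨a, ha, r, hr, har⟩ := He_rep v hx
    obtain ⟨b, hb, s, hs, hbs⟩ := He_rep v hy
    obtain ⟨c, hc, t, ht, hct⟩ := He_rep v hz
    have hab : algebraMap K (v.adicCompletion K) (a * b) = x * y * (r * s) ^ 2 := by
      rw [map_mul, har, hbs]
      ring
    rw [He_hs_rep (mul_ne_zero hr hs) ht hab hct, He_hs_rep hr ht har hct,
      He_hs_rep hs ht hbs hct, hs_odd hv (mul_ne_zero ha hb) hc, hs_odd hv ha hc,
      hs_odd hv hb hc, sc_mul ha hb, H38T1.tp_add_left hv]
  · intro x hx hns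
    obtain ⟨a, ha, r, hr, har⟩ := He_rep v hx
    have hns' : ¬ IsSquare (algebraMap K (v.adicCompletion K) a) := by
      rintro ⟨m, hm⟩
      apply hns
      refine ⟨m / r, ?_⟩
      rw [har] at hm
      field_simp
      linear_combination hm
    have key : ∃ b : K, b ≠ 0 ∧ tp v (sc a) (sc b) = 1 := by
      obtain ⟨a', s, ha', hs, has, hva⟩ := He_nf v ha
      have hsc : sc a = sc a' := by rw [has, He_sc ha' hs]
      rcases hva with hva | hva
      · have h1 : ¬ Sq (v.valuation K) a' := by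
          rw [← He_sq hv hva]
          rintro ⟨m, hm⟩
          apply hns'
          refine ⟨m * algebraMap K (v.adicCompletion K) s, ?_⟩
          rw [has, map_mul, map_pow, hm]
          ring
        refine ⟨unif v, He_unif_ne v, ?_⟩
        unfold tp
        rw [hsc, He_eo_one hva, He_eo_exp (H38T1.unif_spec v), He_la_one hv hva, if_neg h1]
        ring
      · obtain ⟨b, hb, hbn⟩ := He_nonsq hv
        refine ⟨b, He_ne hb, ?_⟩
        unfold tp
        rw [hsc, He_eo_exp hva, He_eo_one hb, He_la_one hv hb, if_neg hbn]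
        ring
    obtain ⟨b, hb, htp⟩ := key
    refine ⟨algebraMap K (v.adicCompletion K) b, (map_ne_zero _).2 hb, ?_⟩
    rw [← hs_odd hv ha hb] at htp
    rw [He_hs_rep hr one_ne_zero har (b := b) (by rw [one_pow, mul_one])]
    exact htp

end H36MX

end S_H36_MX_He

section S_H36_MX_Bo

set_option autoImplicit false
set_option linter.unusedSectionVars false
open scoped Classical

open WithZero NumberField IsDedekindDomain H38RT
open H38T1 (SC sc scu rep rep_ne sc_rep sc_mul sc_eq_zero sc_surj eo la si Pri OddP tp unif ka)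
open H76PP

namespace H36MX

variable {K : Type} [Field K] [NumberField K] {v : HeightOneSpectrum (𝓞 K)}

private theorem Bo_v4 (hv : OddP v) : Valued.v (4 : v.adicCompletion K) = 1 := by
  have h : (4 : v.adicCompletion K) = algebraMap K (v.adicCompletion K) (2 * 2) := by
    rw [map_mul, map_ofNat]
    norm_num
  have h2 : v.valuation K 2 = 1 := hv
  rw [h, H36CY.val_coe, map_mul, h2, one_mul]

private theorem Bo_near (hv : OddP v) {y z : v.adicCompletion K}
    (h : Valued.v (y - z) < Valued.v z) : ∃ r : v.adicCompletion K, r ≠ 0 ∧ y = z * r ^ 2 := by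
  have _ := H36CY.char_zero v
  refine H36CY.sq_near ?_
  rw [map_mul, Bo_v4 hv, one_mul]
  exact h

private theorem Bo_ne {y : v.adicCompletion K} {n : ℤ} (hy : Valued.v y = exp n) : y ≠ 0 := by
  rintro rfl
  rw [map_zero] at hy
  exact exp_ne_zero hy.symm

private theorem Bo_rep {y : v.adicCompletion K} {m : ℤ} (hy : Valued.v y = exp (2 * m)) :
    ∃ a : K, a ≠ 0 ∧ eo v (sc a) = 0 ∧ ∃ r : v.adicCompletion K, r ≠ 0 ∧
      algebraMap K (v.adicCompletion K) a = y * r ^ 2 := by
  have _ := H36CY.char_zero v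
  have hy0 : y ≠ 0 := Bo_ne hy
  obtain ⟨a, ha⟩ := H36CY.near_coe v y (c := 4 * y) (mul_ne_zero (by norm_num) hy0)
  obtain ⟨r, hr, h⟩ := H36CY.sq_near ha
  have ha0 : a ≠ 0 := by
    rintro rfl
    rw [map_zero] at h
    exact mul_ne_zero hy0 (pow_ne_zero 2 hr) h.symm
  refine ⟨a, ha0, ?_, r, hr, h⟩
  have hvr : Valued.v r ≠ 0 := (Valuation.ne_zero_iff _).2 hr
  obtain ⟨k, hk⟩ : ∃ k : ℤ, Valued.v r = exp k := ⟨log (Valued.v r), (exp_log hvr).symm⟩
  have h1 : v.valuation K a = exp (2 * m + (k + k)) := by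
    rw [← H36CY.val_coe, h, map_mul, map_pow, hy, hk, sq, ← exp_add, ← exp_add]
  rw [H38T1.eo_sc ha0]
  have h2 : ord (v.valuation K) a = -(2 * m + (k + k)) := by
    unfold ord
    rw [h1, log_exp]
  rw [h2]
  push_cast
  have h3 : (2 : ZMod 2) = 0 := by decide
  linear_combination (-(m : ZMod 2) - (k : ZMod 2)) * h3

private theorem Bo_sq {s t r : v.adicCompletion K} (hr : r ≠ 0)
    (h : s * r ^ 2 = t * t) : IsSquare s := by
  refine ⟨t / r, ?_⟩
  have h1 : r * r⁻¹ = 1 := mul_inv_cancel₀ hr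
  rw [div_eq_mul_inv]
  linear_combination (r⁻¹ ^ 2) * h - s * (r * r⁻¹ + 1) * h1

theorem hs_even (hv : OddP v) {y z : v.adicCompletion K} {m n : ℤ}
    (hy : Valued.v y = exp (2 * m)) (hz : Valued.v z = exp (2 * n)) : hs y z = 0 := by
  obtain ⟨a, ha, hea, r, hr, har⟩ := Bo_rep hy
  obtain ⟨b, hb, heb, s, hs, hbs⟩ := Bo_rep hz
  have h1 : hsv v a b = 0 := by
    rw [hs_odd hv ha hb]
    unfold tp
    rw [hea, heb]
    ring
  unfold hsv at h1
  rw [hs_congr hr har, hs_congr_right hs hbs] at h1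
  exact h1

theorem cond_odd (hv : OddP v) {a b : v.adicCompletion K} {e : Fin 3 → v.adicCompletion K}
    (h : Spl a b e) (h1 : Valued.v (e 1 - e 0) = 1) (hτ : Valued.v (e 2 - e 1) < 1)
    {E x : v.adicCompletion K} (hE : E ≠ 0) {n : ℤ} (hEv : Valued.v E = exp (2 * n))
    (hx : ∀ j, x ≠ e j) (hsq : IsSquare (E * ((x - e 0) * (x - e 1) * (x - e 2)))) :
    LW (sc (E * (e 1 - e 0))) (sc (E * (x - e 0))) (sc (E * (x - e 2))) := by
  have _ := H36CY.char_zero v
  have h2 : (2 : v.adicCompletion K) ≠ 0 := two_ne_zero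
  have hiso := iso_pt h2 h hE hx hsq
  have x0 : x - e 0 ≠ 0 := sub_ne_zero.2 (hx 0)
  have x1 : x - e 1 ≠ 0 := sub_ne_zero.2 (hx 1)
  have x2 : x - e 2 ≠ 0 := sub_ne_zero.2 (hx 2)
  have d0 : e 1 - e 0 ≠ 0 := sub_ne_zero.2 h.ne01.symm
  have c0 := mul_ne_zero hE x0
  have c2 := mul_ne_zero hE x2
  have cd := mul_ne_zero hE d0
  unfold LW
  rcases lt_or_ge (Valued.v (e 2 - e 1)) (Valued.v (x - e 1)) with hc | hc
  · obtain ⟨r, hr, hr'⟩ := Bo_near hv (y := x - e 2) (z := x - e 1) (by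
      have e' : x - e 2 - (x - e 1) = -(e 2 - e 1) := by ring
      rw [e', Valuation.map_neg]
      exact hc)
    have hs0 : IsSquare (E * (x - e 0)) := by
      obtain ⟨s, hs⟩ := hsq
      refine Bo_sq (t := s) (r := (x - e 1) * r) (mul_ne_zero x1 hr) ?_
      rw [← hs, hr']
      ring
    have hz : sc (E * (x - e 0)) = 0 := (sc_eq_zero c0).2 hs0
    refine ⟨Or.inl hz, ?_⟩
    rw [hsc_sc c2 cd, hr', ← mul_assoc, hs_sq hr]
    rcases lt_trichotomy (Valued.v (x - e 1)) 1 with hl | hl | hl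
    · obtain ⟨s, hs, hs'⟩ := Bo_near hv (y := x - e 0) (z := e 1 - e 0) (by
        have e' : x - e 0 - (e 1 - e 0) = x - e 1 := by ring
        rw [e', h1]
        exact hl)
      have hsq1 : IsSquare (E * (e 1 - e 0)) := by
        obtain ⟨t, ht⟩ := hs0
        refine Bo_sq (t := t) (r := s) hs ?_
        rw [← ht, hs']
        ring
      rw [hs_comm]
      exact hs_of_sq cd hsq1
    · exact hs_even hv (m := n) (n := n) (by rw [map_mul, hl, mul_one, hEv])
        (by rw [map_mul, h1, mul_one, hEv])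
    · obtain ⟨s, hs, hs'⟩ := Bo_near hv (y := x - e 0) (z := x - e 1) (by
        have e' : x - e 0 - (x - e 1) = e 1 - e 0 := by ring
        rw [e', h1]
        exact hl)
      have hsq1 : IsSquare (E * (x - e 1)) := by
        obtain ⟨t, ht⟩ := hs0
        refine Bo_sq (t := t) (r := s) hs ?_
        rw [← ht, hs']
        ring
      exact hs_of_sq (mul_ne_zero hE x1) hsq1
  · obtain ⟨s, hs, hs'⟩ := Bo_near hv (y := x - e 0) (z := e 1 - e 0) (by
      have e' : x - e 0 - (e 1 - e 0) = x - e 1 := by ring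
      rw [e', h1]
      exact hc.trans_lt hτ)
    have hz : sc (E * (x - e 0)) = sc (E * (e 1 - e 0)) := by
      rw [hs', ← mul_assoc, sc_mul cd (pow_ne_zero 2 hs),
        (sc_eq_zero (pow_ne_zero 2 hs)).2 ⟨s, sq s⟩, add_zero]
    refine ⟨Or.inr hz, ?_⟩
    rw [← hz, hsc_comm, hsc_sc c0 c2]
    exact hiso

end H36MX

end S_H36_MX_Bo
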