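import Mathlib
import Pool.Agent.H76.CQ.Qc
import Pool.Agent.H76.CQ.Qd
import Pool.Agent.H76.ZQ.Y5
import Pool.Agent.H76.XP.X1

/-! This file joins several modules to save build time (X3). -/

set_option autoImplicit false

section S_H36_MX_Qd

set_option autoImplicit false
set_option linter.unusedSectionVars false
set_option linter.style.haveILetI false
open scoped Classical

open WithZero NumberField IsDedekindDomain H38RT Polynomial
open H76PP

namespace H36MX

/-- `M` is the quadratic extension of `K` generated by a square root `s` of `D`. -/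
structure QD {K M : Type} [Field K] [Field M] [Algebra K M] (D : K) (s : M)
    (σ : M ≃ₐ[K] M) : Prop where
  sq : s ^ 2 = algebraMap K M D
  neg : σ s = -s
  rk : Module.finrank K M = 2
  D0 : D ≠ 0

theorem exists_QD {L : Type} [Field L] [NumberField L] {D : L} (hD : ¬ IsSquare D) :
    ∃ (B : Type) (_ : Field B) (_ : NumberField B) (_ : Algebra L B) (s : B) (σ : B ≃ₐ[L] B),
      QD D s σ := by
  have hirr : Irreducible (X ^ 2 - C D : L[X]) := by
    rw [X_pow_sub_C_irreducible_iff_of_prime Nat.prime_two]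
    intro b hb
    exact hD ⟨b, by rw [← hb, pow_two]⟩
  have hne : (X ^ 2 - C D : L[X]) ≠ 0 := hirr.ne_zero
  haveI : Fact (Irreducible (X ^ 2 - C D : L[X])) := ⟨hirr⟩
  have hfr : Module.finrank L (AdjoinRoot (X ^ 2 - C D : L[X])) = 2 := by
    rw [(AdjoinRoot.powerBasis hne).finrank, AdjoinRoot.powerBasis_dim, natDegree_X_pow_sub_C]
  haveI hfin : FiniteDimensional L (AdjoinRoot (X ^ 2 - C D : L[X])) :=
    Module.finite_of_finrank_pos (by rw [hfr]; norm_num)
  haveI : CharZero (AdjoinRoot (X ^ 2 - C D : L[X])) :=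
    charZero_of_injective_algebraMap (algebraMap L (AdjoinRoot (X ^ 2 - C D : L[X]))).injective
  haveI : FiniteDimensional ℚ (AdjoinRoot (X ^ 2 - C D : L[X])) :=
    FiniteDimensional.trans ℚ L _
  haveI : NumberField (AdjoinRoot (X ^ 2 - C D : L[X])) := ⟨⟩
  set s : AdjoinRoot (X ^ 2 - C D : L[X]) := AdjoinRoot.root _ with hs
  have hsq : s ^ 2 = algebraMap L _ D := by
    have h1 : aeval s (X ^ 2 - C D : L[X]) = 0 := by
      rw [hs, AdjoinRoot.aeval_eq, AdjoinRoot.mk_self]
    rw [map_sub, map_pow, aeval_X, aeval_C] at h1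
    exact sub_eq_zero.1 h1
  have hev : aeval (-s) (X ^ 2 - C D : L[X]) = 0 := by
    rw [map_sub, map_pow, aeval_X, aeval_C, neg_sq, hsq, sub_self]
  let τ : AdjoinRoot (X ^ 2 - C D : L[X]) →ₐ[L] AdjoinRoot (X ^ 2 - C D : L[X]) :=
    AdjoinRoot.liftAlgHom _ (Algebra.ofId L _) (-s) hev
  let σ : AdjoinRoot (X ^ 2 - C D : L[X]) ≃ₐ[L] AdjoinRoot (X ^ 2 - C D : L[X]) :=
    AlgEquiv.ofBijective τ (Algebra.IsAlgebraic.algHom_bijective τ)
  refine ⟨_, inferInstance, inferInstance, inferInstance, s, σ, hsq, ?_, hfr, ?_⟩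
  · change τ s = -s
    exact AdjoinRoot.liftAlgHom_root _ _ _ _
  · rintro rfl
    exact hD ⟨0, by ring⟩

section

variable {K M : Type} [Field K] [Field M] [Algebra K M] {D : K} {s : M} {σ : M ≃ₐ[K] M}

theorem QD.s0 (h : QD D s σ) : s ≠ 0 := by
  intro h0
  have h1 := h.sq
  rw [h0] at h1
  exact h.D0 ((map_eq_zero (algebraMap K M)).1 (by rw [← h1]; ring))

theorem QD.sig (h : QD D s σ) (a b : K) :
    σ (algebraMap K M a + algebraMap K M b * s) = algebraMap K M a - algebraMap K M b * s := by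
  rw [map_add, map_mul, h.neg, AlgEquiv.commutes, AlgEquiv.commutes]
  ring

theorem QD.notK [CharZero K] (h : QD D s σ) (a : K) : algebraMap K M a ≠ s := by
  intro h1
  have _ : CharZero M := charZero_of_injective_algebraMap (algebraMap K M).injective
  have h2 := h.neg
  rw [← h1, AlgEquiv.commutes, h1] at h2
  have h3 : (2 : M) * s = 0 := by
    linear_combination h2
  exact (mul_ne_zero two_ne_zero h.s0) h3

/-- `1, s` is a basis. -/
noncomputable def QD.basis [CharZero K] (h : QD D s σ) : Module.Basis (Fin 2) K M :=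
  basisOfLinearIndependentOfCardEqFinrank (b := ![1, s]) (by
    rw [LinearIndependent.pair_iff]
    intro a b hab
    rw [Algebra.smul_def, Algebra.smul_def, mul_one] at hab
    have hb : b = 0 := by
      by_contra hb
      have hb' : algebraMap K M b ≠ 0 := (_root_.map_ne_zero _).2 hb
      apply h.notK (-a / b)
      rw [map_div₀, map_neg, div_eq_iff hb']
      linear_combination -hab
    rw [hb, map_zero, zero_mul, add_zero] at hab
    exact ⟨(map_eq_zero _).1 hab, hb⟩) (by rw [Fintype.card_fin, h.rk])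

theorem QD.basis_coe [CharZero K] (h : QD D s σ) : ⇑h.basis = ![1, s] :=
  coe_basisOfLinearIndependentOfCardEqFinrank _ _

theorem QD.span [CharZero K] (h : QD D s σ) (x : M) :
    ∃ a b : K, x = algebraMap K M a + algebraMap K M b * s := by
  refine ⟨h.basis.repr x 0, h.basis.repr x 1, ?_⟩
  have h1 := h.basis.sum_repr x
  rw [Fin.sum_univ_two, h.basis_coe] at h1
  simp only [Matrix.cons_val_zero, Matrix.cons_val_one, Algebra.smul_def, mul_one] at h1
  exact h1.symm

theorem QD.co [CharZero K] (h : QD D s σ) (a b : K) :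
    h.basis.repr (algebraMap K M a + algebraMap K M b * s) 0 = a ∧
      h.basis.repr (algebraMap K M a + algebraMap K M b * s) 1 = b := by
  have e1 : algebraMap K M a + algebraMap K M b * s = a • h.basis 0 + b • h.basis 1 := by
    rw [h.basis_coe]
    simp only [Matrix.cons_val_zero, Matrix.cons_val_one, Algebra.smul_def, mul_one]
  rw [e1, map_add, map_smul, map_smul, Module.Basis.repr_self, Module.Basis.repr_self]
  constructor <;> simp

/-- The norm of `a + b s`. -/
theorem QD.norm_mk [CharZero K] (h : QD D s σ) (a b : K) :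
    Algebra.norm K (algebraMap K M a + algebraMap K M b * s) = a ^ 2 - D * b ^ 2 := by
  have key : Algebra.leftMulMatrix h.basis (algebraMap K M a + algebraMap K M b * s) =
      !![a, D * b; b, a] := by
    have e0 : (algebraMap K M a + algebraMap K M b * s) * h.basis 0 =
        algebraMap K M a + algebraMap K M b * s := by
      rw [h.basis_coe]
      simp
    have e1 : (algebraMap K M a + algebraMap K M b * s) * h.basis 1 =
        algebraMap K M (D * b) + algebraMap K M a * s := by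
      rw [h.basis_coe]
      simp only [Matrix.cons_val_one]
      rw [map_mul, ← h.sq]
      change _ * s = _
      ring
    obtain ⟨c0, c1⟩ := h.co a b
    obtain ⟨d0, d1⟩ := h.co (D * b) a
    ext i j
    rw [Algebra.leftMulMatrix_eq_repr_mul]
    fin_cases i <;> fin_cases j
    · change h.basis.repr (_ * h.basis 0) 0 = a
      rw [e0, c0]
    · change h.basis.repr (_ * h.basis 1) 0 = D * b
      rw [e1, d0]
    · change h.basis.repr (_ * h.basis 0) 1 = b
      rw [e0, c1]
    · change h.basis.repr (_ * h.basis 1) 1 = a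
      rw [e1, d1]
  rw [Algebra.norm_eq_matrix_det h.basis, key, Matrix.det_fin_two_of]
  ring

theorem QD.norm_eq [CharZero K] (h : QD D s σ) (x : M) :
    algebraMap K M (Algebra.norm K x) = x * σ x := by
  obtain ⟨a, b, rfl⟩ := h.span x
  rw [h.norm_mk, h.sig, map_sub, map_mul, map_pow, map_pow, ← h.sq]
  ring

theorem QD.sig_sig [CharZero K] (h : QD D s σ) (x : M) : σ (σ x) = x := by
  obtain ⟨a, b, rfl⟩ := h.span x
  rw [h.sig]
  have h1 := h.sig a (-b)
  rw [map_neg] at h1
  have e1 : algebraMap K M a - algebraMap K M b * s =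
      algebraMap K M a + -algebraMap K M b * s := by ring
  rw [e1, h1]
  ring

/-- Every automorphism is trivial or `σ`. -/
theorem QD.aut [CharZero K] (h : QD D s σ) (g : M ≃ₐ[K] M) :
    (∀ x, g x = x) ∨ ∀ x, g x = σ x := by
  have h1 : g s ^ 2 = s ^ 2 := by
    rw [← map_pow, h.sq, AlgEquiv.commutes]
  rcases sq_eq_sq_iff_eq_or_eq_neg.1 h1 with h2 | h2
  · left
    intro x
    obtain ⟨a, b, rfl⟩ := h.span x
    rw [map_add, map_mul, h2, AlgEquiv.commutes, AlgEquiv.commutes]
  · right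
    intro x
    obtain ⟨a, b, rfl⟩ := h.span x
    rw [map_add, map_mul, h2, AlgEquiv.commutes, AlgEquiv.commutes, h.sig]
    ring

end

end H36MX

end S_H36_MX_Qd

section S_H36_MX_Hb

set_option autoImplicit false
set_option linter.unusedSectionVars false
open scoped Classical

open WithZero NumberField IsDedekindDomain H38RT
open H38T1 (SC sc scu rep rep_ne sc_rep sc_mul sc_eq_zero sc_surj eo la si Pri OddP tp unif ka)
open H76PP

namespace H36MX

variable {K M : Type} [Field K] [NumberField K] [Field M] [NumberField M] [Algebra K M]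

private theorem Hb_ext {w w' : HeightOneSpectrum (𝓞 M)}
    (h : ∀ x : M, w.valuation M x = w'.valuation M x) : w = w' := by
  refine HeightOneSpectrum.ext (Ideal.ext fun x => ?_)
  rw [← w.valuation_lt_one_iff_mem (K := M) x, ← w'.valuation_lt_one_iff_mem (K := M) x, h]

private theorem Hb_nat (w : HeightOneSpectrum (𝓞 M)) (n : ℕ) : w.valuation M (n : M) ≤ 1 := by
  have e : algebraMap (𝓞 M) M (n : 𝓞 M) = (n : M) := map_natCast _ n
  rw [← e]
  exact w.valuation_le_one _

private theorem Hb_inv {D : K} {s : M} {σ : M ≃ₐ[K] M} (hQ : QD D s σ)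
    {v : HeightOneSpectrum (𝓞 K)} (hD : ¬ IsSquare (algebraMap K (v.adicCompletion K) D))
    {w w' : HeightOneSpectrum (𝓞 M)} (hw : dn K w = v)
    (h : ∀ x : M, w.valuation M (σ x) = w'.valuation M x) : w = w' := by
  by_contra hne
  have h8 : ∀ V : HeightOneSpectrum (𝓞 M), V.valuation M (8 * s) ≠ 0 := by
    intro V
    rw [Valuation.ne_zero_iff]
    exact mul_ne_zero (by norm_num) hQ.s0
  obtain ⟨x, hx⟩ := weak ({w, w'} : Finset (HeightOneSpectrum (𝓞 M)))
    (fun V => if V = w then s else -s) h8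
  have hx1 : w.valuation M (x - s) < w.valuation M (8 * s) := by
    have := hx w (by simp)
    rwa [if_pos rfl] at this
  have hx2 : w'.valuation M (x + s) < w'.valuation M (8 * s) := by
    have := hx w' (by simp)
    rw [if_neg (Ne.symm hne), sub_neg_eq_add] at this
    exact this
  have e8 : σ (8 * s) = -(8 * s) := by
    rw [map_mul, hQ.neg, map_ofNat]
    ring
  rw [← h, ← h, map_add, hQ.neg, e8, Valuation.map_neg] at hx2
  obtain ⟨a, b, rfl⟩ := hQ.span x
  rw [hQ.sig] at hx2
  have h3 : w.valuation M (2 * (algebraMap K M a - s)) < w.valuation M (8 * s) := by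
    have e1 : 2 * (algebraMap K M a - s) =
        (algebraMap K M a + algebraMap K M b * s - s) +
          (algebraMap K M a - algebraMap K M b * s + -s) := by ring
    rw [e1]
    exact Valuation.map_add_lt _ hx1 hx2
  have h4 : w.valuation M (algebraMap K M a - s) < w.valuation M (4 * s) := by
    have e1 : (8 : M) * s = 2 * (4 * s) := by ring
    rw [e1, map_mul, map_mul (w.valuation M) 2 (4 * s)] at h3
    exact lt_of_mul_lt_mul_left' h3
  have h5 : w.valuation M (4 * s) ≤ w.valuation M s := by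
    rw [map_mul]
    exact mul_le_of_le_one_left' (by simpa using Hb_nat w 4)
  have h6 : w.valuation M (algebraMap K M a + s) ≤ w.valuation M s := by
    have e1 : algebraMap K M a + s = (algebraMap K M a - s) + 2 * s := by ring
    rw [e1]
    refine Valuation.map_add_le _ (h4.le.trans h5) ?_
    rw [map_mul]
    exact mul_le_of_le_one_left' (by simpa using Hb_nat w 2)
  have hs0 : w.valuation M s ≠ 0 := (Valuation.ne_zero_iff _).2 hQ.s0
  have h7 : w.valuation M (algebraMap K M (a ^ 2 - D)) <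
      w.valuation M (algebraMap K M (4 * D)) := by
    have e1 : algebraMap K M (a ^ 2 - D) =
        (algebraMap K M a - s) * (algebraMap K M a + s) := by
      rw [map_sub, map_pow, ← hQ.sq]
      ring
    have e2 : algebraMap K M (4 * D) = (4 * s) * s := by
      rw [map_mul, map_ofNat, ← hQ.sq]
      ring
    rw [e1, e2, map_mul, map_mul (w.valuation M) (4 * s) s]
    calc w.valuation M (algebraMap K M a - s) * w.valuation M (algebraMap K M a + s)
        ≤ w.valuation M (algebraMap K M a - s) * w.valuation M s := mul_le_mul' le_rfl h6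
      _ < w.valuation M (4 * s) * w.valuation M s :=
        mul_lt_mul_of_pos_right h4 (zero_lt_iff.2 hs0)
  have h9 := (H36CY.val_lt_iff w (a ^ 2 - D) (4 * D)).1 h7
  rw [hw] at h9
  obtain ⟨r, hr0, hr⟩ := H36CY.sq_near' v h9
  apply hD
  refine ⟨algebraMap K (v.adicCompletion K) a / r, ?_⟩
  rw [map_pow] at hr
  rw [div_mul_div_comm, eq_div_iff (mul_ne_zero hr0 hr0)]
  linear_combination -hr

private theorem Hb_Nv (w : HeightOneSpectrum (𝓞 M)) :
    Nv w = Nv (dn K w) ^ (w.asIdeal.inertiaDeg (𝓞 K)) := by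
  have h1 : w.asIdeal.IsMaximal := w.isMaximal
  have h2 : (dn K w).asIdeal.IsMaximal := (dn K w).isMaximal
  have h3 : w.asIdeal.LiesOver (dn K w).asIdeal := ⟨rfl⟩
  have h4 : Ideal.relNorm (𝓞 K) w.asIdeal = (dn K w).asIdeal ^ (w.asIdeal.inertiaDeg (𝓞 K)) :=
    Ideal.relNorm_eq_pow_of_isMaximal w.asIdeal (dn K w).asIdeal
  have h5 := Ideal.absNorm_relNorm (R := 𝓞 K) (S := 𝓞 M) w.asIdeal
  rw [h4, map_pow] at h5
  exact h5.symm

private theorem Hb_e2 {k : Type} [Field k] [NumberField k] (v : HeightOneSpectrum (𝓞 k)) :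
    ord (v.valuation k) 2 = (H30ZO.e2 v : ℤ) := by
  rw [ord, H30ZO.e2_spec, log_exp, neg_neg]

private theorem Hb_prod (hfr : Module.finrank K M = 2) (v : HeightOneSpectrum (𝓞 K)) :
    ∏ w ∈ (fin_above (L := M) v).toFinset, H30ZO.qq w = H30ZO.qq v ^ 2 := by
  have h2L : (2 : M) ≠ 0 := two_ne_zero
  have hn : Algebra.norm K (2 : M) = 2 ^ 2 := by
    have e1 := Algebra.norm_algebraMap (R := K) (S := M) (2 : K)
    rw [hfr, map_ofNat] at e1
    exact e1
  have h1 := ord_norm (K := K) (L := M) v h2L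
  have h0 : ∑ᶠ w : {w : HeightOneSpectrum (𝓞 M) // dn K w = v},
        (w.1.asIdeal.inertiaDeg (𝓞 K) : ℤ) * ord (w.1.valuation M) 2 =
      ∑ w ∈ (fin_above (L := M) v).toFinset,
        (w.asIdeal.inertiaDeg (𝓞 K) : ℤ) * ord (w.valuation M) 2 := by
    rw [← finsum_mem_eq_finite_toFinset_sum (fun w : HeightOneSpectrum (𝓞 M) =>
      (w.asIdeal.inertiaDeg (𝓞 K) : ℤ) * ord (w.valuation M) 2) (fin_above (L := M) v)]
    exact finsum_set_coe_eq_finsum_mem {w : HeightOneSpectrum (𝓞 M) | dn K w = v}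
      (f := fun w => (w.asIdeal.inertiaDeg (𝓞 K) : ℤ) * ord (w.valuation M) 2)
  have h2k : (2 : K) ≠ 0 := two_ne_zero
  have h3 : ord (v.valuation K) ((2 : K) ^ 2) = 2 * (H30ZO.e2 v : ℤ) := by
    have e1 : (2 : K) ^ 2 = 2 * 2 := by ring
    rw [e1, ord_mul h2k h2k, Hb_e2]
    ring
  rw [h0, hn, h3] at h1
  have h4 : 2 * H30ZO.e2 v = ∑ w ∈ (fin_above (L := M) v).toFinset,
      w.asIdeal.inertiaDeg (𝓞 K) * H30ZO.e2 w := by
    have e1 : ((2 * H30ZO.e2 v : ℕ) : ℤ) = ((∑ w ∈ (fin_above (L := M) v).toFinset,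
        w.asIdeal.inertiaDeg (𝓞 K) * H30ZO.e2 w : ℕ) : ℤ) := by
      push_cast
      rw [h1]
      refine Finset.sum_congr rfl fun w _ => ?_
      rw [Hb_e2]
    exact_mod_cast e1
  have h5 : ∀ w ∈ (fin_above (L := M) v).toFinset,
      H30ZO.qq w = Nv v ^ (w.asIdeal.inertiaDeg (𝓞 K) * H30ZO.e2 w) := by
    intro w hw
    have e1 : dn K w = v := by
      have := (Set.Finite.mem_toFinset _).1 hw
      exact this
    rw [H30ZO.qq, Hb_Nv (K := K) w, e1, ← pow_mul]
  rw [Finset.prod_congr rfl h5, Finset.prod_pow_eq_pow_sum, ← h4, H30ZO.qq, ← pow_mul, mul_comm]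

theorem quad_place {D : K} {s : M} {σ : M ≃ₐ[K] M} (hQ : QD D s σ)
    (v : HeightOneSpectrum (𝓞 K)) (hD : ¬ IsSquare (algebraMap K (v.adicCompletion K) D)) :
    ∃ w : HeightOneSpectrum (𝓞 M), dn K w = v ∧
      (∀ x : M, w.valuation M (σ x) = w.valuation M x) ∧ H30ZO.qq w = H30ZO.qq v ^ 2 := by
  obtain ⟨w, hw⟩ := exists_above (L := M) v
  obtain ⟨w', h1, -⟩ := Pool.Agent.H10.exists_conj σ w
  have hww : w = w' := Hb_inv hQ hD hw h1
  subst hww
  refine ⟨w, hw, h1, ?_⟩
  have iq : Algebra.IsQuadraticExtension K M := { finrank_eq_two' := hQ.rk }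
  have ig : IsGalois K M := inferInstance
  have huniq : (fin_above (L := M) v).toFinset = {w} := by
    ext w1
    rw [Set.Finite.mem_toFinset, Finset.mem_singleton, Set.mem_setOf_eq]
    constructor
    · intro h2
      obtain ⟨g, hg⟩ := H36CY.conj_exists (K := K) (W := w) (W' := w1) (by rw [h2, hw])
      apply Hb_ext
      intro x
      rw [hg]
      rcases hQ.aut g with h3 | h3
      · rw [h3]
      · rw [h3, h1]
    · rintro rfl
      exact hw
  have h4 := Hb_prod (K := K) (M := M) hQ.rk v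
  rw [huniq, Finset.prod_singleton] at h4
  exact h4

end H36MX

end S_H36_MX_Hb

section S_H36_MX_Hd

set_option autoImplicit false
set_option linter.unusedSectionVars false
open scoped Classical

open WithZero NumberField IsDedekindDomain H38RT
open H38T1 (SC sc scu rep rep_ne sc_rep sc_mul sc_eq_zero sc_surj eo la si Pri OddP tp unif ka)
open H76PP

namespace H36MX

variable {K M : Type} [Field K] [NumberField K] [Field M] [NumberField M] [Algebra K M]

private theorem Hd_le {N : Type} [Field N] [NumberField N] (u : HeightOneSpectrum (𝓞 N)) (n : ℕ) :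
    u.valuation N (n : N) ≤ 1 := by
  have h := u.valuation_le_one (K := N) (n : 𝓞 N)
  have e : algebraMap (𝓞 N) N (n : 𝓞 N) = (n : N) := map_natCast (algebraMap (𝓞 N) N) n
  rw [← e]
  exact h

/-- An element of `N^*` that is a square in the completion is close to a square of `N`. -/
private theorem Hd_near {N : Type} [Field N] [NumberField N] (u : HeightOneSpectrum (𝓞 N)) {x : N}
    (hx : x ≠ 0) (h : IsSquare (algebraMap N (u.adicCompletion N) x)) (n : ℕ) (hn : n ≠ 0) :
    ∃ t : N, t ≠ 0 ∧ u.valuation N (x - t ^ 2) < u.valuation N ((n : N) * t ^ 2) := by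
  have _ := H36CY.char_zero u
  obtain ⟨r, hr⟩ := h
  have hx' : algebraMap N (u.adicCompletion N) x ≠ 0 := (_root_.map_ne_zero _).2 hx
  have hr0 : r ≠ 0 := by
    rintro rfl
    rw [mul_zero] at hr
    exact hx' hr
  have hnr : (n : u.adicCompletion N) ≠ 0 := Nat.cast_ne_zero.2 hn
  obtain ⟨t, ht⟩ := H36CY.near_coe u r (mul_ne_zero hnr hr0)
  have hn1 : Valued.v (n : u.adicCompletion N) ≤ 1 := by
    have h1 := Hd_le u n
    rw [← H36CY.val_coe, map_natCast] at h1
    exact h1
  have hr1 : Valued.v r ≠ 0 := (Valuation.ne_zero_iff _).2 hr0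
  have hlt : Valued.v (algebraMap N (u.adicCompletion N) t - r) < Valued.v r := by
    refine lt_of_lt_of_le ht ?_
    rw [map_mul]
    calc Valued.v (n : u.adicCompletion N) * Valued.v r ≤ 1 * Valued.v r := by gcongr
      _ = Valued.v r := one_mul _
  have heq : Valued.v (algebraMap N (u.adicCompletion N) t) = Valued.v r :=
    Valuation.map_eq_of_sub_lt _ hlt
  have ht0 : t ≠ 0 := by
    rintro rfl
    rw [map_zero, map_zero] at heq
    exact hr1 heq.symm
  refine ⟨t, ht0, ?_⟩
  rw [← H36CY.val_coe, ← H36CY.val_coe, map_sub, map_mul, map_pow, hr, map_natCast]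
  have e1 : r * r - algebraMap N (u.adicCompletion N) t ^ 2 =
      -((algebraMap N (u.adicCompletion N) t - r) * (algebraMap N (u.adicCompletion N) t + r)) := by
    ring
  rw [e1, Valuation.map_neg, map_mul, map_mul, map_pow, heq]
  have h3 : Valued.v (algebraMap N (u.adicCompletion N) t + r) ≤ Valued.v r := by
    refine (Valuation.map_add _ _ _).trans (max_le heq.le le_rfl)
  rw [map_mul] at ht
  calc Valued.v (algebraMap N (u.adicCompletion N) t - r) *
        Valued.v (algebraMap N (u.adicCompletion N) t + r)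
      ≤ Valued.v (algebraMap N (u.adicCompletion N) t - r) * Valued.v r := by gcongr
    _ < Valued.v (n : u.adicCompletion N) * Valued.v r * Valued.v r :=
        mul_lt_mul_of_pos_right ht (zero_lt_iff.2 hr1)
    _ = Valued.v (n : u.adicCompletion N) * Valued.v r ^ 2 := by rw [mul_assoc, pow_two]

/-- Multiplication of a strict inequality, in the value group with zero. -/
private theorem Hd_mul {Γ : Type*} [LinearOrderedCommGroupWithZero Γ] {a b c : Γ} (h : a < b)
    (hc : c ≠ 0) : c * a < c * b := by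
  exact mul_lt_mul_of_pos_left h (zero_lt_iff.2 hc)

private theorem Hd_cancel {Γ : Type*} [LinearOrderedCommGroupWithZero Γ] {a b c : Γ}
    (h : c * a < c * b) : a < b := lt_of_mul_lt_mul_left' h

theorem sq_norm {D : K} {s : M} {σ : M ≃ₐ[K] M} (hQ : QD D s σ)
    {w : HeightOneSpectrum (𝓞 M)} (hσ : ∀ x : M, w.valuation M (σ x) = w.valuation M x) {x : M}
    (hx : x ≠ 0) (h : IsSquare (algebraMap M (w.adicCompletion M) x)) :
    IsSquare (algebraMap K ((dn K w).adicCompletion K) (Algebra.norm K x)) := by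
  obtain ⟨t, ht0, ht⟩ := Hd_near w hx h 8 (by norm_num)
  have h8 : w.valuation M ((8 : ℕ) : M) ≤ 1 := Hd_le w 8
  have h2 : w.valuation M ((2 : ℕ) : M) ≤ 1 := Hd_le w 2
  have hV8 : w.valuation M ((8 : ℕ) : M) ≤ w.valuation M ((4 : ℕ) : M) := by
    have e : ((8 : ℕ) : M) = ((2 : ℕ) : M) * ((4 : ℕ) : M) := by norm_num
    rw [e, map_mul]
    calc w.valuation M ((2 : ℕ) : M) * w.valuation M ((4 : ℕ) : M)
        ≤ 1 * w.valuation M ((4 : ℕ) : M) := by gcongr
      _ = _ := one_mul _
  have hxt : w.valuation M x = w.valuation M (t ^ 2) := by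
    apply Valuation.map_eq_of_sub_lt
    refine lt_of_lt_of_le ht ?_
    rw [map_mul]
    calc w.valuation M ((8 : ℕ) : M) * w.valuation M (t ^ 2) ≤ 1 * w.valuation M (t ^ 2) := by
          gcongr
      _ = _ := one_mul _
  have ht2 : w.valuation M (t ^ 2) ≠ 0 := (Valuation.ne_zero_iff _).2 (pow_ne_zero 2 ht0)
  have key : w.valuation M (algebraMap K M (Algebra.norm K x - (Algebra.norm K t) ^ 2)) <
      w.valuation M (algebraMap K M (4 * (Algebra.norm K t) ^ 2)) := by
    have e1 : algebraMap K M (Algebra.norm K x - (Algebra.norm K t) ^ 2) =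
        (x - t ^ 2) * σ x + t ^ 2 * σ (x - t ^ 2) := by
      rw [map_sub, map_pow, hQ.norm_eq, hQ.norm_eq, map_sub, map_pow]
      ring
    have e2 : algebraMap K M (4 * (Algebra.norm K t) ^ 2) = ((4 : ℕ) : M) * (t ^ 2 * σ (t ^ 2)) := by
      rw [map_mul, map_pow, hQ.norm_eq, map_pow, map_ofNat]
      push_cast
      ring
    have e3 : w.valuation M (((8 : ℕ) : M) * t ^ 2 * t ^ 2) ≤
        w.valuation M (((4 : ℕ) : M) * (t ^ 2 * σ (t ^ 2))) := by
      rw [map_mul, map_mul, map_mul, map_mul, hσ, mul_assoc]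
      gcongr
    rw [e1, e2]
    refine lt_of_lt_of_le ?_ e3
    apply Valuation.map_add_lt
    · rw [map_mul, hσ, hxt, map_mul _ (((8 : ℕ) : M) * t ^ 2)]
      exact mul_lt_mul_of_pos_right ht (zero_lt_iff.2 ht2)
    · rw [map_mul, hσ, map_mul _ (((8 : ℕ) : M) * t ^ 2), mul_comm]
      exact mul_lt_mul_of_pos_right ht (zero_lt_iff.2 ht2)
  rw [H36CY.val_lt_iff] at key
  obtain ⟨r, _, hr⟩ := H36CY.sq_near' (dn K w) key
  rw [hr, map_pow]
  exact ⟨algebraMap K ((dn K w).adicCompletion K) (Algebra.norm K t) * r, by ring⟩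

theorem norm_sq {D : K} {s : M} {σ : M ≃ₐ[K] M} (hQ : QD D s σ)
    {w : HeightOneSpectrum (𝓞 M)} (hσ : ∀ x : M, w.valuation M (σ x) = w.valuation M x) {x : M}
    (hx : x ≠ 0) (h : IsSquare (algebraMap K ((dn K w).adicCompletion K) (Algebra.norm K x))) :
    ∃ k : K, k ≠ 0 ∧ IsSquare (algebraMap M (w.adicCompletion M) (x * algebraMap K M k)) := by
  have hσ0 : ∀ y : M, y ≠ 0 → σ y ≠ 0 := fun y hy => (_root_.map_ne_zero σ).2 hy
  have hN0 : ∀ y : M, y ≠ 0 → Algebra.norm K y ≠ 0 := by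
    intro y hy h0
    have h1 := hQ.norm_eq y
    rw [h0, map_zero] at h1
    exact mul_ne_zero hy (hσ0 y hy) h1.symm
  obtain ⟨r, hr0, hr⟩ := Hd_near (dn K w) (hN0 x hx) h 64 (by norm_num)
  rw [← H36CY.val_lt_iff] at hr
  obtain ⟨R, hR⟩ : ∃ R : M, R = algebraMap K M r := ⟨_, rfl⟩
  have hR0 : R ≠ 0 := by rw [hR]; exact (_root_.map_ne_zero _).2 hr0
  obtain ⟨ε, hε⟩ : ∃ ε : M, ε = algebraMap K M (Algebra.norm K x) / R ^ 2 - 1 := ⟨_, rfl⟩
  have hεv : w.valuation M ε < w.valuation M ((64 : ℕ) : M) := by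
    have e1 : algebraMap K M (Algebra.norm K x - r ^ 2) = R ^ 2 * ε := by
      rw [hε, map_sub, map_pow, ← hR]
      field_simp
    have e2 : algebraMap K M (((64 : ℕ) : K) * r ^ 2) = R ^ 2 * ((64 : ℕ) : M) := by
      rw [map_mul, map_pow, ← hR, map_natCast]
      ring
    rw [e1, e2, map_mul, map_mul _ (R ^ 2)] at hr
    exact Hd_cancel hr
  have main : ∀ δ : K, δ ^ 2 = 1 →
      w.valuation M ((2 : ℕ) : M) ≤ w.valuation M (1 + algebraMap K M δ * x / R) →
      ∃ k : K, k ≠ 0 ∧ IsSquare (algebraMap M (w.adicCompletion M) (x * algebraMap K M k)) := by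
    intro δ hδ hz
    obtain ⟨z, hzd⟩ : ∃ z : M, z = 1 + algebraMap K M δ * x / R := ⟨_, rfl⟩
    rw [← hzd] at hz
    have hδM : (algebraMap K M δ) ^ 2 = 1 := by rw [← map_pow, hδ, map_one]
    have h20 : w.valuation M ((2 : ℕ) : M) ≠ 0 :=
      (Valuation.ne_zero_iff _).2 (Nat.cast_ne_zero.2 (by norm_num))
    have hzv0 : w.valuation M z ≠ 0 := fun h0 => by
      rw [h0] at hz
      exact h20 (le_antisymm hz zero_le)
    have hz0 : z ≠ 0 := (Valuation.ne_zero_iff _).1 hzv0
    have hδ0 : δ ≠ 0 := by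
      rintro rfl
      norm_num at hδ
    have hσz : σ z = 1 + algebraMap K M δ * σ x / R := by
      rw [hzd, map_add, map_one, map_div₀, map_mul, AlgEquiv.commutes, hR, AlgEquiv.commutes]
    have hmul : algebraMap K M δ * x / R * σ z = z + ε := by
      rw [hσz, hzd, hε, hQ.norm_eq]
      have e4 : algebraMap K M δ * x / R * (1 + algebraMap K M δ * σ x / R) =
          algebraMap K M δ * x / R + (algebraMap K M δ) ^ 2 * (x * σ x) / R ^ 2 := by
        field_simp
      rw [e4, hδM]
      ring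
    refine ⟨δ * Algebra.norm K z / r, div_ne_zero (mul_ne_zero hδ0 (hN0 z hz0)) hr0, ?_⟩
    have e5 : x * algebraMap K M (δ * Algebra.norm K z / r) = z * (z + ε) := by
      rw [← hmul, map_div₀, map_mul, hQ.norm_eq, ← hR]
      ring
    have key : w.valuation M (z * (z + ε) - z ^ 2) < w.valuation M (4 * z ^ 2) := by
      have e6 : z * (z + ε) - z ^ 2 = z * ε := by ring
      have e7 : (4 : M) * z ^ 2 = z * (((4 : ℕ) : M) * z) := by push_cast; ring
      rw [e6, e7, map_mul, map_mul _ z]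
      apply Hd_mul _ hzv0
      refine lt_of_lt_of_le hεv ?_
      have e8 : ((64 : ℕ) : M) = ((8 : ℕ) : M) * (((4 : ℕ) : M) * ((2 : ℕ) : M)) := by norm_num
      rw [e8, map_mul, map_mul, map_mul]
      calc w.valuation M ((8 : ℕ) : M) * (w.valuation M ((4 : ℕ) : M) *
            w.valuation M ((2 : ℕ) : M))
          ≤ 1 * (w.valuation M ((4 : ℕ) : M) * w.valuation M z) := by
            gcongr
            exact Hd_le w 8
        _ = _ := one_mul _
    obtain ⟨ρ, _, hρ⟩ := H36CY.sq_near' w key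
    rw [e5, hρ, map_pow]
    exact ⟨algebraMap M (w.adicCompletion M) z * ρ, by ring⟩
  have h2 : w.valuation M ((2 : ℕ) : M) ≤
      max (w.valuation M (1 + algebraMap K M 1 * x / R))
        (w.valuation M (1 + algebraMap K M (-1) * x / R)) := by
    have e9 : ((2 : ℕ) : M) = (1 + algebraMap K M 1 * x / R) + (1 + algebraMap K M (-1) * x / R) := by
      rw [map_neg, map_one]
      push_cast
      ring
    rw [e9]
    exact Valuation.map_add _ _ _
  rcases le_max_iff.1 h2 with h3 | h3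
  · exact main 1 (by norm_num) h3
  · exact main (-1) (by norm_num) h3

theorem K_sq {D : K} {s : M} {σ : M ≃ₐ[K] M} (hQ : QD D s σ)
    {w : HeightOneSpectrum (𝓞 M)} (hσ : ∀ x : M, w.valuation M (σ x) = w.valuation M x) {k : K}
    (hk : k ≠ 0) (h : IsSquare (algebraMap M (w.adicCompletion M) (algebraMap K M k))) :
    IsSquare (algebraMap K ((dn K w).adicCompletion K) k) ∨
      IsSquare (algebraMap K ((dn K w).adicCompletion K) (k * D)) := by
  have hkM : algebraMap K M k ≠ 0 := (_root_.map_ne_zero _).2 hk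
  obtain ⟨t, ht0, ht⟩ := Hd_near w hkM h 8 (by norm_num)
  obtain ⟨a, b, hab⟩ := hQ.span t
  obtain ⟨A, hA⟩ : ∃ A : M, A = algebraMap K M a := ⟨_, rfl⟩
  obtain ⟨B, hB⟩ : ∃ B : M, B = algebraMap K M b * s := ⟨_, rfl⟩
  rw [← hA, ← hB] at hab
  have hσt : σ t = A - B := by
    rw [hab, hA, hB]
    exact hQ.sig a b
  have hB2 : B ^ 2 = algebraMap K M (D * b ^ 2) := by
    rw [hB, mul_pow, hQ.sq, map_mul, map_pow]
    ring
  have hA2 : A ^ 2 = algebraMap K M (a ^ 2) := by rw [hA, map_pow]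
  have h20 : w.valuation M ((2 : ℕ) : M) ≠ 0 :=
    (Valuation.ne_zero_iff _).2 (Nat.cast_ne_zero.2 (by norm_num))
  have ht1 : w.valuation M t ≠ 0 := (Valuation.ne_zero_iff _).2 ht0
  -- the difference of the two squares
  have hd1 : w.valuation M (σ (algebraMap K M k - t ^ 2)) < w.valuation M (((8 : ℕ) : M) * t ^ 2) := by
    rw [hσ]
    exact ht
  have hd2 : w.valuation M (((2 : ℕ) : M) * (((2 : ℕ) : M) * (A * B))) <
      w.valuation M (((2 : ℕ) : M) * (((4 : ℕ) : M) * t ^ 2)) := by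
    have e1 : ((2 : ℕ) : M) * (((2 : ℕ) : M) * (A * B)) =
        σ (algebraMap K M k - t ^ 2) - (algebraMap K M k - t ^ 2) := by
      rw [map_sub, map_pow, AlgEquiv.commutes, hσt, hab]
      push_cast
      ring
    have e2 : ((2 : ℕ) : M) * (((4 : ℕ) : M) * t ^ 2) = ((8 : ℕ) : M) * t ^ 2 := by
      push_cast
      ring
    rw [e1, e2]
    exact Valuation.map_sub_lt _ hd1 ht
  have hd3 : w.valuation M (((2 : ℕ) : M) * (A * B)) < w.valuation M (((4 : ℕ) : M) * t ^ 2) := by
    rw [map_mul _ ((2 : ℕ) : M), map_mul _ ((2 : ℕ) : M) (((4 : ℕ) : M) * t ^ 2)] at hd2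
    exact Hd_cancel hd2
  have hV8 : w.valuation M (((8 : ℕ) : M) * t ^ 2) ≤ w.valuation M (((4 : ℕ) : M) * t ^ 2) := by
    have e : ((8 : ℕ) : M) * t ^ 2 = ((2 : ℕ) : M) * (((4 : ℕ) : M) * t ^ 2) := by
      push_cast
      ring
    rw [e, map_mul]
    calc w.valuation M ((2 : ℕ) : M) * w.valuation M (((4 : ℕ) : M) * t ^ 2)
        ≤ 1 * w.valuation M (((4 : ℕ) : M) * t ^ 2) := by
          gcongr
          exact Hd_le w 2
      _ = _ := one_mul _
  have hd4 : w.valuation M (algebraMap K M k - (A ^ 2 + B ^ 2)) <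
      w.valuation M (((4 : ℕ) : M) * t ^ 2) := by
    have e1 : algebraMap K M k - (A ^ 2 + B ^ 2) =
        (algebraMap K M k - t ^ 2) + ((2 : ℕ) : M) * (A * B) := by
      rw [hab]
      push_cast
      ring
    rw [e1]
    exact Valuation.map_add_lt _ (lt_of_lt_of_le ht hV8) hd3
  -- the general step
  have step : ∀ X Y : M, ((2 : ℕ) : M) * (X * Y) = ((2 : ℕ) : M) * (A * B) →
      X ^ 2 + Y ^ 2 = A ^ 2 + B ^ 2 → w.valuation M t ≤ w.valuation M X →
      w.valuation M (algebraMap K M k - X ^ 2) < w.valuation M (4 * X ^ 2) := by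
    intro X Y hXY hXY2 hX
    have hX0 : w.valuation M X ≠ 0 := fun h0 => by
      rw [h0] at hX
      exact ht1 (le_antisymm hX zero_le)
    have h1 : w.valuation M ((2 : ℕ) : M) * (w.valuation M X * w.valuation M Y) <
        w.valuation M ((2 : ℕ) : M) *
          (w.valuation M X * (w.valuation M ((2 : ℕ) : M) * w.valuation M t)) := by
      rw [← map_mul, ← map_mul, hXY]
      refine lt_of_lt_of_le hd3 ?_
      have e1 : ((4 : ℕ) : M) * t ^ 2 = ((2 : ℕ) : M) * (t * (((2 : ℕ) : M) * t)) := by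
        push_cast
        ring
      rw [e1, map_mul, map_mul, map_mul]
      gcongr
    have h2 : w.valuation M Y < w.valuation M (((2 : ℕ) : M) * t) := by
      rw [map_mul]
      exact Hd_cancel (Hd_cancel h1)
    have h3 : w.valuation M (Y ^ 2) < w.valuation M (((4 : ℕ) : M) * t ^ 2) := by
      have e1 : ((4 : ℕ) : M) * t ^ 2 = (((2 : ℕ) : M) * t) ^ 2 := by
        push_cast
        ring
      rw [e1, map_pow, map_pow]
      exact pow_lt_pow_left₀ h2 zero_le (by norm_num)
    have h4 : w.valuation M (((4 : ℕ) : M) * t ^ 2) ≤ w.valuation M (4 * X ^ 2) := by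
      have e1 : (4 : M) * X ^ 2 = ((4 : ℕ) : M) * X ^ 2 := by push_cast; ring
      rw [e1, map_mul, map_mul, map_pow, map_pow]
      gcongr
    refine lt_of_lt_of_le ?_ h4
    have e2 : algebraMap K M k - X ^ 2 = (algebraMap K M k - (A ^ 2 + B ^ 2)) + Y ^ 2 := by
      rw [← hXY2]
      ring
    rw [e2]
    exact Valuation.map_add_lt _ hd4 h3
  have hmax : w.valuation M t ≤ max (w.valuation M A) (w.valuation M B) := by
    rw [hab]
    exact Valuation.map_add _ _ _
  rcases le_max_iff.1 hmax with h1 | h1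
  · left
    have h2 := step A B rfl rfl h1
    have e1 : algebraMap K M k - A ^ 2 = algebraMap K M (k - a ^ 2) := by
      rw [hA2, map_sub]
    have e2 : (4 : M) * A ^ 2 = algebraMap K M (4 * a ^ 2) := by
      rw [hA2, map_mul, map_ofNat]
    rw [e1, e2, H36CY.val_lt_iff] at h2
    obtain ⟨r, _, hr⟩ := H36CY.sq_near' (dn K w) h2
    rw [hr, map_pow]
    exact ⟨algebraMap K ((dn K w).adicCompletion K) a * r, by ring⟩
  · right
    have h2 := step B A (by ring) (by ring) h1
    have e1 : algebraMap K M k - B ^ 2 = algebraMap K M (k - D * b ^ 2) := by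
      rw [hB2, map_sub]
    have e2 : (4 : M) * B ^ 2 = algebraMap K M (4 * (D * b ^ 2)) := by
      rw [hB2, map_mul _ 4, map_ofNat]
    rw [e1, e2, H36CY.val_lt_iff] at h2
    obtain ⟨r, _, hr⟩ := H36CY.sq_near' (dn K w) h2
    rw [map_mul, hr, map_mul, map_pow]
    exact ⟨algebraMap K ((dn K w).adicCompletion K) D *
      algebraMap K ((dn K w).adicCompletion K) b * r, by ring⟩

end H36MX

end S_H36_MX_Hd

section S_H36_MX_Hc

set_option autoImplicit false
set_option linter.unusedSectionVars false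
open scoped Classical

open WithZero NumberField IsDedekindDomain H38RT
open H38T1 (SC sc scu rep rep_ne sc_rep sc_mul sc_eq_zero sc_surj eo la si Pri OddP tp unif ka)
open H76PP

namespace H36MX

section HcAux

private theorem Hc_qq_pos {K : Type} [Field K] [NumberField K] (v : HeightOneSpectrum (𝓞 K)) :
    0 < H30ZO.qq v := by
  unfold H30ZO.qq Nv
  refine Nat.pow_pos (Nat.pos_of_ne_zero ?_)
  rw [Ne, Ideal.absNorm_eq_zero_iff]
  exact v.ne_bot

private theorem Hc_neg {F : Type} [Field F] (c : SC F) : -c = c := by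
  rw [neg_eq_iff_add_eq_zero, ← two_nsmul]
  exact H38T1.SC.two_smul c

private theorem Hc_sc_sq {F : Type} [Field F] {x : F} (hx : x ≠ 0) : sc (x ^ 2) = 0 := by
  rw [H38T1.sc_eq_zero (pow_ne_zero _ hx), sq]
  exact ⟨_, rfl⟩

variable {K M : Type} [Field K] [NumberField K] [Field M] [NumberField M] [Algebra K M]

private theorem Hc_fd : FiniteDimensional K M := Module.Finite.of_restrictScalars_finite ℚ K M

private theorem Hc_norm_ne {y : M} (hy : y ≠ 0) : Algebra.norm K y ≠ 0 := by
  have _ : FiniteDimensional K M := Hc_fd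
  exact Algebra.norm_ne_zero_iff.2 hy

/-- the subgroup of norm classes -/
private noncomputable def Hc_U (K : Type) {M : Type} [Field K] [NumberField K] [Field M]
    [NumberField M] [Algebra K M] (w : HeightOneSpectrum (𝓞 M)) : AddSubgroup (SC K) :=
  H30ZO.Sq (dn K w) ⊔ (scm (Algebra.norm K : M →* K)).range

private theorem Hc_index {D : K} {s : M} {σ : M ≃ₐ[K] M} (hQ : QD D s σ)
    {w : HeightOneSpectrum (𝓞 M)} (hσ : ∀ x : M, w.valuation M (σ x) = w.valuation M x)
    (hqq : H30ZO.qq w = H30ZO.qq (dn K w) ^ 2)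
    (hD : ¬ IsSquare (algebraMap K ((dn K w).adicCompletion K) D)) :
    (Hc_U K w).index = 2 := by
  have hfd : FiniteDimensional K M := Hc_fd
  obtain ⟨N, hN⟩ : ∃ N : SC M →+ SC K, N = scm (Algebra.norm K : M →* K) := ⟨_, rfl⟩
  obtain ⟨j, hj⟩ : ∃ j : SC K →+ SC M, j = scm ((algebraMap K M : K →+* M) : K →* M) := ⟨_, rfl⟩
  have hNsc : ∀ {y : M}, y ≠ 0 → N (sc y) = sc (Algebra.norm K y) := fun {y} hy => by
    rw [hN, scm_sc _ hy]
  have hjsc : ∀ {k : K}, k ≠ 0 → j (sc k) = sc (algebraMap K M k) := fun {k} hk => by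
    rw [hj, scm_sc _ hk]
    rfl
  have hinj : ∀ {k : K}, k ≠ 0 → algebraMap K M k ≠ 0 := fun {k} hk => (_root_.map_ne_zero _).2 hk
  obtain ⟨Sv, hSv⟩ : ∃ Sv : AddSubgroup (SC K), Sv = H30ZO.Sq (dn K w) := ⟨_, rfl⟩
  obtain ⟨Sw, hSw⟩ : ∃ Sw : AddSubgroup (SC M), Sw = H30ZO.Sq w := ⟨_, rfl⟩
  have hSvi : Sv.index = 4 * H30ZO.qq (dn K w) := by rw [hSv]; exact H30ZO.index_Sq _
  have hSwi : Sw.index = 4 * H30ZO.qq (dn K w) ^ 2 := by
    rw [hSw, ← hqq]; exact H30ZO.index_Sq _
  have hq := Hc_qq_pos (dn K w)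
  -- the preimage of the squares under the norm
  have hP : Sv.comap N = Sw ⊔ j.range := by
    apply le_antisymm
    · intro c hc
      obtain ⟨x, hx, rfl⟩ := H38T1.sc_surj c
      rw [AddSubgroup.mem_comap, hNsc hx, hSv, H30ZO.mem_Sq (Hc_norm_ne hx)] at hc
      obtain ⟨k, hk, h⟩ := norm_sq hQ hσ hx hc
      have h1 : sc (x * algebraMap K M k) ∈ Sw := by
        rw [hSw, H30ZO.mem_Sq (mul_ne_zero hx (hinj hk))]
        exact h
      rw [H38T1.sc_mul hx (hinj hk), ← hjsc hk] at h1
      have h2 : sc x = (sc x + j (sc k)) + j (sc k) := by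
        rw [add_assoc, ← two_nsmul, H38T1.SC.two_smul, add_zero]
      rw [h2]
      exact AddSubgroup.add_mem _ (AddSubgroup.mem_sup_left h1)
        (AddSubgroup.mem_sup_right ⟨sc k, rfl⟩)
    · refine sup_le ?_ ?_
      · intro c hc
        obtain ⟨x, hx, rfl⟩ := H38T1.sc_surj c
        rw [hSw, H30ZO.mem_Sq hx] at hc
        rw [AddSubgroup.mem_comap, hNsc hx, hSv, H30ZO.mem_Sq (Hc_norm_ne hx)]
        exact sq_norm hQ hσ hx hc
      · rintro _ ⟨c, rfl⟩
        obtain ⟨k, hk, rfl⟩ := H38T1.sc_surj c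
        rw [AddSubgroup.mem_comap, hjsc hk, hNsc (hinj hk), Algebra.norm_algebraMap, hQ.rk,
          Hc_sc_sq hk]
        exact AddSubgroup.zero_mem _
  -- the classes of `K` which become squares
  have hle : Sv ≤ Sw.comap j := by
    intro c hc
    obtain ⟨k, hk, rfl⟩ := H38T1.sc_surj c
    rw [hSv, H30ZO.mem_Sq hk] at hc
    rw [AddSubgroup.mem_comap, hjsc hk, hSw, H30ZO.mem_Sq (hinj hk)]
    have h1 := hc.map (H36CY.over_dn (K := K) w).map
    rwa [Pool.Agent.H10.Over.map_algebraMap] at h1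
  have hD0 := hQ.D0
  have hrel : Sv.relIndex (Sw.comap j) = 2 := by
    rw [AddSubgroup.relIndex_eq_two_iff_exists_notMem_and]
    refine ⟨sc D, ?_, ?_, ?_⟩
    · rw [AddSubgroup.mem_comap, hjsc hD0, ← hQ.sq, Hc_sc_sq hQ.s0]
      exact AddSubgroup.zero_mem _
    · rw [hSv, H30ZO.mem_Sq hD0]
      exact hD
    · intro b hb
      obtain ⟨k, hk, rfl⟩ := H38T1.sc_surj b
      rw [AddSubgroup.mem_comap, hjsc hk, hSw, H30ZO.mem_Sq (hinj hk)] at hb
      rw [← H38T1.sc_mul hk hD0, hSv, H30ZO.mem_Sq hk, H30ZO.mem_Sq (mul_ne_zero hk hD0)]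
      exact (K_sq hQ hσ hk hb).symm
  have hcj : (Sw.comap j).index = 2 * H30ZO.qq (dn K w) := by
    have h1 := AddSubgroup.relIndex_mul_index hle
    rw [hrel, hSvi] at h1
    omega
  have hPw : Sw.relIndex (Sv.comap N) = 2 * H30ZO.qq (dn K w) := by
    rw [hP, AddSubgroup.relIndex_sup_left, ← AddSubgroup.index_comap]
    exact hcj
  have hPi : (Sv.comap N).index = 2 * H30ZO.qq (dn K w) := by
    have h0 : Sw ≤ Sv.comap N := by
      rw [hP]
      exact le_sup_left
    have h1 := AddSubgroup.relIndex_mul_index h0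
    rw [hPw, hSwi] at h1
    have h2 : 2 * H30ZO.qq (dn K w) * (Sv.comap N).index =
        2 * H30ZO.qq (dn K w) * (2 * H30ZO.qq (dn K w)) := by
      rw [h1]
      ring
    exact Nat.eq_of_mul_eq_mul_left (by omega) h2
  rw [AddSubgroup.index_comap] at hPi
  have hUrel : Sv.relIndex (Sv ⊔ N.range) = 2 * H30ZO.qq (dn K w) := by
    rw [AddSubgroup.relIndex_sup_left]
    exact hPi
  have h1 := AddSubgroup.relIndex_mul_index (le_sup_left : Sv ≤ Sv ⊔ N.range)
  rw [hUrel, hSvi] at h1
  have h3 : Hc_U K w = Sv ⊔ N.range := by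
    rw [hSv, hN]
    rfl
  rw [h3]
  have h2 : 2 * H30ZO.qq (dn K w) * (Sv ⊔ N.range).index = 2 * H30ZO.qq (dn K w) * 2 := by
    rw [h1]
    ring
  exact Nat.eq_of_mul_eq_mul_left (by omega) h2

private theorem Hc_sol {D : K} {s : M} {σ : M ≃ₐ[K] M} (hQ : QD D s σ)
    {w : HeightOneSpectrum (𝓞 M)} {b : K} (hb : b ≠ 0) (h : sc b ∈ Hc_U K w) :
    Sol (algebraMap K ((dn K w).adicCompletion K) D)
      (algebraMap K ((dn K w).adicCompletion K) b) := by
  have _ := H36CY.char_zero (dn K w)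
  have hinjF : ∀ {k : K}, k ≠ 0 → algebraMap K ((dn K w).adicCompletion K) k ≠ 0 :=
    fun {k} hk => (_root_.map_ne_zero _).2 hk
  obtain ⟨a, ha, c, ⟨y', rfl⟩, hac⟩ := AddSubgroup.mem_sup.1 h
  obtain ⟨y, hy, rfl⟩ := H38T1.sc_surj y'
  have hn := Hc_norm_ne (K := K) hy
  rw [scm_sc _ hy] at hac
  have h1 : sc (b * Algebra.norm K y) ∈ H30ZO.Sq (dn K w) := by
    rw [H38T1.sc_mul hb hn, ← hac, add_assoc, ← two_nsmul, H38T1.SC.two_smul, add_zero]
    exact ha
  rw [H30ZO.mem_Sq (mul_ne_zero hb hn)] at h1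
  obtain ⟨r, hr⟩ := h1
  obtain ⟨y1, y2, rfl⟩ := hQ.span y
  rw [hQ.norm_mk] at hr hn
  have hnF := hinjF hn
  rw [sol_iff two_ne_zero (hinjF hQ.D0) (hinjF hb)]
  rw [map_mul] at hr
  refine ⟨algebraMap K _ y1 * r / algebraMap K _ (y1 ^ 2 - D * y2 ^ 2),
    algebraMap K _ y2 * r / algebraMap K _ (y1 ^ 2 - D * y2 ^ 2), ?_⟩
  have e1 : algebraMap K ((dn K w).adicCompletion K) (y1 ^ 2 - D * y2 ^ 2) =
      (algebraMap K ((dn K w).adicCompletion K) y1) ^ 2 -
        algebraMap K ((dn K w).adicCompletion K) D *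
          (algebraMap K ((dn K w).adicCompletion K) y2) ^ 2 := by
    rw [map_sub, map_mul, map_pow, map_pow]
  rw [e1] at hr hnF ⊢
  generalize algebraMap K ((dn K w).adicCompletion K) y1 = Y1 at *
  generalize algebraMap K ((dn K w).adicCompletion K) y2 = Y2 at *
  generalize algebraMap K ((dn K w).adicCompletion K) D = DD at *
  generalize algebraMap K ((dn K w).adicCompletion K) b = B at *
  field_simp
  linear_combination hr

/-- a representative of a square class of the completion -/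
private theorem Hc_cls (v : HeightOneSpectrum (𝓞 K)) {x : v.adicCompletion K} (hx : x ≠ 0) :
    ∃ y : K, y ≠ 0 ∧ ∃ r : v.adicCompletion K, r ≠ 0 ∧
      algebraMap K (v.adicCompletion K) y = x * r ^ 2 := by
  have _ := H36CY.char_zero v
  obtain ⟨y, hy⟩ := H36CY.near_coe v x (c := 4 * x) (mul_ne_zero (by norm_num) hx)
  obtain ⟨r, hr, h⟩ := H36CY.sq_near hy
  refine ⟨y, ?_, r, hr, h⟩
  rintro rfl
  rw [map_zero] at h
  exact mul_ne_zero hx (pow_ne_zero 2 hr) h.symm

private theorem Hc_sol_sq {F : Type} [Field F] {a b c d : F} (hc : c ≠ 0) (hd : d ≠ 0) :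
    Sol (a * c ^ 2) (b * d ^ 2) ↔ Sol a b := by
  rw [← hs_eq_zero, ← hs_eq_zero, hs_sq hc, hs_comm, hs_sq hd, hs_comm]

end HcAux

variable {K : Type} [Field K] [NumberField K] {v : HeightOneSpectrum (𝓞 K)}

theorem index_norm (h2 : v.valuation K 2 < 1) {D b c : v.adicCompletion K} (hD : ¬ IsSquare D)
    (hb : b ≠ 0) (hc : c ≠ 0) (h1 : ¬ Sol D b) (h3 : ¬ Sol D c) : Sol D (b * c) := by
  have _ := H36CY.char_zero v
  have hD0 : D ≠ 0 := by
    rintro rfl
    exact hD ⟨0, by ring⟩
  obtain ⟨D', hD', r1, hr1, e1⟩ := Hc_cls v hD0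
  obtain ⟨b', hb', r2, hr2, e2⟩ := Hc_cls v hb
  obtain ⟨c', hc', r3, hr3, e3⟩ := Hc_cls v hc
  have hDF : ¬ IsSquare (algebraMap K (v.adicCompletion K) D') := by
    rintro ⟨t, ht⟩
    apply hD
    refine ⟨t / r1, ?_⟩
    rw [e1] at ht
    field_simp
    linear_combination ht
  have hDK : ¬ IsSquare D' := fun h => hDF (h.map _)
  obtain ⟨M, iM, iN, iA, s, σ, hQ⟩ := exists_QD hDK
  obtain ⟨w, hw, hσ, hqq⟩ := quad_place hQ v hDF
  subst hw
  have hidx := Hc_index hQ hσ hqq hDF
  have hb1 : sc b' ∉ Hc_U K w := by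
    intro h
    have h4 := Hc_sol hQ hb' h
    rw [e1, e2, Hc_sol_sq hr1 hr2] at h4
    exact h1 h4
  have hc1 : sc c' ∉ Hc_U K w := by
    intro h
    have h4 := Hc_sol hQ hc' h
    rw [e1, e3, Hc_sol_sq hr1 hr3] at h4
    exact h3 h4
  have hbc : sc (b' * c') ∈ Hc_U K w := by
    rw [H38T1.sc_mul hb' hc', AddSubgroup.add_mem_iff_of_index_two hidx]
    exact ⟨fun h => absurd h hb1, fun h => absurd h hc1⟩
  have h4 := Hc_sol hQ (mul_ne_zero hb' hc') hbc
  have e4 : algebraMap K ((dn K w).adicCompletion K) (b' * c') = (b * c) * (r2 * r3) ^ 2 := by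
    rw [map_mul, e2, e3]
    ring
  rw [e1, e4, Hc_sol_sq hr1 (mul_ne_zero hr2 hr3)] at h4
  exact h4

theorem hf_two (h2 : v.valuation K 2 < 1) : HF (v.adicCompletion K) := by
  have _ := H36CY.char_zero v
  have h20 : (2 : v.adicCompletion K) ≠ 0 := two_ne_zero
  refine ⟨h20, fun a b c ha hb hc => ?_, fun a ha hsq => ?_⟩
  · by_cases hcs : IsSquare c
    · rw [hs_comm (a * b) c, hs_comm a c, hs_comm b c, hs_of_sq hc hcs, hs_of_sq hc hcs,
        hs_of_sq hc hcs, add_zero]
    · rw [hs_comm (a * b) c, hs_comm a c, hs_comm b c]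
      have hab : a * b ≠ 0 := mul_ne_zero ha hb
      have hz : ∀ {x y : v.adicCompletion K}, x ≠ 0 → (Sol c (y * x ^ 2) ↔ Sol c y) :=
        fun {x y} hx => by
          have := Hc_sol_sq (a := c) (b := y) (c := (1 : v.adicCompletion K)) (d := x)
            one_ne_zero hx
          rwa [one_pow, mul_one] at this
      by_cases hA : Sol c a <;> by_cases hB : Sol c b
      · rw [hs_eq_zero.2 hA, hs_eq_zero.2 hB, hs_eq_zero.2 (sol_mul h20 hc ha hb hA hB), add_zero]
      · have h3 : ¬ Sol c (a * b) := by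
          intro h
          apply hB
          have h4 := sol_mul h20 hc ha hab hA h
          have e : a * (a * b) = b * a ^ 2 := by ring
          rw [e, hz ha] at h4
          exact h4
        rw [hs_eq_zero.2 hA, hs_eq_one.2 hB, hs_eq_one.2 h3, zero_add]
      · have h3 : ¬ Sol c (a * b) := by
          intro h
          apply hA
          have h4 := sol_mul h20 hc hb hab hB h
          have e : b * (a * b) = a * b ^ 2 := by ring
          rw [e, hz hb] at h4
          exact h4
        rw [hs_eq_one.2 hA, hs_eq_zero.2 hB, hs_eq_one.2 h3, add_zero]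
      · rw [hs_eq_one.2 hA, hs_eq_one.2 hB, hs_eq_zero.2 (index_norm h2 hcs ha hb hA hB)]
        decide
  · obtain ⟨c, hc, h⟩ := H36CY.nonnorm_F h2 hsq
    refine ⟨c, hc, ?_⟩
    rw [hs_eq_one, sol_iff h20 ha hc]
    rintro ⟨X, Y, hXY⟩
    exact h X Y hXY.symm

end H36MX

end S_H36_MX_Hc
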