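import Mathlib
import Pool.Agent.H76.CQ.Qb
import Pool.Agent.H76.CQ.Qc
import Pool.Agent.H76.MP.M1
import Pool.Agent.H76.MP.M5
import Pool.Agent.H76.PN.B2
import Pool.Agent.H76.PN.P2
import Pool.Agent.H76.ZQ.Y0
import Pool.Agent.H76.ZQ.Y5
import Pool.Agent.H76.ZQ.Y8
import Pool.Agent.H76.XP.X1

/-! This file joins several modules to save build time (X4). -/

set_option autoImplicit false

section S_H76_MX_Dg

set_option autoImplicit false
set_option linter.unusedSectionVars false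
open scoped Classical

open WithZero NumberField IsDedekindDomain H38RT
open H38T1 (SC sc scu rep eo la si Pri OddP tp unif ka)
open H76PP H76MQ

namespace H76MX

variable {K L : Type} [Field K] [NumberField K] [Field L] [NumberField L] [Algebra K L]

theorem Dg_sum {S Z J : Finset (HeightOneSpectrum (𝓞 K))} (hZ : Z ⊆ S)
    (hJ : ∀ v ∈ J, v ∉ S) {f : HeightOneSpectrum (𝓞 K) → ℕ} (h1 : ∀ v, 1 ≤ f v)
    (ha : ∀ v ∈ Z, 3 ≤ f v) (hj : ∀ v ∈ J, 2 ≤ f v) :
    (S ∪ J).card + 2 * Z.card + J.card ≤ ∑ v ∈ S ∪ J, f v := by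
  have hd : Disjoint S J := Finset.disjoint_left.2 fun v hv hv' => hJ v hv' hv
  rw [Finset.sum_union hd, Finset.card_union_of_disjoint hd, ← Finset.sum_sdiff hZ]
  have e1 : (S \ Z).card ≤ ∑ v ∈ S \ Z, f v := by
    rw [Finset.card_eq_sum_ones]
    exact Finset.sum_le_sum fun v _ => h1 v
  have e2 : Z.card * 3 ≤ ∑ v ∈ Z, f v := Finset.card_nsmul_le_sum Z f 3 ha
  have e3 : J.card * 2 ≤ ∑ v ∈ J, f v := Finset.card_nsmul_le_sum J f 2 hj
  have e4 : (S \ Z).card + Z.card = S.card := Finset.card_sdiff_add_card_eq_card hZ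
  omega

theorem card_XJg {A B : K} {θ : L} (h : Cub K L A B θ) (hD : 4 * A ^ 3 + 27 * B ^ 2 ≠ 0)
    {S Z J : Finset (HeightOneSpectrum (𝓞 K))} (hZ : Z ⊆ S)
    (hZ3 : ∀ v ∈ Z, 3 ≤ H30ZO.nb K L v) (t₁ t₂ : HeightOneSpectrum (𝓞 K) → HeightOneSpectrum (𝓞 L))
    (ν : HeightOneSpectrum (𝓞 K) → ZMod 2)
    (hJ : ∀ v ∈ J, v ∉ S ∧ OddP v ∧ TwG K v (t₁ v) (t₂ v)) :
    2 ^ (Module.finrank ℚ K + 2 * Z.card) ≤ Nat.card {c : SC L //
      c ∈ (HH K (S ∪ J) : AddSubgroup (SC L)) ∧ ∀ v ∈ J, la (t₁ v) c = ν v * eo (t₂ v) c} := by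
  -- the number of units
  obtain ⟨U, hU⟩ : ∃ U : AddSubgroup (SC L), U =
      H24TD.US L {w : HeightOneSpectrum (𝓞 L) | dn K w ∈ S ∪ J} ⊓ H30ZO.HH K L := ⟨_, rfl⟩
  have hc1 := H30ZO.card_X h (S ∪ J)
  rw [← hU] at hc1
  have hc2 := H30ZO.places_count h hD
  have hc3 := Dg_sum hZ (J := J) (fun v hv => (hJ v hv).1) (f := H30ZO.nb K L)
    Dx_nb1 hZ3 (fun v hv => Dx_nb2 (hJ v hv).2.2)
  have hUc : 2 ^ ((Module.finrank ℚ K + 2 * Z.card) + J.card) ≤ Nat.card U := by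
    refine Nat.le_of_mul_le_mul_right (c := 2 ^ ((S ∪ J).card +
      (InfinitePlace.nrRealPlaces K + InfinitePlace.nrComplexPlaces K))) ?_ (pow_pos two_pos _)
    rw [hc1, ← pow_add]
    refine Nat.pow_le_pow_right two_pos ?_
    rw [hc2]
    omega
  -- the conditions at `J`
  let φ : U →+ ({v // v ∈ J} → ZMod 2) :=
    { toFun := fun c v => la (t₁ v.1) c.1 + ν v.1 * eo (t₂ v.1) c.1
      map_zero' := by
        funext v
        have h1 := H38T1.la_add (Gg_odd1 (hJ v.1 v.2).2.1 (hJ v.1 v.2).2.2) 0 0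
        rw [add_zero] at h1
        have h2 := left_eq_add.1 h1
        show la (t₁ v.1) 0 + ν v.1 * eo (t₂ v.1) 0 = 0
        rw [h2, H38T1.eo_zero, mul_zero, add_zero]
      map_add' := by
        intro c c'
        funext v
        show la (t₁ v.1) (c.1 + c'.1) + ν v.1 * eo (t₂ v.1) (c.1 + c'.1) =
          (la (t₁ v.1) c.1 + ν v.1 * eo (t₂ v.1) c.1) +
          (la (t₁ v.1) c'.1 + ν v.1 * eo (t₂ v.1) c'.1)
        rw [H38T1.la_add (Gg_odd1 (hJ v.1 v.2).2.1 (hJ v.1 v.2).2.2), H38T1.eo_add]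
        ring }
  have hker := Dx_ker (m := Module.finrank ℚ K + 2 * Z.card) φ (by rw [Fintype.card_coe]; exact hUc)
  refine hker.trans ?_
  have hfin : Finite {c : SC L // c ∈ (HH K (S ∪ J) : AddSubgroup (SC L)) ∧
      ∀ v ∈ J, la (t₁ v) c = ν v * eo (t₂ v) c} := by
    have h1 : ((HH K (S ∪ J) : AddSubgroup (SC L)) : Set (SC L)).Finite :=
      Set.finite_coe_iff.1 (fin_HH K (S ∪ J))
    exact (h1.subset (fun c (hc : c ∈ {c : SC L | c ∈ (HH K (S ∪ J) : AddSubgroup (SC L)) ∧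
      ∀ v ∈ J, la (t₁ v) c = ν v * eo (t₂ v) c}) => hc.1)).to_subtype
  have hX : ∀ c : φ.ker, c.1.1 ∈ (HH K (S ∪ J) : AddSubgroup (SC L)) ∧
      ∀ v ∈ J, la (t₁ v) c.1.1 = ν v * eo (t₂ v) c.1.1 := by
    rintro ⟨⟨c, hcU⟩, hc⟩
    refine ⟨?_, ?_⟩
    · rw [hU] at hcU
      exact Dx_le hcU
    · intro v hv
      have h1 := congrFun (AddMonoidHom.mem_ker.1 hc) ⟨v, hv⟩
      have h2 : la (t₁ v) c + ν v * eo (t₂ v) c = 0 := h1
      exact CharTwo.add_eq_zero.1 h2
  refine Nat.card_le_card_of_injective (fun c : φ.ker => (⟨c.1.1, hX c⟩ : {c : SC L //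
      c ∈ (HH K (S ∪ J) : AddSubgroup (SC L)) ∧ ∀ v ∈ J, la (t₁ v) c = ν v * eo (t₂ v) c})) ?_
  intro c c' hcc
  have h0 : (⟨c.1.1, hX c⟩ : {c : SC L // c ∈ (HH K (S ∪ J) : AddSubgroup (SC L)) ∧
      ∀ v ∈ J, la (t₁ v) c = ν v * eo (t₂ v) c}) = ⟨c'.1.1, hX c'⟩ := hcc
  have h1 : c.1.1 = c'.1.1 := Subtype.mk.inj h0
  exact Subtype.ext (Subtype.ext h1)

end H76MX

end S_H76_MX_Dg

section S_H76_MX_Wg

set_option autoImplicit false
set_option linter.unusedSectionVars false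
open scoped Classical

namespace H76MX

section aux

lemma Wg_add_eq {a b : ZMod 2} (h : a + b = 0) : a = b := by
  revert a b; decide

lemma Wg_term (a b : ZMod 2) : a * (b * a + b) = 0 := by
  revert a b; decide

lemma Wg_one {a : ZMod 2} (h : a ≠ 0) : a = 1 := by
  revert a; decide

lemma Wg_two (a : ZMod 2) : a + a = 0 := by revert a; decide

lemma Wg_twoV {V : Type} [AddCommGroup V] [Module (ZMod 2) V] (y : V) : y + y = 0 := by
  have h : (2 : ZMod 2) = 0 := by decide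
  rw [← two_smul (ZMod 2) y, h, zero_smul]

variable {V : Type} [AddCommGroup V] [Module (ZMod 2) V] (q : V → ZMod 2)
  (B : LinearMap.BilinForm (ZMod 2) V)

lemma Wg_symm (hpol : ∀ x y, q (x + y) = q x + q y + B x y) (x y : V) : B x y = B y x := by
  have h1 := hpol x y
  have h2 := hpol y x
  rw [add_comm y x, h1, add_comm (q y) (q x)] at h2
  exact add_left_cancel h2

lemma Wg_nondeg (hpol : ∀ x y, q (x + y) = q x + q y + B x y)
    (hB : ∀ x, (∀ y, B x y = 0) → x = 0) : B.Nondegenerate := by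
  constructor
  · intro x h; exact hB x h
  · intro x h
    refine hB x fun y => ?_
    rw [Wg_symm q B hpol]; exact h y

lemma Wg_LB (hpol : ∀ x y, q (x + y) = q x + q y + B x y) (Ls : Submodule (ZMod 2) V)
    (hLq : ∀ x ∈ Ls, q x = 0) (x y : V) (hx : x ∈ Ls) (hy : y ∈ Ls) : B x y = 0 := by
  have h1 := hpol x y
  rw [hLq x hx, hLq y hy, hLq _ (Submodule.add_mem _ hx hy), zero_add, zero_add] at h1
  exact h1.symm

/-- isotropic subspaces of large dimension are Lagrangian -/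
lemma Wg_lag [Finite V] (hpol : ∀ x y, q (x + y) = q x + q y + B x y)
    (hB : ∀ x, (∀ y, B x y = 0) → x = 0) (m : ℕ) (hV : Module.finrank (ZMod 2) V ≤ 2 * m)
    (W : Submodule (ZMod 2) V)
    (hW : ∀ x ∈ W, ∀ y ∈ W, B x y = 0) (hd : m ≤ Module.finrank (ZMod 2) W) :
    Module.finrank (ZMod 2) W = m ∧
      ∀ y, (∀ x ∈ W, B x y = 0) → y ∈ W := by
  have hle : W ≤ B.orthogonal W := by
    intro y hy
    rw [LinearMap.BilinForm.mem_orthogonal_iff]
    intro x hx
    exact hW x hx y hy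
  have h1 := LinearMap.BilinForm.finrank_orthogonal (Wg_nondeg q B hpol hB) W
  have h2 := Submodule.finrank_mono hle
  have h3 := Submodule.finrank_le W
  have h4 : Module.finrank (ZMod 2) W = m := by omega
  refine ⟨h4, ?_⟩
  have h5 : W = B.orthogonal W := by
    refine Submodule.eq_of_le_of_finrank_le hle ?_
    omega
  intro y hy
  rw [h5, LinearMap.BilinForm.mem_orthogonal_iff]
  intro x hx
  exact hy x hx

end aux

section main

variable {H : Type} [AddCommGroup H] [Module (ZMod 2) H] {V : Type} [AddCommGroup V]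
  [Module (ZMod 2) V] {ι : Type}

/-- the space `X S` -/
def Wg_X (u n : ι → H →ₗ[ZMod 2] ZMod 2) (ν : ι → ZMod 2) (Tall S : Finset ι) :
    Submodule (ZMod 2) H where
  carrier := {c | (∀ v ∈ Tall, v ∉ S → n v c = 0) ∧ ∀ v ∈ S, u v c = ν v * n v c}
  add_mem' := by
    intro a b ha hb
    refine ⟨fun v hv hS => ?_, fun v hv => ?_⟩
    · rw [map_add, ha.1 v hv hS, hb.1 v hv hS, add_zero]
    · rw [map_add, map_add, ha.2 v hv, hb.2 v hv, mul_add]
  zero_mem' := by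
    refine ⟨fun v hv hS => ?_, fun v hv => ?_⟩
    · rw [map_zero]
    · rw [map_zero, map_zero, mul_zero]
  smul_mem' := by
    intro r a ha
    refine ⟨fun v hv hS => ?_, fun v hv => ?_⟩
    · rw [map_smul, ha.1 v hv hS, smul_zero]
    · rw [map_smul, map_smul, ha.2 v hv, smul_eq_mul, smul_eq_mul]; ring

lemma Wg_X_mem (u n : ι → H →ₗ[ZMod 2] ZMod 2) (ν : ι → ZMod 2) (Tall S : Finset ι) (c : H) :
    c ∈ Wg_X u n ν Tall S ↔
      (∀ v ∈ Tall, v ∉ S → n v c = 0) ∧ ∀ v ∈ S, u v c = ν v * n v c := Iff.rfl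

variable (q : V → ZMod 2) (B : LinearMap.BilinForm (ZMod 2) V)
  (hpol : ∀ x y, q (x + y) = q x + q y + B x y) (loc : H →ₗ[ZMod 2] V)
  (u n : ι → H →ₗ[ZMod 2] ZMod 2) (ν : ι → ZMod 2)

variable (Tall : Finset ι)
  (hq : ∀ c : H, q (loc c) + ∑ v ∈ Tall, n v c * (u v c + ν v) = 0)

include hq in
lemma Wg_q_eq (c : H) : q (loc c) = ∑ v ∈ Tall, n v c * (u v c + ν v) :=
  Wg_add_eq (hq c)

include hq in
lemma Wg_q_zero (S : Finset ι) (c : H) (hc : c ∈ Wg_X u n ν Tall S) :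
    q (loc c) = 0 := by
  rw [Wg_q_eq q loc u n ν Tall hq c]
  refine Finset.sum_eq_zero fun v hv => ?_
  by_cases hvS : v ∈ S
  · rw [hc.2 v hvS]; exact Wg_term _ _
  · rw [hc.1 v hv hvS, zero_mul]

include hpol hq in
lemma Wg_iso (S : Finset ι) (c c' : H) (hc : c ∈ Wg_X u n ν Tall S)
    (hc' : c' ∈ Wg_X u n ν Tall S) :
    B (loc c) (loc c') = 0 := by
  have h1 := Wg_q_zero q loc u n ν Tall hq S _ (Submodule.add_mem _ hc hc')
  rw [map_add, hpol, Wg_q_zero q loc u n ν Tall hq S c hc,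
    Wg_q_zero q loc u n ν Tall hq S c' hc', zero_add, zero_add] at h1
  exact h1

include hpol hq in
lemma Wg_step (S : Finset ι) (v : ι) (hv : v ∈ Tall) (hvS : v ∉ S) (c y : H)
    (hc : c ∈ Wg_X u n ν Tall (insert v S)) (hy : y ∈ Wg_X u n ν Tall S) :
    B (loc c) (loc y) = n v c * u v y := by
  have h1 := Wg_q_eq q loc u n ν Tall hq (c + y)
  rw [map_add, hpol, Wg_q_zero q loc u n ν Tall hq _ c hc,
    Wg_q_zero q loc u n ν Tall hq _ y hy, zero_add, zero_add] at h1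
  rw [h1, Finset.sum_eq_single v]
  · have e1 : n v y = 0 := hy.1 v hv hvS
    have e2 : u v c = ν v * n v c := hc.2 v (Finset.mem_insert_self v S)
    rw [map_add, map_add, e1, e2, add_zero]
    have e3 := Wg_term (n v c) (ν v)
    calc n v c * (ν v * n v c + u v y + ν v)
        = n v c * (ν v * n v c + ν v) + n v c * u v y := by ring
      _ = n v c * u v y := by rw [e3, zero_add]
  · intro w hw hwv
    by_cases hwS : w ∈ S
    · have e1 := hc.2 w (Finset.mem_insert_of_mem hwS)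
      have e2 := hy.2 w hwS
      rw [map_add, map_add, e1, e2, ← mul_add]
      exact Wg_term _ _
    · have e1 := hc.1 w hw (by
        intro h
        rcases Finset.mem_insert.1 h with h | h
        · exact hwv h
        · exact hwS h)
      have e2 := hy.1 w hw hwS
      rw [map_add, e1, e2, add_zero, zero_mul]
  · intro h; exact absurd hv h

/-- `κ S` -/
def Wg_K (S : Finset ι) : Submodule (ZMod 2) H :=
  Wg_X u n ν Tall S ⊓ LinearMap.ker loc

/-- `W S` -/
def Wg_W (S : Finset ι) : Submodule (ZMod 2) V :=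
  (Wg_X u n ν Tall S).map loc

lemma Wg_down (S : Finset ι) (v : ι) (hvS : v ∉ S) (c : H)
    (hc : c ∈ Wg_X u n ν Tall (insert v S)) (h0 : n v c = 0) :
    c ∈ Wg_X u n ν Tall S := by
  refine ⟨fun w hw hwS => ?_, fun w hw => hc.2 w (Finset.mem_insert_of_mem hw)⟩
  by_cases hwv : w = v
  · rw [hwv]; exact h0
  · exact hc.1 w hw (by
        intro h
        rcases Finset.mem_insert.1 h with h | h
        · exact hwv h
        · exact hwS h)

lemma Wg_up (S : Finset ι) (v : ι) (hv : v ∈ Tall) (hvS : v ∉ S) (c : H)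
    (hc : c ∈ Wg_X u n ν Tall S) (h0 : u v c = 0) :
    c ∈ Wg_X u n ν Tall (insert v S) := by
  refine ⟨fun w hw hwS => hc.1 w hw (fun h => hwS (Finset.mem_insert_of_mem h)), fun w hw => ?_⟩
  rcases Finset.mem_insert.1 hw with h | h
  · rw [h, h0, hc.1 v hv hvS, mul_zero]
  · exact hc.2 w h

variable [Finite H] [Finite V] (hB : ∀ x, (∀ y, B x y = 0) → x = 0) (m : ℕ)
  (hV : Module.finrank (ZMod 2) V ≤ 2 * m)

include hpol hq hB hV in
lemma Wg_W_lag (S : Finset ι) (hd : m ≤ Module.finrank (ZMod 2) (Wg_X u n ν Tall S))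
    (hK : Wg_K loc u n ν Tall S = ⊥) :
    Module.finrank (ZMod 2) (Wg_X u n ν Tall S) = m ∧
    Module.finrank (ZMod 2) (Wg_W loc u n ν Tall S) = m ∧
      ∀ y, (∀ c ∈ Wg_X u n ν Tall S, B (loc c) y = 0) →
        y ∈ Wg_W loc u n ν Tall S := by
  have hinj : ∀ c ∈ Wg_X u n ν Tall S, loc c = 0 → c = 0 := by
    intro c hc h
    have : c ∈ Wg_K loc u n ν Tall S := ⟨hc, h⟩
    rw [hK] at this
    exact (Submodule.mem_bot _).1 this
  have hfr : Module.finrank (ZMod 2) (Wg_W loc u n ν Tall S) =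
      Module.finrank (ZMod 2) (Wg_X u n ν Tall S) := by
    have hi : Function.Injective (loc.domRestrict (Wg_X u n ν Tall S)) := by
      rw [injective_iff_map_eq_zero]
      intro a ha
      have := hinj a.1 a.2 ha
      exact Subtype.ext this
    have h2 := LinearMap.finrank_range_of_inj hi
    rw [← h2]
    unfold Wg_W
    rw [LinearMap.range_domRestrict]
  have h3 := Wg_lag q B hpol hB m hV (Wg_W loc u n ν Tall S) (by
    rintro x ⟨c, hc, rfl⟩ y ⟨c', hc', rfl⟩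
    exact Wg_iso q B hpol loc u n ν Tall hq S c c' hc hc') (by rw [hfr]; exact hd)
  refine ⟨by rw [← hfr]; exact h3.1, h3.1, ?_⟩
  intro y hy
  refine h3.2 y ?_
  rintro x ⟨c, hc, rfl⟩
  exact hy c hc

include hpol hq in
/-- first kind of step: the kernel shrinks -/
lemma Wg_stepA (S : Finset ι) (v : ι) (hv : v ∈ Tall) (hvS : v ∉ S)
    (c₁ : H) (hc₁ : c₁ ∈ Wg_K loc u n ν Tall S) (hu : u v c₁ ≠ 0) :
    Module.finrank (ZMod 2) (Wg_K loc u n ν Tall (insert v S)) + 1 ≤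
      Module.finrank (ZMod 2) (Wg_K loc u n ν Tall S) := by
  refine Submodule.finrank_lt_finrank_of_lt ?_
  have key : ∀ c ∈ Wg_K loc u n ν Tall (insert v S),
      c ∈ Wg_K loc u n ν Tall S ∧ u v c = 0 := by
    intro c hc
    have h1 := Wg_step q B hpol loc u n ν Tall hq S v hv hvS c c₁ hc.1 hc₁.1
    have h2 : loc c = 0 := hc.2
    rw [h2, map_zero, LinearMap.zero_apply, Wg_one hu, mul_one] at h1
    refine ⟨⟨Wg_down u n ν Tall S v hvS c hc.1 h1.symm, hc.2⟩, ?_⟩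
    rw [hc.1.2 v (Finset.mem_insert_self v S), ← h1, mul_zero]
  refine lt_of_le_of_ne (fun c hc => (key c hc).1) ?_
  intro h
  rw [← h] at hc₁
  exact hu (key c₁ hc₁).2

include hpol hq hB hV in
/-- second kind of step -/
lemma Wg_stepB (Ls : Submodule (ZMod 2) V) (hLq : ∀ x ∈ Ls, q x = 0)
    (S : Finset ι) (v : ι) (hv : v ∈ Tall) (hvS : v ∉ S)
    (hd : m ≤ Module.finrank (ZMod 2) (Wg_X u n ν Tall S))
    (hd' : m ≤ Module.finrank (ZMod 2) (Wg_X u n ν Tall (insert v S)))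
    (hK : Wg_K loc u n ν Tall S = ⊥)
    (y : V) (hyL : y ∈ Ls) (hyW : y ∉ Wg_W loc u n ν Tall S)
    (hu : ∀ c ∈ Wg_X u n ν Tall S, u v c = B y (loc c)) :
    Wg_K loc u n ν Tall (insert v S) = ⊥ ∧
    Module.finrank (ZMod 2) ↥(Wg_W loc u n ν Tall S ⊓ Ls) + 1 ≤
      Module.finrank (ZMod 2) ↥(Wg_W loc u n ν Tall (insert v S) ⊓ Ls) := by
  obtain ⟨hX, -, horth⟩ := Wg_W_lag q B hpol loc u n ν Tall hq hB m hV S hd hK
  -- a vector with `u v y' ≠ 0`
  obtain ⟨y', hy', huy'⟩ : ∃ y' ∈ Wg_X u n ν Tall S, u v y' ≠ 0 := by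
    by_contra hcon
    push Not at hcon
    refine hyW (horth y fun c hc => ?_)
    rw [Wg_symm q B hpol, ← hu c hc]
    exact hcon c hc
  have hK' : Wg_K loc u n ν Tall (insert v S) = ⊥ := by
    rw [eq_bot_iff]
    intro c hc
    have h1 := Wg_step q B hpol loc u n ν Tall hq S v hv hvS c y' hc.1 hy'
    have h2 : loc c = 0 := hc.2
    rw [h2, map_zero, LinearMap.zero_apply, Wg_one huy', mul_one] at h1
    have h3 : c ∈ Wg_K loc u n ν Tall S :=
      ⟨Wg_down u n ν Tall S v hvS c hc.1 h1.symm, hc.2⟩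
    rw [hK] at h3
    exact h3
  refine ⟨hK', ?_⟩
  obtain ⟨hX', -, horth'⟩ := Wg_W_lag q B hpol loc u n ν Tall hq hB m hV (insert v S) hd' hK'
  obtain ⟨c₀, hc₀, hc₀n⟩ : ∃ c₀ ∈ Wg_X u n ν Tall (insert v S), c₀ ∉ Wg_X u n ν Tall S := by
    by_contra hcon
    push Not at hcon
    have heq : Wg_X u n ν Tall (insert v S) = Wg_X u n ν Tall S :=
      Submodule.eq_of_le_of_finrank_le hcon (by omega)
    have h1 : y' ∈ Wg_X u n ν Tall (insert v S) := by rw [heq]; exact hy'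
    have h2 := h1.2 v (Finset.mem_insert_self v S)
    rw [hy'.1 v hv hvS, mul_zero] at h2
    exact huy' h2
  have hn0 : n v c₀ = 1 := by
    refine Wg_one fun h => hc₀n ?_
    exact Wg_down u n ν Tall S v hvS c₀ hc₀ h
  -- `loc c₀ - y ∈ W S`
  have h1 : loc c₀ + y ∈ Wg_W loc u n ν Tall S := by
    refine horth _ fun c hc => ?_
    have h2 := Wg_step q B hpol loc u n ν Tall hq S v hv hvS c₀ c hc₀ hc
    rw [hn0, one_mul, hu c hc] at h2
    rw [map_add, Wg_symm q B hpol, h2, Wg_symm q B hpol _ y]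
    exact Wg_two _
  obtain ⟨w', hw', hw'e⟩ := h1
  have h2 : loc c₀ = y + loc w' := by
    rw [hw'e, add_comm (loc c₀) y, ← add_assoc, Wg_twoV y, zero_add]
  have h3 : u v w' = 0 := by
    have e1 := Wg_q_zero q loc u n ν Tall hq _ c₀ hc₀
    rw [h2, hpol, hLq y hyL, Wg_q_zero q loc u n ν Tall hq S w' hw', zero_add,
      zero_add] at e1
    rw [hu w' hw']; exact e1
  have hw'2 := Wg_up u n ν Tall S v hv hvS w' hw' h3
  have hyW' : y ∈ Wg_W loc u n ν Tall (insert v S) := by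
    refine ⟨c₀ + w', Submodule.add_mem _ hc₀ hw'2, ?_⟩
    rw [map_add, h2, add_assoc, Wg_twoV, add_zero]
  refine Submodule.finrank_lt_finrank_of_lt ?_
  refine lt_of_le_of_ne ?_ ?_
  · rintro z ⟨⟨c, hc, rfl⟩, hzL⟩
    refine ⟨⟨c, Wg_up u n ν Tall S v hv hvS c hc ?_, rfl⟩, hzL⟩
    rw [hu c hc]
    exact Wg_LB q B hpol Ls hLq y _ hyL hzL
  · intro h
    have : y ∈ Wg_W loc u n ν Tall (insert v S) ⊓ Ls := ⟨hyW', hyL⟩
    rw [← h] at this
    exact hyW this.1

end main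

theorem walkG {H V : Type} [AddCommGroup H] [Module (ZMod 2) H] [Finite H] [AddCommGroup V]
    [Module (ZMod 2) V] [Finite V] {ι : Type} (q : V → ZMod 2) (B : LinearMap.BilinForm (ZMod 2) V)
    (hpol : ∀ x y, q (x + y) = q x + q y + B x y) (hB : ∀ x, (∀ y, B x y = 0) → x = 0)
    {m : ℕ} (hV : Nat.card V ≤ 2 ^ (2 * m)) (Ls : Submodule (ZMod 2) V) (hLq : ∀ x ∈ Ls, q x = 0)
    (hL : 2 ^ m ≤ Nat.card Ls) (loc : H →ₗ[ZMod 2] V)
    (u n : ι → H →ₗ[ZMod 2] ZMod 2) (ν : ι → ZMod 2) (k : ℕ)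
    (T : ℕ → Finset ι) (hT : ∀ i < k, ∀ j < k, i ≠ j → Disjoint (T i) (T j))
    (hq : ∀ c : H, q (loc c) + ∑ v ∈ (Finset.range k).biUnion T, n v c * (u v c + ν v) = 0)
    (hd : ∀ S ⊆ (Finset.range k).biUnion T, 2 ^ m ≤
      Nat.card {c : H // (∀ v ∈ (Finset.range k).biUnion T, v ∉ S → n v c = 0) ∧
        ∀ v ∈ S, u v c = ν v * n v c})
    (hr : ∀ l < k, ∀ φ : H →ₗ[ZMod 2] ZMod 2, ∃ v ∈ T l, ∀ c : H,
      (∀ v' ∈ (Finset.range k).biUnion T, v' ∉ (Finset.range l).biUnion T → n v' c = 0) →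
      u v c = φ c)
    (hk : Nat.card {c : H // ∀ v ∈ (Finset.range k).biUnion T, n v c = 0} * 2 ^ m ≤ 2 ^ k) :
    ∃ S ⊆ (Finset.range k).biUnion T, ∀ c : H,
      (∀ v ∈ (Finset.range k).biUnion T, v ∉ S → n v c = 0) →
      (∀ v ∈ S, u v c = ν v * n v c) → loc c ∈ Ls ∧ (loc c = 0 → c = 0) := by
  have hfin : ∀ S : Submodule (ZMod 2) H, Nat.card S = 2 ^ Module.finrank (ZMod 2) S := by
    intro S
    rw [Module.natCard_eq_pow_finrank (K := ZMod 2), Nat.card_zmod]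
  have hfinV : ∀ S : Submodule (ZMod 2) V, Nat.card S = 2 ^ Module.finrank (ZMod 2) S := by
    intro S
    rw [Module.natCard_eq_pow_finrank (K := ZMod 2), Nat.card_zmod]
  have hVf : Module.finrank (ZMod 2) V ≤ 2 * m := by
    have h1 : Nat.card V = 2 ^ Module.finrank (ZMod 2) V := by
      rw [Module.natCard_eq_pow_finrank (K := ZMod 2), Nat.card_zmod]
    rw [h1] at hV
    exact (Nat.pow_le_pow_iff_right (by norm_num)).1 hV
  have hLf : m ≤ Module.finrank (ZMod 2) Ls := by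
    rw [hfinV Ls] at hL
    exact (Nat.pow_le_pow_iff_right (by norm_num)).1 hL
  have hd' : ∀ S ⊆ (Finset.range k).biUnion T, m ≤
      Module.finrank (ZMod 2) (Wg_X u n ν ((Finset.range k).biUnion T) S) := by
    intro S hS
    have h1 := hd S hS
    have h2 := hfin (Wg_X u n ν ((Finset.range k).biUnion T) S)
    have h3 : Nat.card (Wg_X u n ν ((Finset.range k).biUnion T) S) =
      Nat.card {c : H // (∀ v ∈ (Finset.range k).biUnion T, v ∉ S → n v c = 0) ∧
        ∀ v ∈ S, u v c = ν v * n v c} := rfl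
    rw [← h3, h2] at h1
    exact (Nat.pow_le_pow_iff_right (by norm_num)).1 h1
  have hk' : Module.finrank (ZMod 2) (Wg_K loc u n ν ((Finset.range k).biUnion T) ∅) +
      m ≤ k := by
    have h1 : Nat.card (Wg_X u n ν ((Finset.range k).biUnion T) ∅) =
        Nat.card {c : H // ∀ v ∈ (Finset.range k).biUnion T, n v c = 0} := by
      refine Nat.card_congr (Equiv.subtypeEquivRight fun c => ?_)
      rw [Wg_X_mem]
      simp
    rw [← h1, hfin, ← pow_add] at hk
    have h2 := (Nat.pow_le_pow_iff_right (by norm_num)).1 hk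
    have h3 : Module.finrank (ZMod 2) (Wg_K loc u n ν ((Finset.range k).biUnion T) ∅) ≤
        Module.finrank (ZMod 2) (Wg_X u n ν ((Finset.range k).biUnion T) ∅) :=
      Submodule.finrank_mono inf_le_left
    omega
  -- the induction
  have main : ∀ l ≤ k, ∃ S ⊆ (Finset.range l).biUnion T,
      (l + Module.finrank (ZMod 2) (Wg_K loc u n ν ((Finset.range k).biUnion T) S) ≤
        Module.finrank (ZMod 2) (Wg_K loc u n ν ((Finset.range k).biUnion T) ∅) ∧
        Wg_K loc u n ν ((Finset.range k).biUnion T) S ≠ ⊥) ∨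
      (Wg_K loc u n ν ((Finset.range k).biUnion T) S = ⊥ ∧
        (Wg_W loc u n ν ((Finset.range k).biUnion T) S ≤ Ls ∨
        l ≤ Module.finrank (ZMod 2) (Wg_K loc u n ν ((Finset.range k).biUnion T) ∅) +
          Module.finrank (ZMod 2)
            ↥(Wg_W loc u n ν ((Finset.range k).biUnion T) S ⊓ Ls))) := by
    intro l
    induction l with
    | zero =>
      intro _
      refine ⟨∅, Finset.empty_subset _, ?_⟩
      by_cases h : Wg_K loc u n ν ((Finset.range k).biUnion T) ∅ = ⊥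
      · right; exact ⟨h, Or.inr (Nat.zero_le _)⟩
      · left; exact ⟨by omega, h⟩
    | succ l ih =>
      intro hl
      have hlk : l < k := hl
      obtain ⟨S, hS, hS2⟩ := ih (by omega)
      have hsub : (Finset.range l).biUnion T ⊆ (Finset.range k).biUnion T :=
        Finset.biUnion_subset_biUnion_of_subset_left _ (Finset.range_subset_range.2 (by omega))
      have hsub' : (Finset.range l).biUnion T ⊆ (Finset.range (l + 1)).biUnion T :=
        Finset.biUnion_subset_biUnion_of_subset_left _ (Finset.range_subset_range.2 (by omega))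
      have hTl : ∀ v ∈ T l, v ∈ (Finset.range k).biUnion T := fun v hv =>
        Finset.mem_biUnion.2 ⟨l, Finset.mem_range.2 hlk, hv⟩
      have hTl' : ∀ v ∈ T l, v ∉ S := by
        intro v hv hvS
        obtain ⟨i, hi, hvi⟩ := Finset.mem_biUnion.1 (hS hvS)
        have hi' := Finset.mem_range.1 hi
        exact (Finset.disjoint_left.1 (hT i (by omega) l hlk (by omega))) hvi hv
      have hins : ∀ v ∈ T l, insert v S ⊆ (Finset.range (l + 1)).biUnion T := by
        intro v hv w hw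
        rcases Finset.mem_insert.1 hw with h | h
        · rw [h]; exact Finset.mem_biUnion.2 ⟨l, Finset.mem_range.2 (by omega), hv⟩
        · exact hsub' (hS h)
      have hins' : ∀ v ∈ T l, insert v S ⊆ (Finset.range k).biUnion T := by
        intro v hv w hw
        rcases Finset.mem_insert.1 hw with h | h
        · rw [h]; exact hTl v hv
        · exact hsub (hS h)
      have hXn : ∀ c ∈ Wg_X u n ν ((Finset.range k).biUnion T) S,
          ∀ v' ∈ (Finset.range k).biUnion T, v' ∉ (Finset.range l).biUnion T → n v' c = 0 := by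
        intro c hc v' hv' hv'2
        exact hc.1 v' hv' (fun h => hv'2 (hS h))
      rcases hS2 with ⟨h1, h2⟩ | ⟨h1, h2⟩
      · obtain ⟨c₁, hc₁, hc₁0⟩ := (Submodule.ne_bot_iff _).1 h2
        obtain ⟨φ, hφ⟩ : ∃ φ : H →ₗ[ZMod 2] ZMod 2, φ c₁ ≠ 0 := by
          by_contra hcon
          push Not at hcon
          exact hc₁0 ((Module.forall_dual_apply_eq_zero_iff (ZMod 2) c₁).1 hcon)
        obtain ⟨v, hv, hvφ⟩ := hr l hlk φ
        refine ⟨insert v S, hins v hv, ?_⟩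
        have hstep := Wg_stepA q B hpol loc u n ν _ hq S v (hTl v hv) (hTl' v hv) c₁ hc₁ (by
          rw [hvφ c₁ (hXn c₁ hc₁.1)]; exact hφ)
        by_cases h3 : Wg_K loc u n ν ((Finset.range k).biUnion T) (insert v S) = ⊥
        · right
          refine ⟨h3, Or.inr ?_⟩
          omega
        · left
          exact ⟨by omega, h3⟩
      · rcases Classical.em (Wg_W loc u n ν ((Finset.range k).biUnion T) S ≤ Ls)
          with hW | hW
        · exact ⟨S, hS.trans hsub', Or.inr ⟨h1, Or.inl hW⟩⟩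
        · have h2' : l ≤ Module.finrank (ZMod 2)
              (Wg_K loc u n ν ((Finset.range k).biUnion T) ∅) +
            Module.finrank (ZMod 2)
              ↥(Wg_W loc u n ν ((Finset.range k).biUnion T) S ⊓ Ls) := by
            rcases h2 with h | h
            · exact absurd h hW
            · exact h
          have hdS := hd' S (hS.trans hsub)
          obtain ⟨y, hyL, hyW⟩ : ∃ y ∈ Ls,
              y ∉ Wg_W loc u n ν ((Finset.range k).biUnion T) S := by
            by_contra hcon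
            push Not at hcon
            refine hW (le_of_eq (Submodule.eq_of_le_of_finrank_le hcon ?_).symm)
            rw [(Wg_W_lag q B hpol loc u n ν _ hq hB m hVf S hdS h1).2.1]
            exact hLf
          obtain ⟨v, hv, hvφ⟩ := hr l hlk ((B y).comp loc)
          have hstep := Wg_stepB q B hpol loc u n ν _ hq hB m hVf Ls hLq S v (hTl v hv)
            (hTl' v hv) hdS (hd' _ (hins' v hv)) h1 y hyL hyW (by
              intro c hc
              rw [hvφ c (hXn c hc)]; rfl)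
          exact ⟨insert v S, hins v hv, Or.inr ⟨hstep.1, Or.inr (by omega)⟩⟩
  obtain ⟨S, hS, hS2⟩ := main k le_rfl
  have hfinal : Wg_K loc u n ν ((Finset.range k).biUnion T) S = ⊥ ∧
      Wg_W loc u n ν ((Finset.range k).biUnion T) S ≤ Ls := by
    rcases hS2 with ⟨h1, h2⟩ | ⟨h1, h2⟩
    · exfalso
      have h3 : Module.finrank (ZMod 2)
          (Wg_K loc u n ν ((Finset.range k).biUnion T) S) ≠ 0 := by
        intro h
        exact h2 (Submodule.finrank_eq_zero.1 h)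
      omega
    · refine ⟨h1, ?_⟩
      rcases h2 with h2 | h2
      · exact h2
      · have h3 := (Wg_W_lag q B hpol loc u n ν _ hq hB m hVf S (hd' S hS) h1).2.1
        have h4 : Wg_W loc u n ν ((Finset.range k).biUnion T) S ⊓ Ls =
            Wg_W loc u n ν ((Finset.range k).biUnion T) S :=
          Submodule.eq_of_le_of_finrank_le inf_le_left (by omega)
        exact inf_eq_left.1 h4
  refine ⟨S, hS, fun c hc1 hc2 => ?_⟩
  have hcX : c ∈ Wg_X u n ν ((Finset.range k).biUnion T) S := ⟨hc1, hc2⟩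
  have hcL : loc c ∈ Ls := hfinal.2 ⟨c, hcX, rfl⟩
  refine ⟨hcL, fun h0 => ?_⟩
  have h1 : c ∈ Wg_K loc u n ν ((Finset.range k).biUnion T) S := ⟨hcX, h0⟩
  rw [hfinal.1] at h1
  exact (Submodule.mem_bot _).1 h1

end H76MX

end S_H76_MX_Wg

section S_H76_MX_Df

set_option autoImplicit false
set_option linter.unusedSectionVars false
open scoped Classical

open WithZero NumberField IsDedekindDomain H38RT
open H38T1 (SC sc scu rep eo la si Pri OddP tp unif ka)
open H76PP H36MX H76MQ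

namespace H76MX

/-- The completion. -/
abbrev Kv {K : Type} [Field K] [NumberField K] (v : HeightOneSpectrum (𝓞 K)) : Type :=
  v.adicCompletion K

variable (K : Type) [Field K] [NumberField K]

/-- The places at which the cubic splits and the places modulo which it has no root. -/
structure CfgX where
  Z : Finset (HeightOneSpectrum (𝓞 K))
  R : Finset (HeightOneSpectrum (𝓞 K))

variable {K}

/-- All places of the configuration. -/
noncomputable def CfgX.S (C : CfgX K) : Finset (HeightOneSpectrum (𝓞 K)) := C.Z ∪ C.R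

/-- `Z` contains the places above two, `Z ∪ R` those above three, the places of `R` are odd. -/
structure CfgX.Ok (C : CfgX K) : Prop where
  mem2 : ∀ v : HeightOneSpectrum (𝓞 K), (2 : 𝓞 K) ∈ v.asIdeal → v ∈ C.Z
  R2 : ∀ v ∈ C.R, (2 : 𝓞 K) ∉ v.asIdeal
  R3 : ∀ v : HeightOneSpectrum (𝓞 K), (3 : 𝓞 K) ∈ v.asIdeal → v ∈ C.R

/-- The space of the local classes at the places of `Z`. -/
abbrev CfgX.V (C : CfgX K) : Type := (u : {u // u ∈ C.Z}) → SC (Kv u.1) × SC (Kv u.1)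

/-- The quadratic form. -/
noncomputable def CfgX.Q (C : CfgX K) (p : C.V) : ZMod 2 := ∑ u, hsc (p u).1 (p u).2

/-- The family of pairs: `e u` are the roots at `u ∈ Z`. -/
structure FamX (C : CfgX K) (q₀ : HeightOneSpectrum (𝓞 K)) (T : Finset (HeightOneSpectrum (𝓞 K)))
    (A B : 𝓞 K) (e : (u : HeightOneSpectrum (𝓞 K)) → Fin 3 → Kv u) : Prop where
  spl : ∀ u ∈ C.Z, Spl (algebraMap K (Kv u) (A : K)) (algebraMap K (Kv u) (B : K)) (e u)
  res : ∀ v ∈ C.R, ∀ t : 𝓞 K, t ^ 3 + A * t + B ∉ v.asIdeal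
  irr : ∀ t : 𝓞 K, t ^ 3 + A * t + B ∉ q₀.asIdeal
  typ : ∀ v ∈ T, ∃ t : 𝓞 K, t ^ 3 + A * t + B ∈ v.asIdeal ∧
    ∀ s : 𝓞 K, -3 * t ^ 2 - 4 * A - s ^ 2 ∉ v.asIdeal
  sqf : ∀ v : HeightOneSpectrum (𝓞 K), v ∉ C.S → dsc A B ∉ v.asIdeal ^ 2
  pos : ∀ s : K →+* ℝ, 0 < s ((dsc A B : 𝓞 K) : K)

/-- The local conditions of the twist by `D * d`, for all local squares `D` at `u`, are contained in the
conditions `LW x`. -/
def CondAt (u : HeightOneSpectrum (𝓞 K)) (A B : 𝓞 K) (e : Fin 3 → Kv u) (d : 𝓞 K) (x : SC (Kv u)) :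
    Prop :=
  ∀ (hs : Spl (algebraMap K (Kv u) (A : K)) (algebraMap K (Kv u) (B : K)) e)
    (L : Type) [Field L] [NumberField L] [Algebra K L] (θ : L) (h : Cub K L (A : K) (B : K) θ)
    (D : 𝓞 K), D ≠ 0 →
    (∃ m : K, m ≠ 0 ∧ u.valuation K ((D : K) * m ^ 2 - 1) < u.valuation K 4) →
    ∀ δ : Fin 3 → K, ev (algebraMap K L ((D * d : 𝓞 K) : K) * θ) δ ≠ 0 →
      IsSquare (Algebra.norm K (ev (algebraMap K L ((D * d : 𝓞 K) : K) * θ) δ)) →
      LC (algebraMap K (u.adicCompletion K)) (((D * d : 𝓞 K) : K) ^ 2 * A)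
        (((D * d : 𝓞 K) : K) ^ 3 * B) δ →
      LW x (lcl h (algebraMap K (Kv u)) hs 0 (sc (ev (algebraMap K L ((D * d : 𝓞 K) : K) * θ) δ)))
        (lcl h (algebraMap K (Kv u)) hs 2 (sc (ev (algebraMap K L ((D * d : 𝓞 K) : K) * θ) δ)))

section Data

variable {L : Type} [Field L] [NumberField L] [Algebra K L]

/-- The places above `T` and the homomorphisms at `Z`. -/
structure XData (C : CfgX K) (T : Finset (HeightOneSpectrum (𝓞 K))) (A B : 𝓞 K)
    (e : (u : HeightOneSpectrum (𝓞 K)) → Fin 3 → Kv u) (θ : L) where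
  h : Cub K L (A : K) (B : K) θ
  hs : ∀ u ∈ C.Z, Spl (algebraMap K (Kv u) (A : K)) (algebraMap K (Kv u) (B : K)) (e u)
  t₁ : HeightOneSpectrum (𝓞 K) → HeightOneSpectrum (𝓞 L)
  t₂ : HeightOneSpectrum (𝓞 K) → HeightOneSpectrum (𝓞 L)
  hT : ∀ v ∈ T, TwT K (A : K) θ v (t₁ v) (t₂ v)

variable {C : CfgX K} {T : Finset (HeightOneSpectrum (𝓞 K))} {A B : 𝓞 K}
  {e : (u : HeightOneSpectrum (𝓞 K)) → Fin 3 → Kv u} {θ : L}

/-- The constant at a place of `T`. -/
noncomputable def XData.nu (D : XData C T A B e θ) (v : HeightOneSpectrum (𝓞 K)) : ZMod 2 :=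
  la (D.t₁ v) (sc (3 * θ ^ 2 + algebraMap K L (A : K)))

/-- The local classes at the places of `Z`. -/
noncomputable def XData.loc (D : XData C T A B e θ) : SC L →+ C.V where
  toFun c u := (lcl D.h (algebraMap K (Kv u.1)) (D.hs u.1 u.2) 0 c,
    lcl D.h (algebraMap K (Kv u.1)) (D.hs u.1 u.2) 2 c)
  map_zero' := by
    funext u
    simp
  map_add' c c' := by
    funext u
    simp

lemma XData.loc_apply (D : XData C T A B e θ) (c : SC L) (u : {u // u ∈ C.Z}) :
    D.loc c u = (lcl D.h (algebraMap K (Kv u.1)) (D.hs u.1 u.2) 0 c,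
      lcl D.h (algebraMap K (Kv u.1)) (D.hs u.1 u.2) 2 c) := rfl

/-- The class lies in the group `X J`. -/
def XData.X (D : XData C T A B e θ) (J : Finset (HeightOneSpectrum (𝓞 K))) (c : SC L) : Prop :=
  c ∈ (HH K (C.S ∪ J) : AddSubgroup (SC L)) ∧
    ∀ v ∈ J, la (D.t₁ v) c = D.nu v * eo (D.t₂ v) c

end Data

variable (K) in
/-- The facts on Hilbert symbols which are used (proved in H36/MX). -/
structure Hilb : Prop where
  hf : ∀ v : HeightOneSpectrum (𝓞 K), HF (Kv v)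
  odd : ∀ v : HeightOneSpectrum (𝓞 K), OddP v → ∀ a b : K, a ≠ 0 → b ≠ 0 →
    hsv v a b = tp v (sc a) (sc b)
  prod : ∀ a b : K, a ≠ 0 → b ≠ 0 → BB a b = 0

/-- The target of the walk: a singular subgroup of at least `2^m` elements which meets the local conditions of
every twist only in zero. -/
structure Target (C : CfgX K) (Δ : Set (𝓞 K))
    (x : (u : HeightOneSpectrum (𝓞 K)) → 𝓞 K → SC (Kv u)) (W : Submodule (ZMod 2) C.V) : Prop where
  sing : ∀ p ∈ W, C.Q p = 0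
  card : 2 ^ (Module.finrank ℚ K + 2 * C.Z.card) ≤ Nat.card W
  zero : ∀ d ∈ Δ, ∀ p ∈ W, (∀ u : {u // u ∈ C.Z}, LW (x u.1 d) (p u).1 (p u).2) → p = 0

end H76MX

end S_H76_MX_Df

section S_H76_MX_Hc

set_option autoImplicit false
set_option linter.unusedSectionVars false
open scoped Classical

open WithZero NumberField IsDedekindDomain H38RT
open H38T1 (SC sc scu rep eo la si Pri OddP tp unif ka)
open H76PP H36MX H76MQ

namespace H76MX

variable {K : Type} [Field K] [NumberField K]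

theorem scv_surj (v : HeightOneSpectrum (𝓞 K)) (x : SC (Kv v)) :
    ∃ a : K, a ≠ 0 ∧ sc (algebraMap K (Kv v) a) = x := by
  obtain ⟨c₀, hc₀, rfl⟩ := H38T1.sc_surj x
  have h40 : (4 : v.adicCompletion K) ≠ 0 := by
    have : (4 : v.adicCompletion K) = 2 * 2 := by norm_num
    rw [this]
    exact mul_ne_zero two_ne_zero two_ne_zero
  obtain ⟨k, hk⟩ : ∃ k : K, Valued.v (algebraMap K (v.adicCompletion K) k - c₀) <
      Valued.v (4 * c₀) := by
    have hd := HeightOneSpectrum.denseRange_algebraMap (K := K) v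
    have hopen : IsOpen {y : v.adicCompletion K | Valued.v (y - c₀) < Valued.v (4 * c₀)} := by
      have h1 : IsOpen {y : v.adicCompletion K | Valued.v y < Valued.v (4 * c₀)} := by
        have := Valued.isOpen_ball (v.adicCompletion K) (Valued.v.restrict (4 * c₀))
        simp_rw [Valuation.restrict_lt_iff] at this
        exact this
      exact h1.preimage (continuous_sub_right c₀)
    have hne : (4 * c₀ : v.adicCompletion K) ≠ 0 := mul_ne_zero h40 hc₀
    obtain ⟨k, hk⟩ := hd.exists_mem_open hopen ⟨c₀, by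
      simp only [Set.mem_ofPred_eq, sub_self, map_zero]
      exact zero_lt_iff.2 ((Valuation.ne_zero_iff _).2 hne)⟩
    exact ⟨k, hk⟩
  obtain ⟨r, hr0, hr⟩ := H36CY.sq_near (F := v.adicCompletion K) hk
  have hk0 : k ≠ 0 := by
    intro h
    rw [h, map_zero] at hr
    exact mul_ne_zero hc₀ (pow_ne_zero 2 hr0) hr.symm
  refine ⟨k, hk0, ?_⟩
  have h1 : algebraMap K (Kv v) k = c₀ * r ^ 2 := hr
  rw [h1, H38T1.sc_mul hc₀ (pow_ne_zero 2 hr0)]
  have h2 : sc (r ^ 2) = 0 := (H38T1.sc_eq_zero (pow_ne_zero 2 hr0)).2 ⟨r, pow_two r⟩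
  rw [h2, add_zero]

theorem card_scv (v : HeightOneSpectrum (𝓞 K)) : Nat.card (SC (Kv v)) = 4 * H30ZO.qq v := by
  rw [← H30ZO.index_Sq v, H30ZO.Sq, AddSubgroup.index_ker]
  have h1 : (scm (algebraMap K (v.adicCompletion K) : K →* v.adicCompletion K)).range = ⊤ := by
    rw [AddMonoidHom.range_eq_top]
    intro x
    obtain ⟨a, ha, hx⟩ := scv_surj v x
    exact ⟨sc a, by rw [scm_sc _ ha]; exact hx⟩
  rw [h1]
  exact Nat.card_congr AddSubgroup.topEquiv.toEquiv.symm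

private theorem Hc_qq_pos (v : HeightOneSpectrum (𝓞 K)) : 0 < H30ZO.qq v := by
  have h1 := H54PP.two_le_Nv v
  rw [H30ZO.qq]
  positivity

theorem fin_scv (v : HeightOneSpectrum (𝓞 K)) : Finite (SC (Kv v)) := by
  refine Nat.finite_of_card_ne_zero ?_
  rw [card_scv]
  have := Hc_qq_pos v
  omega

theorem prod_scv {Z : Finset (HeightOneSpectrum (𝓞 K))}
    (hZ : ∀ v : HeightOneSpectrum (𝓞 K), (2 : 𝓞 K) ∈ v.asIdeal → v ∈ Z) :
    ∏ v ∈ Z, Nat.card (SC (Kv v)) = 2 ^ (Module.finrank ℚ K + 2 * Z.card) := by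
  have h1 : ∀ v ∈ Z, Nat.card (SC (Kv v)) = 4 * H30ZO.qq v := fun v _ => card_scv v
  have h2 : ∀ v : HeightOneSpectrum (𝓞 K), v.valuation K 2 < 1 → v ∈ Z := by
    intro v hv
    refine hZ v ?_
    refine (HeightOneSpectrum.valuation_lt_one_iff_mem (K := K) v 2).1 ?_
    have h2 : algebraMap (𝓞 K) K 2 = 2 := map_ofNat (algebraMap (𝓞 K) K) 2
    exact (congrArg (v.valuation K) h2).trans_lt hv
  rw [Finset.prod_congr rfl h1, Finset.prod_mul_distrib, Finset.prod_const,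
    H30ZO.prod_two Z h2, pow_add, mul_comm, pow_mul]
  norm_num

theorem fin_V (C : CfgX K) : Finite C.V := by
  have : ∀ v : HeightOneSpectrum (𝓞 K), Finite (SC (Kv v)) := fin_scv
  exact Pi.finite

theorem card_V {C : CfgX K} (hC : C.Ok) :
    Nat.card C.V = 2 ^ (2 * (Module.finrank ℚ K + 2 * C.Z.card)) := by
  have h1 : Nat.card C.V = ∏ u : {u // u ∈ C.Z}, (Nat.card (SC (Kv u.1))) ^ 2 := by
    rw [CfgX.V, Nat.card_pi]
    refine Finset.prod_congr rfl fun u _ => ?_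
    rw [Nat.card_prod, pow_two]
  rw [h1, Finset.prod_pow, Finset.prod_coe_sort C.Z (fun u => Nat.card (SC (Kv u))),
    prod_scv hC.mem2, ← pow_mul, mul_comm]

end H76MX

end S_H76_MX_Hc

section S_H76_MX_Nb

set_option autoImplicit false
set_option linter.unusedSectionVars false
open scoped Classical

open WithZero NumberField IsDedekindDomain H38RT
open H38T1 (SC sc scu rep eo la si Pri OddP tp unif ka)
open H76PP H36MX H76MQ

namespace H76MX

variable {K L : Type} [Field K] [NumberField K] [Field L] [NumberField L] [Algebra K L]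

theorem Nb_dn (v : HeightOneSpectrum (𝓞 K)) (j : L →+* v.adicCompletion K)
    (hj : ∀ x : K, j (algebraMap K L x) = algebraMap K (v.adicCompletion K) x) :
    dn K (H73P2.Cm_pl v j hj) = v := by
  apply HeightOneSpectrum.ext
  ext x
  have h1 : x ∈ (dn K (H73P2.Cm_pl v j hj)).asIdeal ↔
      algebraMap (𝓞 K) (𝓞 L) x ∈ H73P2.Cm_id v j hj := Iff.rfl
  rw [h1, H73P2.Cm_mem, ← IsScalarTower.algebraMap_apply (𝓞 K) (𝓞 L) L,
    IsScalarTower.algebraMap_apply (𝓞 K) K L, H73P2.Cm_val v j hj]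
  exact v.valuation_lt_one_iff_mem (K := K) x

theorem Nb_lt (v : HeightOneSpectrum (𝓞 K)) (j : L →+* v.adicCompletion K)
    (hj : ∀ x : K, j (algebraMap K L x) = algebraMap K (v.adicCompletion K) x) {x y : L}
    (hy : y ≠ 0) (h : Valued.v (j x) < Valued.v (j y)) :
    (H73P2.Cm_pl v j hj).valuation L x < (H73P2.Cm_pl v j hj).valuation L y := by
  by_contra hcon
  rw [not_lt] at hcon
  have hx : x ≠ 0 := by
    rintro rfl
    rw [map_zero, le_zero_iff, Valuation.zero_iff] at hcon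
    exact hy hcon
  have h1 : (H73P2.Cm_pl v j hj).valuation L (y / x) ≤ 1 := by
    rw [map_div₀]
    exact (div_le_one₀ (zero_lt_iff.2 ((Valuation.ne_zero_iff _).2 hx))).2 hcon
  have h2 := H73P2.Cm_pl_le v j hj _ h1
  rw [map_div₀, map_div₀, div_le_one₀ (zero_lt_iff.2 ((Valuation.ne_zero_iff _).2
    ((map_ne_zero j).2 hx)))] at h2
  exact absurd h (not_lt.2 h2)

theorem nb_split {A B : K} {θ : L} (h : Cub K L A B θ) {u : HeightOneSpectrum (𝓞 K)}
    {e : Fin 3 → Kv u} (hs : Spl (algebraMap K (Kv u) A) (algebraMap K (Kv u) B) e) :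
    3 ≤ H30ZO.nb K L u := by
  obtain ⟨ρ, hρ⟩ : ∃ ρ : Fin 3 → (L →+* Kv u),
      ∀ j, ρ j = rh h (algebraMap K (Kv u)) (hs.root j) := ⟨_, fun _ => rfl⟩
  have hj : ∀ j (x : K), ρ j (algebraMap K L x) = algebraMap K (u.adicCompletion K) x := by
    intro j x
    rw [hρ]
    exact rh_algebraMap h _ _ x
  have hθ : ∀ j, ρ j θ = e j := by
    intro j
    rw [hρ]
    exact rh_theta h _ _
  have he : ∀ j k : Fin 3, j ≠ k → e j ≠ e k := by
    have h01 := hs.ne01
    have h02 := hs.ne02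
    have h12 := hs.ne12
    intro j k hjk
    fin_cases j <;> fin_cases k
    · exact absurd rfl hjk
    · exact h01
    · exact h02
    · exact h01.symm
    · exact absurd rfl hjk
    · exact h12
    · exact h02.symm
    · exact h12.symm
    · exact absurd rfl hjk
  have hinj : Function.Injective (fun j => H73P2.Cm_pl u (ρ j) (hj j)) := by
    intro j k hjk
    by_contra hne
    have hjk' : H73P2.Cm_pl u (ρ j) (hj j) = H73P2.Cm_pl u (ρ k) (hj k) := hjk
    have hg : e k - e j ≠ 0 := sub_ne_zero.2 (he k j (Ne.symm hne))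
    obtain ⟨n, hn⟩ := exists_exp_neg_natCast_lt (x := Valued.v (e k - e j))
      ((Valuation.ne_zero_iff _).2 hg)
    obtain ⟨c, hc⟩ := u.valuation_surjective K (exp (-(n : ℤ)))
    have hc0 : c ≠ 0 := by
      rintro rfl
      rw [map_zero] at hc
      exact exp_ne_zero hc.symm
    have hcV : Valued.v (algebraMap K (u.adicCompletion K) c) < Valued.v (e k - e j) := by
      rw [H36CY.val_coe, hc]
      exact hn
    obtain ⟨a, ha⟩ := H36CY.near_coe u (e j)
      ((map_ne_zero (algebraMap K (u.adicCompletion K))).2 hc0)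
    have e1 : ρ j (algebraMap K L a - θ) = algebraMap K (u.adicCompletion K) a - e j := by
      rw [map_sub, hj, hθ]
    have e2 : ρ k (algebraMap K L a - θ) = algebraMap K (u.adicCompletion K) a - e k := by
      rw [map_sub, hj, hθ]
    have h1 := Nb_lt u (ρ j) (hj j) (x := algebraMap K L a - θ) (y := algebraMap K L c)
      ((map_ne_zero (algebraMap K L)).2 hc0) (by rw [e1, hj]; exact ha)
    have hV : Valued.v (algebraMap K (u.adicCompletion K) c) <
        Valued.v (algebraMap K (u.adicCompletion K) a - e k) := by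
      by_contra hcon
      rw [not_lt] at hcon
      have h3 : e k - e j = (algebraMap K (u.adicCompletion K) a - e j) -
          (algebraMap K (u.adicCompletion K) a - e k) := by ring
      have h4 : Valued.v (e k - e j) ≤ Valued.v (algebraMap K (u.adicCompletion K) c) := by
        rw [h3]
        exact (Valuation.map_sub _ _ _).trans (max_le ha.le hcon)
      exact absurd hcV (not_lt.2 h4)
    have hne0 : algebraMap K L a - θ ≠ 0 := by
      intro h0
      rw [h0, map_zero] at e2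
      rw [← e2, map_zero] at hV
      exact absurd hV (not_lt.2 zero_le)
    have h2 := Nb_lt u (ρ k) (hj k) (x := algebraMap K L c) (y := algebraMap K L a - θ)
      hne0 (by rw [e2, hj]; exact hV)
    rw [hjk'] at h1
    exact absurd h1 (not_lt.2 h2.le)
  have hsub : Set.range (fun j => H73P2.Cm_pl u (ρ j) (hj j)) ⊆
      {w : HeightOneSpectrum (𝓞 L) | dn K w = u} := by
    rintro w ⟨j, rfl⟩
    exact Nb_dn u (ρ j) (hj j)
  have hcard : (Set.range (fun j => H73P2.Cm_pl u (ρ j) (hj j))).ncard = 3 := by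
    rw [← Set.image_univ, Set.ncard_image_of_injective _ hinj, Set.ncard_univ,
      Nat.card_eq_fintype_card, Fintype.card_fin]
  unfold H30ZO.nb
  rw [← hcard]
  exact Set.ncard_le_ncard hsub (fin_above u)

end H76MX

end S_H76_MX_Nb

section S_H76_MX_Wa

set_option autoImplicit false
set_option linter.unusedSectionVars false
open scoped Classical

open WithZero NumberField IsDedekindDomain H38RT
open H38T1 (SC sc scu rep eo la si Pri OddP tp unif ka)
open H76PP H36MX H76MQ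

namespace H76MX

section Hs

variable {F : Type} [Field F]

theorem Wa_sol {a b : F} (h : Sol a b) : Sol b a := by
  obtain ⟨x, y, hxy⟩ := h
  exact ⟨y, x, by rw [← hxy]; ring⟩

theorem Wa_hs_comm (a b : F) : hs a b = hs b a := by
  by_cases h : Sol a b
  · rw [hs_eq_zero.2 h, hs_eq_zero.2 (Wa_sol h)]
  · rw [hs_eq_one.2 h, hs_eq_one.2 fun h1 => h (Wa_sol h1)]

theorem Wa_sol_sq {a b c : F} (hc : c ≠ 0) (h : Sol a b) : Sol (a * c ^ 2) b := by
  obtain ⟨x, y, hxy⟩ := h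
  refine ⟨x / c, y, ?_⟩
  rw [← hxy]
  field_simp

theorem Wa_sc_eq {a a' : F} (ha : a ≠ 0) (ha' : a' ≠ 0) (h : sc a = sc a') :
    ∃ c : F, c ≠ 0 ∧ a = a' * c ^ 2 := by
  have h1 : sc (a * a') = 0 := by
    rw [H38T1.sc_mul ha ha', h, ← two_nsmul]
    exact H38T1.SC.two_smul _
  obtain ⟨r, hr⟩ := (H38T1.sc_eq_zero (mul_ne_zero ha ha')).1 h1
  have hr0 : r ≠ 0 := by
    rintro rfl
    rw [mul_zero] at hr
    exact mul_ne_zero ha ha' hr
  refine ⟨r / a', div_ne_zero hr0 ha', ?_⟩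
  field_simp
  rw [hr]
  ring

theorem Wa_hs_congr {a a' : F} (ha : a ≠ 0) (ha' : a' ≠ 0) (h : sc a = sc a') (b : F) :
    hs a b = hs a' b := by
  by_cases h0 : Sol a' b
  · obtain ⟨c, hc, hca⟩ := Wa_sc_eq ha ha' h
    rw [hs_eq_zero.2 h0, hs_eq_zero.2 (by rw [hca]; exact Wa_sol_sq hc h0)]
  · rw [hs_eq_one.2 h0, hs_eq_one.2]
    intro h1
    obtain ⟨c, hc, hca⟩ := Wa_sc_eq ha' ha h.symm
    exact h0 (by rw [hca]; exact Wa_sol_sq hc h1)

theorem hsc_comm (x y : SC F) : hsc x y = hsc y x := by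
  exact Wa_hs_comm _ _

theorem hsc_add_left (hF : HF F) (x y z : SC F) : hsc (x + y) z = hsc x z + hsc y z := by
  unfold hsc
  rw [← hF.mul _ _ _ (H38T1.rep_ne x) (H38T1.rep_ne y) (H38T1.rep_ne z)]
  refine Wa_hs_congr (H38T1.rep_ne _) (mul_ne_zero (H38T1.rep_ne x) (H38T1.rep_ne y)) ?_ _
  rw [H38T1.sc_rep, H38T1.sc_mul (H38T1.rep_ne x) (H38T1.rep_ne y), H38T1.sc_rep, H38T1.sc_rep]

theorem Wa_add_right (hF : HF F) (x y z : SC F) : hsc x (y + z) = hsc x y + hsc x z := by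
  rw [hsc_comm x (y + z), hsc_add_left hF, hsc_comm y x, hsc_comm z x]

theorem Wa_zero_left (hF : HF F) (z : SC F) : hsc 0 z = 0 := by
  have h := hsc_add_left hF 0 0 z
  rw [add_zero] at h
  exact left_eq_add.1 h

theorem Wa_zero_right (hF : HF F) (z : SC F) : hsc z 0 = 0 := by
  rw [hsc_comm, Wa_zero_left hF]

theorem Wa_hsc_sc {a b : F} (ha : a ≠ 0) (hb : b ≠ 0) : hsc (sc a) (sc b) = hs a b := by
  unfold hsc
  rw [Wa_hs_congr (H38T1.rep_ne _) ha (H38T1.sc_rep _), Wa_hs_comm a,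
    Wa_hs_congr (H38T1.rep_ne _) hb (H38T1.sc_rep _), Wa_hs_comm b]

theorem hsc_nd (hF : HF F) {x : SC F} (hx : x ≠ 0) : ∃ y : SC F, hsc x y = 1 := by
  obtain ⟨a, ha, rfl⟩ := H38T1.sc_surj x
  obtain ⟨b, hb, hab⟩ := hF.nd a ha fun h => hx ((H38T1.sc_eq_zero ha).2 h)
  exact ⟨sc b, by rw [Wa_hsc_sc ha hb]; exact hab⟩

theorem hsc_sc (hF : HF F) {a b : F} (ha : a ≠ 0) (hb : b ≠ 0) : hsc (sc a) (sc b) = hs a b := by
  exact Wa_hsc_sc ha hb

end Hs

variable {K L : Type} [Field K] [NumberField K] [Field L] [NumberField L] [Algebra K L]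

theorem Wa_bil {V : Type} [AddCommGroup V] [Module (ZMod 2) V] (f : V → V → ZMod 2)
    (h1 : ∀ x y z, f (x + y) z = f x z + f y z) (h2 : ∀ x y z, f x (y + z) = f x y + f x z) :
    ∃ B : LinearMap.BilinForm (ZMod 2) V, ∀ x y, B x y = f x y := by
  have hc : ∀ c : ZMod 2, c = 0 ∨ c = 1 := by decide
  refine ⟨LinearMap.mk₂ (ZMod 2) f h1 ?_ h2 ?_, fun x y => rfl⟩
  · intro c x z
    rcases hc c with rfl | rfl
    · have h := h1 0 0 z
      rw [add_zero] at h
      rw [zero_smul, zero_smul]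
      exact left_eq_add.1 h
    · rw [one_smul, one_smul]
  · intro c x z
    rcases hc c with rfl | rfl
    · have h := h2 x 0 0
      rw [add_zero] at h
      rw [zero_smul, zero_smul]
      exact left_eq_add.1 h
    · rw [one_smul, one_smul]

theorem Wa_B (C : CfgX K) (hH : ∀ v : HeightOneSpectrum (𝓞 K), HF (Kv v)) :
    ∃ B : LinearMap.BilinForm (ZMod 2) C.V, (∀ x y : C.V, C.Q (x + y) = C.Q x + C.Q y + B x y) ∧
      ∀ x : C.V, (∀ y, B x y = 0) → x = 0 := by
  obtain ⟨B, hB⟩ := Wa_bil (V := C.V)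
    (fun p p' => ∑ u, (hsc (p u).1 (p' u).2 + hsc (p' u).1 (p u).2)) (by
      intro x y z
      rw [← Finset.sum_add_distrib]
      refine Finset.sum_congr rfl fun u _ => ?_
      show hsc ((x u).1 + (y u).1) (z u).2 + hsc (z u).1 ((x u).2 + (y u).2) = _
      rw [hsc_add_left (hH u.1), Wa_add_right (hH u.1)]
      abel) (by
      intro x y z
      rw [← Finset.sum_add_distrib]
      refine Finset.sum_congr rfl fun u _ => ?_
      show hsc (x u).1 ((y u).2 + (z u).2) + hsc ((y u).1 + (z u).1) (x u).2 = _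
      rw [hsc_add_left (hH u.1), Wa_add_right (hH u.1)]
      abel)
  refine ⟨B, fun x y => ?_, fun x hx => ?_⟩
  · rw [hB]
    unfold CfgX.Q
    rw [← Finset.sum_add_distrib, ← Finset.sum_add_distrib]
    refine Finset.sum_congr rfl fun u _ => ?_
    show hsc ((x u).1 + (y u).1) ((x u).2 + (y u).2) = _
    rw [hsc_add_left (hH u.1), Wa_add_right (hH u.1), Wa_add_right (hH u.1)]
    abel
  · funext u₀
    have hs1 : ∀ z : SC (Kv u₀.1) × SC (Kv u₀.1), hsc (x u₀).1 z.2 + hsc z.1 (x u₀).2 = 0 := by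
      intro z
      have h := hx (Pi.single u₀ z)
      rw [hB, Finset.sum_eq_single u₀] at h
      · rw [Pi.single_eq_same] at h
        exact h
      · intro u _ hu
        rw [Pi.single_eq_of_ne hu]
        show hsc (x u).1 0 + hsc 0 (x u).2 = 0
        rw [Wa_zero_left (hH u.1), Wa_zero_right (hH u.1), add_zero]
      · intro h1
        exact absurd (Finset.mem_univ _) h1
    have h1 : (x u₀).1 = 0 := by
      by_contra h0
      obtain ⟨y, hy⟩ := hsc_nd (hH u₀.1) h0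
      have h2 := hs1 (0, y)
      rw [Wa_zero_left (hH u₀.1), add_zero, hy] at h2
      exact absurd h2 (by decide)
    have h2 : (x u₀).2 = 0 := by
      by_contra h0
      obtain ⟨y, hy⟩ := hsc_nd (hH u₀.1) h0
      have h3 := hs1 (y, 0)
      rw [Wa_zero_right (hH u₀.1), zero_add, hsc_comm, hy] at h3
      exact absurd h3 (by decide)
    exact Prod.ext h1 h2

theorem Wa_walk {H V : Type} [AddCommGroup H] (h2 : ∀ x : H, 2 • x = 0) [Finite H] [AddCommGroup V]
    [Module (ZMod 2) V] [Finite V] {ι : Type} (q : V → ZMod 2) (B : LinearMap.BilinForm (ZMod 2) V)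
    (hpol : ∀ x y, q (x + y) = q x + q y + B x y) (hB : ∀ x, (∀ y, B x y = 0) → x = 0)
    {m : ℕ} (hV : Nat.card V ≤ 2 ^ (2 * m)) (Ls : Submodule (ZMod 2) V) (hLq : ∀ x ∈ Ls, q x = 0)
    (hL : 2 ^ m ≤ Nat.card Ls) (loc : H →+ V)
    (u n : ι → H →+ ZMod 2) (ν : ι → ZMod 2) (k : ℕ)
    (T : ℕ → Finset ι) (hT : ∀ i < k, ∀ j < k, i ≠ j → Disjoint (T i) (T j))
    (hq : ∀ c : H, q (loc c) + ∑ v ∈ (Finset.range k).biUnion T, n v c * (u v c + ν v) = 0)
    (hd : ∀ S ⊆ (Finset.range k).biUnion T, 2 ^ m ≤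
      Nat.card {c : H // (∀ v ∈ (Finset.range k).biUnion T, v ∉ S → n v c = 0) ∧
        ∀ v ∈ S, u v c = ν v * n v c})
    (hr : ∀ l < k, ∀ φ : H →+ ZMod 2, ∃ v ∈ T l, ∀ c : H,
      (∀ v' ∈ (Finset.range k).biUnion T, v' ∉ (Finset.range l).biUnion T → n v' c = 0) →
      u v c = φ c)
    (hk : Nat.card {c : H // ∀ v ∈ (Finset.range k).biUnion T, n v c = 0} * 2 ^ m ≤ 2 ^ k) :
    ∃ S ⊆ (Finset.range k).biUnion T, ∀ c : H,
      (∀ v ∈ (Finset.range k).biUnion T, v ∉ S → n v c = 0) →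
      (∀ v ∈ S, u v c = ν v * n v c) → loc c ∈ Ls ∧ (loc c = 0 → c = 0) := by
  let _ : Module (ZMod 2) H := AddCommGroup.zmodModule h2
  exact walkG q B hpol hB hV Ls hLq hL (loc.toZModLinearMap 2)
    (fun p => (u p).toZModLinearMap 2) (fun p => (n p).toZModLinearMap 2) ν k T hT hq hd
    (fun l hl φ => hr l hl φ.toAddMonoidHom) hk

theorem Wa_odd {C : CfgX K} (hC : C.Ok) {v : HeightOneSpectrum (𝓞 K)} (hv : v ∉ C.S) : OddP v := by
  have h2 : (2 : 𝓞 K) ∉ v.asIdeal := fun h =>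
    hv (Finset.mem_union_left _ (hC.mem2 v h))
  have h3 := (v.valuation_eq_one_iff_notMem (K := K) (r := (2 : 𝓞 K))).2 h2
  unfold H38T1.OddP
  rw [← h3]
  congr 1

theorem Wa_dsc {q : HeightOneSpectrum (𝓞 K)} {A B : 𝓞 K} (h : dsc A B ∉ q.asIdeal ^ 2) :
    4 * (A : K) ^ 3 + 27 * (B : K) ^ 2 ≠ 0 := by
  intro h1
  apply h
  have h2 : dsc A B = 0 := by
    apply FaithfulSMul.algebraMap_injective (𝓞 K) K
    unfold dsc
    rw [map_zero, map_add, map_mul, map_mul, map_pow, map_pow, map_ofNat, map_ofNat]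
    exact h1
  rw [h2]
  exact Ideal.zero_mem _

theorem walk_appX {C : CfgX K} (hC : C.Ok) (hH : ∀ v : HeightOneSpectrum (𝓞 K), HF (Kv v))
    {Δ : Set (𝓞 K)} {x : (u : HeightOneSpectrum (𝓞 K)) → 𝓞 K → SC (Kv u)}
    {W : Submodule (ZMod 2) C.V} (hW : Target C Δ x W)
    {q₀ : HeightOneSpectrum (𝓞 K)} (hq : q₀ ∉ C.S) {k : ℕ} (hk0 : 0 < k)
    (T : ℕ → Finset (HeightOneSpectrum (𝓞 K))) (b : ℕ → ℕ)
    (hdis : ∀ i < k, ∀ j < k, i ≠ j → Disjoint (T i) (T j))
    (hT : ∀ v ∈ (Finset.range k).biUnion T, v ∉ C.S ∧ v ≠ q₀) {A B : 𝓞 K}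
    {e : (u : HeightOneSpectrum (𝓞 K)) → Fin 3 → Kv u}
    (hF : FamX C q₀ ((Finset.range k).biUnion T) A B e)
    (hG : ∀ l < k, GoodSt (C.S ∪ (Finset.range l).biUnion T) (T l) (b l) A B)
    (hk : b 0 * 2 ^ (Module.finrank ℚ K + 2 * C.Z.card) ≤ 2 ^ k) {θ : L} (hR : HR2 K L A B θ)
    (D : XData C ((Finset.range k).biUnion T) A B e θ)
    (hrec : ∀ c : SC L, c ∈ (HH K (C.S ∪ (Finset.range k).biUnion T) : AddSubgroup (SC L)) →
      C.Q (D.loc c) + ∑ v ∈ (Finset.range k).biUnion T,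
        eo (D.t₂ v) c * (la (D.t₁ v) c + D.nu v) = 0) :
    ∃ J ⊆ (Finset.range k).biUnion T, ∀ c : SC L, D.X J c →
      D.loc c ∈ W ∧ (D.loc c = 0 → c = 0) := by
  have hodd : ∀ v ∈ (Finset.range k).biUnion T, OddP v := fun v hv => Wa_odd hC (hT v hv).1
  have hodd1 : ∀ v ∈ (Finset.range k).biUnion T, OddP (D.t₁ v) := fun v hv => by
    rw [oddP_dn (K := K), (D.hT v hv).dn1]
    exact hodd v hv
  -- monotonicity
  have hmono : ∀ S ⊆ (Finset.range k).biUnion T, ∀ c : SC L,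
      c ∈ (HH K (C.S ∪ S) : AddSubgroup (SC L)) →
      c ∈ (HH K (C.S ∪ (Finset.range k).biUnion T) : AddSubgroup (SC L)) ∧
        ∀ v ∈ (Finset.range k).biUnion T, v ∉ S → eo (D.t₂ v) c = 0 := by
    intro S hS c hc
    rw [mem_HH] at hc ⊢
    refine ⟨⟨hc.1, fun w hw => hc.2 w fun h0 => hw ?_⟩, fun v hv hvS => hc.2 _ ?_⟩
    · rcases Finset.mem_union.1 h0 with h1 | h1
      · exact Finset.mem_union_left _ h1
      · exact Finset.mem_union_right _ (hS h1)
    · rw [(D.hT v hv).dn2]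
      intro h0
      rcases Finset.mem_union.1 h0 with h1 | h1
      · exact (hT v hv).1 h1
      · exact hvS h1
  have hback : ∀ S : Finset (HeightOneSpectrum (𝓞 K)), ∀ c : SC L,
      c ∈ (HH K (C.S ∪ (Finset.range k).biUnion T) : AddSubgroup (SC L)) →
      (∀ v ∈ (Finset.range k).biUnion T, v ∉ S → eo (D.t₂ v) c = 0) →
      c ∈ (HH K (C.S ∪ S) : AddSubgroup (SC L)) := by
    intro S c hc h0
    rw [mem_HH] at hc ⊢
    refine ⟨hc.1, fun w hw => ?_⟩
    by_cases hw' : dn K w ∈ C.S ∪ (Finset.range k).biUnion T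
    · rcases Finset.mem_union.1 hw' with h1 | h1
      · exact absurd (Finset.mem_union_left _ h1) hw
      · have h3 : dn K w ∉ S := fun h4 => hw (Finset.mem_union_right _ h4)
        rcases (D.hT (dn K w) h1).only w rfl with h5 | h5
        · rw [h5]
          exact Sa_eo1 D.h hR (hodd _ h1) (D.hT (dn K w) h1).toTwG hc.1
        · rw [h5]
          exact h0 _ h1 h3
    · exact hc.2 w hw'
  have : Finite (HH K (C.S ∪ (Finset.range k).biUnion T) : AddSubgroup (SC L)) := fin_HH K _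
  have : Finite C.V := fin_V C
  obtain ⟨Bf, hpol, hnd⟩ := Wa_B C hH
  have key := Wa_walk (H := (HH K (C.S ∪ (Finset.range k).biUnion T) : AddSubgroup (SC L)))
    (V := C.V) (ι := HeightOneSpectrum (𝓞 K))
    (fun x => Subtype.ext (H38T1.SC.two_smul x.1)) C.Q Bf hpol hnd
    (m := Module.finrank ℚ K + 2 * C.Z.card) (card_V hC).le W hW.sing hW.card
    (D.loc.comp (AddSubgroup.subtype _))
    (fun v => Sa_la _ (D.t₁ v)) (fun v => Sa_eo _ (D.t₂ v)) D.nu k T hdis ?_ ?_ ?_ ?_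
  · obtain ⟨S, hS, hS2⟩ := key
    refine ⟨S, hS, fun c hc => ?_⟩
    obtain ⟨hc1, hc2⟩ := hc
    obtain ⟨hc3, hc4⟩ := hmono S hS c hc1
    obtain ⟨h5, h6⟩ := hS2 ⟨c, hc3⟩ hc4 (fun v hv => by
      rw [Sa_la_apply (hodd1 v (hS hv))]
      exact hc2 v hv)
    exact ⟨h5, fun h7 => congrArg Subtype.val (h6 h7)⟩
  · -- hq
    intro c
    refine Eq.trans ?_ (hrec c.1 c.2)
    refine congrArg (fun z => C.Q (D.loc c.1) + z) ?_
    refine Finset.sum_congr rfl fun v hv => ?_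
    rw [Sa_la_apply (hodd1 v hv)]
    rfl
  · -- hd
    intro S hS
    have hcX := card_XJg D.h (Wa_dsc (hF.sqf q₀ hq)) (S := C.S) (Z := C.Z) (J := S)
      Finset.subset_union_left (fun v hv => nb_split D.h (D.hs v hv)) D.t₁ D.t₂ D.nu
      (fun v hv => ⟨(hT v (hS hv)).1, hodd v (hS hv), (D.hT v (hS hv)).toTwG⟩)
    refine hcX.trans ?_
    refine Nat.card_le_card_of_injective
      (fun c : {c : SC L // c ∈ (HH K (C.S ∪ S) : AddSubgroup (SC L)) ∧
          ∀ v ∈ S, la (D.t₁ v) c = D.nu v * eo (D.t₂ v) c} => (⟨⟨c.1, (hmono S hS c.1 c.2.1).1⟩,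
        (hmono S hS c.1 c.2.1).2, fun v hv => by
          rw [Sa_la_apply (hodd1 v (hS hv))]
          exact c.2.2 v hv⟩ :
        {c : (HH K (C.S ∪ (Finset.range k).biUnion T) : AddSubgroup (SC L)) //
          (∀ v ∈ (Finset.range k).biUnion T, v ∉ S → Sa_eo _ (D.t₂ v) c = 0) ∧
          ∀ v ∈ S, Sa_la _ (D.t₁ v) c = D.nu v * Sa_eo _ (D.t₂ v) c})) ?_
    intro c c' hcc
    have h1 := congrArg (fun z => z.1.1) hcc
    exact Subtype.ext h1
  · -- hr
    intro l hl φ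
    obtain ⟨ψ, hψ⟩ := Sa_ext _ φ
    obtain ⟨v, hv, hv2⟩ := (hG l hl L θ D.h).2.2 ψ
    refine ⟨v, hv, fun c hc => ?_⟩
    have hvT : v ∈ (Finset.range k).biUnion T := Finset.mem_biUnion.2 ⟨l, Finset.mem_range.2 hl, hv⟩
    rw [Sa_la_apply (hodd1 v hvT), hv2 c.1 (hback _ c.1 c.2 hc) _ (D.hT v hvT).dn1, hψ c.1 c.2]
  · -- hk
    refine le_trans (Nat.mul_le_mul_right _ ?_) hk
    obtain ⟨h1, h2, -⟩ := hG 0 hk0 L θ D.h
    refine le_trans ?_ h2
    have := h1
    refine Nat.card_le_card_of_injective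
      (fun c : {c : (HH K (C.S ∪ (Finset.range k).biUnion T) : AddSubgroup (SC L)) //
          ∀ v ∈ (Finset.range k).biUnion T, Sa_eo _ (D.t₂ v) c = 0} =>
        (⟨c.1.1, hback _ c.1.1 c.1.2 fun v hv _ => c.2 v hv⟩ :
          (HH K (C.S ∪ (Finset.range 0).biUnion T) : AddSubgroup (SC L)))) ?_
    intro c c' hcc
    have h3 := congrArg (fun z => z.1) hcc
    exact Subtype.ext (Subtype.ext h3)

end H76MX

end S_H76_MX_Wa

section S_H76_MX_Rl

set_option autoImplicit false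
set_option linter.unusedSectionVars false
open scoped Classical

open WithZero NumberField IsDedekindDomain H38RT
open H38T1 (SC sc scu rep eo la si Pri OddP tp unif ka)
open H76PP H36MX H76MQ

namespace H76MX

variable {K L : Type} [Field K] [NumberField K] [Field L] [NumberField L] [Algebra K L]

theorem Rl_six {C : CfgX K} (hC : C.Ok) {v : HeightOneSpectrum (𝓞 K)} (hv : v ∉ C.S) :
    (6 : 𝓞 K) ∉ v.asIdeal := by
  intro h6
  apply hv
  have e1 : (6 : 𝓞 K) = 2 * 3 := by norm_num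
  rw [e1] at h6
  rcases v.isPrime.mem_or_mem h6 with h | h
  · exact Finset.mem_union_left _ (hC.mem2 v h)
  · exact Finset.mem_union_right _ (hC.R3 v h)

theorem rel_localX {C : CfgX K} (hC : C.Ok) {q₀ : HeightOneSpectrum (𝓞 K)} (hq : q₀ ∉ C.S)
    {T : Finset (HeightOneSpectrum (𝓞 K))} (hT : ∀ v ∈ T, v ∉ C.S ∧ v ≠ q₀)
    {A B : 𝓞 K} {e : (u : HeightOneSpectrum (𝓞 K)) → Fin 3 → Kv u} (hF : FamX C q₀ T A B e)
    {θ : L} (hR : HR2 K L A B θ) (D : XData C T A B e θ)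
    {Δ : Set (𝓞 K)} {x : (u : HeightOneSpectrum (𝓞 K)) → 𝓞 K → SC (Kv u)}
    {W : Submodule (ZMod 2) C.V} (hW : Target C Δ x W)
    {J : Finset (HeightOneSpectrum (𝓞 K))} (hJT : J ⊆ T)
    (hJ : ∀ c : SC L, D.X J c → D.loc c ∈ W ∧ (D.loc c = 0 → c = 0))
    {Dd : 𝓞 K} (hD : H36MT.TwS C.S q₀ J (Dd : K)) {d : 𝓞 K} (hd : d ∈ Δ) (hd0 : d ≠ 0)
    (hdo : ∀ v : HeightOneSpectrum (𝓞 K), v ∉ C.S → eo v (sc (d : K)) = 0)
    (hcond : ∀ u ∈ C.Z, CondAt u A B (e u) d (x u d))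
    {P : Finset (HeightOneSpectrum (𝓞 K))} (hSP : C.S ⊆ P) (hJP : J ⊆ P) :
    H36MT.RelTriv K L P (((Dd * d : 𝓞 K) : K) ^ 2 * A) (((Dd * d : 𝓞 K) : K) ^ 3 * B)
      (algebraMap K L ((Dd * d : 𝓞 K) : K) * θ) := by
  intro dd hdd hsq heo hLC hLCr
  have h := D.h
  have hDK : (Dd : K) ≠ 0 := hD.ne
  have hDd : Dd ≠ 0 := fun h0 => hDK (RingOfIntegers.coe_eq_zero_iff.2 h0)
  have hdK : (d : K) ≠ 0 := fun h0 => hd0 (RingOfIntegers.coe_eq_zero_iff.1 h0)
  have hcond' : ∀ (u : HeightOneSpectrum (𝓞 K)) (hu : u ∈ C.Z),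
      LC (algebraMap K (u.adicCompletion K)) (((Dd * d : 𝓞 K) : K) ^ 2 * A)
        (((Dd * d : 𝓞 K) : K) ^ 3 * B) dd →
      LW (x u d) (lcl D.h (algebraMap K (Kv u)) (D.hs u hu) 0
          (sc (ev (algebraMap K L ((Dd * d : 𝓞 K) : K) * θ) dd)))
        (lcl D.h (algebraMap K (Kv u)) (D.hs u hu) 2
          (sc (ev (algebraMap K L ((Dd * d : 𝓞 K) : K) * θ) dd))) := fun u hu =>
    hcond u hu (D.hs u hu) L θ D.h Dd hDd (hD.loc u (Finset.mem_union_left _ hu)) dd hdd hsq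
  obtain ⟨E, hEdef⟩ : ∃ E : 𝓞 K, E = Dd * d := ⟨_, rfl⟩
  rw [← hEdef] at hdd hsq heo hLC hLCr hcond' ⊢
  have hE : E ≠ 0 := by
    rw [hEdef]
    exact mul_ne_zero hDd hd0
  have hscE : (sc (E : K) : SC K) = sc (Dd : K) + sc (d : K) := by
    have h1 : (E : K) = (Dd : K) * (d : K) := by
      rw [hEdef]
      exact map_mul (algebraMap (𝓞 K) K) Dd d
    rw [h1, H38T1.sc_mul hDK hdK]
  obtain ⟨c, hc⟩ : ∃ c : SC L, c = sc (ev (algebraMap K L (E : K) * θ) dd) := ⟨_, rfl⟩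
  have hX : D.X J c := by
    refine ⟨mem_HH.2 ⟨?_, ?_⟩, ?_⟩
    · rw [hc, scm_sc _ hdd]
      exact (H38T1.sc_eq_zero (scm_ne _ hdd)).2 hsq
    · intro w hw
      have hwS : dn K w ∉ C.S := fun h1 => hw (Finset.mem_union_left _ h1)
      have hwJ : dn K w ∉ J := fun h1 => hw (Finset.mem_union_right _ h1)
      rw [hc]
      by_cases hwP : dn K w ∈ P
      · by_cases hwq : dn K w = q₀
        · refine H73P2.even_unique h w (H73P2.noRootAt_of ?_) hdd hsq
          rw [hwq]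
          exact hF.irr
        · refine even_loc h hE (hF.sqf _ hwS) ?_ hdd (hLC _ hwP)
          rw [hscE, H38T1.eo_add, hdo _ hwS, add_zero]
          exact Sb_eo_even hDK (hD.even _ hwS hwJ hwq)
      · exact heo w hwP
    · intro v hv
      obtain ⟨hvS, hvq⟩ := hT v (hJT hv)
      rw [hc]
      refine kum_T h hR (Sb_odd (Rl_six hC hvS)) (hF.sqf v hvS) (D.hT v (hJT hv)) hE ?_
        hdd hsq (hLC v (hJP hv))
      rw [hscE, H38T1.eo_add, hdo v hvS, add_zero]
      exact Sb_eo_odd hDK (hD.odd v hv)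
  obtain ⟨hc1, hc2⟩ := hJ c hX
  have hzero : D.loc c = 0 := by
    refine hW.zero d hd (D.loc c) hc1 (fun u => ?_)
    rw [D.loc_apply, hc]
    exact hcond' u.1 u.2 (hLC u.1 (hSP (Finset.mem_union_left _ u.2)))
  have hfin := hc2 hzero
  rw [hc] at hfin
  exact (H38T1.sc_eq_zero hdd).1 hfin

end H76MX

end S_H76_MX_Rl

section S_H76_MX_Rc

set_option autoImplicit false
set_option linter.unusedSectionVars false
open scoped Classical

open WithZero NumberField IsDedekindDomain H38RT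
open H38T1 (SC sc scu rep eo la si Pri OddP tp unif ka)
open H76PP H36MX H76MQ

namespace H76MX

variable {K L : Type} [Field K] [NumberField K] [Field L] [NumberField L] [Algebra K L]

/-- the norm times the inverse -/
private theorem Rc_inv {A B : K} {θ : L} (h : Cub K L A B θ) {z : L} (hz : z ≠ 0) :
    be h z = Algebra.norm K z * h.co 2 z⁻¹ := by
  obtain ⟨p0, e0⟩ : ∃ p, p = (h.co 0 z - A * h.co 2 z) ^ 2 +
    h.co 1 z * (A * h.co 1 z + B * h.co 2 z) := ⟨_, rfl⟩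
  obtain ⟨p1, e1⟩ : ∃ p, p = -(h.co 0 z * h.co 1 z + B * h.co 2 z ^ 2) := ⟨_, rfl⟩
  obtain ⟨p2, e2⟩ : ∃ p, p = h.co 1 z ^ 2 - h.co 0 z * h.co 2 z + A * h.co 2 z ^ 2 := ⟨_, rfl⟩
  obtain ⟨z', hz'⟩ : ∃ z' : L, z' = algebraMap K L p0 + algebraMap K L p1 * θ +
    algebraMap K L p2 * θ ^ 2 := ⟨_, rfl⟩
  obtain ⟨c0, c1, c2⟩ := h.co_mk' p0 p1 p2
  rw [← hz'] at c0 c1 c2
  obtain ⟨m0, m1, m2⟩ := h.co_mul z z'
  rw [c0, c1, c2] at m0 m1 m2
  obtain ⟨n0, n1, n2⟩ := h.co_mk' (Algebra.norm K z) 0 0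
  have hn : algebraMap K L (Algebra.norm K z) + algebraMap K L 0 * θ + algebraMap K L 0 * θ ^ 2 =
      algebraMap K L (Algebra.norm K z) := by simp
  rw [hn] at n0 n1 n2
  have hdet : Algebra.norm K z = h.co 0 z * p0 - B * (h.co 1 z * p2 + h.co 2 z * p1) := by
    rw [h.norm, Matrix.det_fin_three]
    simp only [Matrix.of_apply, Matrix.cons_val', Matrix.cons_val_zero, Matrix.cons_val_one,
      Matrix.cons_val, Matrix.cons_val_fin_one]
    rw [e0, e1, e2]
    ring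
  have hprod : z * z' = algebraMap K L (Algebra.norm K z) := by
    apply h.ext_co
    · rw [m0, n0, hdet]
    · rw [m1, n1, e0, e1, e2]
      ring
    · rw [m2, n2, e0, e1, e2]
      ring
  have hz2 : z' = (Algebra.norm K z) • z⁻¹ := by
    rw [Algebra.smul_def, ← hprod, mul_comm z z', mul_assoc, mul_inv_cancel₀ hz, mul_one]
  have h1 := congrArg (h.co 2) hz2
  rw [c2, map_smul, smul_eq_mul, e2] at h1
  exact h1

/-- some `co 2 (y Y^2)` is not zero -/
private theorem Rc_ex {A B : K} {θ : L} (h : Cub K L A B θ) {y : L} (hy : y ≠ 0) :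
    ∃ Y : L, h.co 2 (y * Y ^ 2) ≠ 0 := by
  by_contra hcon
  push Not at hcon
  have h2 : ∀ z : L, h.co 2 (y * z) = 0 := by
    intro z
    have h3 : y * (1 + z) ^ 2 = y * 1 ^ 2 + (2 : K) • (y * z) + y * z ^ 2 := by
      rw [Algebra.smul_def, map_ofNat]
      ring
    have h4 := hcon (1 + z)
    rw [h3, map_add, map_add, hcon 1, hcon z, map_smul, smul_eq_mul, zero_add, add_zero] at h4
    exact (mul_eq_zero.1 h4).resolve_left two_ne_zero
  have h5 := h2 (y⁻¹ * θ ^ 2)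
  rw [← mul_assoc, mul_inv_cancel₀ hy, one_mul, h.co_theta_sq.2.2] at h5
  exact one_ne_zero h5

theorem exists_YX {A B : K} {θ : L} (h : Cub K L A B θ) {y : L} (hy : y ≠ 0) :
    ∃ Y : L, Y ≠ 0 ∧ al h (y * Y ^ 2) ≠ 0 ∧ be h (y * Y ^ 2) ≠ 0 := by
  obtain ⟨Y₀, hY₀⟩ := Rc_ex h hy
  obtain ⟨Z₀, hZ₀⟩ := Rc_ex h (inv_ne_zero hy)
  have hZ0 : Z₀ ≠ 0 := by
    rintro rfl
    rw [zero_pow two_ne_zero, mul_zero, map_zero] at hZ₀
    exact hZ₀ rfl
  obtain ⟨Y₁, hY₁⟩ : ∃ Y₁, Y₁ = Z₀⁻¹ := ⟨_, rfl⟩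
  have hY10 : Y₁ ≠ 0 := by
    rw [hY₁]
    exact inv_ne_zero hZ0
  have hz0 : y * Y₁ ^ 2 ≠ 0 := mul_ne_zero hy (pow_ne_zero 2 hY10)
  have hbe : be h (y * Y₁ ^ 2) ≠ 0 := by
    rw [Rc_inv h hz0]
    refine mul_ne_zero ?_ ?_
    · have hfin : Module.Finite K L := Module.Finite.of_basis h.basis
      rw [Ne, Algebra.norm_eq_zero_iff]
      exact hz0
    · have h1 : (y * Y₁ ^ 2)⁻¹ = y⁻¹ * Z₀ ^ 2 := by
        rw [hY₁, mul_inv, inv_pow, inv_inv]
      rw [h1]
      exact hZ₀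
  -- the coordinates of the three products
  obtain ⟨a, ea⟩ : ∃ a : Fin 3 → K, a = fun i => h.co i (y * Y₀ ^ 2) := ⟨_, rfl⟩
  obtain ⟨b, eb⟩ : ∃ b : Fin 3 → K, b = fun i => h.co i (y * Y₀ * Y₁) := ⟨_, rfl⟩
  obtain ⟨c, ec⟩ : ∃ c : Fin 3 → K, c = fun i => h.co i (y * Y₁ ^ 2) := ⟨_, rfl⟩
  have hco : ∀ (t : K) (i : Fin 3), h.co i (y * (Y₀ + algebraMap K L t * Y₁) ^ 2) =
      a i + 2 * b i * t + c i * t ^ 2 := by
    intro t i
    have h1 : y * (Y₀ + algebraMap K L t * Y₁) ^ 2 =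
        y * Y₀ ^ 2 + (2 * t) • (y * Y₀ * Y₁) + (t ^ 2) • (y * Y₁ ^ 2) := by
      rw [Algebra.smul_def, Algebra.smul_def, map_mul, map_pow, map_ofNat]
      ring
    rw [h1, map_add, map_add, map_smul, map_smul, smul_eq_mul, smul_eq_mul, ea, eb, ec]
    ring
  have hc4 : c 1 ^ 2 - c 0 * c 2 + A * c 2 ^ 2 ≠ 0 := by
    rw [ec]
    exact hbe
  have ha2 : a 2 ≠ 0 := by
    rw [ea]
    exact hY₀
  obtain ⟨P, hP⟩ : ∃ P : Fin 3 → Polynomial K, P = fun i => Polynomial.C (a i) +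
    Polynomial.C (2 * b i) * Polynomial.X + Polynomial.C (c i) * Polynomial.X ^ 2 := ⟨_, rfl⟩
  have hPe : ∀ (t : K) (i : Fin 3), (P i).eval t = a i + 2 * b i * t + c i * t ^ 2 := by
    intro t i
    rw [hP]
    simp only [Polynomial.eval_add, Polynomial.eval_mul, Polynomial.eval_C, Polynomial.eval_X,
      Polynomial.eval_pow]
  have hP2 : P 2 ≠ 0 := by
    intro h0
    have h1 := hPe 0 2
    rw [h0, Polynomial.eval_zero, mul_zero, zero_pow two_ne_zero, mul_zero, add_zero,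
      add_zero] at h1
    exact ha2 h1.symm
  obtain ⟨Q, hQ⟩ : ∃ Q : Polynomial K, Q = P 1 ^ 2 - P 0 * P 2 + Polynomial.C A * P 2 ^ 2 :=
    ⟨_, rfl⟩
  have hQ0 : Q ≠ 0 := by
    intro h0
    have h1 : Q = Polynomial.C (a 1 ^ 2 - a 0 * a 2 + A * a 2 ^ 2) +
        Polynomial.C (4 * a 1 * b 1 - 2 * a 0 * b 2 - 2 * b 0 * a 2 + A * (4 * a 2 * b 2)) *
          Polynomial.X ^ 1 +
        Polynomial.C (4 * b 1 ^ 2 + 2 * a 1 * c 1 - a 0 * c 2 - 4 * b 0 * b 2 - c 0 * a 2 +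
          A * (4 * b 2 ^ 2 + 2 * a 2 * c 2)) * Polynomial.X ^ 2 +
        Polynomial.C (4 * b 1 * c 1 - 2 * b 0 * c 2 - 2 * c 0 * b 2 + A * (4 * b 2 * c 2)) *
          Polynomial.X ^ 3 +
        Polynomial.C (c 1 ^ 2 - c 0 * c 2 + A * c 2 ^ 2) * Polynomial.X ^ 4 := by
      rw [hQ, hP]
      simp only [map_add, map_sub, map_mul, map_pow, map_ofNat]
      ring
    have h2 := congrArg (fun p : Polynomial K => p.coeff 4) h1
    simp only [h0, Polynomial.coeff_zero, Polynomial.coeff_add, Polynomial.coeff_C_mul,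
      Polynomial.coeff_X_pow, Polynomial.coeff_C] at h2
    norm_num at h2
    exact hc4 h2.symm
  obtain ⟨t, ht⟩ : ∃ t : K, (P 2 * Q).eval t ≠ 0 := by
    by_contra hcon
    push Not at hcon
    refine mul_ne_zero hP2 hQ0 (Polynomial.funext fun r => ?_)
    rw [hcon r, Polynomial.eval_zero]
  rw [Polynomial.eval_mul] at ht
  have ht1 := left_ne_zero_of_mul ht
  have ht2 := right_ne_zero_of_mul ht
  have hal : al h (y * (Y₀ + algebraMap K L t * Y₁) ^ 2) ≠ 0 := by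
    unfold al
    rw [hco, ← hPe]
    exact ht1
  refine ⟨Y₀ + algebraMap K L t * Y₁, ?_, hal, ?_⟩
  · intro h0
    rw [h0, zero_pow two_ne_zero, mul_zero] at hal
    unfold al at hal
    rw [map_zero] at hal
    exact hal rfl
  · unfold be
    rw [hco, hco, hco, ← hPe, ← hPe, ← hPe]
    rw [hQ] at ht2
    simp only [Polynomial.eval_add, Polynomial.eval_sub, Polynomial.eval_mul, Polynomial.eval_C,
      Polynomial.eval_pow] at ht2
    exact ht2

theorem conic_recX {C : CfgX K} (hC : C.Ok) (hH : Hilb K) {q₀ : HeightOneSpectrum (𝓞 K)}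
    {T : Finset (HeightOneSpectrum (𝓞 K))} (hT : ∀ v ∈ T, v ∉ C.S ∧ v ≠ q₀)
    {A B : 𝓞 K} {e : (u : HeightOneSpectrum (𝓞 K)) → Fin 3 → Kv u} (hF : FamX C q₀ T A B e)
    {θ : L} (hR : HR2 K L A B θ) (D : XData C T A B e θ)
    (hcs : ∀ (u : HeightOneSpectrum (𝓞 K)) (hu : u ∈ C.Z) (y : L), y ≠ 0 →
      IsSquare (Algebra.norm K y) → al D.h y ≠ 0 → be D.h y ≠ 0 →
      hsv u (al D.h y) (be D.h y) =
        hsc (lcl D.h (algebraMap K (Kv u)) (D.hs u hu) 0 (sc y))
          (lcl D.h (algebraMap K (Kv u)) (D.hs u hu) 2 (sc y)))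
    {c : SC L} (hc : c ∈ (HH K (C.S ∪ T) : AddSubgroup (SC L))) :
    C.Q (D.loc c) + ∑ v ∈ T, eo (D.t₂ v) c * (la (D.t₁ v) c + D.nu v) = 0 := by
  obtain ⟨y, hy, hyc⟩ := H38T1.sc_surj c
  obtain ⟨hcN, hcE⟩ := mem_HH.1 hc
  have hN : IsSquare (Algebra.norm K y) := by
    have h1 := scm_sc (Algebra.norm K : L →* K) hy
    rw [hyc, hcN] at h1
    exact (H38T1.sc_eq_zero (scm_ne (Algebra.norm K : L →* K) hy)).1 h1.symm
  obtain ⟨Y, hY, ha, hb⟩ := exists_YX D.h hy
  obtain ⟨y', hy'⟩ : ∃ y', y' = y * Y ^ 2 := ⟨_, rfl⟩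
  have hy0 : y' ≠ 0 := by
    rw [hy']
    exact mul_ne_zero hy (pow_ne_zero 2 hY)
  have hsc : sc y' = c := by
    rw [hy', H38T1.sc_mul hy (pow_ne_zero 2 hY), H54MT.sc_sq hY, add_zero, hyc]
  have hN' : IsSquare (Algebra.norm K y') := by
    obtain ⟨r, hr⟩ := hN
    refine ⟨r * Algebra.norm K Y, ?_⟩
    rw [hy', map_mul, map_pow, hr]
    ring
  rw [← hy'] at ha hb
  have hodd : ∀ v : HeightOneSpectrum (𝓞 K), v ∉ C.Z → OddP v := fun v hv =>
    Re_odd (fun h2 => hv (hC.mem2 v h2))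
  have hTS : ∀ v ∈ T, v ∉ C.Z ∧ v ∉ C.R := by
    intro v hv
    have h1 := (hT v hv).1
    unfold CfgX.S at h1
    rw [Finset.mem_union, not_or] at h1
    exact h1
  have hrec := hH.prod (al D.h y') (be D.h y') ha hb
  unfold BB at hrec
  have hreal : ∑ w : K →+* ℝ, si w (sc (al D.h y')) * si w (sc (be D.h y')) = 0 := by
    refine Finset.sum_eq_zero fun s _ => ?_
    have h1 := conic_real D.h (hF.pos s) hy0 hN'
    rw [H38T1.si_sc s hb, H38T1.si_sc s ha]
    unfold sw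
    by_cases h2 : s (al D.h y') < 0
    · have h3 : ¬ s (be D.h y') < 0 := fun h3 => h1 ⟨h2, h3⟩
      rw [if_neg h3, mul_zero]
    · rw [if_neg h2, zero_mul]
  rw [hreal, add_zero] at hrec
  have hzero : ∀ v, v ∉ C.Z ∪ T → hsv v (al D.h y') (be D.h y') = 0 := by
    intro v hv
    rw [Finset.mem_union, not_or] at hv
    obtain ⟨v1, v3⟩ := hv
    have hvo := hodd v v1
    rw [hH.odd v hvo _ _ ha hb]
    by_cases hvR : v ∈ C.R
    · refine conic_CL D.h hR hvo (Re_sq (fam_R (hC.R2 v hvR) (hF.res v hvR))) hy0 hN' ha hb ?_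
      intro w hw
      have h1 : H73P2.NoRootAt (dn K w) (A : K) (B : K) := by
        rw [hw]
        exact H73P2.noRootAt_of (hF.res v hvR)
      exact H73P2.even_unique D.h w h1 hy0 hN'
    · have hvS : v ∉ C.S := by
        unfold CfgX.S
        rw [Finset.mem_union, not_or]
        exact ⟨v1, hvR⟩
      refine conic_CL D.h hR hvo (hF.sqf v hvS) hy0 hN' ha hb ?_
      intro w hw
      rw [hsc]
      refine hcE w ?_
      rw [hw, Finset.mem_union, not_or]
      exact ⟨hvS, v3⟩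
  have hsupp : (Function.support fun v => hsv v (al D.h y') (be D.h y')) ⊆ ↑(C.Z ∪ T) := by
    intro v hv
    by_contra h1
    exact hv (hzero v (fun h2 => h1 (Finset.mem_coe.2 h2)))
  have hd : Disjoint C.Z T := by
    rw [Finset.disjoint_left]
    intro v hv h1
    exact (hTS v h1).1 hv
  rw [finsum_eq_sum_of_support_subset _ hsupp, Finset.sum_union hd] at hrec
  rw [← hrec]
  have hpart1 : C.Q (D.loc c) = ∑ v ∈ C.Z, hsv v (al D.h y') (be D.h y') := by
    rw [← Finset.sum_coe_sort C.Z (fun v => hsv v (al D.h y') (be D.h y'))]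
    unfold CfgX.Q
    refine Finset.sum_congr rfl fun u _ => ?_
    rw [XData.loc_apply, hcs u.1 u.2 y' hy0 hN' ha hb, hsc]
  have hpart2 : ∑ v ∈ T, eo (D.t₂ v) c * (la (D.t₁ v) c + D.nu v) =
      ∑ v ∈ T, hsv v (al D.h y') (be D.h y') := by
    refine Finset.sum_congr rfl fun v hv => ?_
    have hvo := hodd v (hTS v hv).1
    have hTT := D.hT v hv
    have hz : ∀ x : ZMod 2, x = 0 ∨ x = 1 := by decide
    rw [hH.odd v hvo _ _ ha hb]
    rcases hz (eo (D.t₂ v) c) with h0 | h0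
    · rw [h0, zero_mul]
      symm
      refine conic_CL D.h hR hvo (hF.sqf v (hT v hv).1) hy0 hN' ha hb ?_
      intro w hw
      rcases hTT.only w hw with hww | hww
      · rw [hww]
        exact gg_eo1 hR hvo hTT.toTwG D.h.finrank hy0 hN'
      · rw [hww, hsc]
        exact h0
    · rw [h0, one_mul]
      have h1 := conic_CT D.h hR hvo hTT hy0 hN' ha hb (by rw [hsc]; exact h0)
      rw [h1, hsc]
      rfl
  rw [hpart1, hpart2]

end H76MX

end S_H76_MX_Rc
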