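import Mathlib
import Pool.Agent.H76.CQ.Qc
import Pool.Agent.H76.MP.M3
import Pool.Agent.H76.MP.M5
import Pool.Agent.H76.MP.M7
import Pool.Agent.H76.PN.A1
import Pool.Agent.H76.XP.X1
import Pool.Agent.H76.XP.X2
import Pool.Agent.H76.XP.X4

/-! This file joins several modules to save build time (X5). -/

set_option autoImplicit false

section S_H76_MX_Ml

set_option autoImplicit false
set_option linter.unusedSectionVars false
open scoped Classical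

open WithZero NumberField IsDedekindDomain H38RT
open H38T1 (SC sc scu rep eo la si Pri OddP tp unif ka)
open H76PP H36MX H76MQ

namespace H76MX

/-- The conic at the places where the cubic splits (statement; proved in H36/MX). -/
def ConicSplit (K : Type) [Field K] [NumberField K] : Prop :=
  ∀ (L : Type) [Field L] [NumberField L] [Algebra K L] (A B : K) (θ : L) (h : Cub K L A B θ)
    (u : HeightOneSpectrum (𝓞 K)) (e : Fin 3 → Kv u)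
    (hs : Spl (algebraMap K (Kv u) A) (algebraMap K (Kv u) B) e) (y : L), y ≠ 0 →
    IsSquare (Algebra.norm K y) → al h y ≠ 0 → be h y ≠ 0 →
    hsv u (al h y) (be h y) =
      hsc (lcl h (algebraMap K (Kv u)) hs 0 (sc y)) (lcl h (algebraMap K (Kv u)) hs 2 (sc y))

theorem six_notMemX {K : Type} [Field K] [NumberField K] {C : CfgX K} (hC : C.Ok)
    {v : HeightOneSpectrum (𝓞 K)} (hv : v ∉ C.S) : (6 : 𝓞 K) ∉ v.asIdeal := by
  intro h6
  have e1 : (6 : 𝓞 K) = 2 * 3 := by norm_num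
  rw [e1] at h6
  rcases v.isPrime.mem_or_mem h6 with h | h
  · exact hv (Finset.mem_union_left _ (hC.mem2 v h))
  · exact hv (Finset.mem_union_right _ (hC.R3 v h))

theorem exists_XData {K L : Type} [Field K] [NumberField K] [Field L] [NumberField L] [Algebra K L]
    {C : CfgX K} (hC : C.Ok) {q₀ : HeightOneSpectrum (𝓞 K)}
    {T : Finset (HeightOneSpectrum (𝓞 K))} (hT : ∀ v ∈ T, v ∉ C.S ∧ v ≠ q₀)
    {A B : 𝓞 K} {e : (u : HeightOneSpectrum (𝓞 K)) → Fin 3 → Kv u} (hF : FamX C q₀ T A B e)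
    {θ : L} (h : Cub K L (A : K) (B : K) θ) : Nonempty (XData C T A B e θ) := by
  obtain ⟨w₀, -⟩ := exists_above (L := L) q₀
  have hne : Nonempty (HeightOneSpectrum (𝓞 L)) := ⟨w₀⟩
  have h3 : ∀ v ∈ T, ∃ t₁ t₂ : HeightOneSpectrum (𝓞 L), TwT K (A : K) θ v t₁ t₂ := fun v hv =>
    exists_TwT h (hF.sqf v (hT v hv).1) (six_notMemX hC (hT v hv).1) (hF.typ v hv)
  choose! t₁ t₂ hTT using h3
  exact ⟨⟨h, hF.spl, t₁, t₂, hTT⟩⟩

theorem main_localX {K : Type} [Field K] [NumberField K] {C : CfgX K} (hC : C.Ok) (hH : Hilb K)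
    (hcs : ConicSplit K) {Δ : Set (𝓞 K)} {x : (u : HeightOneSpectrum (𝓞 K)) → 𝓞 K → SC (Kv u)}
    {W : Submodule (ZMod 2) C.V} (hW : Target C Δ x W)
    (hΔ : ∀ d ∈ Δ, d ≠ 0 ∧ ∀ v : HeightOneSpectrum (𝓞 K), v ∉ C.S → eo v (sc (d : K)) = 0)
    {q₀ : HeightOneSpectrum (𝓞 K)} (hq : q₀ ∉ C.S) {k : ℕ} (hk0 : 0 < k)
    (T : ℕ → Finset (HeightOneSpectrum (𝓞 K))) (b : ℕ → ℕ)
    (hdis : ∀ i < k, ∀ j < k, i ≠ j → Disjoint (T i) (T j))
    (hT : ∀ v ∈ (Finset.range k).biUnion T, v ∉ C.S ∧ v ≠ q₀) {A B : 𝓞 K} {E₀ : ℕ}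
    (hF0 : H36MT.FamS C.S E₀ q₀ ((Finset.range k).biUnion T) A B)
    {e : (u : HeightOneSpectrum (𝓞 K)) → Fin 3 → Kv u}
    (hF : FamX C q₀ ((Finset.range k).biUnion T) A B e)
    (hcond : ∀ d ∈ Δ, ∀ u ∈ C.Z, CondAt u A B (e u) d (x u d))
    (hG : ∀ l < k, GoodSt (C.S ∪ (Finset.range l).biUnion T) (T l) (b l) A B)
    (hk : b 0 * 2 ^ (Module.finrank ℚ K + 2 * C.Z.card) ≤ 2 ^ k) :
    ∃ J ⊆ (Finset.range k).biUnion T, ∀ D : 𝓞 K, H36MT.TwS C.S q₀ J (D : K) →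
      ∀ d ∈ Δ, ∀ Sg : Finset (HeightOneSpectrum (𝓞 K)),
      C.S ⊆ Sg → (Finset.range k).biUnion T ⊆ Sg → q₀ ∈ Sg →
      H36MT.RelG K Sg ((D * d) ^ 2 * A) ((D * d) ^ 3 * B) := by
  obtain ⟨L, _, _, _, θ, hL⟩ := H24PD.exists_cub (fun t => hF0.no_root t)
  have hR : HR2 K L A B θ := hr2 hL hF0.dsc_ne
  obtain ⟨Dt⟩ := exists_XData hC hT hF hL
  have hrec : ∀ c : SC L, c ∈ (HH K (C.S ∪ (Finset.range k).biUnion T) : AddSubgroup (SC L)) →
      C.Q (Dt.loc c) + ∑ v ∈ (Finset.range k).biUnion T,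
        eo (Dt.t₂ v) c * (la (Dt.t₁ v) c + Dt.nu v) = 0 := fun c hc =>
    conic_recX hC hH hT hF hR Dt
      (fun u hu y hy hN ha hb => hcs L (A : K) (B : K) θ Dt.h u (e u) (Dt.hs u hu) y hy hN ha hb) hc
  obtain ⟨J, hJ, hw⟩ := walk_appX hC hH.hf hW hq hk0 T b hdis hT hF hG hk hR Dt hrec
  refine ⟨J, hJ, fun D hD d hd Sg hCS hTS hqS => ?_⟩
  have hD0 : (D : K) ≠ 0 := hD.ne
  have hd0 : (d : K) ≠ 0 := by
    intro h0
    apply (hΔ d hd).1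
    apply RingOfIntegers.coe_injective
    rw [map_zero]
    exact h0
  obtain ⟨E, hE⟩ : ∃ E : 𝓞 K, E = D * d := ⟨_, rfl⟩
  have hEK : (E : K) = (D : K) * (d : K) := by rw [hE]; push_cast; rfl
  have hE0 : (E : K) ≠ 0 := by rw [hEK]; exact mul_ne_zero hD0 hd0
  rw [← hE]
  have hrel := rel_localX hC hq hT hF hR Dt hW hJ hw hD hd (hΔ d hd).1 (hΔ d hd).2
    (fun u hu => hcond d hd u hu) hCS (hJ.trans hTS)
  rw [← hE] at hrel
  have e1 : ((E ^ 2 * A : 𝓞 K) : K) = (E : K) ^ 2 * (A : K) := by push_cast; rfl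
  have e2 : ((E ^ 3 * B : 𝓞 K) : K) = (E : K) ^ 3 * (B : K) := by push_cast; rfl
  refine ⟨?_, ?_, ?_, ?_, ?_⟩
  · intro v hv
    apply hCS
    have h3 : (2 : 𝓞 K) ∈ v.asIdeal := by
      by_contra h
      have h4 := (v.valuation_eq_one_iff_notMem (K := K) (r := (2 : 𝓞 K))).2 h
      have h5 : v.valuation K (2 : K) = 1 := by
        rw [← h4]
        congr 1
      exact absurd h5 hv.ne
    exact Finset.mem_union_left _ (hC.mem2 v h3)
  · intro h4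
    have h5 : (4 * ((E : K) ^ 2 * (A : K)) ^ 3 + 27 * ((E : K) ^ 3 * (B : K)) ^ 2) = 0 := by
      rw [← e1, ← e2, ← H36MT.dsc_coe, h4, map_zero]
    have h6 : (E : K) ^ 6 * (4 * (A : K) ^ 3 + 27 * (B : K) ^ 2) = 0 := by
      linear_combination h5
    exact (mul_ne_zero (pow_ne_zero 6 hE0) hF0.dsc_ne) h6
  · rw [e1, e2]
    intro t ht
    apply hF0.no_root (t / (E : K))
    have h7 : (E : K) ^ 3 * ((t / (E : K)) ^ 3 + (A : K) * (t / (E : K)) + (B : K)) = 0 := by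
      field_simp
      linear_combination ht
    exact (mul_eq_zero.1 h7).resolve_left (pow_ne_zero 3 hE0)
  · rw [e1, e2]
    intro v hv
    have hvS : v ∉ C.S := fun h => hv (hCS h)
    have hvJ : v ∉ J := fun h => hv (hTS (hJ h))
    have hvq : v ≠ q₀ := fun h => hv (h ▸ hqS)
    apply Sc_nice (hF0.sqf v hvS) hE0
    rw [hEK, H38RT.ord_mul hD0 hd0]
    apply Even.add (hD.even v hvS hvJ hvq)
    exact Sc_even hd0 ((hΔ d hd).2 v hvS)
  · rw [e1, e2]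
    intro L' _ _ _ θ' hL'
    exact (H36MT.RelTriv.equiv (Tg_twist hL hE0) hL' hrel).toRelT

end H76MX

end S_H76_MX_Ml

section S_H76_MQ_Fn

set_option autoImplicit false
set_option linter.unusedSectionVars false
open scoped Classical

open WithZero NumberField IsDedekindDomain H38RT
open H38T1 (SC sc scu rep eo la si Pri OddP tp unif ka)
open H76PP

namespace H76MQ

theorem good_not_bad {K : Type} [Field K] [NumberField K]
    {S T₁ T : Finset (HeightOneSpectrum (𝓞 K))} (hT : T₁ ⊆ T) {b : ℕ} {A B : 𝓞 K}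
    (hG : GoodSt S T₁ b A B) : ¬ H36MT.BadS S T A B := by
  rintro ⟨L, _, _, _, θ, c, hL, hc, hn, heo, hla⟩
  obtain ⟨_, _, hφ⟩ := hG L θ hL
  let _ : Module (ZMod 2) (SC L) := AddCommGroup.zmodModule fun x => H38T1.SC.two_smul x
  have h1 : ∃ φ : SC L →+ ZMod 2, φ c ≠ 0 := by
    by_contra hcon
    push Not at hcon
    exact hc ((Module.forall_dual_apply_eq_zero_iff (ZMod 2) c).1 fun φ => hcon φ.toAddMonoidHom)
  obtain ⟨φ, hφc⟩ := h1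
  obtain ⟨v, hv, hv'⟩ := hφ φ
  have hcH : c ∈ (HH K S : AddSubgroup (SC L)) := ⟨hn, heo⟩
  obtain ⟨w, hw⟩ : ∃ w : HeightOneSpectrum (𝓞 L), dn K w = v := exists_above (L := L) v
  apply hφc
  rw [← hv' c hcH w hw]
  exact hla w (by rw [hw]; exact hT hv)

theorem final_count (K : Type) [Field K] [NumberField K] {C : Cfg K} (hC : C.Ok)
    {Z : Set (HeightOneSpectrum (𝓞 K))} (hZ : Z.Infinite) :
    ∃ (Sg : Finset (HeightOneSpectrum (𝓞 K))) (c X₀ : ℝ), C.S ⊆ Sg ∧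
      (∀ v ∈ Sg, v ∈ C.S ∨ v ∈ Z) ∧ 0 < c ∧ ∀ X : ℝ, X₀ ≤ X →
      ∃ G : Finset (𝓞 K × 𝓞 K),
        (∀ p ∈ G, p ∈ Bx K X ∧ (∀ s : K →+* ℝ, 0 < s (p.1 : K)) ∧
          ∀ d : 𝓞 K, TwOk C d → H36MT.RelG K Sg (d ^ 2 * p.1) (d ^ 3 * p.2)) ∧
        (∀ p ∈ G, ∀ q ∈ G, p.1 ^ 3 * q.2 ^ 2 = q.1 ^ 3 * p.2 ^ 2 → p = q) ∧
        c * ((Bx K X).ncard : ℝ) ≤ (G.card : ℝ) := by
  have H : Blocks K := blocks_of_HR2 K fun h hd => hr2 h hd
  obtain ⟨m, e, A₀, B₀, hm0, he, hmS, hm, hcls⟩ := exists_class hC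
  have hSv : ∀ v : HeightOneSpectrum (𝓞 K), (2 : 𝓞 K) ∈ v.asIdeal → v ∈ C.S := fun v hv =>
    Finset.mem_union_left _ ((hC.mem2 v).2 hv)
  obtain ⟨m', hm'0, hm't, hm'm, hm'S, -⟩ := H36MT.exists_mod hm0 C.S
  obtain ⟨Z', hZ'Z, hZ', hZ'm, hZr⟩ := H30CY.aux_set_in K hm'0 hZ
  have hmZ : ∀ v ∈ Z', ¬ m ≤ v.asIdeal ∧ (6 : 𝓞 K) ∉ v.asIdeal := fun v hv =>
    ⟨fun h => (hZ'm v hv).1 (hm'm.trans h), (hZ'm v hv).2⟩
  have hS6 : ∀ v : HeightOneSpectrum (𝓞 K), ¬ m ≤ v.asIdeal → v ∉ C.S := by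
    intro v hv hvS
    exact hv ((hmS v hvS).1.trans (Ideal.pow_le_self (by omega)))
  obtain ⟨q₀, T, b, k, c, X₀, hq₀, hT, hdis, hk0, hk, hc, hmain⟩ :=
    H36MX.count_main K hSv he hZ' hm0 hmZ hmS hm (2 * C.P.card)
  obtain ⟨Ta, hTa⟩ : ∃ Ta : Finset (HeightOneSpectrum (𝓞 K)), Ta = (Finset.range k).biUnion T :=
    ⟨_, rfl⟩
  rw [← hTa] at hmain
  have hTa' : ∀ v ∈ Ta, v ∈ Z' ∧ v ≠ q₀ := by
    intro v hv
    rw [hTa, Finset.mem_biUnion] at hv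
    obtain ⟨l, -, hl⟩ := hv
    exact hT l v hl
  have hT0 : T 0 ⊆ Ta := by
    intro v hv
    rw [hTa, Finset.mem_biUnion]
    exact ⟨0, Finset.mem_range.2 hk0, hv⟩
  obtain ⟨c', X₁, hc', h⟩ := H30CY.count_genS H (S := C.S) (e := e) (q₀ := q₀) (T := Ta) (m' := m')
    (fun J hJ => H36MT.exists_twistS hm'0 hm't hm'S (hZ'm q₀ hq₀).1 fun p hp =>
      hZr q₀ hq₀ p (hTa' p (hJ hp)).1 (hTa' p (hJ hp)).2)
    (fun p => (p.1 - A₀ ∈ m ∧ p.2 - B₀ ∈ m ∧ ∀ s : K →+* ℝ, 0 < s (p.1 : K)) ∧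
      ∀ l < k, GoodSt (C.S ∪ (Finset.range l).biUnion T) (T l) (b l) p.1 p.2)
    (fun p => (∀ s : K →+* ℝ, 0 < s (p.1 : K)) ∧ ∀ d : 𝓞 K, TwOk C d →
      H36MT.RelG K (C.S ∪ insert q₀ Ta) (d ^ 2 * p.1) (d ^ 3 * p.2)) hc (by
      intro X hX
      refine (hmain X hX).trans ?_
      have hfin : {p : 𝓞 K × 𝓞 K | p ∈ Bx K X ∧ H36MT.FamS C.S e q₀ Ta p.1 p.2 ∧
          ((p.1 - A₀ ∈ m ∧ p.2 - B₀ ∈ m ∧ ∀ s : K →+* ℝ, 0 < s (p.1 : K)) ∧
          ∀ l < k, GoodSt (C.S ∪ (Finset.range l).biUnion T) (T l) (b l) p.1 p.2) ∧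
          ¬ H36MT.BadS C.S Ta p.1 p.2}.Finite := (H.fin X).subset fun p hp => hp.1
      refine Nat.cast_le.2 (Set.ncard_le_ncard ?_ hfin)
      rintro p ⟨h1, h2, h3, h4⟩
      refine ⟨h1, h2, ⟨h3, h4⟩, ?_⟩
      have h5 := h4 0 hk0
      rw [Finset.range_zero, Finset.biUnion_empty, Finset.union_empty] at h5
      exact good_not_bad hT0 h5)
    (by
      rintro p hF ⟨hP, hG⟩ -
      have hFQ := hcls q₀ Ta p.1 p.2 hP.1 hP.2.1 hP.2.2 hF
      rw [hTa] at hFQ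
      obtain ⟨J, hJ, hg⟩ := main_local hC (hS6 q₀ (hmZ q₀ hq₀).1) hk0 T b
        (fun i _ j _ hij => hdis i j hij)
        (fun v hv => by
          rw [← hTa] at hv
          exact ⟨hS6 v (hmZ v (hTa' v hv).1).1, (hTa' v hv).2⟩) hFQ hG hk
      rw [← hTa] at hJ hg
      refine ⟨J, hJ, fun D hDm hD => ⟨?_, ?_⟩⟩
      · intro s
        change 0 < s ((D ^ 2 * p.1 : 𝓞 K) : K)
        have e1 : ((D ^ 2 * p.1 : 𝓞 K) : K) = (D : K) ^ 2 * (p.1 : K) := by push_cast; rfl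
        rw [e1, map_mul, map_pow]
        exact mul_pos (pow_pos (hD.pos s) 2) (hP.2.2 s)
      · intro d hd
        have h1 := hg D hD d hd (C.S ∪ insert q₀ Ta) Finset.subset_union_left
          ((Finset.subset_insert _ _).trans Finset.subset_union_right)
          (Finset.mem_union_right _ (Finset.mem_insert_self _ _))
        have e1 : d ^ 2 * (D ^ 2 * p.1) = (D * d) ^ 2 * p.1 := by ring
        have e2 : d ^ 3 * (D ^ 3 * p.2) = (D * d) ^ 3 * p.2 := by ring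
        change H36MT.RelG K (C.S ∪ insert q₀ Ta) (d ^ 2 * (D ^ 2 * p.1)) (d ^ 3 * (D ^ 3 * p.2))
        rw [e1, e2]
        exact h1)
  refine ⟨C.S ∪ insert q₀ Ta, c', X₁, Finset.subset_union_left, fun v hv => ?_, hc', h⟩
  rcases Finset.mem_union.1 hv with h1 | h1
  · exact Or.inl h1
  · right
    rcases Finset.mem_insert.1 h1 with h2 | h2
    · rw [h2]
      exact hZ'Z hq₀
    · exact hZ'Z (hTa' v h2).1

end H76MQ

end S_H76_MQ_Fn

section S_H76_MX_Fx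

set_option autoImplicit false
set_option linter.unusedSectionVars false
open scoped Classical

open WithZero NumberField IsDedekindDomain H38RT
open H38T1 (SC sc scu rep eo la si Pri OddP tp unif ka)
open H76PP H36MX H76MQ

namespace H76MX

/-- The residue class: every member of the family in the class belongs to `FamX` and satisfies the local
conditions. -/
structure ClassX {K : Type} [Field K] [NumberField K] (C : CfgX K) (Δ : Set (𝓞 K))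
    (x : (u : HeightOneSpectrum (𝓞 K)) → 𝓞 K → SC (Kv u)) (m : Ideal (𝓞 K)) (E : ℕ) (A₀ B₀ : 𝓞 K) :
    Prop where
  bot : m ≠ ⊥
  two : 2 ≤ E
  inS : ∀ v ∈ C.S, m ≤ v.asIdeal ^ E ∧ dsc A₀ B₀ ∉ v.asIdeal ^ E
  out : ∀ v : HeightOneSpectrum (𝓞 K), v ∉ C.S → m ≤ v.asIdeal → dsc A₀ B₀ ∉ v.asIdeal
  res : ∀ A B : 𝓞 K, A - A₀ ∈ m → B - B₀ ∈ m → ∀ v ∈ C.R, ∀ t : 𝓞 K, t ^ 3 + A * t + B ∉ v.asIdeal
  loc : ∀ A B : 𝓞 K, A - A₀ ∈ m → B - B₀ ∈ m → ∀ u ∈ C.Z, ∃ e : Fin 3 → Kv u,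
    Spl (algebraMap K (Kv u) (A : K)) (algebraMap K (Kv u) (B : K)) e ∧
      ∀ d ∈ Δ, CondAt u A B e d (x u d)

theorem final_countX (K : Type) [Field K] [NumberField K] {C : CfgX K} (hC : C.Ok) (hH : Hilb K)
    (hcs : ConicSplit K) {Δ : Set (𝓞 K)} {x : (u : HeightOneSpectrum (𝓞 K)) → 𝓞 K → SC (Kv u)}
    {W : Submodule (ZMod 2) C.V} (hW : Target C Δ x W)
    (hΔ : ∀ d ∈ Δ, d ≠ 0 ∧ ∀ v : HeightOneSpectrum (𝓞 K), v ∉ C.S → eo v (sc (d : K)) = 0)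
    {m : Ideal (𝓞 K)} {e : ℕ} {A₀ B₀ : 𝓞 K} (hcl : ClassX C Δ x m e A₀ B₀)
    {Z : Set (HeightOneSpectrum (𝓞 K))} (hZ : Z.Infinite) :
    ∃ (Sg : Finset (HeightOneSpectrum (𝓞 K))) (c X₀ : ℝ), C.S ⊆ Sg ∧
      (∀ v ∈ Sg, v ∈ C.S ∨ v ∈ Z) ∧ 0 < c ∧ ∀ X : ℝ, X₀ ≤ X →
      ∃ G : Finset (𝓞 K × 𝓞 K),
        (∀ p ∈ G, p ∈ Bx K X ∧ ((∀ s : K →+* ℝ, 0 < s (p.1 : K)) ∧
          (∀ v ∈ C.R, ∀ t : 𝓞 K, t ^ 3 + p.1 * t + p.2 ∉ v.asIdeal) ∧
          ∀ d ∈ Δ, ∀ P : Finset (HeightOneSpectrum (𝓞 K)), Sg ⊆ P →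
            H36MT.RelG K P (d ^ 2 * p.1) (d ^ 3 * p.2))) ∧
        (∀ p ∈ G, ∀ q ∈ G, p.1 ^ 3 * q.2 ^ 2 = q.1 ^ 3 * p.2 ^ 2 → p = q) ∧
        c * ((Bx K X).ncard : ℝ) ≤ (G.card : ℝ) := by
  have H : Blocks K := blocks_of_HR2 K fun h hd => hr2 h hd
  have hm0 := hcl.bot
  have he := hcl.two
  have hmS := hcl.inS
  have hm := hcl.out
  have hSv : ∀ v : HeightOneSpectrum (𝓞 K), (2 : 𝓞 K) ∈ v.asIdeal → v ∈ C.S := fun v hv =>
    Finset.mem_union_left _ (hC.mem2 v hv)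
  obtain ⟨m', hm'0, hm't, hm'm, hm'S, -⟩ := H36MT.exists_mod hm0 C.S
  obtain ⟨Z', hZ'Z, hZ', hZ'm, hZr⟩ := H30CY.aux_set_in K hm'0 hZ
  have hmZ : ∀ v ∈ Z', ¬ m ≤ v.asIdeal ∧ (6 : 𝓞 K) ∉ v.asIdeal := fun v hv =>
    ⟨fun h => (hZ'm v hv).1 (hm'm.trans h), (hZ'm v hv).2⟩
  have hS6 : ∀ v : HeightOneSpectrum (𝓞 K), ¬ m ≤ v.asIdeal → v ∉ C.S := by
    intro v hv hvS
    exact hv ((hmS v hvS).1.trans (Ideal.pow_le_self (by omega)))
  obtain ⟨q₀, T, b, k, c, X₀, hq₀, hT, hdis, hk0, hk, hc, hmain⟩ :=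
    H36MX.count_main K hSv he hZ' hm0 hmZ hmS hm (Module.finrank ℚ K + 2 * C.Z.card)
  obtain ⟨Ta, hTa⟩ : ∃ Ta : Finset (HeightOneSpectrum (𝓞 K)), Ta = (Finset.range k).biUnion T :=
    ⟨_, rfl⟩
  rw [← hTa] at hmain
  have hTa' : ∀ v ∈ Ta, v ∈ Z' ∧ v ≠ q₀ := by
    intro v hv
    rw [hTa, Finset.mem_biUnion] at hv
    obtain ⟨l, -, hl⟩ := hv
    exact hT l v hl
  have hT0 : T 0 ⊆ Ta := by
    intro v hv
    rw [hTa, Finset.mem_biUnion]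
    exact ⟨0, Finset.mem_range.2 hk0, hv⟩
  obtain ⟨c', X₁, hc', h⟩ := H30CY.count_genS H (S := C.S) (e := e) (q₀ := q₀) (T := Ta) (m' := m')
    (fun J hJ => H36MT.exists_twistS hm'0 hm't hm'S (hZ'm q₀ hq₀).1 fun p hp =>
      hZr q₀ hq₀ p (hTa' p (hJ hp)).1 (hTa' p (hJ hp)).2)
    (fun p => (p.1 - A₀ ∈ m ∧ p.2 - B₀ ∈ m ∧ ∀ s : K →+* ℝ, 0 < s (p.1 : K)) ∧
      ∀ l < k, GoodSt (C.S ∪ (Finset.range l).biUnion T) (T l) (b l) p.1 p.2)
    (fun p => (∀ s : K →+* ℝ, 0 < s (p.1 : K)) ∧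
      (∀ v ∈ C.R, ∀ t : 𝓞 K, t ^ 3 + p.1 * t + p.2 ∉ v.asIdeal) ∧
      ∀ d ∈ Δ, ∀ P : Finset (HeightOneSpectrum (𝓞 K)), C.S ∪ insert q₀ Ta ⊆ P →
        H36MT.RelG K P (d ^ 2 * p.1) (d ^ 3 * p.2)) hc (by
      intro X hX
      refine (hmain X hX).trans ?_
      have hfin : {p : 𝓞 K × 𝓞 K | p ∈ Bx K X ∧ H36MT.FamS C.S e q₀ Ta p.1 p.2 ∧
          ((p.1 - A₀ ∈ m ∧ p.2 - B₀ ∈ m ∧ ∀ s : K →+* ℝ, 0 < s (p.1 : K)) ∧
          ∀ l < k, GoodSt (C.S ∪ (Finset.range l).biUnion T) (T l) (b l) p.1 p.2) ∧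
          ¬ H36MT.BadS C.S Ta p.1 p.2}.Finite := (H.fin X).subset fun p hp => hp.1
      refine Nat.cast_le.2 (Set.ncard_le_ncard ?_ hfin)
      rintro p ⟨h1, h2, h3, h4⟩
      refine ⟨h1, h2, ⟨h3, h4⟩, ?_⟩
      have h5 := h4 0 hk0
      rw [Finset.range_zero, Finset.biUnion_empty, Finset.union_empty] at h5
      exact good_not_bad hT0 h5)
    (by
      rintro p hF ⟨hP, hG⟩ -
      obtain ⟨hP1, hP2, hP3⟩ := hP
      have hloc : ∀ u : HeightOneSpectrum (𝓞 K), ∃ e : Fin 3 → Kv u, u ∈ C.Z →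
          Spl (algebraMap K (Kv u) (p.1 : K)) (algebraMap K (Kv u) (p.2 : K)) e ∧
            ∀ d ∈ Δ, CondAt u p.1 p.2 e d (x u d) := by
        intro u
        by_cases hu : u ∈ C.Z
        · obtain ⟨e, he⟩ := hcl.loc p.1 p.2 hP1 hP2 u hu
          exact ⟨e, fun _ => he⟩
        · exact ⟨fun _ => 0, fun h => absurd h hu⟩
      choose ee hee using hloc
      have hpos : ∀ s : K →+* ℝ, 0 < s ((dsc p.1 p.2 : 𝓞 K) : K) := by
        intro s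
        have e1 : ((dsc p.1 p.2 : 𝓞 K) : K) = 4 * (p.1 : K) ^ 3 + 27 * (p.2 : K) ^ 2 := by
          unfold dsc
          simp only [map_add, map_mul, map_pow, map_ofNat]
        rw [e1, map_add, map_mul, map_mul, map_pow, map_pow, map_ofNat, map_ofNat]
        have h1 := hP3 s
        positivity
      have hFX : FamX C q₀ Ta p.1 p.2 ee := ⟨fun u hu => (hee u hu).1,
        hcl.res p.1 p.2 hP1 hP2, hF.irr, hF.typ, hF.sqf, hpos⟩
      have hF' := hF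
      rw [hTa] at hFX hF'
      obtain ⟨J, hJ, hg⟩ := main_localX hC hH hcs hW hΔ (hS6 q₀ (hmZ q₀ hq₀).1) hk0 T b
        (fun i _ j _ hij => hdis i j hij)
        (fun v hv => by
          rw [← hTa] at hv
          exact ⟨hS6 v (hmZ v (hTa' v hv).1).1, (hTa' v hv).2⟩) hF' hFX
        (fun d hd u hu => (hee u hu).2 d hd) hG hk
      rw [← hTa] at hJ hg
      refine ⟨J, hJ, fun D hDm hD => ⟨?_, ?_, ?_⟩⟩
      · intro s
        change 0 < s ((D ^ 2 * p.1 : 𝓞 K) : K)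
        have e1 : ((D ^ 2 * p.1 : 𝓞 K) : K) = (D : K) ^ 2 * (p.1 : K) := by push_cast; rfl
        rw [e1, map_mul, map_pow]
        exact mul_pos (pow_pos (hD.pos s) 2) (hP3 s)
      · have hDm' := hm'm hDm
        refine hcl.res (D ^ 2 * p.1) (D ^ 3 * p.2) ?_ ?_
        · have e1 : D ^ 2 * p.1 - A₀ = (p.1 - A₀) + (D - 1) * ((D + 1) * p.1) := by ring
          rw [e1]
          exact m.add_mem hP1 (m.mul_mem_right _ hDm')
        · have e1 : D ^ 3 * p.2 - B₀ = (p.2 - B₀) + (D - 1) * ((D ^ 2 + D + 1) * p.2) := by ring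
          rw [e1]
          exact m.add_mem hP2 (m.mul_mem_right _ hDm')
      · intro d hd P hP
        have h1 := hg D hD d hd P (Finset.subset_union_left.trans hP)
          (((Finset.subset_insert _ _).trans Finset.subset_union_right).trans hP)
          (hP (Finset.mem_union_right _ (Finset.mem_insert_self _ _)))
        have e1 : d ^ 2 * (D ^ 2 * p.1) = (D * d) ^ 2 * p.1 := by ring
        have e2 : d ^ 3 * (D ^ 3 * p.2) = (D * d) ^ 3 * p.2 := by ring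
        change H36MT.RelG K P (d ^ 2 * (D ^ 2 * p.1)) (d ^ 3 * (D ^ 3 * p.2))
        rw [e1, e2]
        exact h1)
  refine ⟨C.S ∪ insert q₀ Ta, c', X₁, Finset.subset_union_left, fun v hv => ?_, hc', h⟩
  rcases Finset.mem_union.1 hv with h1 | h1
  · exact Or.inl h1
  · right
    rcases Finset.mem_insert.1 h1 with h2 | h2
    · rw [h2]
      exact hZ'Z hq₀
    · exact hZ'Z (hTa' v h2).1

end H76MX

end S_H76_MX_Fx

section S_H76_MX_Cx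

set_option autoImplicit false
set_option linter.unusedSectionVars false
open scoped Classical

open WithZero NumberField IsDedekindDomain H38RT
open H38T1 (SC sc scu rep eo la si Pri OddP tp unif ka)
open H76PP H36MX H76MQ

namespace H76MX

variable {K : Type} [Field K] [NumberField K]

/-- The class at a place above two: `y^2 = x^3 - 91 x - 330`. -/
def DyadicClass (η : (u : HeightOneSpectrum (𝓞 K)) → SC (Kv u)) : Prop :=
  ∀ u : HeightOneSpectrum (𝓞 K), (2 : 𝓞 K) ∈ u.asIdeal → ∃ N : ℕ,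
    dsc (-91 : 𝓞 K) (-330) ∉ u.asIdeal ^ N ∧ ∀ A B : 𝓞 K, A - (-91) ∈ u.asIdeal ^ N →
      B - (-330) ∈ u.asIdeal ^ N → ∃ e : Fin 3 → Kv u,
        Spl (algebraMap K (Kv u) (A : K)) (algebraMap K (Kv u) (B : K)) e ∧
        ∀ d : 𝓞 K, d ≠ 0 → CondAt u A B e d
          (if sc (algebraMap K (Kv u) (d : K)) = 0 then η u else sc (algebraMap K (Kv u) (d : K)))

/-- The classes at an auxiliary place. -/
def AuxClass (η : (u : HeightOneSpectrum (𝓞 K)) → SC (Kv u)) : Prop :=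
  ∀ u : HeightOneSpectrum (𝓞 K), (6 : 𝓞 K) ∉ u.asIdeal → ∀ s : ZMod 2, ∃ (a b : 𝓞 K) (N : ℕ),
    dsc a b ∉ u.asIdeal ^ N ∧ ∀ A B : 𝓞 K, A - a ∈ u.asIdeal ^ N →
      B - b ∈ u.asIdeal ^ N → ∃ e : Fin 3 → Kv u,
        Spl (algebraMap K (Kv u) (A : K)) (algebraMap K (Kv u) (B : K)) e ∧
        ∀ d : 𝓞 K, d ≠ 0 → eo u (sc (d : K)) = 0 → CondAt u A B e d
          (if la u (sc (d : K)) + s = 0 then 0 else η u)

/-- The class of the twist by `d` at `u`. -/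
noncomputable def xX (η : (u : HeightOneSpectrum (𝓞 K)) → SC (Kv u))
    (s : HeightOneSpectrum (𝓞 K) → ZMod 2) (u : HeightOneSpectrum (𝓞 K)) (d : 𝓞 K) : SC (Kv u) :=
  if (2 : 𝓞 K) ∈ u.asIdeal then
    (if sc (algebraMap K (Kv u) (d : K)) = 0 then η u else sc (algebraMap K (Kv u) (d : K)))
  else (if la u (sc (d : K)) + s u = 0 then 0 else η u)

end H76MX

end S_H76_MX_Cx

section S_H76_MX_Cy

set_option autoImplicit false
set_option linter.unusedSectionVars false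
open scoped Classical

open WithZero NumberField IsDedekindDomain H38RT
open H38T1 (SC sc scu rep eo la si Pri OddP tp unif ka)
open H76PP H36MX H76MQ

namespace H76MX

variable {K : Type} [Field K] [NumberField K]

private theorem Cy_two_not_unit (K : Type) [Field K] [NumberField K] : ¬ IsUnit (2 : 𝓞 K) := by
  intro h
  obtain ⟨u, hu⟩ := h.exists_right_inv
  have h1 : IsIntegral ℤ ((u : 𝓞 K) : K) := RingOfIntegers.isIntegral_coe u
  have h2 : ((u : 𝓞 K) : K) = algebraMap ℚ K (1 / 2) := by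
    have h3 := congrArg (algebraMap (𝓞 K) K) hu
    rw [map_mul, map_ofNat, map_one] at h3
    rw [map_div₀, map_one, map_ofNat, eq_div_iff (two_ne_zero)]
    rw [mul_comm]
    exact h3
  rw [h2] at h1
  have h3 : IsIntegral ℤ (1 / 2 : ℚ) :=
    (isIntegral_algebraMap_iff (algebraMap ℚ K).injective).1 h1
  obtain ⟨n, hn⟩ := IsIntegrallyClosed.isIntegral_iff.1 h3
  have h4 : (2 * n : ℤ) = 1 := by
    have h5 : ((2 * n : ℤ) : ℚ) = ((1 : ℤ) : ℚ) := by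
      push_cast
      have : (n : ℚ) = 1 / 2 := hn
      rw [this]
      norm_num
    exact_mod_cast h5
  omega

private theorem Cy_exists_two (K : Type) [Field K] [NumberField K] :
    ∃ v : HeightOneSpectrum (𝓞 K), (2 : 𝓞 K) ∈ v.asIdeal := by
  obtain ⟨M, hM, h2⟩ := exists_max_ideal_of_mem_nonunits (Cy_two_not_unit K)
  refine ⟨⟨M, hM.isPrime, ?_⟩, h2⟩
  rintro rfl
  exact two_ne_zero (Ideal.mem_bot.1 h2)

theorem exists_classX {C : CfgX K} (hC : C.Ok)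
    {η : (u : HeightOneSpectrum (𝓞 K)) → SC (Kv u)} (hdy : DyadicClass η) (hax : AuxClass η)
    (hZR : ∀ v ∈ C.Z, v ∉ C.R) (hZ6 : ∀ u ∈ C.Z, (2 : 𝓞 K) ∉ u.asIdeal → (6 : 𝓞 K) ∉ u.asIdeal)
    (s : HeightOneSpectrum (𝓞 K) → ZMod 2) {Δ : Set (𝓞 K)}
    (hΔ : ∀ d ∈ Δ, d ≠ 0 ∧ ∀ u ∈ C.Z, (2 : 𝓞 K) ∉ u.asIdeal → eo u (sc (d : K)) = 0) :
    ∃ (m : Ideal (𝓞 K)) (E : ℕ) (A₀ B₀ : 𝓞 K), ClassX C Δ (xX η s) m E A₀ B₀ := by
  choose b hb using fun v : HeightOneSpectrum (𝓞 K) => H30PN.Rm_noroot v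
  obtain ⟨N, hN⟩ : ∃ N : HeightOneSpectrum (𝓞 K) → ℕ, ∀ u : HeightOneSpectrum (𝓞 K),
      (2 : 𝓞 K) ∈ u.asIdeal →
      dsc (-91 : 𝓞 K) (-330) ∉ u.asIdeal ^ (N u) ∧ ∀ A B : 𝓞 K, A - (-91) ∈ u.asIdeal ^ (N u) →
      B - (-330) ∈ u.asIdeal ^ (N u) → ∃ e : Fin 3 → Kv u,
        Spl (algebraMap K (Kv u) (A : K)) (algebraMap K (Kv u) (B : K)) e ∧
        ∀ d : 𝓞 K, d ≠ 0 → CondAt u A B e d
          (if sc (algebraMap K (Kv u) (d : K)) = 0 then η u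
            else sc (algebraMap K (Kv u) (d : K))) := by
    refine ⟨fun u => if h : (2 : 𝓞 K) ∈ u.asIdeal then (hdy u h).choose else 0, ?_⟩
    intro u h
    simp only [dif_pos h]
    exact (hdy u h).choose_spec
  obtain ⟨p, hp⟩ : ∃ p : HeightOneSpectrum (𝓞 K) → 𝓞 K × 𝓞 K × ℕ,
      ∀ u : HeightOneSpectrum (𝓞 K), (6 : 𝓞 K) ∉ u.asIdeal →
      dsc (p u).1 (p u).2.1 ∉ u.asIdeal ^ (p u).2.2 ∧
      ∀ A B : 𝓞 K, A - (p u).1 ∈ u.asIdeal ^ (p u).2.2 →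
      B - (p u).2.1 ∈ u.asIdeal ^ (p u).2.2 → ∃ e : Fin 3 → Kv u,
        Spl (algebraMap K (Kv u) (A : K)) (algebraMap K (Kv u) (B : K)) e ∧
        ∀ d : 𝓞 K, d ≠ 0 → eo u (sc (d : K)) = 0 → CondAt u A B e d
          (if la u (sc (d : K)) + s u = 0 then 0 else η u) := by
    have h : ∀ u : HeightOneSpectrum (𝓞 K), ∃ p : 𝓞 K × 𝓞 K × ℕ, (6 : 𝓞 K) ∉ u.asIdeal →
        dsc p.1 p.2.1 ∉ u.asIdeal ^ p.2.2 ∧
        ∀ A B : 𝓞 K, A - p.1 ∈ u.asIdeal ^ p.2.2 →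
        B - p.2.1 ∈ u.asIdeal ^ p.2.2 → ∃ e : Fin 3 → Kv u,
          Spl (algebraMap K (Kv u) (A : K)) (algebraMap K (Kv u) (B : K)) e ∧
          ∀ d : 𝓞 K, d ≠ 0 → eo u (sc (d : K)) = 0 → CondAt u A B e d
            (if la u (sc (d : K)) + s u = 0 then 0 else η u) := by
      intro u
      by_cases h6 : (6 : 𝓞 K) ∈ u.asIdeal
      · exact ⟨(0, 0, 0), fun h => absurd h6 h⟩
      · obtain ⟨a, c, M, hM⟩ := hax u h6 (s u)
        exact ⟨(a, c, M), fun _ => hM⟩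
    exact ⟨fun u => (h u).choose, fun u => (h u).choose_spec⟩
  obtain ⟨e, he⟩ : ∃ e : HeightOneSpectrum (𝓞 K) → ℕ,
      e = fun v => if (2 : 𝓞 K) ∈ v.asIdeal then N v else if v ∈ C.R then 1 else (p v).2.2 :=
    ⟨_, rfl⟩
  obtain ⟨Av, hAv⟩ : ∃ Av : HeightOneSpectrum (𝓞 K) → 𝓞 K,
      Av = fun v => if (2 : 𝓞 K) ∈ v.asIdeal then -91 else if v ∈ C.R then -1 else (p v).1 :=
    ⟨_, rfl⟩
  obtain ⟨Bv, hBv⟩ : ∃ Bv : HeightOneSpectrum (𝓞 K) → 𝓞 K,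
      Bv = fun v => if (2 : 𝓞 K) ∈ v.asIdeal then -330 else if v ∈ C.R then b v else (p v).2.1 :=
    ⟨_, rfl⟩
  have hP3 : ∀ v : HeightOneSpectrum (𝓞 K), (2 : 𝓞 K) ∈ v.asIdeal →
      e v = N v ∧ Av v = -91 ∧ Bv v = -330 := by
    intro v hv
    rw [he, hAv, hBv]
    exact ⟨if_pos hv, if_pos hv, if_pos hv⟩
  have hR3 : ∀ v ∈ C.R, e v = 1 ∧ Av v = -1 ∧ Bv v = b v := by
    intro v hv
    have h2 := hC.R2 v hv
    rw [he, hAv, hBv]
    exact ⟨(if_neg h2).trans (if_pos hv), (if_neg h2).trans (if_pos hv),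
      (if_neg h2).trans (if_pos hv)⟩
  have hZ3 : ∀ v ∈ C.Z, (2 : 𝓞 K) ∉ v.asIdeal →
      e v = (p v).2.2 ∧ Av v = (p v).1 ∧ Bv v = (p v).2.1 := by
    intro v hv h2
    have hR := hZR v hv
    rw [he, hAv, hBv]
    exact ⟨(if_neg h2).trans (if_neg hR), (if_neg h2).trans (if_neg hR),
      (if_neg h2).trans (if_neg hR)⟩
  have hmemZ : ∀ v ∈ C.Z, v ∈ C.S := fun v hv => Finset.mem_union_left _ hv
  have hmemR : ∀ v ∈ C.R, v ∈ C.S := fun v hv => Finset.mem_union_right _ hv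
  have hcl : ∀ v ∈ C.S, dsc (Av v) (Bv v) ∉ v.asIdeal ^ e v := by
    intro v hv
    have hpr := v.isPrime
    by_cases h2 : (2 : 𝓞 K) ∈ v.asIdeal
    · obtain ⟨e1, e2, e3⟩ := hP3 v h2
      rw [e1, e2, e3]
      exact (hN v h2).1
    · rcases Finset.mem_union.1 hv with hv | hv
      · obtain ⟨e1, e2, e3⟩ := hZ3 v hv h2
        rw [e1, e2, e3]
        exact (hp v (hZ6 v hv h2)).1
      · obtain ⟨e1, e2, e3⟩ := hR3 v hv
        rw [e1, e2, e3, pow_one]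
        by_cases h6 : (6 : 𝓞 K) ∈ v.asIdeal
        · have h3 : (3 : 𝓞 K) ∈ v.asIdeal := by
            have h7 : (2 : 𝓞 K) * 3 ∈ v.asIdeal := by
              rw [show (2 : 𝓞 K) * 3 = 6 by norm_num]
              exact h6
            exact (hpr.mem_or_mem h7).resolve_left h2
          intro h
          have h8 : (2 : 𝓞 K) ^ 2 ∈ v.asIdeal := by
            have e8 : (2 : 𝓞 K) ^ 2 = 3 * (9 * b v ^ 2) - dsc (-1) (b v) := by
              unfold dsc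
              ring
            rw [e8]
            exact sub_mem (v.asIdeal.mul_mem_right _ h3) h
          exact h2 (hpr.mem_of_pow_mem 2 h8)
        · refine H30PN.nort_dsc' h6 ?_
          intro t ht
          apply hb v t
          have e9 : t ^ 3 - t + b v = t ^ 3 + -1 * t + b v := by ring
          rw [e9]
          exact ht
  obtain ⟨m, E, A₀, B₀, hm, hE, h1, h2, h3⟩ := H76MQ.Fq_cls (S := C.S) (R := ∅)
    (fun v hv => hmemZ v (hC.mem2 v hv)) (fun v hv => absurd hv (Finset.notMem_empty v))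
    e Av Bv hcl
  have hE2 : 2 ≤ E := by
    by_contra hcon
    have hE1 : E = 1 := by omega
    obtain ⟨v, hv⟩ := Cy_exists_two K
    have hvS : v ∈ C.S := hmemZ v (hC.mem2 v hv)
    obtain ⟨e1, e2, e3⟩ := hP3 v hv
    have h4 := (h3 A₀ B₀ (by rw [sub_self]; exact Ideal.zero_mem _)
      (by rw [sub_self]; exact Ideal.zero_mem _)).1 v hvS
    rw [e1, e2, e3] at h4
    have hN0 : N v ≠ 0 := by
      intro h0
      apply (hN v hv).1
      rw [h0, pow_zero, Ideal.one_eq_top]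
      exact Submodule.mem_top
    have hA : A₀ - (-91) ∈ v.asIdeal := Ideal.pow_le_self hN0 h4.1
    have hB : B₀ - (-330) ∈ v.asIdeal := Ideal.pow_le_self hN0 h4.2
    apply (h1 v hvS).2
    rw [hE1, pow_one]
    have e6 : dsc A₀ B₀ = (4 * (A₀ ^ 2 - 91 * A₀ + 91 ^ 2)) * (A₀ - (-91)) +
        (27 * (B₀ - 330)) * (B₀ - (-330)) + (-36992) * 2 := by
      unfold dsc
      ring
    rw [e6]
    exact add_mem (add_mem (Ideal.mul_mem_left _ _ hA) (Ideal.mul_mem_left _ _ hB))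
      (Ideal.mul_mem_left _ _ hv)
  refine ⟨m, E, A₀, B₀, hm, hE2, h1, h2, ?_, ?_⟩
  · intro A B hA hB v hv t ht
    have h6 := (h3 A B hA hB).1 v (hmemR v hv)
    obtain ⟨e1, e2, e3⟩ := hR3 v hv
    rw [e1, e2, e3, pow_one] at h6
    apply hb v t
    have e7 : t ^ 3 - t + b v = (t ^ 3 + A * t + B) - t * (A - (-1)) - (B - b v) := by ring
    rw [e7]
    exact sub_mem (sub_mem ht (Ideal.mul_mem_left _ _ h6.1)) h6.2
  · intro A B hA hB u hu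
    have h6 := (h3 A B hA hB).1 u (hmemZ u hu)
    by_cases h2u : (2 : 𝓞 K) ∈ u.asIdeal
    · obtain ⟨e1, e2, e3⟩ := hP3 u h2u
      rw [e1, e2, e3] at h6
      obtain ⟨ee, hee, hc⟩ := (hN u h2u).2 A B h6.1 h6.2
      refine ⟨ee, hee, fun d hd => ?_⟩
      have h7 := hc d (hΔ d hd).1
      have h8 : xX η s u d = (if sc (algebraMap K (Kv u) (d : K)) = 0 then η u
          else sc (algebraMap K (Kv u) (d : K))) := by
        unfold xX
        exact if_pos h2u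
      rw [h8]
      exact h7
    · obtain ⟨e1, e2, e3⟩ := hZ3 u hu h2u
      rw [e1, e2, e3] at h6
      obtain ⟨ee, hee, hc⟩ := (hp u (hZ6 u hu h2u)).2 A B h6.1 h6.2
      refine ⟨ee, hee, fun d hd => ?_⟩
      have h7 := hc d (hΔ d hd).1 ((hΔ d hd).2 u hu h2u)
      have h8 : xX η s u d = (if la u (sc (d : K)) + s u = 0 then 0 else η u) := by
        unfold xX
        exact if_neg h2u
      rw [h8]
      exact h7

end H76MX

end S_H76_MX_Cy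

section S_H36_MX_Bc

set_option autoImplicit false
set_option linter.unusedSectionVars false
open scoped Classical

open WithZero NumberField IsDedekindDomain H38RT
open H38T1 (SC sc scu rep rep_ne sc_rep sc_mul sc_eq_zero sc_surj eo la si Pri OddP tp unif ka)
open H76PP

namespace H36MX

open H76MX

theorem Bc_sq {K : Type} [Field K] [NumberField K] {u : HeightOneSpectrum (𝓞 K)} {D : K}
    (h : ∃ m : K, m ≠ 0 ∧ u.valuation K (D * m ^ 2 - 1) < u.valuation K 4) :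
    ∃ w : u.adicCompletion K, w ≠ 0 ∧ algebraMap K (u.adicCompletion K) D = w ^ 2 := by
  obtain ⟨m, hm0, hm⟩ := h
  have h1 : u.valuation K (D * m ^ 2 - 1) < u.valuation K (4 * 1) := by
    rw [mul_one]
    exact hm
  obtain ⟨r, hr0, hr⟩ := H36CY.sq_near' u h1
  have him : algebraMap K (u.adicCompletion K) m ≠ 0 := (map_ne_zero _).2 hm0
  refine ⟨r / algebraMap K (u.adicCompletion K) m, div_ne_zero hr0 him, ?_⟩
  rw [map_mul, map_pow, map_one, one_mul] at hr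
  rw [div_pow, ← hr]
  field_simp

theorem Bc_sc {F : Type} [Field F] {w a b : F} (hw : w ≠ 0) (ha : a ≠ 0) (hb : b ≠ 0) :
    sc (w ^ 2 * a * b) = sc (a * b) := by
  have h1 : w ^ 2 * a * b = w ^ 2 * (a * b) := by ring
  have h2 : (sc (w ^ 2) : SC F) = 0 := (sc_eq_zero (pow_ne_zero 2 hw)).2 ⟨w, sq w⟩
  rw [h1, sc_mul (pow_ne_zero 2 hw) (mul_ne_zero ha hb), h2, zero_add]

theorem Bc_main {K : Type} [Field K] [NumberField K] {u : HeightOneSpectrum (𝓞 K)} {A B : 𝓞 K}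
    {e : Fin 3 → u.adicCompletion K} {d : 𝓞 K} (hd : d ≠ 0) {c : SC (Kv u)}
    (key : Spl (algebraMap K (Kv u) (A : K)) (algebraMap K (Kv u) (B : K)) e →
      ∀ x : Kv u, (∀ j, x ≠ e j) →
      IsSquare (algebraMap K (Kv u) (d : K) * ((x - e 0) * (x - e 1) * (x - e 2))) →
      LW c (sc (algebraMap K (Kv u) (d : K) * (x - e 0)))
        (sc (algebraMap K (Kv u) (d : K) * (x - e 2)))) :
    CondAt u A B e d c := by
  intro hs L _ _ _ θ h D hD hm δ hδ hN hLC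
  have hDK : ((D : 𝓞 K) : K) ≠ 0 := by
    intro h0
    exact hD (RingOfIntegers.ext h0)
  have hdK : ((d : 𝓞 K) : K) ≠ 0 := by
    intro h0
    exact hd (RingOfIntegers.ext h0)
  have hEe : ((D * d : 𝓞 K) : K) = (D : K) * (d : K) := map_mul _ _ _
  have hE0 : ((D * d : 𝓞 K) : K) ≠ 0 := by
    rw [hEe]
    exact mul_ne_zero hDK hdK
  obtain ⟨x, hx, hsq, hl⟩ := kum_Z h (algebraMap K (Kv u)) hs hE0 hδ hLC
  obtain ⟨w, hw0, hw⟩ := Bc_sq hm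
  have hid : algebraMap K (Kv u) (d : K) ≠ 0 := (map_ne_zero _).2 hdK
  have hiE : algebraMap K (Kv u) ((D * d : 𝓞 K) : K) = w ^ 2 * algebraMap K (Kv u) (d : K) := by
    rw [hEe, map_mul, hw]
  rw [hl 0, hl 2, hiE, Bc_sc hw0 hid (sub_ne_zero.2 (hx 0)), Bc_sc hw0 hid (sub_ne_zero.2 (hx 2))]
  refine key hs x hx ?_
  rw [hiE] at hsq
  obtain ⟨y, hy⟩ := hsq
  refine ⟨y / w, ?_⟩
  field_simp
  linear_combination hy

theorem condAt_two {K : Type} [Field K] [NumberField K] {u : HeightOneSpectrum (𝓞 K)}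
    (h2 : u.valuation K 2 < 1) (hF : HF (u.adicCompletion K)) {A B : 𝓞 K}
    {e : Fin 3 → u.adicCompletion K}
    (hδ : IsSquare (e 1 - e 0)) (h1 : Valued.v (e 1 - e 0) = 1)
    (h16 : Valued.v (e 2 - e 1) = Valued.v (16 : u.adicCompletion K))
    {g0 : u.adicCompletion K} (hg0 : Unr g0) {d : 𝓞 K} (hd : d ≠ 0) :
    CondAt u A B e d (if IsSquare (algebraMap K (u.adicCompletion K) (d : K)) then sc g0 else
      sc (algebraMap K (u.adicCompletion K) (d : K))) := by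
  refine Bc_main hd fun hs x hx hsq => ?_
  have hdK : ((d : 𝓞 K) : K) ≠ 0 := by
    intro h0
    exact hd (RingOfIntegers.ext h0)
  have hid : algebraMap K (Kv u) (d : K) ≠ 0 := (map_ne_zero _).2 hdK
  exact cond_two h2 hF hs hδ h1 h16 hid hx hsq hg0

theorem condAt_odd {K : Type} [Field K] [NumberField K] {u : HeightOneSpectrum (𝓞 K)}
    (hu : OddP u) {A B : 𝓞 K} {e : Fin 3 → u.adicCompletion K}
    (h1 : Valued.v (e 1 - e 0) = 1) (hτ : Valued.v (e 2 - e 1) < 1) {s : 𝓞 K}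
    (hs0 : s ≠ 0) (hs : IsSquare ((e 1 - e 0) * algebraMap K (u.adicCompletion K) (s : K)))
    {d : 𝓞 K} (hd : d ≠ 0) (hde : eo u (sc (d : K)) = 0) :
    CondAt u A B e d (sc (algebraMap K (u.adicCompletion K) ((d * s : 𝓞 K) : K))) := by
  refine Bc_main hd fun hsp x hx hsq => ?_
  have hdK : ((d : 𝓞 K) : K) ≠ 0 := by
    intro h0
    exact hd (RingOfIntegers.ext h0)
  have hsK : ((s : 𝓞 K) : K) ≠ 0 := by
    intro h0
    exact hs0 (RingOfIntegers.ext h0)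
  have hid : algebraMap K (Kv u) (d : K) ≠ 0 := (map_ne_zero _).2 hdK
  have his : algebraMap K (Kv u) (s : K) ≠ 0 := (map_ne_zero _).2 hsK
  have he : e 1 - e 0 ≠ 0 := by
    intro h0
    rw [h0, map_zero] at h1
    exact zero_ne_one h1
  -- the valuation of `d` is even
  rw [H38T1.eo_sc hdK] at hde
  unfold ord at hde
  rw [ZMod.intCast_eq_zero_iff_even] at hde
  obtain ⟨n, hn⟩ := hde
  have hv0 : u.valuation K (d : K) ≠ 0 := (Valuation.ne_zero_iff _).2 hdK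
  have hEv : Valued.v (algebraMap K (Kv u) (d : K)) = exp (2 * (-n)) := by
    rw [H36CY.val_coe, ← exp_log hv0]
    congr 1
    omega
  have h5 := cond_odd hu hsp h1 hτ hid hEv hx hsq
  have h6 : sc (algebraMap K (u.adicCompletion K) ((d * s : 𝓞 K) : K)) =
      sc (algebraMap K (Kv u) (d : K) * (e 1 - e 0)) := by
    have e1 : ((d * s : 𝓞 K) : K) = (d : K) * (s : K) := map_mul _ _ _
    rw [e1, map_mul, sc_mul hid his, sc_mul hid he]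
    have h7 : sc ((e 1 - e 0) * algebraMap K (Kv u) (s : K)) = 0 :=
      (sc_eq_zero (mul_ne_zero he his)).2 hs
    rw [sc_mul he his] at h7
    have h8 := SC.two_smul (sc (e 1 - e 0))
    rw [two_nsmul] at h8
    congr 1
    have h9 : sc (e 1 - e 0) + sc (algebraMap K (Kv u) (s : K)) =
        sc (e 1 - e 0) + sc (e 1 - e 0) := by rw [h7, h8]
    exact add_left_cancel h9
  rw [h6]
  exact h5

end H36MX

end S_H36_MX_Bc

section S_H36_MX_Bs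

set_option autoImplicit false
set_option linter.unusedSectionVars false
open scoped Classical

open WithZero NumberField IsDedekindDomain H38RT
open H38T1 (SC sc scu rep rep_ne sc_rep sc_mul sc_eq_zero sc_surj eo la si Pri OddP tp unif ka)
open H76PP

namespace H36MX

private lemma Bs_hs {F : Type} [Field F] {a b c d : F} (h : Sol a b ↔ Sol c d) :
    hs a b = hs c d := by
  by_cases h1 : Sol a b
  · rw [hs_eq_zero.2 h1, hs_eq_zero.2 (h.1 h1)]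
  · rw [hs_eq_one.2 h1, hs_eq_one.2 (fun h2 => h1 (h.2 h2))]

/-- The polynomial identities. -/
private lemma Bs_hankel {F : Type} [Field F] {a b e0 e1 e2 y0 y1 y2 c0 c1 c2 : F}
    (h1 : e0 + e1 + e2 = 0) (h2 : e0 * e1 + e0 * e2 + e1 * e2 = a) (h3 : e0 * e1 * e2 = -b)
    (hc0 : c0 = y0 + y1 * e0 + y2 * e0 ^ 2) (hc1 : c1 = y0 + y1 * e1 + y2 * e1 ^ 2)
    (hc2 : c2 = y0 + y1 * e2 + y2 * e2 ^ 2) (s0 s1 s2 s3 s4 : F) (hs0 : s0 = y2) (hs1 : s1 = y1)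
    (hs2 : s2 = y0 - a * y2) (hs3 : s3 = -a * y1 - b * y2)
    (hs4 : s4 = -a * y0 + a ^ 2 * y2 - b * y1) :
    c0 * c1 * c2 = -(s0 * s2 * s4 + 2 * s1 * s2 * s3 - s2 ^ 3 - s0 * s3 ^ 2 - s1 ^ 2 * s4) := by
  obtain rfl : e2 = -e0 - e1 := by linear_combination h1
  obtain rfl : b = -(e0 * e1 * (-e0 - e1)) := by linear_combination h3
  rw [hs0, hs1, hs2, hs3, hs4, hc0, hc1, hc2, ← h2]
  ring

private lemma Bs_sum {F : Type} [Field F] {a b e0 e1 e2 y0 y1 y2 c0 c1 c2 δ : F}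
    (h1 : e0 + e1 + e2 = 0) (h2 : e0 * e1 + e0 * e2 + e1 * e2 = a) (h3 : e0 * e1 * e2 = -b)
    (hc0 : c0 = y0 + y1 * e0 + y2 * e0 ^ 2) (hc1 : c1 = y0 + y1 * e1 + y2 * e1 ^ 2)
    (hc2 : c2 = y0 + y1 * e2 + y2 * e2 ^ 2)
    (hδ : (e0 - e1) * (e0 - e2) * (e1 - e2) * δ = 1) (a0 a1 a2 : F)
    (ha0 : a0 = c0 * (e1 - e2) * δ) (ha1 : a1 = -(c1 * (e0 - e2) * δ))
    (ha2 : a2 = c2 * (e0 - e1) * δ) :
    a0 + a1 + a2 = y2 ∧ a0 * e0 + a1 * e1 + a2 * e2 = y1 ∧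
    a0 * e0 ^ 2 + a1 * e1 ^ 2 + a2 * e2 ^ 2 = y0 - a * y2 ∧
    a0 * e0 ^ 3 + a1 * e1 ^ 3 + a2 * e2 ^ 3 = -a * y1 - b * y2 ∧
    a0 * e0 ^ 4 + a1 * e1 ^ 4 + a2 * e2 ^ 4 = -a * y0 + a ^ 2 * y2 - b * y1 := by
  obtain rfl : e2 = -e0 - e1 := by linear_combination h1
  obtain rfl : b = -(e0 * e1 * (-e0 - e1)) := by linear_combination h3
  subst h2 ha0 ha1 ha2 hc0 hc1 hc2
  refine ⟨?_, ?_, ?_, ?_, ?_⟩
  · linear_combination y2 * hδ
  · linear_combination y1 * hδ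
  · linear_combination (y0 - (e0 * e1 + e0 * (-e0 - e1) + e1 * (-e0 - e1)) * y2) * hδ
  · linear_combination (-(e0 * e1 + e0 * (-e0 - e1) + e1 * (-e0 - e1)) * y1 -
      (-(e0 * e1 * (-e0 - e1))) * y2) * hδ
  · linear_combination (-(e0 * e1 + e0 * (-e0 - e1) + e1 * (-e0 - e1)) * y0 +
      (e0 * e1 + e0 * (-e0 - e1) + e1 * (-e0 - e1)) ^ 2 * y2 -
      (-(e0 * e1 * (-e0 - e1))) * y1) * hδ

/-- Lagrange interpolation. -/
private lemma Bs_lag {F : Type} [Field F] {e0 e1 e2 δ : F}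
    (h1 : e0 + e1 + e2 = 0)
    (hδ : (e0 - e1) * (e0 - e2) * (e1 - e2) * δ = 1) (Z0 Z1 Z2 : F) :
    ∃ z0 z1 z2 : F, z0 + z1 * e0 + z2 * e0 ^ 2 = Z0 ∧ z0 + z1 * e1 + z2 * e1 ^ 2 = Z1 ∧
      z0 + z1 * e2 + z2 * e2 ^ 2 = Z2 := by
  obtain rfl : e2 = -e0 - e1 := by linear_combination h1
  refine ⟨δ * ((e1 - (-e0 - e1)) * (e1 * (-e0 - e1)) * Z0 -
      (e0 - (-e0 - e1)) * (e0 * (-e0 - e1)) * Z1 + (e0 - e1) * (e0 * e1) * Z2),
    δ * ((e1 - (-e0 - e1)) * e0 * Z0 - (e0 - (-e0 - e1)) * e1 * Z1 +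
      (e0 - e1) * (-e0 - e1) * Z2),
    δ * ((e1 - (-e0 - e1)) * Z0 - (e0 - (-e0 - e1)) * Z1 + (e0 - e1) * Z2), ?_, ?_, ?_⟩
  · linear_combination Z0 * hδ
  · linear_combination Z1 * hδ
  · linear_combination Z2 * hδ

private lemma Bs_zero {F : Type} [Field F] {e0 e1 e2 δ : F}
    (hδ : (e0 - e1) * (e0 - e2) * (e1 - e2) * δ = 1) {z0 z1 z2 : F}
    (h0 : z0 + z1 * e0 + z2 * e0 ^ 2 = 0) (h1 : z0 + z1 * e1 + z2 * e1 ^ 2 = 0)
    (h2 : z0 + z1 * e2 + z2 * e2 ^ 2 = 0) : z1 = 0 ∧ z2 = 0 := by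
  have e : z2 = 0 := by
    linear_combination (-z2) * hδ + δ * ((e1 - e2) * h0 - (e0 - e2) * h1 + (e0 - e1) * h2)
  refine ⟨?_, e⟩
  subst e
  linear_combination (-z1) * hδ + δ * ((e0 - e2) * (e1 - e2)) * (h0 - h1)

/-- The main computation. -/
private lemma Bs_core {F : Type} [Field F] (hF2 : (2 : F) ≠ 0)
    {a b e0 e1 e2 y0 y1 y2 c0 c1 c2 : F}
    (h1 : e0 + e1 + e2 = 0) (h2 : e0 * e1 + e0 * e2 + e1 * e2 = a) (h3 : e0 * e1 * e2 = -b)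
    (n01 : e0 ≠ e1) (n02 : e0 ≠ e2) (n12 : e1 ≠ e2)
    (hc0 : c0 = y0 + y1 * e0 + y2 * e0 ^ 2) (hc1 : c1 = y0 + y1 * e1 + y2 * e1 ^ 2)
    (hc2 : c2 = y0 + y1 * e2 + y2 * e2 ^ 2) (k0 : c0 ≠ 0) (k1 : c1 ≠ 0) (k2 : c2 ≠ 0)
    {ν : F} (hν : c0 * c1 * c2 = ν * ν) {α β : F} (hα' : α = y2) (hα : α ≠ 0)
    (hβ' : β = y1 ^ 2 - y0 * y2 + a * y2 ^ 2) (hβ : β ≠ 0)
    {δ : F} (hδ : (e0 - e1) * (e0 - e2) * (e1 - e2) * δ = 1) {a0 a2 : F}
    (ha0 : a0 = c0 * (e1 - e2) * δ) (ha2 : a2 = c2 * (e0 - e1) * δ) :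
    Sol α β ↔ Sol a2 a0 := by
  have hδ0 : δ ≠ 0 := by
    rintro rfl
    rw [mul_zero] at hδ
    exact zero_ne_one hδ
  have hν0 : ν ≠ 0 := by
    rintro rfl
    rw [mul_zero] at hν
    exact mul_ne_zero (mul_ne_zero k0 k1) k2 hν
  have hνi : ν * ν⁻¹ = 1 := mul_inv_cancel₀ hν0
  have hαi : α * α⁻¹ = 1 := mul_inv_cancel₀ hα
  have hβi : β * β⁻¹ = 1 := mul_inv_cancel₀ hβ
  have z0' : a0 ≠ 0 := by
    rw [ha0]
    exact mul_ne_zero (mul_ne_zero k0 (sub_ne_zero.2 n12)) hδ0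
  have z2' : a2 ≠ 0 := by
    rw [ha2]
    exact mul_ne_zero (mul_ne_zero k2 (sub_ne_zero.2 n01)) hδ0
  have h0i : a0 * a0⁻¹ = 1 := mul_inv_cancel₀ z0'
  have h2i : a2 * a2⁻¹ = 1 := mul_inv_cancel₀ z2'
  obtain ⟨a1, ha1⟩ : ∃ a1 : F, a1 = -(c1 * (e0 - e2) * δ) := ⟨_, rfl⟩
  obtain ⟨t0, t1, t2, t3, t4⟩ := Bs_sum h1 h2 h3 hc0 hc1 hc2 hδ a0 a1 a2 ha0 ha1 ha2
  obtain ⟨s2, hs2⟩ : ∃ s2 : F, s2 = y0 - a * y2 := ⟨_, rfl⟩
  obtain ⟨s3, hs3⟩ : ∃ s3 : F, s3 = -a * y1 - b * y2 := ⟨_, rfl⟩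
  obtain ⟨s4, hs4⟩ : ∃ s4 : F, s4 = -a * y0 + a ^ 2 * y2 - b * y1 := ⟨_, rfl⟩
  have hH := Bs_hankel h1 h2 h3 hc0 hc1 hc2 y2 y1 s2 s3 s4 rfl rfl hs2 hs3 hs4
  rw [← hs2] at t2
  rw [← hs3] at t3
  rw [← hs4] at t4
  have hβ2 : β = y1 ^ 2 - y2 * s2 := by
    rw [hβ', hs2]
    ring
  obtain ⟨γ, hγ⟩ : ∃ γ : F, γ = y2 * s3 - y1 * s2 := ⟨_, rfl⟩
  have hprod : a0 * a1 * a2 = -(ν * δ) ^ 2 := by
    rw [ha0, ha1, ha2]
    linear_combination (-((e1 - e2) * (e0 - e2) * (e0 - e1) * δ ^ 3)) * hν -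
      (ν * ν * δ ^ 2) * hδ
  -- the two forms of `T`
  have hT1 : ∀ z0 z1 z2 : F, a0 * (z0 + z1 * e0 + z2 * e0 ^ 2) ^ 2 +
      a1 * (z0 + z1 * e1 + z2 * e1 ^ 2) ^ 2 + a2 * (z0 + z1 * e2 + z2 * e2 ^ 2) ^ 2 =
      y2 * z0 ^ 2 + 2 * y1 * z0 * z1 + s2 * (2 * z0 * z2 + z1 ^ 2) + 2 * s3 * z1 * z2 +
        s4 * z2 ^ 2 := by
    intro z0 z1 z2
    linear_combination z0 ^ 2 * t0 + 2 * z0 * z1 * t1 + (2 * z0 * z2 + z1 ^ 2) * t2 +
      2 * z1 * z2 * t3 + z2 ^ 2 * t4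
  have hT2 : ∀ z0 z1 z2 : F, α * β * (y2 * z0 ^ 2 + 2 * y1 * z0 * z1 +
      s2 * (2 * z0 * z2 + z1 ^ 2) + 2 * s3 * z1 * z2 + s4 * z2 ^ 2) =
      β * (y2 * z0 + y1 * z1 + s2 * z2) ^ 2 + α * (ν * z2) ^ 2 - (β * z1 - γ * z2) ^ 2 := by
    intro z0 z1 z2
    rw [hγ, hβ2, hα']
    have e : ν * ν = -(y2 * s2 * s4 + 2 * y1 * s2 * s3 - s2 ^ 3 - y2 * s3 ^ 2 - y1 ^ 2 * s4) := by
      rw [← hν, hH]
    linear_combination (-(y2 * z2 ^ 2)) * e
  have hT3 : ∀ Z0 Z1 Z2 : F, a0 * a2 * (a0 * Z0 ^ 2 + a1 * Z1 ^ 2 + a2 * Z2 ^ 2) =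
      a2 * (a0 * Z0) ^ 2 + a0 * (a2 * Z2) ^ 2 - (ν * δ * Z1) ^ 2 := by
    intro Z0 Z1 Z2
    linear_combination Z1 ^ 2 * hprod
  constructor
  · rintro ⟨x, y, hxy⟩
    obtain ⟨z2, hz2⟩ : ∃ z2 : F, z2 = x * ν⁻¹ := ⟨_, rfl⟩
    obtain ⟨z1, hz1⟩ : ∃ z1 : F, z1 = (1 + γ * z2) * β⁻¹ := ⟨_, rfl⟩
    obtain ⟨z0, hz0⟩ : ∃ z0 : F, z0 = (y - y1 * z1 - s2 * z2) * α⁻¹ := ⟨_, rfl⟩
    have hp : y2 * z0 + y1 * z1 + s2 * z2 = y := by
      rw [← hα', hz0]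
      linear_combination (y - y1 * z1 - s2 * z2) * hαi
    have hq : β * z1 - γ * z2 = 1 := by
      rw [hz1]
      linear_combination (1 + γ * z2) * hβi
    have hx : ν * z2 = x := by
      rw [hz2]
      linear_combination x * hνi
    have hT := hT2 z0 z1 z2
    rw [hp, hq, hx, ← hT1] at hT
    have hT0 : a0 * (z0 + z1 * e0 + z2 * e0 ^ 2) ^ 2 +
      a1 * (z0 + z1 * e1 + z2 * e1 ^ 2) ^ 2 + a2 * (z0 + z1 * e2 + z2 * e2 ^ 2) ^ 2 = 0 := by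
      have h5 : α * β * (a0 * (z0 + z1 * e0 + z2 * e0 ^ 2) ^ 2 +
        a1 * (z0 + z1 * e1 + z2 * e1 ^ 2) ^ 2 + a2 * (z0 + z1 * e2 + z2 * e2 ^ 2) ^ 2) = 0 := by
        rw [hT]
        linear_combination hxy
      rcases mul_eq_zero.1 h5 with h6 | h6
      · exact absurd h6 (mul_ne_zero hα hβ)
      · exact h6
    have h7 := hT3 (z0 + z1 * e0 + z2 * e0 ^ 2) (z0 + z1 * e1 + z2 * e1 ^ 2)
      (z0 + z1 * e2 + z2 * e2 ^ 2)
    rw [hT0, mul_zero] at h7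
    apply sol_of_iso hF2 z2' z0' (X := a0 * (z0 + z1 * e0 + z2 * e0 ^ 2))
      (Y := a2 * (z0 + z1 * e2 + z2 * e2 ^ 2)) (Z := ν * δ * (z0 + z1 * e1 + z2 * e1 ^ 2))
    · linear_combination -h7
    · by_contra hne
      push Not at hne
      obtain ⟨m0, m2, m1⟩ := hne
      have m0' := (mul_eq_zero.1 m0).resolve_left z0'
      have m2' := (mul_eq_zero.1 m2).resolve_left z2'
      have m1' := (mul_eq_zero.1 m1).resolve_left (mul_ne_zero hν0 hδ0)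
      obtain ⟨w1, w2⟩ := Bs_zero hδ m0' m1' m2'
      rw [w1, w2, mul_zero, mul_zero, sub_zero] at hq
      exact zero_ne_one hq
  · rintro ⟨X, Y, hXY⟩
    obtain ⟨z0, z1, z2, w0, w1, w2⟩ := Bs_lag h1 hδ (X * a0⁻¹) (δ⁻¹ * ν⁻¹) (Y * a2⁻¹)
    have hδi : δ * δ⁻¹ = 1 := mul_inv_cancel₀ hδ0
    have h7 := hT3 (z0 + z1 * e0 + z2 * e0 ^ 2) (z0 + z1 * e1 + z2 * e1 ^ 2)
      (z0 + z1 * e2 + z2 * e2 ^ 2)
    rw [hT1] at h7
    have h8 : a2 * (a0 * (z0 + z1 * e0 + z2 * e0 ^ 2)) ^ 2 +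
        a0 * (a2 * (z0 + z1 * e2 + z2 * e2 ^ 2)) ^ 2 -
        (ν * δ * (z0 + z1 * e1 + z2 * e1 ^ 2)) ^ 2 = 0 := by
      have m0 : a0 * (z0 + z1 * e0 + z2 * e0 ^ 2) = X := by
        rw [w0]
        linear_combination X * h0i
      have m2 : a2 * (z0 + z1 * e2 + z2 * e2 ^ 2) = Y := by
        rw [w2]
        linear_combination Y * h2i
      have m1 : ν * δ * (z0 + z1 * e1 + z2 * e1 ^ 2) = 1 := by
        rw [w1]
        linear_combination (δ * δ⁻¹) * hνi + hδi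
      rw [m0, m2, m1]
      linear_combination hXY
    rw [h8] at h7
    have h9 := (mul_eq_zero.1 h7).resolve_left (mul_ne_zero z0' z2')
    have h10 := hT2 z0 z1 z2
    rw [h9, mul_zero] at h10
    apply sol_of_iso hF2 hα hβ (X := ν * z2) (Y := y2 * z0 + y1 * z1 + s2 * z2)
      (Z := β * z1 - γ * z2)
    · linear_combination -h10
    · by_contra hne
      push Not at hne
      obtain ⟨m0, m1, m2⟩ := hne
      have m0' := (mul_eq_zero.1 m0).resolve_left hν0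
      rw [m0', mul_zero, sub_zero] at m2
      have m2' := (mul_eq_zero.1 m2).resolve_left hβ
      rw [m0', m2', mul_zero, mul_zero, add_zero, add_zero] at m1
      have m1' := (mul_eq_zero.1 m1).resolve_left (hα' ▸ hα)
      rw [m0', m2', m1', zero_mul, zero_mul, add_zero, add_zero] at w1
      exact mul_ne_zero (inv_ne_zero hδ0) (inv_ne_zero hν0) w1.symm

theorem conic_split {F : Type} [Field F] (h2 : (2 : F) ≠ 0) {a b : F} {e : Fin 3 → F}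
    (h : Spl a b e) {y0 y1 y2 : F} (h0 : ∀ i, y0 + y1 * e i + y2 * e i ^ 2 ≠ 0)
    (hsq : IsSquare ((y0 + y1 * e 0 + y2 * e 0 ^ 2) * (y0 + y1 * e 1 + y2 * e 1 ^ 2) *
      (y0 + y1 * e 2 + y2 * e 2 ^ 2)))
    (hα : y2 ≠ 0) (hβ : y1 ^ 2 - y0 * y2 + a * y2 ^ 2 ≠ 0) :
    hs y2 (y1 ^ 2 - y0 * y2 + a * y2 ^ 2) =
      hs (y0 + y1 * e 0 + y2 * e 0 ^ 2) (y0 + y1 * e 2 + y2 * e 2 ^ 2) := by
  obtain ⟨h1, h3, h4, n01, n02, n12, q0, q2⟩ := h
  have k0 := h0 0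
  have k1 := h0 1
  have k2 := h0 2
  obtain ⟨ν, hν⟩ := hsq
  obtain ⟨r0, hr0⟩ := q0
  obtain ⟨r2, hr2⟩ := q2
  have d01 : e 0 - e 1 ≠ 0 := sub_ne_zero.2 n01
  have d02 : e 0 - e 2 ≠ 0 := sub_ne_zero.2 n02
  have d12 : e 1 - e 2 ≠ 0 := sub_ne_zero.2 n12
  have hD : (e 0 - e 1) * (e 0 - e 2) * (e 1 - e 2) ≠ 0 :=
    mul_ne_zero (mul_ne_zero d01 d02) d12
  obtain ⟨δ, hδ⟩ : ∃ δ : F, (e 0 - e 1) * (e 0 - e 2) * (e 1 - e 2) * δ = 1 :=
    ⟨_, mul_inv_cancel₀ hD⟩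
  have hr00 : r0 ≠ 0 := by
    rintro rfl
    rw [mul_zero] at hr0
    exact mul_ne_zero d01 d02 hr0
  have hr20 : r2 ≠ 0 := by
    rintro rfl
    rw [mul_zero] at hr2
    have h5 : (e 0 - e 2) * (e 1 - e 2) = 0 := by linear_combination hr2
    exact mul_ne_zero d02 d12 h5
  have hcore := Bs_core h2 h1 h3 h4 n01 n02 n12 rfl rfl rfl k0 k1 k2 hν rfl hα rfl hβ hδ rfl rfl
  rw [Bs_hs hcore, hs_comm]
  have g0 : (y0 + y1 * e 0 + y2 * e 0 ^ 2) * (e 1 - e 2) * δ =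
      (y0 + y1 * e 0 + y2 * e 0 ^ 2) * (r0⁻¹) ^ 2 := by
    have h5 : (e 1 - e 2) * δ * (r0 * r0) = 1 := by
      rw [← hr0]
      linear_combination hδ
    have h6 : r0 * r0⁻¹ = 1 := mul_inv_cancel₀ hr00
    have h7 : (e 1 - e 2) * δ = (r0⁻¹) ^ 2 := by
      linear_combination (r0⁻¹) ^ 2 * h5 -
        ((e 1 - e 2) * δ * (r0 * r0⁻¹ + 1)) * h6
    rw [mul_assoc, h7]
  have g2 : (y0 + y1 * e 2 + y2 * e 2 ^ 2) * (e 0 - e 1) * δ =
      (y0 + y1 * e 2 + y2 * e 2 ^ 2) * (r2⁻¹) ^ 2 := by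
    have h5 : (e 0 - e 1) * δ * (r2 * r2) = 1 := by
      rw [← hr2]
      linear_combination hδ
    have h6 : r2 * r2⁻¹ = 1 := mul_inv_cancel₀ hr20
    have h7 : (e 0 - e 1) * δ = (r2⁻¹) ^ 2 := by
      linear_combination (r2⁻¹) ^ 2 * h5 -
        ((e 0 - e 1) * δ * (r2 * r2⁻¹ + 1)) * h6
    rw [mul_assoc, h7]
  rw [hs_congr (inv_ne_zero hr00) g0, hs_congr_right (inv_ne_zero hr20) g2]

theorem norm_prod {K L F : Type} [Field K] [Field L] [Algebra K L] [Field F] {A B : K} {θ : L}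
    (h : Cub K L A B θ) (i : K →+* F) {e : Fin 3 → F} (hs : Spl (i A) (i B) e) (y : L) :
    rh h i (hs.root 0) y * rh h i (hs.root 1) y * rh h i (hs.root 2) y = i (Algebra.norm K y) := by
  rw [h.norm, Matrix.det_fin_three, rh_apply, rh_apply, rh_apply]
  simp only [Matrix.of_apply, Matrix.cons_val', Matrix.cons_val_zero,
    Matrix.cons_val_one, Matrix.cons_val_two, Matrix.head_cons, Matrix.tail_cons,
    Matrix.head_fin_const, Matrix.empty_val', Matrix.cons_val_fin_one]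
  simp only [map_add, map_sub, map_mul, map_neg]
  have h1 := hs.s1
  have h2 := hs.s2
  have h3 := hs.s3
  generalize i (h.co 0 y) = a0
  generalize i (h.co 1 y) = a1
  generalize i (h.co 2 y) = a2
  generalize i A = a at *
  generalize i B = b at *
  generalize e 0 = e0 at *
  generalize e 1 = e1 at *
  generalize e 2 = e2 at *
  obtain rfl : e2 = -e0 - e1 := by linear_combination h1
  obtain rfl : b = -(e0 * e1 * (-e0 - e1)) := by linear_combination h3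
  rw [← h2]
  ring

theorem conic_all {K : Type} [Field K] [NumberField K] (L : Type) [Field L] [NumberField L]
    [Algebra K L] (A B : K) (θ : L) (h : Cub K L A B θ) (u : HeightOneSpectrum (𝓞 K))
    (e : Fin 3 → u.adicCompletion K)
    (hs : Spl (algebraMap K (u.adicCompletion K) A) (algebraMap K (u.adicCompletion K) B) e)
    (y : L) (hy : y ≠ 0) (hN : IsSquare (Algebra.norm K y)) (ha : H76MQ.al h y ≠ 0)
    (hb : H76MQ.be h y ≠ 0) :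
    hsv u (H76MQ.al h y) (H76MQ.be h y) =
      hsc (lcl h (algebraMap K (u.adicCompletion K)) hs 0 (sc y))
        (lcl h (algebraMap K (u.adicCompletion K)) hs 2 (sc y)) := by
  have hi : ∀ j, rh h (algebraMap K (u.adicCompletion K)) (hs.root j) y ≠ 0 := fun j =>
    (map_ne_zero _).2 hy
  rw [lcl_sc h _ hs 0 hy, lcl_sc h _ hs 2 hy, hsc_sc (hi 0) (hi 2)]
  have h2 : (2 : u.adicCompletion K) ≠ 0 := by
    have h3 : (algebraMap K (u.adicCompletion K)) 2 ≠ 0 :=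
      (map_ne_zero _).2 two_ne_zero
    rwa [map_ofNat] at h3
  have hsq := norm_prod h (algebraMap K (u.adicCompletion K)) hs y
  have hN' : IsSquare (algebraMap K (u.adicCompletion K) (Algebra.norm K y)) := hN.map _
  rw [← hsq] at hN'
  have ha' : algebraMap K (u.adicCompletion K) (h.co 2 y) ≠ 0 := (map_ne_zero _).2 ha
  have hb' : algebraMap K (u.adicCompletion K) (H76MQ.be h y) ≠ 0 := (map_ne_zero _).2 hb
  have e1 : algebraMap K (u.adicCompletion K) (H76MQ.be h y) =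
      algebraMap K (u.adicCompletion K) (h.co 1 y) ^ 2 -
      algebraMap K (u.adicCompletion K) (h.co 0 y) *
      algebraMap K (u.adicCompletion K) (h.co 2 y) +
      algebraMap K (u.adicCompletion K) A * algebraMap K (u.adicCompletion K) (h.co 2 y) ^ 2 := by
    unfold H76MQ.be
    simp only [map_add, map_sub, map_mul, map_pow]
  rw [e1] at hb'
  unfold hsv H76MQ.al
  rw [e1]
  exact conic_split h2 hs hi hN' ha' hb'

end H36MX

end S_H36_MX_Bs
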