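import Mathlib

/-! This file joins several modules to save build time (X6). -/

set_option autoImplicit false

section S_H88_MX_Ea

set_option autoImplicit false

namespace H36MX

open scoped Classical

variable {J : Type} [Fintype J] {X : J → Type} [∀ j, AddCommGroup (X j)]
  [∀ j, Module (ZMod 2) (X j)]

/-- The Lagrangian subspace attached to the graph `Ed` and the vectors `m`, `lam`. -/
def Wst (h : ∀ j, X j →ₗ[ZMod 2] X j →ₗ[ZMod 2] ZMod 2) (m : ∀ j, X j) (Ed : J → J → Prop)
    (lam : ∀ j, J → X j) : Submodule (ZMod 2) (∀ j, X j × X j) where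
  carrier := {p | ∀ j z, h j (p j).2 z = h j (p j).1 (m j) * h j z (m j) +
    ∑ k, if Ed j k then h j z (lam j k) * h k (p k).1 (lam k j) else 0}
  zero_mem' := by
    intro j z
    simp
  add_mem' := by
    intro p q hp hq j z
    have h1 := hp j z
    have h2 := hq j z
    simp only [Pi.add_apply, Prod.fst_add, Prod.snd_add, map_add, LinearMap.add_apply] at *
    rw [h1, h2, add_mul, add_add_add_comm, ← Finset.sum_add_distrib]
    congr 1
    refine Finset.sum_congr rfl fun k _ => ?_
    split_ifs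
    · rw [mul_add]
    · simp
  smul_mem' := by
    intro c p hp j z
    have h1 := hp j z
    simp only [Pi.smul_apply, Prod.smul_fst, Prod.smul_snd, map_smul, LinearMap.smul_apply,
      smul_eq_mul] at *
    rw [h1, mul_add, mul_assoc, Finset.mul_sum]
    congr 1
    refine Finset.sum_congr rfl fun k _ => ?_
    split_ifs
    · ring
    · simp

theorem mem_Wst {h : ∀ j, X j →ₗ[ZMod 2] X j →ₗ[ZMod 2] ZMod 2} {m : ∀ j, X j}
    {Ed : J → J → Prop} {lam : ∀ j, J → X j} {p : ∀ j, X j × X j} :
    p ∈ Wst h m Ed lam ↔ ∀ j z, h j (p j).2 z = h j (p j).1 (m j) * h j z (m j) +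
      ∑ k, if Ed j k then h j z (lam j k) * h k (p k).1 (lam k j) else 0 := Iff.rfl

theorem zsq (a : ZMod 2) : a * a = a := by
  revert a; decide

theorem zadd (a : ZMod 2) : a + a = 0 := by
  revert a; decide

/-- Every linear functional on a finite `ZMod 2`-space with a nondegenerate form is given by a
vector. -/
theorem exists_vec {V : Type} [AddCommGroup V] [Module (ZMod 2) V] [Finite V]
    (h : V →ₗ[ZMod 2] V →ₗ[ZMod 2] ZMod 2) (hnd : ∀ x, x ≠ 0 → ∃ y, h x y = 1)
    (f : V →ₗ[ZMod 2] ZMod 2) : ∃ y, ∀ z, h y z = f z := by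
  have hinj : Function.Injective h := by
    rw [injective_iff_map_eq_zero]
    intro x hx
    by_contra hne
    obtain ⟨y, hy⟩ := hnd x hne
    rw [hx] at hy
    simp at hy
  have : Module.Finite (ZMod 2) V := Module.Finite.of_finite
  have hsurj : Function.Surjective h :=
    (LinearMap.injective_iff_surjective_of_finrank_eq_finrank
      (Subspace.dual_finrank_eq (K := ZMod 2) (V := V)).symm).1 hinj
  obtain ⟨y, hy⟩ := hsurj f
  exact ⟨y, fun z => by rw [hy]⟩

/-- The cardinality of the Lagrangian subspace. -/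
theorem card_W [∀ j, Finite (X j)] {h : ∀ j, X j →ₗ[ZMod 2] X j →ₗ[ZMod 2] ZMod 2}
    (hnd : ∀ j x, x ≠ 0 → ∃ y, h j x y = 1) (m : ∀ j, X j)
    (Ed : J → J → Prop) (lam : ∀ j, J → X j) :
    Nat.card (Wst h m Ed lam) = ∏ j, Nat.card (X j) := by
  rw [← Nat.card_pi]
  refine Nat.card_congr (Equiv.ofBijective (fun p j => (p.1 j).1) ⟨?_, ?_⟩)
  · rintro ⟨p, hp⟩ ⟨q, hq⟩ hpq
    have hx : ∀ j, (p j).1 = (q j).1 := fun j => congrFun hpq j
    refine Subtype.ext (funext fun j => Prod.ext (hx j) ?_)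
    by_contra hne
    obtain ⟨z, hz⟩ := hnd j ((p j).2 - (q j).2) (sub_ne_zero.2 hne)
    have h1 := hp j z
    have h2 := hq j z
    rw [map_sub, LinearMap.sub_apply, h1, h2] at hz
    simp only [hx, sub_self] at hz
    exact zero_ne_one hz
  · intro x
    have hf : ∀ j, ∃ y, ∀ z, h j y z = h j (x j) (m j) * h j z (m j) +
        ∑ k, if Ed j k then h j z (lam j k) * h k (x k) (lam k j) else 0 := by
      intro j
      let f : X j →ₗ[ZMod 2] ZMod 2 :=
        { toFun := fun z => h j (x j) (m j) * h j z (m j) +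
            ∑ k, if Ed j k then h j z (lam j k) * h k (x k) (lam k j) else 0
          map_add' := by
            intro a b
            simp only [map_add, LinearMap.add_apply, mul_add, add_mul]
            rw [add_add_add_comm, ← Finset.sum_add_distrib]
            congr 1
            refine Finset.sum_congr rfl fun k _ => ?_
            split_ifs <;> simp
          map_smul' := by
            intro c a
            simp only [map_smul, LinearMap.smul_apply, smul_eq_mul, RingHom.id_apply, mul_add,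
              Finset.mul_sum]
            congr 1
            · ring
            · refine Finset.sum_congr rfl fun k _ => ?_
              split_ifs
              · ring
              · simp }
      exact exists_vec (h j) (hnd j) f
    choose y hy using hf
    exact ⟨⟨fun j => (x j, y j), fun j z => hy j z⟩, rfl⟩

/-- The quadratic form vanishes on the Lagrangian subspace. -/
theorem Q_W {h : ∀ j, X j →ₗ[ZMod 2] X j →ₗ[ZMod 2] ZMod 2}
    (hsy : ∀ j x y, h j x y = h j y x) {m : ∀ j, X j}
    {Ed : J → J → Prop} (hEs : ∀ j k, Ed j k → Ed k j) (hEi : ∀ j, ¬ Ed j j)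
    {lam : ∀ j, J → X j} {p : ∀ j, X j × X j} (hp : p ∈ Wst h m Ed lam) :
    ∑ j, h j (p j).1 (m j + (p j).2) = 0 := by
  have h1 : ∀ j, h j (p j).1 (m j + (p j).2) =
      ∑ k, if Ed j k then h j (p j).1 (lam j k) * h k (p k).1 (lam k j) else 0 := by
    intro j
    rw [map_add, hsy j (p j).1 (p j).2, hp j (p j).1, zsq, ← add_assoc, zadd, zero_add]
  simp only [h1]
  rw [← Finset.sum_product']
  refine Finset.sum_involution (fun q _ => (q.2, q.1)) ?_ ?_ ?_ ?_
  · rintro ⟨j, k⟩ _
    by_cases h2 : Ed j k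
    · simp only [h2, hEs j k h2, if_true]
      rw [mul_comm, zadd]
    · have h3 : ¬ Ed k j := fun h4 => h2 (hEs k j h4)
      simp [h2, h3]
  · rintro ⟨j, k⟩ _ h2 h3
    simp only [Prod.mk.injEq] at h3
    apply h2
    have h4 : j = k := h3.2
    subst h4
    simp [hEi]
  · rintro ⟨j, k⟩ _
    exact Finset.mem_univ _
  · rintro ⟨j, k⟩ _
    rfl

end H36MX

end S_H88_MX_Ea

section S_H88_MX_Eb

set_option autoImplicit false

namespace H36MX

open scoped Classical

variable {J : Type} [Fintype J] {X : J → Type} [∀ j, AddCommGroup (X j)]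
  [∀ j, Module (ZMod 2) (X j)]

/-- A vector of `Wst` all of whose first components vanish is zero. -/
theorem Wst_zero {h : ∀ j, X j →ₗ[ZMod 2] X j →ₗ[ZMod 2] ZMod 2}
    (hnd : ∀ j x, x ≠ 0 → ∃ y, h j x y = 1) {m : ∀ j, X j}
    {Ed : J → J → Prop} {lam : ∀ j, J → X j} {p : ∀ j, X j × X j} (hp : p ∈ Wst h m Ed lam)
    (h0 : ∀ j, (p j).1 = 0) : p = 0 := by
  funext j
  refine Prod.ext (h0 j) ?_
  by_contra hne
  obtain ⟨z, hz⟩ := hnd j (p j).2 hne
  have h1 := hp j z
  rw [hz] at h1
  simp only [h0, map_zero, LinearMap.zero_apply, zero_mul, mul_zero, ite_self,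
    Finset.sum_const_zero, add_zero] at h1
  exact one_ne_zero h1

/-- The local condition at the place `j` for the class `g` of the twist. -/
def LocE {V : Type} [AddCommGroup V] [Module (ZMod 2) V]
    (h : V →ₗ[ZMod 2] V →ₗ[ZMod 2] ZMod 2) (m g : V) (p : V × V) : Prop :=
  ((p.1 = 0 ∧ h p.2 g = 0) ∨ p.1 = g) ∧ h p.1 (m + p.2) = 0

/-- If a vector of `Wst` satisfies the local conditions then its first components are `κ_j g_j`
for a solution `κ` of a homogeneous linear system; so it is zero if this system has only the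
trivial solution. -/
theorem elim {h : ∀ j, X j →ₗ[ZMod 2] X j →ₗ[ZMod 2] ZMod 2}
    (hsy : ∀ j x y, h j x y = h j y x) (hnd : ∀ j x, x ≠ 0 → ∃ y, h j x y = 1) {m : ∀ j, X j}
    {Ed : J → J → Prop} {lam : ∀ j, J → X j} {p : ∀ j, X j × X j} (hp : p ∈ Wst h m Ed lam)
    (g : ∀ j, X j) (hloc : ∀ j, LocE (h j) (m j) (g j) (p j))
    (hsys : ∀ κ : J → ZMod 2, (∀ j, g j = 0 → κ j = 0) →
      (∀ j, ∑ k, (if Ed j k then h j (g j) (lam j k) * h k (g k) (lam k j) * κ k else 0) = 0) →
      ∀ j, κ j = 0) : p = 0 := by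
  let κ : J → ZMod 2 := fun j => if (p j).1 = 0 then 0 else 1
  have hκ : ∀ j, (p j).1 = κ j • g j := by
    intro j
    by_cases h1 : (p j).1 = 0
    · simp [κ, h1]
    · have h2 : (p j).1 = g j := (hloc j).1.resolve_left (fun h3 => h1 h3.1)
      simp only [κ, h1, if_false, one_smul]
      exact h2
  have hy : ∀ j, h j (p j).2 (g j) = κ j * h j (g j) (m j) := by
    intro j
    by_cases h1 : (p j).1 = 0
    · simp only [κ, h1, if_true, zero_mul]
      rcases (hloc j).1 with h2 | h2
      · exact h2.2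
      · rw [← h2, h1, map_zero]
    · have h2 : (p j).1 = g j := (hloc j).1.resolve_left (fun h3 => h1 h3.1)
      simp only [κ, h1, if_false, one_mul]
      have h3 := (hloc j).2
      rw [h2, map_add] at h3
      rw [hsy j (p j).2 (g j)]
      have h4 : ∀ a b : ZMod 2, a + b = 0 → b = a := by decide
      exact h4 _ _ h3
  have h0 : ∀ j, κ j = 0 := by
    refine hsys κ ?_ ?_
    · intro j hj
      have h1 := hκ j
      rw [hj, smul_zero] at h1
      simp [κ, h1]
    · intro j
      have h1 := hp j (g j)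
      rw [hy j, hκ j, map_smul, LinearMap.smul_apply, smul_eq_mul, mul_assoc, zsq] at h1
      have h2 : ∀ a b : ZMod 2, a = a + b → b = 0 := by decide
      refine Eq.trans ?_ (h2 _ _ h1)
      refine Finset.sum_congr rfl fun k _ => ?_
      split_ifs
      · rw [hκ k, map_smul, LinearMap.smul_apply, smul_eq_mul]
        ring
      · rfl
  refine Wst_zero hnd hp fun j => ?_
  rw [hκ j, h0 j, zero_smul]

end H36MX

end S_H88_MX_Eb

section S_H88_MX_Ec

set_option autoImplicit false

namespace H36MX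

open scoped Classical

/-- The nodes of one component. -/
abbrev Nd (D : Type) (r : ℕ) : Type := Option (Option (D × Fin r × Bool))

/-- The node `a δ i`. -/
abbrev ndA {D : Type} {r : ℕ} (δ : D) (i : Fin r) : Nd D r := some (some (δ, i, false))

/-- The node `b δ i`. -/
abbrev ndB {D : Type} {r : ℕ} (δ : D) (i : Fin r) : Nd D r := some (some (δ, i, true))

/-- The oriented edges. -/
def Eo {D : Type} {r : ℕ} : Nd D r → Nd D r → Prop
  | none, some (some (_, i, false)) => i.val = 0
  | some (some (δ, i, false)), some (some (δ', i', true)) => δ = δ' ∧ i = i'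
  | some (some (δ, i, true)), some (some (δ', i', false)) => δ = δ' ∧ i'.val = i.val + 1
  | some (some (_, i, true)), some none => i.val + 1 = r
  | _, _ => False

/-- The edges. -/
def Ee {D : Type} {r : ℕ} (x y : Nd D r) : Prop := Eo x y ∨ Eo y x

theorem Ee_symm {D : Type} {r : ℕ} {x y : Nd D r} (h : Ee x y) : Ee y x := h.symm

theorem Eo_irr {D : Type} {r : ℕ} (x : Nd D r) : ¬ Eo x x := by
  rcases x with _ | _ | ⟨δ, i, _ | _⟩ <;> simp [Eo]

theorem Ee_irr {D : Type} {r : ℕ} (x : Nd D r) : ¬ Ee x x := fun h =>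
  h.elim (Eo_irr x) (Eo_irr x)

/-- The edges on all components. -/
def EJ {P D : Type} {r : ℕ} (x y : P × Nd D r) : Prop := x.1 = y.1 ∧ Ee x.2 y.2

theorem EJ_symm {P D : Type} {r : ℕ} {x y : P × Nd D r} (h : EJ x y) : EJ y x :=
  ⟨h.1.symm, Ee_symm h.2⟩

theorem EJ_irr {P D : Type} {r : ℕ} (x : P × Nd D r) : ¬ EJ x x := fun h => Ee_irr _ h.2

section component

variable {D : Type} [Fintype D] {r : ℕ}

/-- The sum over the neighbours of a node `b δ i` with `i + 1 < r`. -/
theorem sum_b {f : Nd D r → ZMod 2} (δ : D) (i i' : Fin r) (hi : i'.val = i.val + 1) :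
    ∑ k, (if Ee (ndB δ i) k then f k else 0) = f (ndA δ i) + f (ndA δ i') := by
  rw [← Finset.sum_filter]
  have h1 : Finset.univ.filter (fun k => Ee (ndB δ i) k) = {ndA δ i, ndA δ i'} := by
    ext k
    simp only [Finset.mem_filter, Finset.mem_univ, true_and, Finset.mem_insert,
      Finset.mem_singleton]
    rcases k with _ | _ | ⟨δ', j, _ | _⟩
    · simp [Ee, Eo, ndB]
    · simp only [Ee, Eo, or_false, ndB, ndA, reduceCtorEq, Option.some.injEq, iff_false]
      have := i'.isLt
      omega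
    · simp only [Ee, Eo, ndB, ndA, Option.some.injEq, Prod.mk.injEq, and_true]
      constructor
      · rintro (⟨h2, h3⟩ | ⟨h2, h3⟩)
        · right
          exact ⟨h2.symm, Fin.ext (by rw [h3, hi])⟩
        · left
          exact ⟨h2, h3⟩
      · rintro (⟨h2, h3⟩ | ⟨h2, h3⟩)
        · right
          exact ⟨h2, h3⟩
        · left
          exact ⟨h2.symm, by rw [h3, hi]⟩
    · simp [Ee, Eo, ndB, ndA]
  rw [h1, Finset.sum_pair]
  simp only [ndA, ne_eq, Option.some.injEq, Prod.mk.injEq, true_and, and_true]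
  intro h2
  rw [← h2] at hi
  omega

/-- The sum over the neighbours of the node `b δ i` with `i + 1 = r`. -/
theorem sum_bl {f : Nd D r → ZMod 2} (δ : D) (i : Fin r) (hi : i.val + 1 = r) :
    ∑ k, (if Ee (ndB δ i) k then f k else 0) = f (ndA δ i) + f (some none) := by
  rw [← Finset.sum_filter]
  have h1 : Finset.univ.filter (fun k => Ee (ndB δ i) k) = {ndA δ i, some none} := by
    ext k
    simp only [Finset.mem_filter, Finset.mem_univ, true_and, Finset.mem_insert,
      Finset.mem_singleton]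
    rcases k with _ | _ | ⟨δ', j, _ | _⟩
    · simp [Ee, Eo, ndB]
    · simp [Ee, Eo, ndB, hi]
    · simp only [Ee, Eo, ndB, ndA, Option.some.injEq, Prod.mk.injEq, and_true, reduceCtorEq,
        or_false]
      constructor
      · rintro (⟨h2, h3⟩ | ⟨h2, h3⟩)
        · exfalso
          have := j.isLt
          omega
        · exact ⟨h2, h3⟩
      · rintro ⟨h2, h3⟩
        right
        exact ⟨h2, h3⟩
    · simp [Ee, Eo, ndB, ndA]
  rw [h1, Finset.sum_pair]
  simp [ndA]

/-- The sum over the neighbours of a node `a δ i'` with `i' = i + 1`. -/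
theorem sum_a {f : Nd D r → ZMod 2} (δ : D) (i i' : Fin r) (hi : i'.val = i.val + 1) :
    ∑ k, (if Ee (ndA δ i') k then f k else 0) = f (ndB δ i') + f (ndB δ i) := by
  rw [← Finset.sum_filter]
  have h1 : Finset.univ.filter (fun k => Ee (ndA δ i') k) = {ndB δ i', ndB δ i} := by
    ext k
    simp only [Finset.mem_filter, Finset.mem_univ, true_and, Finset.mem_insert,
      Finset.mem_singleton]
    rcases k with _ | _ | ⟨δ', j, _ | _⟩
    · simp only [Ee, Eo, ndB, ndA, false_or, reduceCtorEq, Option.some.injEq, or_false,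
        iff_false]
      omega
    · simp [Ee, Eo, ndB, ndA]
    · simp [Ee, Eo, ndB, ndA]
    · simp only [Ee, Eo, ndB, ndA, Option.some.injEq, Prod.mk.injEq, and_true]
      constructor
      · rintro (⟨h2, h3⟩ | ⟨h2, h3⟩)
        · left
          exact ⟨h2.symm, h3.symm⟩
        · right
          exact ⟨h2, Fin.ext (by omega)⟩
      · rintro (⟨h2, h3⟩ | ⟨h2, h3⟩)
        · left
          exact ⟨h2.symm, h3.symm⟩
        · right
          exact ⟨h2, by rw [h3, hi]⟩
  rw [h1, Finset.sum_pair]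
  simp only [ndB, ne_eq, Option.some.injEq, Prod.mk.injEq, true_and, and_true]
  intro h2
  rw [← h2] at hi
  omega

/-- The sum over the neighbours of a node `a δ 0`. -/
theorem sum_a0 {f : Nd D r → ZMod 2} (δ : D) (i : Fin r) (hi : i.val = 0) :
    ∑ k, (if Ee (ndA δ i) k then f k else 0) = f (ndB δ i) + f none := by
  rw [← Finset.sum_filter]
  have h1 : Finset.univ.filter (fun k => Ee (ndA δ i) k) = {ndB δ i, none} := by
    ext k
    simp only [Finset.mem_filter, Finset.mem_univ, true_and, Finset.mem_insert,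
      Finset.mem_singleton]
    rcases k with _ | _ | ⟨δ', j, _ | _⟩
    · simp [Ee, Eo, ndA, hi]
    · simp [Ee, Eo, ndB, ndA]
    · simp [Ee, Eo, ndB, ndA]
    · simp only [Ee, Eo, ndB, ndA, Option.some.injEq, Prod.mk.injEq, and_true, reduceCtorEq,
        or_false]
      constructor
      · rintro (⟨h2, h3⟩ | ⟨h2, h3⟩)
        · exact ⟨h2.symm, h3.symm⟩
        · exfalso
          omega
      · rintro ⟨h2, h3⟩
        left
        exact ⟨h2.symm, h3.symm⟩
  rw [h1, Finset.sum_pair]
  simp [ndB]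

/-- The sum over the neighbours of the dummy node. -/
theorem sum_w {f : Nd D r → ZMod 2} (i : Fin r) (hi : i.val + 1 = r) :
    ∑ k, (if Ee (some none) k then f k else 0) = ∑ δ : D, f (ndB δ i) := by
  rw [Fintype.sum_option, Fintype.sum_option, Fintype.sum_prod_type]
  have h1 : ¬ Ee (some none : Nd D r) none := by simp [Ee, Eo]
  have h2 : ¬ Ee (some none : Nd D r) (some none) := by simp [Ee, Eo]
  rw [if_neg h1, if_neg h2, zero_add, zero_add]
  refine Finset.sum_congr rfl fun δ _ => ?_
  rw [Fintype.sum_prod_type, Finset.sum_eq_single i]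
  · rw [Fintype.sum_bool]
    have h3 : Ee (some none : Nd D r) (some (some (δ, i, true))) := Or.inr hi
    have h4 : ¬ Ee (some none : Nd D r) (some (some (δ, i, false))) := by simp [Ee, Eo]
    rw [if_pos h3, if_neg h4, add_zero]
  · intro j _ hj
    rw [Fintype.sum_bool]
    have h3 : ¬ Ee (some none : Nd D r) (some (some (δ, j, true))) := by
      simp only [Ee, Eo, false_or]
      intro h5
      exact hj (Fin.ext (by omega))
    have h4 : ¬ Ee (some none : Nd D r) (some (some (δ, j, false))) := by simp [Ee, Eo]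
    rw [if_neg h3, if_neg h4, add_zero]
  · intro h
    exact absurd (Finset.mem_univ i) h

/-- The sum over the neighbours of the central node. -/
theorem sum_c {f : Nd D r → ZMod 2} (i : Fin r) (hi : i.val = 0) :
    ∑ k, (if Ee none k then f k else 0) = ∑ δ : D, f (ndA δ i) := by
  rw [Fintype.sum_option, Fintype.sum_option, Fintype.sum_prod_type]
  have h1 : ¬ Ee (none : Nd D r) none := by simp [Ee, Eo]
  have h2 : ¬ Ee (none : Nd D r) (some none) := by simp [Ee, Eo]
  rw [if_neg h1, if_neg h2, zero_add, zero_add]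
  refine Finset.sum_congr rfl fun δ _ => ?_
  rw [Fintype.sum_prod_type, Finset.sum_eq_single i]
  · rw [Fintype.sum_bool]
    have h3 : Ee (none : Nd D r) (some (some (δ, i, false))) := Or.inl hi
    have h4 : ¬ Ee (none : Nd D r) (some (some (δ, i, true))) := by simp [Ee, Eo]
    rw [if_pos h3, if_neg h4, zero_add]
  · intro j _ hj
    rw [Fintype.sum_bool]
    have h3 : ¬ Ee (none : Nd D r) (some (some (δ, j, false))) := by
      simp only [Ee, Eo, or_false]
      intro h5
      exact hj (Fin.ext (by omega))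
    have h4 : ¬ Ee (none : Nd D r) (some (some (δ, j, true))) := by simp [Ee, Eo]
    rw [if_neg h3, if_neg h4, add_zero]
  · intro h
    exact absurd (Finset.mem_univ i) h

end component

end H36MX

end S_H88_MX_Ec

section S_H88_MX_Ed

set_option autoImplicit false

namespace H36MX

open scoped Classical

variable {D : Type} [Fintype D] {r : ℕ}

/-- The linear system on one component.  `s x y` are the weights, `on i δ` says that the nodes
`a δ i` and `b δ i` are on. -/
theorem comp_zero (hr : 0 < r) (on : Fin r → D → Prop) (δ₀ : D) (h0 : ∀ i, on i δ₀)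
    (hsep : ∀ δ, δ ≠ δ₀ → ∃ i, ¬ on i δ) (s : Nd D r → Nd D r → ZMod 2) (κ : Nd D r → ZMod 2)
    (hA : ∀ δ i, on i δ → ∀ y, Ee (ndA δ i) y → s (ndA δ i) y = 1)
    (hB : ∀ δ i, on i δ → ∀ y, Ee (ndB δ i) y → s (ndB δ i) y = 1)
    (hA0 : ∀ δ i, ¬ on i δ → κ (ndA δ i) = 0)
    (hB0 : ∀ δ i, ¬ on i δ → κ (ndB δ i) = 0)
    (hw : ∀ y, Ee (some none) y → s (some none) y = 1)
    (hc : ∀ i : Fin r, i.val = 0 → s none (ndA δ₀ i) = 1)
    (hsys : ∀ x, ∑ y, (if Ee x y then s x y * s y x * κ y else 0) = 0) : ∀ x, κ x = 0 := by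
  -- weights at `a` and `b` nodes may be dropped
  have wA : ∀ δ i y, Ee (ndA δ i) y → s (ndA δ i) y * κ (ndA δ i) = κ (ndA δ i) := by
    intro δ i y hy
    by_cases h : on i δ
    · rw [hA δ i h y hy, one_mul]
    · rw [hA0 δ i h, mul_zero]
  have wB : ∀ δ i y, Ee (ndB δ i) y → s (ndB δ i) y * κ (ndB δ i) = κ (ndB δ i) := by
    intro δ i y hy
    by_cases h : on i δ
    · rw [hB δ i h y hy, one_mul]
    · rw [hB0 δ i h, mul_zero]
  have two : ∀ a b : ZMod 2, a + b = 0 → a = b := by decide
  -- edges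
  have eAB : ∀ (δ : D) (i : Fin r), Ee (ndA δ i) (ndB δ i) := fun δ i => Or.inl ⟨rfl, rfl⟩
  have eBA : ∀ (δ : D) (i i' : Fin r), i'.val = i.val + 1 → Ee (ndB δ i) (ndA δ i') :=
    fun δ i i' h => Or.inl ⟨rfl, h⟩
  have eBw : ∀ (δ : D) (i : Fin r), i.val + 1 = r → Ee (ndB δ i) (some none) :=
    fun δ i h => Or.inl h
  have ecA : ∀ (δ : D) (i : Fin r), i.val = 0 → Ee none (ndA δ i) := fun δ i h => Or.inl h
  -- equation at `b δ i`, `i + 1 < r`
  have qB : ∀ (δ : D) (i i' : Fin r), i'.val = i.val + 1 → on i δ →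
      κ (ndA δ i) = κ (ndA δ i') := by
    intro δ i i' hi h
    have h1 := hsys (ndB δ i)
    rw [sum_b δ i i' hi, hB δ i h _ (Ee_symm (eAB δ i)), hB δ i h _ (eBA δ i i' hi), one_mul,
      one_mul, wA δ i _ (eAB δ i), wA δ i' _ (Ee_symm (eBA δ i i' hi))] at h1
    exact two _ _ h1
  have qBl : ∀ (δ : D) (i : Fin r), i.val + 1 = r → on i δ → κ (ndA δ i) = κ (some none) := by
    intro δ i hi h
    have h1 := hsys (ndB δ i)
    rw [sum_bl δ i hi, hB δ i h _ (Ee_symm (eAB δ i)), hB δ i h _ (eBw δ i hi), one_mul,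
      one_mul, wA δ i _ (eAB δ i), hw _ (Ee_symm (eBw δ i hi)), one_mul] at h1
    exact two _ _ h1
  have qA : ∀ (δ : D) (i i' : Fin r), i'.val = i.val + 1 → on i' δ →
      κ (ndB δ i') = κ (ndB δ i) := by
    intro δ i i' hi h
    have h1 := hsys (ndA δ i')
    rw [sum_a δ i i' hi, hA δ i' h _ (eAB δ i'), hA δ i' h _ (Ee_symm (eBA δ i i' hi)), one_mul,
      one_mul, wB δ i' _ (Ee_symm (eAB δ i')), wB δ i _ (eBA δ i i' hi)] at h1
    exact two _ _ h1
  have qA0 : ∀ (δ : D) (i : Fin r), i.val = 0 → on i δ →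
      κ (ndB δ i) = s none (ndA δ i) * κ none := by
    intro δ i hi h
    have h1 := hsys (ndA δ i)
    rw [sum_a0 δ i hi, hA δ i h _ (eAB δ i), hA δ i h _ (Ee_symm (ecA δ i hi)), one_mul,
      one_mul, wB δ i _ (Ee_symm (eAB δ i))] at h1
    exact two _ _ h1
  -- first node `a δ 0` of a chain with an off node
  have a0 : ∀ δ, δ ≠ δ₀ → ∀ i : Fin r, i.val = 0 → κ (ndA δ i) = 0 := by
    intro δ hδ i hi
    obtain ⟨j, hj⟩ := hsep δ hδ
    -- descending induction: all `a δ l` with `l ≤ j` vanish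
    have key : ∀ n : ℕ, ∀ l : Fin r, l.val + n = j.val → κ (ndA δ l) = 0 := by
      intro n
      induction n with
      | zero =>
        intro l hl
        have : l = j := Fin.ext (by omega)
        rw [this]
        exact hA0 δ j hj
      | succ n ih =>
        intro l hl
        by_cases hon : on l δ
        · have hlt : l.val + 1 < r := by have := j.isLt; omega
          rw [qB δ l ⟨l.val + 1, hlt⟩ rfl hon]
          exact ih _ (by simp only []; omega)
        · exact hA0 δ l hon
    exact key j.val i (by omega)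
  -- all `a δ₀ i` are equal to the value at the dummy
  have aw : ∀ i : Fin r, κ (ndA δ₀ i) = κ (some none) := by
    have key : ∀ n : ℕ, ∀ l : Fin r, l.val + n + 1 = r → κ (ndA δ₀ l) = κ (some none) := by
      intro n
      induction n with
      | zero =>
        intro l hl
        exact qBl δ₀ l (by omega) (h0 l)
      | succ n ih =>
        intro l hl
        have hlt : l.val + 1 < r := by omega
        rw [qB δ₀ l ⟨l.val + 1, hlt⟩ rfl (h0 l)]
        exact ih _ (by simp only []; omega)
    intro i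
    exact key (r - 1 - i.val) i (by have := i.isLt; omega)
  -- the equation at the centre
  have w0 : κ (some none) = 0 := by
    let z : Fin r := ⟨0, hr⟩
    have h1 := hsys none
    rw [sum_c z rfl] at h1
    rw [Finset.sum_eq_single δ₀] at h1
    · rw [hc z rfl, one_mul, wA δ₀ z _ (Ee_symm (ecA δ₀ z rfl)), aw z] at h1
      exact h1
    · intro δ _ hδ
      rw [a0 δ hδ z rfl, mul_zero]
    · intro h
      exact absurd (Finset.mem_univ δ₀) h
  -- all `a` nodes vanish
  have aall : ∀ δ i, κ (ndA δ i) = 0 := by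
    intro δ
    have key : ∀ n : ℕ, ∀ l : Fin r, l.val + n + 1 = r → κ (ndA δ l) = 0 := by
      intro n
      induction n with
      | zero =>
        intro l hl
        by_cases hon : on l δ
        · rw [qBl δ l (by omega) hon, w0]
        · exact hA0 δ l hon
      | succ n ih =>
        intro l hl
        by_cases hon : on l δ
        · have hlt : l.val + 1 < r := by omega
          rw [qB δ l ⟨l.val + 1, hlt⟩ rfl hon]
          exact ih _ (by simp only []; omega)
        · exact hA0 δ l hon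
    intro i
    exact key (r - 1 - i.val) i (by have := i.isLt; omega)
  -- last node `b δ (r - 1)` of a chain with an off node
  have bl : ∀ δ, δ ≠ δ₀ → ∀ i : Fin r, i.val + 1 = r → κ (ndB δ i) = 0 := by
    intro δ hδ i hi
    obtain ⟨j, hj⟩ := hsep δ hδ
    have key : ∀ n : ℕ, ∀ l : Fin r, l.val = j.val + n → κ (ndB δ l) = 0 := by
      intro n
      induction n with
      | zero =>
        intro l hl
        have : l = j := Fin.ext (by omega)
        rw [this]
        exact hB0 δ j hj
      | succ n ih =>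
        intro l hl
        by_cases hon : on l δ
        · have hlt : j.val + n < r := by have := l.isLt; omega
          rw [qA δ ⟨j.val + n, hlt⟩ l (by simp only []; omega) hon]
          exact ih _ rfl
        · exact hB0 δ l hon
    exact key (i.val - j.val) i (by have := j.isLt; omega)
  -- all `b δ₀ i` are equal to the value at the centre
  have bc : ∀ i : Fin r, κ (ndB δ₀ i) = κ none := by
    have key : ∀ n : ℕ, ∀ l : Fin r, l.val = n → κ (ndB δ₀ l) = κ none := by
      intro n
      induction n with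
      | zero =>
        intro l hl
        rw [qA0 δ₀ l hl (h0 l), hc l hl, one_mul]
      | succ n ih =>
        intro l hl
        have hlt : n < r := by have := l.isLt; omega
        rw [qA δ₀ ⟨n, hlt⟩ l (by simp only []; omega) (h0 l)]
        exact ih _ rfl
    intro i
    exact key i.val i rfl
  -- the equation at the dummy
  have c0 : κ none = 0 := by
    let z : Fin r := ⟨r - 1, by omega⟩
    have hz : z.val + 1 = r := by simp only [z]; omega
    have h1 := hsys (some none)
    rw [sum_w z hz] at h1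
    rw [Finset.sum_eq_single δ₀] at h1
    · rw [hw _ (Ee_symm (eBw δ₀ z hz)), one_mul, wB δ₀ z _ (eBw δ₀ z hz), bc z] at h1
      exact h1
    · intro δ _ hδ
      rw [bl δ hδ z hz, mul_zero]
    · intro h
      exact absurd (Finset.mem_univ δ₀) h
  -- all `b` nodes vanish
  have ball : ∀ δ i, κ (ndB δ i) = 0 := by
    intro δ
    have key : ∀ n : ℕ, ∀ l : Fin r, l.val = n → κ (ndB δ l) = 0 := by
      intro n
      induction n with
      | zero =>
        intro l hl
        by_cases hon : on l δ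
        · rw [qA0 δ l hl hon, c0, mul_zero]
        · exact hB0 δ l hon
      | succ n ih =>
        intro l hl
        by_cases hon : on l δ
        · have hlt : n < r := by have := l.isLt; omega
          rw [qA δ ⟨n, hlt⟩ l (by simp only []; omega) hon]
          exact ih _ rfl
        · exact hB0 δ l hon
    intro i
    exact key i.val i rfl
  intro x
  rcases x with _ | _ | ⟨δ, i, _ | _⟩
  · exact c0
  · exact w0
  · exact aall δ i
  · exact ball δ i

/-- A vector of the Lagrangian subspace attached to the graph which satisfies the local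
conditions for the twist `δ₀` is zero. -/
theorem graph_zero {P : Type} [Fintype P] {X : P × Nd D r → Type} [∀ j, AddCommGroup (X j)]
    [∀ j, Module (ZMod 2) (X j)] {h : ∀ j, X j →ₗ[ZMod 2] X j →ₗ[ZMod 2] ZMod 2}
    (hsy : ∀ j x y, h j x y = h j y x) (hnd : ∀ j x, x ≠ 0 → ∃ y, h j x y = 1)
    {m : ∀ j, X j} {lam : ∀ j, P × Nd D r → X j} (hr : 0 < r)
    (g : ∀ j, X j) (on : P → Fin r → D → Prop) (δ₀ : D) (h0 : ∀ p i, on p i δ₀)
    (hsep : ∀ p δ, δ ≠ δ₀ → ∃ i, ¬ on p i δ)
    (hon : ∀ p δ i, on p i δ → ∀ y : Nd D r,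
      (Ee (ndA δ i) y → h (p, ndA δ i) (g (p, ndA δ i)) (lam (p, ndA δ i) (p, y)) = 1) ∧
      (Ee (ndB δ i) y → h (p, ndB δ i) (g (p, ndB δ i)) (lam (p, ndB δ i) (p, y)) = 1))
    (hoff : ∀ p δ i, ¬ on p i δ → g (p, ndA δ i) = 0 ∧ g (p, ndB δ i) = 0)
    (hw : ∀ p (y : Nd D r), Ee (some none) y →
      h (p, some none) (g (p, some none)) (lam (p, some none) (p, y)) = 1)
    (hc : ∀ p (i : Fin r), i.val = 0 → h (p, none) (g (p, none)) (lam (p, none) (p, ndA δ₀ i)) = 1)
    {q : ∀ j, X j × X j} (hq : q ∈ Wst h m EJ lam)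
    (hloc : ∀ j, LocE (h j) (m j) (g j) (q j)) : q = 0 := by
  refine elim hsy hnd hq g hloc ?_
  intro κ hκ hsys
  rintro ⟨p, x⟩
  refine comp_zero hr (on p) δ₀ (h0 p) (hsep p)
    (fun x y => h (p, x) (g (p, x)) (lam (p, x) (p, y))) (fun x => κ (p, x))
    (fun δ i hi y => (hon p δ i hi y).1) (fun δ i hi y => (hon p δ i hi y).2)
    (fun δ i hi => hκ _ (hoff p δ i hi).1) (fun δ i hi => hκ _ (hoff p δ i hi).2)
    (hw p) (hc p) ?_ x
  intro x
  have h1 := hsys (p, x)
  rw [Fintype.sum_prod_type, Finset.sum_eq_single p] at h1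
  · refine Eq.trans (Finset.sum_congr rfl fun y _ => ?_) h1
    have h2 : EJ (p, x) (p, y) ↔ Ee x y := ⟨fun h3 => h3.2, fun h3 => ⟨rfl, h3⟩⟩
    by_cases h3 : Ee x y
    · rw [if_pos h3, if_pos (h2.2 h3)]
    · rw [if_neg h3, if_neg (fun h4 => h3 (h2.1 h4))]
  · intro p' _ hp'
    refine Finset.sum_eq_zero fun y _ => ?_
    rw [if_neg]
    intro h2
    exact hp' h2.1.symm
  · intro h2
    exact absurd (Finset.mem_univ p) h2

end H36MX

end S_H88_MX_Ed

section S_H88_MX_Ee

set_option autoImplicit false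

namespace H36MX

open scoped Classical

/-- The local condition for `m = 0`. -/
theorem LocE_iff {V : Type} [AddCommGroup V] [Module (ZMod 2) V]
    {h : V →ₗ[ZMod 2] V →ₗ[ZMod 2] ZMod 2} (hsy : ∀ x y, h x y = h y x) {g : V} {p : V × V} :
    LocE h 0 g p ↔ (p.1 = 0 ∨ p.1 = g) ∧ h p.2 g = 0 := by
  unfold LocE
  rw [zero_add]
  constructor
  · rintro ⟨h1 | h1, h2⟩
    · exact ⟨Or.inl h1.1, h1.2⟩
    · refine ⟨Or.inr h1, ?_⟩
      rw [hsy, ← h1]
      exact h2
  · rintro ⟨h1 | h1, h2⟩
    · refine ⟨Or.inl ⟨h1, h2⟩, ?_⟩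
      rw [h1, map_zero, LinearMap.zero_apply]
    · refine ⟨Or.inr h1, ?_⟩
      rw [h1, hsy]
      exact h2

variable {J : Type} [Fintype J] {X : J → Type} [∀ j, AddCommGroup (X j)]
  [∀ j, Module (ZMod 2) (X j)]

theorem mem_Wst0 {h : ∀ j, X j →ₗ[ZMod 2] X j →ₗ[ZMod 2] ZMod 2}
    {Ed : J → J → Prop} {lam : ∀ j, J → X j} {p : ∀ j, X j × X j} :
    p ∈ Wst h 0 Ed lam ↔ ∀ j z, h j (p j).2 z =
      ∑ k, if Ed j k then h j z (lam j k) * h k (p k).1 (lam k j) else 0 := by
  rw [mem_Wst]
  refine forall_congr' fun j => forall_congr' fun z => ?_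
  rw [Pi.zero_apply, map_zero, zero_mul, zero_add]

theorem Q_W0 {h : ∀ j, X j →ₗ[ZMod 2] X j →ₗ[ZMod 2] ZMod 2}
    (hsy : ∀ j x y, h j x y = h j y x)
    {Ed : J → J → Prop} (hEs : ∀ j k, Ed j k → Ed k j) (hEi : ∀ j, ¬ Ed j j)
    {lam : ∀ j, J → X j} {p : ∀ j, X j × X j} (hp : p ∈ Wst h 0 Ed lam) :
    ∑ j, h j (p j).1 (p j).2 = 0 := by
  have h1 := Q_W hsy hEs hEi hp
  simpa only [Pi.zero_apply, zero_add] using h1

/-- The case `m = 0` of `graph_zero`. -/
theorem graph_zero0 {D : Type} [Fintype D] {r : ℕ} {P : Type} [Fintype P]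
    {X : P × Nd D r → Type} [∀ j, AddCommGroup (X j)]
    [∀ j, Module (ZMod 2) (X j)] {h : ∀ j, X j →ₗ[ZMod 2] X j →ₗ[ZMod 2] ZMod 2}
    (hsy : ∀ j x y, h j x y = h j y x) (hnd : ∀ j x, x ≠ 0 → ∃ y, h j x y = 1)
    {lam : ∀ j, P × Nd D r → X j} (hr : 0 < r)
    (g : ∀ j, X j) (on : P → Fin r → D → Prop) (δ₀ : D) (h0 : ∀ p i, on p i δ₀)
    (hsep : ∀ p δ, δ ≠ δ₀ → ∃ i, ¬ on p i δ)
    (hon : ∀ p δ i, on p i δ → ∀ y : Nd D r,
      (Ee (ndA δ i) y → h (p, ndA δ i) (g (p, ndA δ i)) (lam (p, ndA δ i) (p, y)) = 1) ∧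
      (Ee (ndB δ i) y → h (p, ndB δ i) (g (p, ndB δ i)) (lam (p, ndB δ i) (p, y)) = 1))
    (hoff : ∀ p δ i, ¬ on p i δ → g (p, ndA δ i) = 0 ∧ g (p, ndB δ i) = 0)
    (hw : ∀ p (y : Nd D r), Ee (some none) y →
      h (p, some none) (g (p, some none)) (lam (p, some none) (p, y)) = 1)
    (hc : ∀ p (i : Fin r), i.val = 0 → h (p, none) (g (p, none)) (lam (p, none) (p, ndA δ₀ i)) = 1)
    {q : ∀ j, X j × X j} (hq : q ∈ Wst h 0 EJ lam)
    (hloc : ∀ j, ((q j).1 = 0 ∨ (q j).1 = g j) ∧ h j (q j).2 (g j) = 0) : q = 0 :=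
  graph_zero hsy hnd hr g on δ₀ h0 hsep hon hoff hw hc hq fun j => (LocE_iff (hsy j)).2 (hloc j)

end H36MX

end S_H88_MX_Ee
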