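import Mathlib
import Pool.Agent.H76.MP.M8
import Pool.Agent.H76.MP.M9
import Pool.Agent.H76.XP.X4
import Pool.Agent.H76.XP.X5
import Pool.Agent.H76.XP.X6

/-! This file joins several modules to save build time (X7). -/

set_option autoImplicit false

section S_H76_MX_Tr

set_option autoImplicit false
set_option linter.unusedSectionVars false
open scoped Classical

open WithZero NumberField IsDedekindDomain H38RT
open H38T1 (SC sc scu rep eo la si Pri OddP tp unif ka)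
open H76PP H36MX H76MQ

namespace H76MX

theorem exists_hscL {F : Type} [Field F] (hF : HF F) :
    ∃ h : SC F →ₗ[ZMod 2] SC F →ₗ[ZMod 2] ZMod 2, ∀ x y, h x y = hsc x y := by
  have hz : ∀ y : SC F, hsc (0 : SC F) y = 0 := by
    intro y
    have h1 := hsc_add_left hF 0 0 y
    rw [add_zero] at h1
    exact left_eq_add.1 h1
  have hz' : ∀ x : SC F, hsc x (0 : SC F) = 0 := fun x => by rw [hsc_comm, hz]
  have ha' : ∀ x y z : SC F, hsc x (y + z) = hsc x y + hsc x z := fun x y z => by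
    rw [hsc_comm, hsc_add_left hF, hsc_comm y, hsc_comm z]
  let g : SC F → SC F →ₗ[ZMod 2] ZMod 2 := fun x =>
    AddMonoidHom.toZModLinearMap 2 (⟨⟨hsc x, hz' x⟩, ha' x⟩ : SC F →+ ZMod 2)
  have hg0 : g 0 = 0 := LinearMap.ext fun y => hz y
  have hga : ∀ x x', g (x + x') = g x + g x' := fun x x' =>
    LinearMap.ext fun y => hsc_add_left hF x x' y
  exact ⟨AddMonoidHom.toZModLinearMap 2 (⟨⟨g, hg0⟩, hga⟩ : SC F →+ (SC F →ₗ[ZMod 2] ZMod 2)),
    fun x y => rfl⟩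

variable {K : Type} [Field K] [NumberField K]

theorem target_of {C : CfgX K} (hC : C.Ok) {J : Type} [Fintype J]
    (pl : J → HeightOneSpectrum (𝓞 K)) (hinj : Function.Injective pl)
    (hZ : ∀ u, u ∈ C.Z ↔ ∃ j, pl j = u) (Δ : Set (𝓞 K))
    (x : (u : HeightOneSpectrum (𝓞 K)) → 𝓞 K → SC (Kv u))
    (W₀ : Submodule (ZMod 2) (∀ j, SC (Kv (pl j)) × SC (Kv (pl j))))
    (hs : ∀ p ∈ W₀, ∑ j, hsc (p j).1 (p j).2 = 0)
    (hc : Nat.card W₀ = ∏ j, Nat.card (SC (Kv (pl j))))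
    (hz : ∀ d ∈ Δ, ∀ p ∈ W₀, (∀ j, LW (x (pl j) d) (p j).1 (p j).2) → p = 0) :
    ∃ W : Submodule (ZMod 2) C.V, Target C Δ x W := by
  have hbij : Function.Bijective (fun j : J => (⟨pl j, (hZ _).2 ⟨j, rfl⟩⟩ : {u // u ∈ C.Z})) := by
    constructor
    · intro i j h
      exact hinj (congrArg Subtype.val h)
    · rintro ⟨u, hu⟩
      obtain ⟨j, hj⟩ := (hZ u).1 hu
      exact ⟨j, Subtype.ext hj⟩
  let β : J ≃ {u // u ∈ C.Z} := Equiv.ofBijective _ hbij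
  let E : C.V ≃ₗ[ZMod 2] (∀ j, SC (Kv (pl j)) × SC (Kv (pl j))) :=
    (LinearEquiv.piCongrLeft (ZMod 2)
      (fun u : {u // u ∈ C.Z} => SC (Kv u.1) × SC (Kv u.1)) β).symm
  refine ⟨W₀.comap E.toLinearMap, ?_, ?_, ?_⟩
  · intro p hp
    have h1 := hs (E p) hp
    unfold CfgX.Q
    rw [← Equiv.sum_comp β (fun u => hsc (p u).1 (p u).2)]
    exact h1
  · have h1 : Nat.card (W₀.comap E.toLinearMap) = Nat.card W₀ :=
      Nat.card_congr (E.toEquiv.subtypeEquiv fun p => Iff.rfl)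
    have h2 : C.Z = Finset.univ.image pl := by
      ext u
      rw [hZ, Finset.mem_image]
      exact ⟨fun ⟨j, hj⟩ => ⟨j, Finset.mem_univ _, hj⟩, fun ⟨j, _, hj⟩ => ⟨j, hj⟩⟩
    have h3 := prod_scv (Z := C.Z) hC.mem2
    have h4 : ∏ v ∈ C.Z, Nat.card (SC (Kv v)) = ∏ j, Nat.card (SC (Kv (pl j))) := by
      rw [h2, Finset.prod_image fun a _ b _ h => hinj h]
    rw [h1, hc, ← h4, h3]
  · intro d hd p hp h
    have h1 : E p = 0 := hz d hd (E p) hp fun j => h ⟨pl j, (hZ _).2 ⟨j, rfl⟩⟩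
    exact (LinearEquiv.map_eq_zero_iff E).1 h1

private theorem Tr_abs {P D : Type} [Fintype P] [Fintype D] {r : ℕ} (hr : 0 < r)
    {X : P × Nd D r → Type} [∀ j, AddCommGroup (X j)] [∀ j, Module (ZMod 2) (X j)]
    [∀ j, Finite (X j)] (h : ∀ j, X j →ₗ[ZMod 2] X j →ₗ[ZMod 2] ZMod 2)
    (hsy : ∀ j x y, h j x y = h j y x) (hnd : ∀ j x, x ≠ 0 → ∃ y, h j x y = 1)
    (η : ∀ j, X j) (hη : ∀ j, η j ≠ 0) (y : (p : P) → D → X (p, none))
    (hy : ∀ p δ, y p δ ≠ 0) (gg : Fin r → D → ZMod 2)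
    (hgg : ∀ δ δ', δ ≠ δ' → ∃ i, gg i δ ≠ gg i δ') :
    ∃ W₀ : Submodule (ZMod 2) (∀ j, X j × X j),
      (∀ p ∈ W₀, ∑ j, h j (p j).1 (p j).2 = 0) ∧
      Nat.card W₀ = ∏ j, Nat.card (X j) ∧
      ∀ (δ₀ : D) (g : ∀ j, X j), (∀ p, g (p, none) = y p δ₀) →
        (∀ p, g (p, some none) = η (p, some none)) →
        (∀ p δ i b, g (p, some (some (δ, i, b))) =
          if gg i δ₀ = gg i δ then η (p, some (some (δ, i, b))) else 0) →
        ∀ q ∈ W₀, (∀ j, ((q j).1 = 0 ∨ (q j).1 = g j) ∧ h j (q j).2 (g j) = 0) → q = 0 := by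
  choose μ hμ using fun j => hnd j (η j) (hη j)
  choose μ' hμ' using fun p δ => hnd (p, none) (y p δ) (hy p δ)
  obtain ⟨lam, hl1, hl2⟩ : ∃ lam : (j : P × Nd D r) → (P × Nd D r) → X j,
      (∀ p n k, lam (p, some n) k = μ (p, some n)) ∧
      (∀ p δ i k, lam (p, none) (k, ndA δ i) = μ' p δ) :=
    ⟨fun j k => match j with
      | (p, some n) => μ (p, some n)
      | (p, none) => match k.2 with
        | some (some (δ, _, false)) => μ' p δ
        | _ => 0, fun _ _ _ => rfl, fun _ _ _ _ => rfl⟩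
  refine ⟨Wst h 0 EJ lam, fun p hp => Q_W0 (Ed := EJ) hsy (fun _ _ e => EJ_symm e) EJ_irr hp,
    card_W hnd 0 EJ lam, ?_⟩
  intro δ₀ g g0 g1 g2 q hq hloc
  refine graph_zero0 hsy hnd hr g (fun _ i δ => gg i δ = gg i δ₀) δ₀
    (fun _ _ => rfl) (fun _ δ hδ => hgg δ δ₀ hδ) ?_ ?_ ?_ ?_ hq hloc
  · intro p δ i hon z
    refine ⟨fun _ => ?_, fun _ => ?_⟩
    · rw [hl1, g2 p δ i false, if_pos hon.symm]
      exact hμ _
    · rw [hl1, g2 p δ i true, if_pos hon.symm]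
      exact hμ _
  · intro p δ i hon
    refine ⟨?_, ?_⟩
    · rw [g2 p δ i false, if_neg fun h => hon h.symm]
    · rw [g2 p δ i true, if_neg fun h => hon h.symm]
  · intro p z _
    rw [hl1, g1]
    exact hμ _
  · intro p i _
    rw [hl2, g0]
    exact hμ' _ _

theorem exists_target {C : CfgX K} (hC : C.Ok) (hH : ∀ v : HeightOneSpectrum (𝓞 K), HF (Kv v))
    {P D : Type} [Fintype P] [Fintype D] {r : ℕ} (hr : 0 < r)
    (pl : P × Nd D r → HeightOneSpectrum (𝓞 K)) (hinj : Function.Injective pl)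
    (hZ : ∀ u, u ∈ C.Z ↔ ∃ j, pl j = u) (Δ : Set (𝓞 K))
    (x : (u : HeightOneSpectrum (𝓞 K)) → 𝓞 K → SC (Kv u))
    (η : (u : HeightOneSpectrum (𝓞 K)) → SC (Kv u)) (hη : ∀ u, η u ≠ 0)
    (cl : 𝓞 K → D) (gg : Fin r → D → ZMod 2) (hgg : ∀ δ δ', δ ≠ δ' → ∃ i, gg i δ ≠ gg i δ')
    (y : (p : P) → D → SC (Kv (pl (p, none)))) (hy : ∀ p δ, y p δ ≠ 0)
    (hx0 : ∀ p, ∀ d ∈ Δ, x (pl (p, none)) d = y p (cl d))
    (hx1 : ∀ p, ∀ d ∈ Δ, x (pl (p, some none)) d = η (pl (p, some none)))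
    (hx2 : ∀ p δ i b, ∀ d ∈ Δ, x (pl (p, some (some (δ, i, b)))) d =
      if gg i (cl d) = gg i δ then η (pl (p, some (some (δ, i, b)))) else 0) :
    ∃ W : Submodule (ZMod 2) C.V, Target C Δ x W := by
  choose h hh using fun j => exists_hscL (hH (pl j))
  have hsy : ∀ j x y, h j x y = h j y x := fun j x y => by rw [hh, hh, hsc_comm]
  have hnd : ∀ j x, x ≠ 0 → ∃ y, h j x y = 1 := by
    intro j x hx
    obtain ⟨y, hy⟩ := hsc_nd (hH (pl j)) hx
    exact ⟨y, by rw [hh]; exact hy⟩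
  have hfin : ∀ j, Finite (SC (Kv (pl j))) := fun j => fin_scv _
  obtain ⟨W₀, h1, h2, h3⟩ := @Tr_abs P D _ _ r hr (fun j => SC (Kv (pl j)))
    (fun j => inferInstance) (fun j => inferInstance) hfin h hsy hnd (fun j => η (pl j))
    (fun j => hη _) y hy gg hgg
  refine target_of hC pl hinj hZ Δ x W₀ ?_ h2 ?_
  · intro p hp
    have h4 := h1 p hp
    simp only [hh] at h4
    exact h4
  · intro d hd q hq hloc
    refine h3 (cl d) (fun j => x (pl j) d) (fun p => hx0 p d hd) (fun p => hx1 p d hd)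
      (fun p δ i b => hx2 p δ i b d hd) q hq fun j => ⟨(hloc j).1, ?_⟩
    rw [hh]
    exact (hloc j).2

end H76MX

end S_H76_MX_Tr

section S_H76_MX_Cf

set_option autoImplicit false
set_option linter.unusedSectionVars false
open scoped Classical

open WithZero NumberField IsDedekindDomain H38RT
open H38T1 (SC sc scu rep eo la si Pri OddP tp unif ka)
open H76PP H36MX H76MQ

namespace H76MX

theorem exists_inj_choice {α J : Type} [Finite J] (Z : J → Set α) (hZ : ∀ j, (Z j).Infinite)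
    (F : Set α) (hF : F.Finite) :
    ∃ f : J → α, Function.Injective f ∧ ∀ j, f j ∈ Z j ∧ f j ∉ F := by
  have _ := Fintype.ofFinite J
  by_cases hJ : Nonempty J
  · obtain ⟨j0⟩ := hJ
    obtain ⟨b0, -⟩ := (hZ j0).nonempty
    obtain ⟨a, h1, h2⟩ := H30MQ.exists_injOn (Finset.univ : Finset J) (fun j => Z j \ F)
      (fun j _ => (hZ j).sdiff hF) b0
    exact ⟨a, fun i j h => h2 i (Finset.mem_univ _) j (Finset.mem_univ _) h,
      fun j => h1 j (Finset.mem_univ _)⟩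
  · exact ⟨fun j => (hJ ⟨j⟩).elim, fun i => (hJ ⟨i⟩).elim, fun j => (hJ ⟨j⟩).elim⟩

private theorem Cf_sep {V : Type} [AddCommGroup V] [Module (ZMod 2) V] :
    ∃ φ : V → (V →+ ZMod 2), ∀ c, c ≠ 0 → φ c c ≠ 0 := by
  have h : ∀ c : V, ∃ φ : V →+ ZMod 2, c ≠ 0 → φ c ≠ 0 := by
    intro c
    by_cases hc : c = 0
    · exact ⟨0, fun h => absurd hc h⟩
    · by_contra hcon
      push Not at hcon
      exact hc ((Module.forall_dual_apply_eq_zero_iff (ZMod 2) c).1 fun φ =>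
        (hcon φ.toAddMonoidHom).2)
  choose φ hφ using h
  exact ⟨φ, hφ⟩

private theorem Cf_two (a b : ZMod 2) : a + (b + 1) = 0 ↔ a ≠ b := by
  revert a b
  decide

theorem exists_configX (K : Type) [Field K] [NumberField K] (N : Type) [Field N] [NumberField N]
    [Algebra K N] (hH : ∀ v : HeightOneSpectrum (𝓞 K), HF (Kv v))
    {η : (u : HeightOneSpectrum (𝓞 K)) → SC (Kv u)} (hη : ∀ u, η u ≠ 0)
    (hdy : DyadicClass η) (hax : AuxClass η)
    (hN : ∀ v : HeightOneSpectrum (𝓞 K), (2 : 𝓞 K) ∈ v.asIdeal → ∃ ι : N →+* v.adicCompletion K,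
      ∀ x : K, ι (algebraMap K N x) = algebraMap K (v.adicCompletion K) x)
    (R₀ : Finset (HeightOneSpectrum (𝓞 K))) (hR₀ : ∀ v ∈ R₀, (2 : 𝓞 K) ∉ v.asIdeal)
    (D : Finset (𝓞 K)) (hD : ∀ d ∈ D, d ≠ 0) :
    ∃ (C : CfgX K) (x : (u : HeightOneSpectrum (𝓞 K)) → 𝓞 K → SC (Kv u))
      (W : Submodule (ZMod 2) C.V) (m : Ideal (𝓞 K)) (E : ℕ) (A₀ B₀ : 𝓞 K),
      C.Ok ∧ R₀ ⊆ C.R ∧
      (∀ v ∈ C.Z, ∃ ι : N →+* v.adicCompletion K,
        ∀ x : K, ι (algebraMap K N x) = algebraMap K (v.adicCompletion K) x) ∧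
      Target C (Submonoid.closure (D : Set (𝓞 K))) x W ∧
      (∀ d ∈ Submonoid.closure (D : Set (𝓞 K)), d ≠ 0 ∧
        ∀ v : HeightOneSpectrum (𝓞 K), v ∉ C.S → d ∉ v.asIdeal ∧ eo v (sc (d : K)) = 0) ∧
      ClassX C (Submonoid.closure (D : Set (𝓞 K))) x m E A₀ B₀ := by
  -- the products are not zero
  have hΔ0 : ∀ d ∈ Submonoid.closure (D : Set (𝓞 K)), d ≠ 0 := by
    intro d hd
    induction hd using Submonoid.closure_induction with
    | mem x hx => exact hD x hx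
    | one => exact one_ne_zero
    | mul x y _ _ hx hy => exact mul_ne_zero hx hy
  have hco1 : ((1 : 𝓞 K) : K) = 1 := map_one _
  have hcom : ∀ a b : 𝓞 K, ((a * b : 𝓞 K) : K) = (a : K) * (b : K) := fun a b => map_mul _ a b
  -- the classes over `N`
  obtain ⟨cN, hcN⟩ : ∃ cN : 𝓞 K → SC N, ∀ d, cN d = sc (algebraMap K N (d : K)) := ⟨_, fun _ => rfl⟩
  have hcN1 : cN 1 = 0 := by
    rw [hcN, hco1, map_one, H38T1.sc_eq_zero one_ne_zero]
    exact ⟨1, (mul_one 1).symm⟩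
  have hcNm : ∀ a b : 𝓞 K, a ≠ 0 → b ≠ 0 → cN (a * b) = cN a + cN b := by
    intro a b ha hb
    rw [hcN, hcN, hcN, hcom, map_mul, H38T1.sc_mul ((map_ne_zero _).2 (H30MQ.coe_ne ha))
      ((map_ne_zero _).2 (H30MQ.coe_ne hb))]
  obtain ⟨G, hG⟩ : ∃ G : Submodule (ZMod 2) (SC N),
      G = Submodule.span (ZMod 2) (cN '' (D : Set (𝓞 K))) := ⟨_, rfl⟩
  have hGf : Finite G := by
    have h1 : Module.Finite (ZMod 2) G := by
      rw [hG]
      exact FiniteDimensional.span_of_finite (ZMod 2) (D.finite_toSet.image cN)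
    exact Module.finite_of_finite (ZMod 2)
  have hGm : ∀ d ∈ Submonoid.closure (D : Set (𝓞 K)), cN d ∈ G := by
    intro d hd
    induction hd using Submonoid.closure_induction with
    | mem x hx =>
      rw [hG]
      exact Submodule.subset_span ⟨x, hx, rfl⟩
    | one =>
      rw [hcN1]
      exact G.zero_mem
    | mul x y hx' hy' hx hy =>
      rw [hcNm x y (hΔ0 x hx') (hΔ0 y hy')]
      exact G.add_mem hx hy
  have _ : Fintype G := Fintype.ofFinite G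
  obtain ⟨cl, hcl⟩ : ∃ cl : 𝓞 K → G, ∀ d ∈ Submonoid.closure (D : Set (𝓞 K)),
      (cl d : SC N) = cN d := by
    refine ⟨fun d => if h : cN d ∈ G then ⟨cN d, h⟩ else 0, fun d hd => ?_⟩
    simp only [dif_pos (hGm d hd)]
  obtain ⟨φ, hφ⟩ := Cf_sep (V := SC N)
  obtain ⟨r, hr0, ⟨eqv⟩⟩ : ∃ r : ℕ, 0 < r ∧ Nonempty (Fin r ≃ G) :=
    ⟨Fintype.card G, Fintype.card_pos, ⟨(Fintype.equivFin G).symm⟩⟩
  obtain ⟨gg, hgg'⟩ : ∃ gg : Fin r → G → ZMod 2, ∀ i δ, gg i δ = φ (eqv i) (δ : SC N) :=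
    ⟨_, fun _ _ => rfl⟩
  have hgg : ∀ δ δ' : G, δ ≠ δ' → ∃ i, gg i δ ≠ gg i δ' := by
    intro δ δ' hne
    refine ⟨eqv.symm (δ - δ'), ?_⟩
    rw [hgg', hgg', Equiv.apply_symm_apply]
    have h1 : ((δ - δ' : G) : SC N) ≠ 0 := by
      intro h
      exact hne (sub_eq_zero.1 (Subtype.ext h))
    have h2 := hφ _ h1
    intro h3
    apply h2
    rw [show ((δ - δ' : G) : SC N) = (δ : SC N) - (δ' : SC N) from rfl] at h3 ⊢
    rw [map_sub, h3, sub_self]
  -- the index set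
  have hPf : {v : HeightOneSpectrum (𝓞 K) | (2 : 𝓞 K) ∈ v.asIdeal}.Finite :=
    H30MQ.fin_mem two_ne_zero
  have h6f : {v : HeightOneSpectrum (𝓞 K) | (6 : 𝓞 K) ∈ v.asIdeal}.Finite :=
    H30MQ.fin_mem (by
      intro h
      have h1 : algebraMap (𝓞 K) K 6 = 0 := by rw [h, map_zero]
      rw [map_ofNat] at h1
      norm_num at h1)
  have _ : Finite {v : HeightOneSpectrum (𝓞 K) // (2 : 𝓞 K) ∈ v.asIdeal} := hPf.to_subtype
  have _ : Fintype {v : HeightOneSpectrum (𝓞 K) // (2 : 𝓞 K) ∈ v.asIdeal} := Fintype.ofFinite _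
  let P := {v : HeightOneSpectrum (𝓞 K) // (2 : 𝓞 K) ∈ v.asIdeal}
  let ψ : Nd G r → (SC N →+ ZMod 2) := fun n => match n with
    | none => 0
    | some none => 0
    | some (some (_, i, _)) => φ (eqv i)
  obtain ⟨f, hfi, hf⟩ := exists_inj_choice (α := HeightOneSpectrum (𝓞 K)) (J := P × Nd G r)
    (fun j => {v : HeightOneSpectrum (𝓞 K) | (2 : 𝓞 K) ∉ v.asIdeal ∧
      (∃ ι : N →+* v.adicCompletion K, ∀ x : K,
        ι (algebraMap K N x) = algebraMap K (v.adicCompletion K) x) ∧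
      ∀ d ∈ D, d ∉ v.asIdeal ∧ la v (sc (d : K)) = ψ j.2 (sc (algebraMap K N (d : K)))})
    (fun j => H30MQ.exists_placesN N D hD (ψ j.2))
    ({v : HeightOneSpectrum (𝓞 K) | (6 : 𝓞 K) ∈ v.asIdeal} ∪ (R₀ : Set (HeightOneSpectrum (𝓞 K))))
    (h6f.union R₀.finite_toSet)
  let pl : P × Nd G r → HeightOneSpectrum (𝓞 K) := fun j => match j.2 with
    | none => j.1.1
    | some _ => f j
  have hpl0 : ∀ p : P, pl (p, none) = p.1 := fun _ => rfl
  have hpl1 : ∀ (p : P) n, pl (p, some n) = f (p, some n) := fun _ _ => rfl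
  have hinj : Function.Injective pl := by
    rintro ⟨p, n⟩ ⟨p', n'⟩ h
    rcases n with _ | n <;> rcases n' with _ | n'
    · rw [hpl0, hpl0] at h
      rw [Subtype.ext h]
    · rw [hpl0, hpl1] at h
      exact absurd (h ▸ p.2) (hf (p', some n')).1.1
    · rw [hpl0, hpl1] at h
      exact absurd (h ▸ p'.2) (hf (p, some n)).1.1
    · rw [hpl1, hpl1] at h
      exact hfi h
  -- symbols at the auxiliary places
  have hsym : ∀ (p : P) (n : Option (G × Fin r × Bool)), ∀ d ∈ Submonoid.closure (D : Set (𝓞 K)),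
      d ∉ (f (p, some n)).asIdeal ∧ la (f (p, some n)) (sc (d : K)) = ψ (some n) (cN d) := by
    intro p n d hd
    obtain ⟨⟨h2, -, hs⟩, -⟩ := hf (p, some n)
    have hodd : OddP (f (p, some n)) := H30MQ.oddP_of h2
    induction hd using Submonoid.closure_induction with
    | mem x hx =>
      obtain ⟨h3, h4⟩ := hs x hx
      exact ⟨h3, by rw [h4, hcN]⟩
    | one =>
      refine ⟨fun h => (f (p, some n)).isPrime.ne_top ((Ideal.eq_top_iff_one _).2 h), ?_⟩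
      rw [hcN1, map_zero, hco1, (H38T1.sc_eq_zero one_ne_zero).2 ⟨1, (mul_one 1).symm⟩,
        H38T1.la_zero hodd]
    | mul x y hx' hy' hx hy =>
      refine ⟨fun h => ?_, ?_⟩
      · rcases (f (p, some n)).isPrime.mem_or_mem h with h3 | h3
        · exact hx.1 h3
        · exact hy.1 h3
      · rw [hcNm x y (hΔ0 x hx') (hΔ0 y hy'), map_add, hcom,
          H38T1.sc_mul (H30MQ.coe_ne (hΔ0 x hx')) (H30MQ.coe_ne (hΔ0 y hy')),
          H38T1.la_add hodd, hx.2, hy.2]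
  -- the configuration
  have hRf : {v : HeightOneSpectrum (𝓞 K) | (2 : 𝓞 K) ∉ v.asIdeal ∧ (v ∈ R₀ ∨ (3 : 𝓞 K) ∈ v.asIdeal ∨
      ∃ d ∈ D, d ∈ v.asIdeal)}.Finite := by
    have hDf : (⋃ d ∈ D, {v : HeightOneSpectrum (𝓞 K) | d ∈ v.asIdeal}).Finite :=
      Set.Finite.biUnion D.finite_toSet fun d hd => H30MQ.fin_mem (hD d hd)
    have h3f : {v : HeightOneSpectrum (𝓞 K) | (3 : 𝓞 K) ∈ v.asIdeal}.Finite := H30MQ.fin_mem (by
      intro h
      have h1 : algebraMap (𝓞 K) K 3 = 0 := by rw [h, map_zero]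
      rw [map_ofNat] at h1
      exact three_ne_zero h1)
    refine ((R₀.finite_toSet.union h3f).union hDf).subset ?_
    rintro v ⟨-, h | h | ⟨d, hd, hdv⟩⟩
    · exact Or.inl (Or.inl h)
    · exact Or.inl (Or.inr h)
    · exact Or.inr (Set.mem_biUnion hd hdv)
  obtain ⟨C, hCZ, hCR⟩ : ∃ C : CfgX K, C.Z = Finset.univ.image pl ∧ C.R = hRf.toFinset :=
    ⟨⟨_, _⟩, rfl, rfl⟩
  have hZ : ∀ u, u ∈ C.Z ↔ ∃ j, pl j = u := by
    intro u
    rw [hCZ, Finset.mem_image]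
    exact ⟨fun ⟨j, _, h⟩ => ⟨j, h⟩, fun ⟨j, h⟩ => ⟨j, Finset.mem_univ _, h⟩⟩
  have hR : ∀ v, v ∈ C.R ↔ (2 : 𝓞 K) ∉ v.asIdeal ∧ (v ∈ R₀ ∨ (3 : 𝓞 K) ∈ v.asIdeal ∨
      ∃ d ∈ D, d ∈ v.asIdeal) := by
    intro v
    rw [hCR, Set.Finite.mem_toFinset]
    rfl
  have hmem2 : ∀ v : HeightOneSpectrum (𝓞 K), (2 : 𝓞 K) ∈ v.asIdeal → v ∈ C.Z := fun v hv =>
    (hZ v).2 ⟨(⟨v, hv⟩, none), rfl⟩
  have hC : C.Ok := by
    refine ⟨hmem2, fun v hv => ((hR v).1 hv).1, fun v hv => (hR v).2 ⟨fun h2 => ?_, Or.inr (Or.inl hv)⟩⟩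
    apply v.isPrime.ne_top
    rw [Ideal.eq_top_iff_one]
    have e1 : (1 : 𝓞 K) = 3 - 2 := by norm_num
    rw [e1]
    exact v.asIdeal.sub_mem hv h2
  have hf6 : ∀ j, (6 : 𝓞 K) ∉ (f j).asIdeal := fun j h => (hf j).2 (Or.inl h)
  have hZR : ∀ v ∈ C.Z, v ∉ C.R := by
    intro v hv hvR
    obtain ⟨j, rfl⟩ := (hZ v).1 hv
    obtain ⟨h2, h3⟩ := (hR _).1 hvR
    obtain ⟨p, n⟩ := j
    rcases n with _ | n
    · exact h2 p.2
    · rw [hpl1] at h2 h3
      rcases h3 with h3 | h3 | ⟨d, hd, h3⟩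
      · exact (hf (p, some n)).2 (Or.inr h3)
      · apply hf6 (p, some n)
        have e1 : (6 : 𝓞 K) = 2 * 3 := by norm_num
        rw [e1]
        exact Ideal.mul_mem_left _ _ h3
      · exact ((hf (p, some n)).1.2.2 d hd).1 h3
  have hnotin : ∀ d ∈ Submonoid.closure (D : Set (𝓞 K)), ∀ v : HeightOneSpectrum (𝓞 K), v ∉ C.S →
      d ∉ v.asIdeal := by
    intro d hd v hv
    have h2 : (2 : 𝓞 K) ∉ v.asIdeal := fun h => hv (Finset.mem_union_left _ (hmem2 v h))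
    have hvR : v ∉ C.R := fun h => hv (Finset.mem_union_right _ h)
    induction hd using Submonoid.closure_induction with
    | mem x hx => exact fun h => hvR ((hR v).2 ⟨h2, Or.inr (Or.inr ⟨x, hx, h⟩)⟩)
    | one => exact fun h => v.isPrime.ne_top ((Ideal.eq_top_iff_one _).2 h)
    | mul x y _ _ hx hy =>
      intro h
      rcases v.isPrime.mem_or_mem h with h3 | h3
      · exact hx h3
      · exact hy h3
  -- the signs
  let S' : P × Nd G r → ZMod 2 := fun j => match j.2 with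
    | none => 0
    | some none => 1
    | some (some (δ, i, _)) => gg i δ + 1
  obtain ⟨s, hs⟩ : ∃ s : HeightOneSpectrum (𝓞 K) → ZMod 2, ∀ j, s (pl j) = S' j :=
    ⟨Function.extend pl S' 0, fun j => hinj.extend_apply S' 0 j⟩
  obtain ⟨m, E, A₀, B₀, hcls⟩ := exists_classX hC hdy hax hZR (fun u hu h2 => by
      obtain ⟨⟨p, n⟩, rfl⟩ := (hZ u).1 hu
      rcases n with _ | n
      · exact absurd p.2 h2
      · exact hf6 _) s (Δ := Submonoid.closure (D : Set (𝓞 K))) (fun d hd => ⟨hΔ0 d hd, fun u hu h2 => by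
      obtain ⟨⟨p, n⟩, rfl⟩ := (hZ u).1 hu
      rcases n with _ | n
      · exact absurd p.2 h2
      · exact H30MQ.eo_unit (hΔ0 d hd) (hsym p n d hd).1⟩)
  -- the classes
  have hx0' : ∀ (p : P) (d d' : 𝓞 K), d ≠ 0 → d' ≠ 0 → cN d = cN d' → xX η s p.1 d = xX η s p.1 d' := by
    intro p d d' hd hd' h
    obtain ⟨ι, hι⟩ := hN p.1 p.2
    have h1 : ∀ a : 𝓞 K, a ≠ 0 → scm (ι : N →* Kv p.1) (cN a) = sc (algebraMap K (Kv p.1) (a : K)) := by
      intro a ha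
      rw [hcN, scm_sc _ ((map_ne_zero _).2 (H30MQ.coe_ne ha))]
      congr 1
      exact hι _
    have h2 : sc (algebraMap K (Kv p.1) (d : K)) = sc (algebraMap K (Kv p.1) (d' : K)) := by
      rw [← h1 d hd, ← h1 d' hd', h]
    unfold xX
    rw [if_pos p.2, if_pos p.2, h2]
  have hxne : ∀ (p : P) (d : 𝓞 K), xX η s p.1 d ≠ 0 := by
    intro p d
    unfold xX
    rw [if_pos p.2]
    split_ifs with h
    · exact hη _
    · exact h
  obtain ⟨W, hW⟩ := exists_target hC hH hr0 pl hinj hZ (Submonoid.closure (D : Set (𝓞 K))) (xX η s) η hη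
    cl gg hgg
    (fun p δ => if h : ∃ d ∈ Submonoid.closure (D : Set (𝓞 K)), cl d = δ then
      xX η s (pl (p, none)) h.choose else η (pl (p, none)))
    (by
      intro p δ
      split_ifs with h
      · exact hxne p _
      · exact hη _)
    (by
      intro p d hd
      have h : ∃ d' ∈ Submonoid.closure (D : Set (𝓞 K)), cl d' = cl d := ⟨d, hd, rfl⟩
      rw [dif_pos h]
      obtain ⟨h1, h2⟩ := h.choose_spec
      refine hx0' p d _ (hΔ0 d hd) (hΔ0 _ h1) ?_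
      rw [← hcl d hd, ← hcl _ h1, h2])
    (by
      intro p d hd
      have h1 : (2 : 𝓞 K) ∉ (pl (p, some none)).asIdeal := (hf (p, some none)).1.1
      have h2 : la (pl (p, some none)) (sc (d : K)) = 0 := (hsym p none d hd).2
      have h3 : s (pl (p, some none)) = 1 := hs (p, some none)
      unfold xX
      rw [if_neg h1, h2, h3, if_neg (by decide)])
    (by
      intro p δ i b d hd
      have h1 : (2 : 𝓞 K) ∉ (pl (p, some (some (δ, i, b)))).asIdeal :=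
        (hf (p, some (some (δ, i, b)))).1.1
      have h2 : la (pl (p, some (some (δ, i, b)))) (sc (d : K)) = gg i (cl d) := by
        rw [hgg', hcl d hd]
        exact (hsym p (some (δ, i, b)) d hd).2
      have h3 : s (pl (p, some (some (δ, i, b)))) = gg i δ + 1 := hs (p, some (some (δ, i, b)))
      unfold xX
      rw [if_neg h1, h2, h3]
      by_cases h4 : gg i (cl d) = gg i δ
      · rw [if_pos h4, if_neg (fun h => (Cf_two _ _).1 h h4)]
      · rw [if_neg h4, if_pos ((Cf_two _ _).2 h4)])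
  refine ⟨C, xX η s, W, m, E, A₀, B₀, hC, ?_, ?_, hW, ?_, hcls⟩
  · intro v hv
    exact (hR v).2 ⟨hR₀ v hv, Or.inl hv⟩
  · intro v hv
    obtain ⟨⟨p, n⟩, rfl⟩ := (hZ v).1 hv
    rcases n with _ | n
    · exact hN p.1 p.2
    · exact (hf (p, some n)).1.2.1
  · intro d hd
    exact ⟨hΔ0 d hd, fun v hv => ⟨hnotin d hd v hv, H30MQ.eo_unit (hΔ0 d hd) (hnotin d hd v hv)⟩⟩

end H76MX

end S_H76_MX_Cf

section S_H30_MX_Fin

set_option autoImplicit false
set_option linter.unusedSectionVars false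
open scoped Classical

open WithZero NumberField IsDedekindDomain H38RT
open H38T1 (SC sc scu rep eo la si Pri OddP tp unif ka)
open H76PP H30ZO H36MT H36CY H30MQ

namespace H30MX

variable {K : Type} [Field K] [NumberField K]

/-- **The main theorem.** -/
theorem main_MX (hH : H76MX.Hilb K) (hcs : H76MX.ConicSplit K)
    {η : (u : HeightOneSpectrum (𝓞 K)) → SC (H76MX.Kv u)} (hη : ∀ u, η u ≠ 0)
    (hdy : H76MX.DyadicClass η) (hax : H76MX.AuxClass η)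
    (N : Type) [Field N] [NumberField N] [Algebra K N] (hgal : IsGalois K N)
    (hdeg : ∃ r : ℕ, Module.finrank K N = 2 ^ r)
    (hN : ∀ v : HeightOneSpectrum (𝓞 K), (2 : 𝓞 K) ∈ v.asIdeal → ∃ ι : N →+* v.adicCompletion K,
      ∀ x : K, ι (algebraMap K N x) = algebraMap K (v.adicCompletion K) x)
    (D : Finset (𝓞 K)) (hD : ∀ d ∈ D, d ≠ 0) :
    ∃ (S : Finset (HeightOneSpectrum (𝓞 K))) (c X₀ : ℝ), 0 < c ∧ ∀ X : ℝ, X₀ ≤ X →
      ∃ G : Finset (𝓞 K × 𝓞 K),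
        (∀ p ∈ G, p ∈ Bx K X ∧ 4 * p.1 ^ 3 + 27 * p.2 ^ 2 ≠ 0 ∧ AdmM K N S p ∧
          ∀ (L : Type) [Field L] [Algebra K L], AdmM K L S p →
            ∀ d ∈ Submonoid.closure (D : Set (𝓞 K)), PF K L (d ^ 2 * p.1, d ^ 3 * p.2)) ∧
        (∀ p ∈ G, ∀ q ∈ G, p.1 ^ 3 * q.2 ^ 2 = q.1 ^ 3 * p.2 ^ 2 → p = q) ∧
        c * ((Bx K X).ncard : ℝ) ≤ (G.card : ℝ) := by
  obtain ⟨R₀, hR₀⟩ : ∃ R₀ : Finset (HeightOneSpectrum (𝓞 K)), R₀ =
    (ramF_fin (K := K) N).toFinset.filter (fun v => (2 : 𝓞 K) ∉ v.asIdeal) := ⟨_, rfl⟩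
  obtain ⟨C, x, W, m, E, A₀, B₀, hC, hCR, hCZ, hW, hΔ, hcl⟩ :=
    H76MX.exists_configX K N hH.hf hη hdy hax hN R₀ (by
      intro v hv
      rw [hR₀] at hv
      exact (Finset.mem_filter.1 hv).2) D hD
  obtain ⟨S, c, X₀, hCS, hSZ, hc, h⟩ := H76MX.final_countX K hC hH hcs hW
    (fun d hd => ⟨(hΔ d hd).1, fun v hv => ((hΔ d hd).2 v hv).2⟩) hcl (H30PN.split_inf K N)
  refine ⟨S, c, X₀, hc, fun X hX => ?_⟩
  obtain ⟨G, h1, h3, h4⟩ := h X hX
  refine ⟨G, fun p hp => ?_, h3, h4⟩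
  obtain ⟨g1, g2, g3, g4⟩ := h1 p hp
  refine ⟨g1, ?_, ⟨hgal, ?_, ?_⟩, fun L _ _ hL d hd => pf_of_adm g2 (hΔ d hd).1 (g4 d hd) hL⟩
  · have h5 := (g4 1 (one_mem _) S subset_rfl).ne
    rw [one_pow, one_pow, one_mul, one_mul] at h5
    exact h5
  · intro N' _ _
    obtain ⟨r, hr⟩ := hdeg
    have h5 := Module.finrank_mul_finrank K N' N
    rw [hr] at h5
    obtain ⟨s, -, hs⟩ := (Nat.dvd_prime_pow Nat.prime_two).1 (Dvd.intro _ h5)
    exact ⟨s, hs⟩
  · intro v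
    by_cases hv2 : (2 : 𝓞 K) ∈ v.asIdeal
    · exact Or.inl (hN v hv2)
    by_cases hvR : v ∈ C.R
    · exact Or.inr (Or.inl ⟨hv2, g3 v hvR⟩)
    by_cases hvS : v ∈ S
    · left
      rcases hSZ v hvS with h5 | h5
      · rcases Finset.mem_union.1 h5 with h6 | h6
        · exact hCZ v h6
        · exact absurd h6 hvR
      · exact h5
    · refine Or.inr (Or.inr ⟨hvS, fun hr => hvR (hCR ?_)⟩)
      rw [hR₀]
      exact Finset.mem_filter.2 ⟨(ramF_fin (K := K) N).mem_toFinset.2 hr, hv2⟩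

end H30MX

end S_H30_MX_Fin
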