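import Mathlib
import Pool.Agent.H76.XP.X1
import Pool.Agent.H76.XP.X2
import Pool.Agent.H76.XP.X3
import Pool.Agent.H76.XP.X5

/-! This file joins several modules to save build time (X8). -/

set_option autoImplicit false

section S_H36_MX_Bf

set_option autoImplicit false
set_option linter.unusedSectionVars false
open scoped Classical

open WithZero NumberField IsDedekindDomain H38RT
open H38T1 (SC sc scu rep rep_ne sc_rep sc_mul sc_eq_zero sc_surj eo la si Pri OddP tp unif ka)
open H76PP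

namespace H36MX

variable {K : Type} [Field K] [NumberField K] {v : HeightOneSpectrum (𝓞 K)}

private theorem Bf_res (hv : OddP v) :
    ∃ (k : Type) (_ : Field k) (_ : Fintype k) (f : 𝓞 K →+* k), Function.Surjective f ∧
      ringChar k ≠ 2 ∧ ∀ x : 𝓞 K, f x = 0 ↔ v.valuation K (x : K) < 1 := by
  have hmax : v.asIdeal.IsMaximal := v.isMaximal
  have hfin : Finite (𝓞 K ⧸ v.asIdeal) := Ideal.finiteQuotientOfFreeOfNeBot v.asIdeal v.ne_bot
  refine ⟨𝓞 K ⧸ v.asIdeal, Ideal.Quotient.field v.asIdeal, Fintype.ofFinite _,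
    Ideal.Quotient.mk v.asIdeal, Ideal.Quotient.mk_surjective, ?_, ?_⟩
  · intro h
    have h1 : ((2 : ℕ) : 𝓞 K ⧸ v.asIdeal) = 0 := by
      have := ringChar.Nat.cast_ringChar (R := 𝓞 K ⧸ v.asIdeal)
      rwa [h] at this
    have h2 : Ideal.Quotient.mk v.asIdeal (2 : 𝓞 K) = 0 := by
      rw [map_ofNat]
      exact_mod_cast h1
    rw [Ideal.Quotient.eq_zero_iff_mem] at h2
    have h3 := (v.valuation_lt_one_iff_mem (K := K) _).2 h2
    have h4 : ((2 : 𝓞 K) : K) = 2 := map_ofNat (algebraMap (𝓞 K) K) 2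
    have h5 : v.valuation K 2 < 1 := lt_of_eq_of_lt (congrArg (v.valuation K) h4.symm) h3
    exact absurd hv h5.ne
  · intro x
    rw [Ideal.Quotient.eq_zero_iff_mem]
    exact (v.valuation_lt_one_iff_mem (K := K) x).symm

private theorem Bf_sqone {t : WithZero (Multiplicative ℤ)} (h : t * t = 1) : t = 1 := by
  have h' : t ^ 2 = 1 := by rw [sq, h]
  exact (pow_eq_one_iff.1 h').resolve_right two_ne_zero

/-- An integral unit which is not a square modulo `v`. -/
private theorem Bf_nonsq (hv : OddP v) :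
    ∃ b : 𝓞 K, v.valuation K (b : K) = 1 ∧ ¬ Sq (v.valuation K) (b : K) := by
  obtain ⟨k, _, _, f, hf, hchar, hz⟩ := Bf_res hv
  obtain ⟨β', hβ'⟩ := FiniteField.exists_nonsquare hchar
  obtain ⟨β, rfl⟩ := hf β'
  have hβ1 : v.valuation K (β : K) = 1 := by
    refine le_antisymm (v.valuation_le_one β) (not_lt.1 fun h => ?_)
    rw [← hz] at h
    exact hβ' (by rw [h]; exact IsSquare.zero)
  refine ⟨β, hβ1, ?_⟩
  rintro ⟨t, ht⟩
  have h1 : v.valuation K (t ^ 2) = 1 := by
    have e : t ^ 2 = β - (β - t ^ 2) := by ring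
    rw [e, Valuation.map_sub_eq_of_lt_left _ (by rw [hβ1]; exact ht), hβ1]
  have ht1 : v.valuation K t = 1 := by
    rw [map_pow, sq] at h1
    exact Bf_sqone h1
  obtain ⟨τ, hτ⟩ := Tf_approx v ht1.le
  apply hβ'
  refine ⟨f τ, ?_⟩
  have h2 : f (β - τ * τ) = 0 := by
    rw [hz]
    have e : ((β - τ * τ : 𝓞 K) : K) = (β - t ^ 2) + (t - τ) * (t + τ) := by
      push_cast
      ring
    rw [e]
    refine Valuation.map_add_lt _ ht ?_
    rw [map_mul]
    exact (mul_le_of_le_one_right' ((Valuation.map_add _ _ _).trans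
      (max_le ht1.le (v.valuation_le_one τ)))).trans_lt hτ
  rw [map_sub, map_mul, sub_eq_zero] at h2
  exact h2

/-- A unit with nontrivial Legendre class. -/
theorem exists_la (hv : OddP v) : ∃ n : 𝓞 K, n ∉ v.asIdeal ∧ eo v (sc (n : K)) = 0 ∧
    la v (sc (n : K)) = 1 := by
  obtain ⟨n, h1, h2⟩ := Bf_nonsq hv
  have hn0 : (n : K) ≠ 0 := by
    intro h
    rw [h, map_zero] at h1
    exact zero_ne_one h1
  refine ⟨n, ?_, ?_, ?_⟩
  · intro h
    have h3 := (v.valuation_lt_one_iff_mem (K := K) n).2 h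
    exact absurd h1 h3.ne
  · rw [H38T1.eo_sc hn0]
    have : ord (v.valuation K) (n : K) = 0 := by
      unfold ord
      rw [h1, log_one, neg_zero]
    rw [this, Int.cast_zero]
  · rw [H38T1.la_sc hv hn0, lam_unit h1, if_neg h2]

theorem rep_F (v : HeightOneSpectrum (𝓞 K)) {x : v.adicCompletion K} (hx : x ≠ 0) :
    ∃ y : K, y ≠ 0 ∧ ∃ r : v.adicCompletion K, r ≠ 0 ∧
      algebraMap K (v.adicCompletion K) y = x * r ^ 2 := by
  have _ := H36CY.char_zero v
  obtain ⟨y, hy⟩ := H36CY.near_coe v x (c := 4 * x) (mul_ne_zero (by norm_num) hx)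
  obtain ⟨r, hr, h⟩ := H36CY.sq_near hy
  refine ⟨y, ?_, r, hr, h⟩
  rintro rfl
  rw [map_zero] at h
  exact mul_ne_zero hx (pow_ne_zero 2 hr) h.symm

/-- Squares at odd places. -/
theorem sq_of_la (hv : OddP v) {x : K} (hx : x ≠ 0) (h1 : eo v (sc x) = 0)
    (h2 : la v (sc x) = 0) : IsSquare (algebraMap K (v.adicCompletion K) x) := by
  by_contra h
  have hx' : algebraMap K (v.adicCompletion K) x ≠ 0 := (map_ne_zero _).2 hx
  obtain ⟨b, hb, hb1⟩ := (hf_odd hv).nd _ hx' h
  obtain ⟨b', hb', r, hr, hbr⟩ := rep_F v hb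
  have h3 : hsv v x b' = 1 := by
    unfold hsv
    rw [hs_congr_right hr hbr]
    exact hb1
  rw [hs_odd hv hx hb'] at h3
  unfold tp at h3
  rw [h1, h2] at h3
  simp at h3

/-- The converse for units. -/
theorem nsq_of_la (hv : OddP v) {x : K} (hx : x ≠ 0)
    (h2 : la v (sc x) = 1) (h1 : eo v (sc x) = 0) : ¬ IsSquare (algebraMap K (v.adicCompletion K) x) := by
  intro h
  have hu0 : unif v ≠ 0 := by
    intro h0
    have h4 := H38T1.unif_spec v
    rw [h0, map_zero] at h4
    exact exp_ne_zero h4.symm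
  have h3 : hsv v x (unif v) = 0 := hs_of_sq ((map_ne_zero _).2 hx) h
  rw [hs_odd hv hx hu0] at h3
  unfold tp at h3
  have h5 : eo v (sc (unif v)) = 1 := by
    rw [H38T1.eo_sc hu0]
    have : ord (v.valuation K) (unif v) = 1 := by
      unfold ord
      rw [H38T1.unif_spec, log_exp, neg_neg]
    rw [this, Int.cast_one]
  rw [h1, h2, h5] at h3
  simp at h3

theorem sc_eq_of_sq {F : Type} [Field F] {x y : F} (hx : x ≠ 0) (hy : y ≠ 0)
    (h : IsSquare (x * y)) : sc x = sc y := by
  have h1 := (sc_eq_zero (mul_ne_zero hx hy)).2 h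
  rw [sc_mul hx hy] at h1
  have h2 := H38T1.SC.two_smul (sc y)
  rw [two_nsmul] at h2
  calc sc x = sc x + (sc y + sc y) := by rw [h2, add_zero]
    _ = (sc x + sc y) + sc y := by rw [add_assoc]
    _ = sc y := by rw [h1, zero_add]

theorem odd_of_six {u : HeightOneSpectrum (𝓞 K)} (h6 : (6 : 𝓞 K) ∉ u.asIdeal) :
    OddP u ∧ u.valuation K 6 = 1 ∧ u.valuation K 3 = 1 := by
  have e6 : (6 : 𝓞 K) = 2 * 3 := by norm_num
  have h2 : (2 : 𝓞 K) ∉ u.asIdeal := fun h => h6 (by rw [e6]; exact Ideal.mul_mem_right _ _ h)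
  have h3 : (3 : 𝓞 K) ∉ u.asIdeal := fun h => h6 (by rw [e6]; exact Ideal.mul_mem_left _ _ h)
  have c2 := (u.valuation_eq_one_iff_notMem (K := K) (r := (2 : 𝓞 K))).2 h2
  have c3 := (u.valuation_eq_one_iff_notMem (K := K) (r := (3 : 𝓞 K))).2 h3
  have c6 := (u.valuation_eq_one_iff_notMem (K := K) (r := (6 : 𝓞 K))).2 h6
  have d2 : algebraMap (𝓞 K) K 2 = 2 := map_ofNat _ 2
  have d3 : algebraMap (𝓞 K) K 3 = 3 := map_ofNat _ 3
  have d6 : algebraMap (𝓞 K) K 6 = 6 := map_ofNat _ 6
  rw [d2] at c2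
  rw [d3] at c3
  rw [d6] at c6
  exact ⟨c2, c6, c3⟩

/-- membership in a power of a prime and the valuation -/
theorem mem_pow_iff (u : HeightOneSpectrum (𝓞 K)) (x : 𝓞 K) (n : ℕ) :
    x ∈ u.asIdeal ^ n ↔ u.valuation K (x : K) ≤ exp (-(n : ℤ)) := by
  rw [← u.intValuation_le_pow_iff_mem, u.valuation_of_algebraMap]

end H36MX

end S_H36_MX_Bf

section S_H36_MX_Bg

set_option autoImplicit false
set_option linter.unusedSectionVars false
open scoped Classical

open WithZero NumberField IsDedekindDomain H38RT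
open H38T1 (SC sc scu rep rep_ne sc_rep sc_mul sc_eq_zero sc_surj eo la si Pri OddP tp unif ka)
open H76PP H76MX

namespace H36MX

variable {K : Type} [Field K] [NumberField K]

/-- The class at a place above two. -/
theorem dyadic_at {u : HeightOneSpectrum (𝓞 K)} (h2 : (2 : 𝓞 K) ∈ u.asIdeal)
    {g0 : u.adicCompletion K} (hg0 : Unr g0) : ∃ N : ℕ,
    dsc (-91 : 𝓞 K) (-330) ∉ u.asIdeal ^ N ∧ ∀ A B : 𝓞 K, A - (-91) ∈ u.asIdeal ^ N →
      B - (-330) ∈ u.asIdeal ^ N → ∃ e : Fin 3 → Kv u,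
        Spl (algebraMap K (Kv u) (A : K)) (algebraMap K (Kv u) (B : K)) e ∧
        ∀ d : 𝓞 K, d ≠ 0 → CondAt u A B e d
          (if sc (algebraMap K (Kv u) (d : K)) = 0 then sc g0 else
            sc (algebraMap K (Kv u) (d : K))) := by
  have h2v : u.valuation K 2 < 1 := by
    have h := (u.valuation_lt_one_iff_mem (K := K) (2 : 𝓞 K)).2 h2
    exact lt_of_eq_of_lt (congrArg (u.valuation K) (map_ofNat (algebraMap (𝓞 K) K) 2).symm) h
  have h20 : (2 : K) ≠ 0 := two_ne_zero
  obtain ⟨n, hn⟩ : ∃ n : ℕ, u.valuation K 2 = exp (-(n : ℤ)) := by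
    refine ⟨(-log (u.valuation K 2)).toNat, ?_⟩
    have h0 : u.valuation K 2 ≠ 0 := (Valuation.ne_zero_iff _).2 h20
    have h1 : log (u.valuation K 2) ≤ 0 := by
      have h3 := (log_le_log h0 one_ne_zero).2 h2v.le
      rwa [log_one] at h3
    rw [Int.toNat_of_nonneg (by omega), neg_neg, exp_log h0]
  have hn0 : 0 < n := by
    rcases Nat.eq_zero_or_pos n with h | h
    · rw [h] at hn
      norm_num at hn
      exact absurd hn h2v.ne
    · exact h
  have hpow : ∀ k : ℕ, u.valuation K ((2 : K) ^ k) = exp (-((k * n : ℕ) : ℤ)) := by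
    intro k
    rw [map_pow, hn, ← exp_nsmul, nsmul_eq_mul]
    congr 1
    push_cast
    ring
  have hpowF : ∀ k : ℕ, Valued.v ((2 : u.adicCompletion K) ^ k) = exp (-((k * n : ℕ) : ℤ)) := by
    intro k
    have e1 : (2 : u.adicCompletion K) ^ k = algebraMap K (u.adicCompletion K) (2 ^ k) := by
      rw [map_pow, map_ofNat]
    rw [e1, H36CY.val_coe, hpow]
  refine ⟨14 * n, ?_, ?_⟩
  · intro hmem
    rw [mem_pow_iff] at hmem
    have e1 : ((dsc (-91 : 𝓞 K) (-330) : 𝓞 K) : K) = -(2 ^ 8 * 17 ^ 2) := by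
      unfold dsc
      simp only [map_add, map_mul, map_pow, map_neg, map_ofNat]
      norm_num
    have h17 : u.valuation K 17 = 1 := by
      have e2 : (17 : K) = 1 + 2 ^ 4 := by norm_num
      have h3 : u.valuation K (2 ^ 4) < 1 := by
        rw [hpow]
        rw [← exp_zero, exp_lt_exp]
        omega
      rw [e2]
      exact Valuation.map_one_add_of_lt _ h3
    rw [e1, Valuation.map_neg, map_mul, hpow, map_pow, h17, one_pow, mul_one, exp_le_exp] at hmem
    push_cast at hmem
    have : (0 : ℤ) < n := by exact_mod_cast hn0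
    omega
  · intro A B hA hB
    rw [mem_pow_iff] at hA hB
    have eA : ((A - (-91) : 𝓞 K) : K) = (A : K) + 91 := by
      simp only [map_sub, map_neg, map_ofNat]
      ring
    have eB : ((B - (-330) : 𝓞 K) : K) = (B : K) + 330 := by
      simp only [map_sub, map_neg, map_ofNat]
      ring
    rw [eA] at hA
    rw [eB] at hB
    obtain ⟨e, hs, hδ, h1, h16⟩ := roots_two (v := u) h2v
      (a := algebraMap K (u.adicCompletion K) (A : K))
      (b := algebraMap K (u.adicCompletion K) (B : K)) (by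
        have e3 : algebraMap K (u.adicCompletion K) (A : K) + 91 =
            algebraMap K (u.adicCompletion K) ((A : K) + 91) := by
          rw [map_add, map_ofNat]
        rw [e3, H36CY.val_coe, hpowF]
        exact hA) (by
        have e3 : algebraMap K (u.adicCompletion K) (B : K) + 330 =
            algebraMap K (u.adicCompletion K) ((B : K) + 330) := by
          rw [map_add, map_ofNat]
        rw [e3, H36CY.val_coe, hpowF]
        exact hB)
    refine ⟨e, hs, fun d hd => ?_⟩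
    have hd' : algebraMap K (u.adicCompletion K) (d : K) ≠ 0 := by
      refine (map_ne_zero _).2 fun h => hd ?_
      exact RingOfIntegers.coe_eq_zero_iff.1 h
    have h5 := condAt_two h2v (hf_two h2v) (A := A) (B := B) hδ h1 h16 hg0 hd
    have h6 : sc (algebraMap K (Kv u) (d : K)) = 0 ↔
        IsSquare (algebraMap K (u.adicCompletion K) (d : K)) := sc_eq_zero hd'
    by_cases h7 : IsSquare (algebraMap K (u.adicCompletion K) (d : K))
    · rw [if_pos h7] at h5
      rw [if_pos (h6.2 h7)]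
      exact h5
    · rw [if_neg h7] at h5
      rw [if_neg (fun h => h7 (h6.1 h))]
      exact h5

/-- The classes at an auxiliary place. -/
theorem aux_at {u : HeightOneSpectrum (𝓞 K)} (h6 : (6 : 𝓞 K) ∉ u.asIdeal) {n : 𝓞 K}
    (hn : n ∉ u.asIdeal) (hne : eo u (sc (n : K)) = 0) (hnl : la u (sc (n : K)) = 1) (s : ZMod 2) :
    ∃ (a b : 𝓞 K) (N : ℕ),
    dsc a b ∉ u.asIdeal ^ N ∧ ∀ A B : 𝓞 K, A - a ∈ u.asIdeal ^ N →
      B - b ∈ u.asIdeal ^ N → ∃ e : Fin 3 → Kv u,
        Spl (algebraMap K (Kv u) (A : K)) (algebraMap K (Kv u) (B : K)) e ∧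
        ∀ d : 𝓞 K, d ≠ 0 → eo u (sc (d : K)) = 0 → CondAt u A B e d
          (if la u (sc (d : K)) + s = 0 then 0 else sc (algebraMap K (Kv u) (n : K))) := by
  obtain ⟨hodd, hv6, hv3⟩ := odd_of_six h6
  have hn0 : (n : K) ≠ 0 := by
    intro h
    exact hn (by
      have : n = 0 := RingOfIntegers.coe_eq_zero_iff.1 h
      rw [this]
      exact Ideal.zero_mem _)
  -- the unit
  obtain ⟨σ, hσ, hσe, hσl⟩ : ∃ σ : 𝓞 K, σ ∉ u.asIdeal ∧ eo u (sc (σ : K)) = 0 ∧
      la u (sc (σ : K)) = s := by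
    have hs2 : s = 0 ∨ s = 1 := by
      revert s
      decide
    rcases hs2 with rfl | rfl
    · refine ⟨1, ?_, ?_, ?_⟩
      · intro h
        exact u.isPrime.ne_top ((Ideal.eq_top_iff_one _).2 h)
      · have e1 : ((1 : 𝓞 K) : K) = 1 := map_one _
        rw [e1, (sc_eq_zero one_ne_zero).2 IsSquare.one]
        exact H38T1.eo_zero u
      · have e1 : ((1 : 𝓞 K) : K) = 1 := map_one _
        rw [e1, (sc_eq_zero one_ne_zero).2 IsSquare.one]
        exact H38T1.la_zero hodd
    · exact ⟨n, hn, hne, hnl⟩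
  have hσv : u.valuation K (σ : K) = 1 := u.valuation_eq_one_iff_notMem.2 hσ
  have hσ0 : (σ : K) ≠ 0 := by
    intro h
    rw [h, map_zero] at hσv
    exact zero_ne_one hσv
  obtain ⟨π, hπ⟩ := u.intValuation_exists_uniformizer
  have hπv : u.valuation K (π : K) = exp (-1 : ℤ) := by
    rw [u.valuation_of_algebraMap]
    exact hπ
  obtain ⟨t, ht⟩ : ∃ t : 𝓞 K, t = 3 * σ * π ^ 2 := ⟨_, rfl⟩
  have htK : (t : K) = 3 * (σ : K) * (π : K) ^ 2 := by
    rw [ht]
    push_cast
    rfl
  have htv : u.valuation K (t : K) = exp (-2 : ℤ) := by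
    rw [htK, map_mul, map_mul, map_pow, hv3, hσv, hπv, one_mul, one_mul, ← exp_nsmul]
    norm_num
  refine ⟨-(27 * σ ^ 2 + 9 * σ * t + 3 * t ^ 2),
    54 * σ ^ 3 + 27 * σ ^ 2 * t - 9 * σ * t ^ 2 - 2 * t ^ 3, 5, ?_, ?_⟩
  · intro hmem
    rw [mem_pow_iff] at hmem
    have e1 : ((dsc (-(27 * σ ^ 2 + 9 * σ * t + 3 * t ^ 2))
        (54 * σ ^ 3 + 27 * σ ^ 2 * t - 9 * σ * t ^ 2 - 2 * t ^ 3) : 𝓞 K) : K) =
        -(3 * 3 * (σ : K) * (3 * 3 * (σ : K) + 3 * (t : K)) * (3 * (t : K))) ^ 2 := by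
      unfold dsc
      simp only [map_add, map_sub, map_mul, map_pow, map_neg, map_ofNat]
      ring
    have h9 : u.valuation K (3 * 3 * (σ : K) + 3 * (t : K)) = 1 := by
      rw [Valuation.map_add_eq_of_lt_left]
      · rw [map_mul, map_mul, hv3, hσv]
        simp
      · rw [map_mul, map_mul, map_mul, hv3, hσv, htv]
        simp only [one_mul]
        rw [← exp_zero, exp_lt_exp]
        norm_num
    rw [e1, Valuation.map_neg, map_pow, map_mul, map_mul, h9, map_mul, map_mul, map_mul, hv3, hσv,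
      htv] at hmem
    simp only [one_mul, mul_one] at hmem
    rw [← exp_nsmul, exp_le_exp] at hmem
    norm_num at hmem
  · intro A B hA hB
    rw [mem_pow_iff] at hA hB
    obtain ⟨e, hs, h1, hτ, hsq⟩ := roots_odd (v := u) hv6
      (s := algebraMap K (u.adicCompletion K) (σ : K)) (t := algebraMap K (u.adicCompletion K) (t : K))
      (a := algebraMap K (u.adicCompletion K) (A : K))
      (b := algebraMap K (u.adicCompletion K) (B : K))
      (by rw [H36CY.val_coe]; exact hσv) (by rw [H36CY.val_coe]; exact htv)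
      (by
        refine ⟨algebraMap K (u.adicCompletion K) (3 * (σ : K) * (π : K)), ?_⟩
        have e3 : (3 : u.adicCompletion K) = algebraMap K (u.adicCompletion K) 3 := by
          rw [map_ofNat]
        rw [e3, ← map_mul, ← map_mul, ← map_mul, htK]
        congr 1
        ring)
      (by
        have e3 : algebraMap K (u.adicCompletion K) (A : K) +
            (27 * algebraMap K (u.adicCompletion K) (σ : K) ^ 2 +
              9 * algebraMap K (u.adicCompletion K) (σ : K) *
                algebraMap K (u.adicCompletion K) (t : K) +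
              3 * algebraMap K (u.adicCompletion K) (t : K) ^ 2) =
            algebraMap K (u.adicCompletion K)
              ((A - -(27 * σ ^ 2 + 9 * σ * t + 3 * t ^ 2) : 𝓞 K) : K) := by
          simp only [map_sub, map_add, map_mul, map_pow, map_neg, map_ofNat]
          ring
        rw [e3, H36CY.val_coe]
        exact hA)
      (by
        have e3 : algebraMap K (u.adicCompletion K) (B : K) -
            (54 * algebraMap K (u.adicCompletion K) (σ : K) ^ 3 +
              27 * algebraMap K (u.adicCompletion K) (σ : K) ^ 2 *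
                algebraMap K (u.adicCompletion K) (t : K) -
              9 * algebraMap K (u.adicCompletion K) (σ : K) *
                algebraMap K (u.adicCompletion K) (t : K) ^ 2 -
              2 * algebraMap K (u.adicCompletion K) (t : K) ^ 3) =
            algebraMap K (u.adicCompletion K)
              ((B - (54 * σ ^ 3 + 27 * σ ^ 2 * t - 9 * σ * t ^ 2 - 2 * t ^ 3) : 𝓞 K) : K) := by
          simp only [map_sub, map_add, map_mul, map_pow, map_ofNat]
        rw [e3, H36CY.val_coe]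
        exact hB)
    refine ⟨e, hs, fun d hd hde => ?_⟩
    have hd0 : (d : K) ≠ 0 := fun h => hd (RingOfIntegers.coe_eq_zero_iff.1 h)
    have h5 := condAt_odd hodd (A := A) (B := B) h1 hτ
      (fun h => hσ (by rw [h]; exact Ideal.zero_mem _)) hsq hd hde
    have edσ : ((d * σ : 𝓞 K) : K) = (d : K) * (σ : K) := by
      push_cast
      rfl
    have hdσ0 : (d : K) * (σ : K) ≠ 0 := mul_ne_zero hd0 hσ0
    have hdσe : eo u (sc ((d : K) * (σ : K))) = 0 := by
      rw [sc_mul hd0 hσ0, H38T1.eo_add, hde, hσe, add_zero]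
    have hdσl : la u (sc ((d : K) * (σ : K))) = la u (sc (d : K)) + s := by
      rw [sc_mul hd0 hσ0, H38T1.la_add hodd, hσl]
    rw [edσ] at h5
    by_cases h7 : la u (sc (d : K)) + s = 0
    · rw [if_pos h7]
      have h8 : sc (algebraMap K (u.adicCompletion K) ((d : K) * (σ : K))) = 0 :=
        (sc_eq_zero ((map_ne_zero _).2 hdσ0)).2 (sq_of_la hodd hdσ0 hdσe (by rw [hdσl, h7]))
      rw [h8] at h5
      exact h5
    · rw [if_neg h7]
      have h7' : la u (sc (d : K)) + s = 1 := by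
        revert h7
        generalize la u (sc (d : K)) + s = z
        revert z
        decide
      have h8 : sc (algebraMap K (u.adicCompletion K) ((d : K) * (σ : K))) =
          sc (algebraMap K (u.adicCompletion K) (n : K)) := by
        refine sc_eq_of_sq ((map_ne_zero _).2 hdσ0) ((map_ne_zero _).2 hn0) ?_
        rw [← map_mul]
        refine sq_of_la hodd (mul_ne_zero hdσ0 hn0) ?_ ?_
        · rw [sc_mul hdσ0 hn0, H38T1.eo_add, hdσe, hne, add_zero]
        · rw [sc_mul hdσ0 hn0, H38T1.la_add hodd, hdσl, h7', hnl]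
          decide
      rw [h8] at h5
      exact h5

/-- The local data at all places. -/
theorem exists_eta (K : Type) [Field K] [NumberField K] :
    ∃ η : (u : HeightOneSpectrum (𝓞 K)) → SC (Kv u), (∀ u, η u ≠ 0) ∧ DyadicClass η ∧
      AuxClass η := by
  have h2v : ∀ u : HeightOneSpectrum (𝓞 K), (2 : 𝓞 K) ∈ u.asIdeal → u.valuation K 2 < 1 := by
    intro u h2
    have h := (u.valuation_lt_one_iff_mem (K := K) (2 : 𝓞 K)).2 h2
    exact lt_of_eq_of_lt (congrArg (u.valuation K) (map_ofNat (algebraMap (𝓞 K) K) 2).symm) h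
  have hodd : ∀ u : HeightOneSpectrum (𝓞 K), (2 : 𝓞 K) ∉ u.asIdeal → OddP u := by
    intro u h2
    have d2 : algebraMap (𝓞 K) K 2 = 2 := map_ofNat _ 2
    have h := (u.valuation_eq_one_iff_notMem (K := K) (r := (2 : 𝓞 K))).2 h2
    rw [d2] at h
    exact h
  have key : ∀ u : HeightOneSpectrum (𝓞 K), ∃ x : SC (Kv u), x ≠ 0 ∧
      ((2 : 𝓞 K) ∈ u.asIdeal → ∃ g0 : Kv u, Unr g0 ∧ x = sc g0) ∧
      ((2 : 𝓞 K) ∉ u.asIdeal → ∃ n : 𝓞 K, n ∉ u.asIdeal ∧ eo u (sc (n : K)) = 0 ∧
        la u (sc (n : K)) = 1 ∧ x = sc (algebraMap K (Kv u) (n : K))) := by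
    intro u
    by_cases h2 : (2 : 𝓞 K) ∈ u.asIdeal
    · obtain ⟨g0, hg0⟩ := exists_unr (h2v u h2)
      have hg : g0 ≠ 0 := by
        intro h
        have h1 := unr_one (h2v u h2) hg0
        rw [h, map_zero] at h1
        exact zero_ne_one h1
      refine ⟨sc g0, ?_, fun _ => ⟨g0, hg0, rfl⟩, fun h => absurd h2 h⟩
      intro h
      exact unr_nsq (h2v u h2) hg0 ((sc_eq_zero hg).1 h)
    · obtain ⟨n, hn, hne, hnl⟩ := exists_la (hodd u h2)
      have hn0 : (n : K) ≠ 0 := by
        intro h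
        exact hn (by
          have : n = 0 := RingOfIntegers.coe_eq_zero_iff.1 h
          rw [this]
          exact Ideal.zero_mem _)
      refine ⟨sc (algebraMap K (Kv u) (n : K)), ?_, fun h => absurd h h2,
        fun _ => ⟨n, hn, hne, hnl, rfl⟩⟩
      intro h
      exact nsq_of_la (hodd u h2) hn0 hnl hne ((sc_eq_zero ((map_ne_zero _).2 hn0)).1 h)
  choose η hη0 hη2 hηo using key
  refine ⟨η, hη0, ?_, ?_⟩
  · intro u hu
    obtain ⟨g0, hg0, hx⟩ := hη2 u hu
    rw [hx]
    exact dyadic_at hu hg0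
  · intro u hu s
    have e6 : (6 : 𝓞 K) = 2 * 3 := by norm_num
    obtain ⟨n, hn, hne, hnl, hx⟩ := hηo u
      (fun h => hu (by rw [e6]; exact Ideal.mul_mem_right _ _ h))
    rw [hx]
    exact aux_at hu hn hne hnl s

end H36MX

end S_H36_MX_Bg
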