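import Mathlib
import Pool.Agent.H38.T1.Ea
import Pool.Agent.H88.T7.Un
import Pool.Agent.H76.XP.X1
import Pool.Agent.H76.XP.X2
import Pool.Agent.H76.XP.X3
import Pool.Agent.H76.XP.X5
import Pool.Agent.H76.XP.X8

/-! This file joins several modules to save build time (X9). -/

set_option autoImplicit false

section S_H36_MX_Hf

set_option autoImplicit false
set_option linter.unusedSectionVars false
open scoped Classical

open WithZero NumberField IsDedekindDomain H38RT
open H38T1 (SC sc scu rep rep_ne sc_rep sc_mul sc_eq_zero sc_surj eo la si Pri OddP tp unif ka)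
open H76PP

namespace H36MX

variable {K : Type} [Field K] [NumberField K] {v : HeightOneSpectrum (𝓞 K)}

private theorem Hf_val (x : K) :
    Valued.v (algebraMap K (v.adicCompletion K) x) = v.valuation K x :=
  v.valuedAdicCompletion_eq_valuation' (K := K) x

private theorem Hf_le {R : Type} [Field R] (W : Valuation R (WithZero (Multiplicative ℤ)))
    {z c t : R} (hz : W z = 1) (hc : W c ≤ 1) (ht : W (t ^ 2 + z * t + c) ≤ 1) : W t ≤ 1 := by
  by_contra hcon
  rw [not_le] at hcon
  have hzt : W (z * t + c) < W (t ^ 2) := by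
    refine lt_of_le_of_lt (W.map_add _ _) (max_lt ?_ ?_)
    · rw [map_mul, hz, one_mul, map_pow, pow_two]
      exact lt_mul_of_one_lt_left (zero_lt_one.trans hcon) hcon
    · rw [map_pow]
      exact lt_of_le_of_lt hc (one_lt_pow₀ hcon two_ne_zero)
  have e : W (t ^ 2 + z * t + c) = W (t ^ 2) := by
    rw [add_assoc]
    exact Valuation.map_add_eq_of_lt_left W hzt
  rw [e, map_pow] at ht
  exact absurd (one_lt_pow₀ hcon two_ne_zero) (not_lt.2 ht)

private theorem Hf_sq (h2 : v.valuation K 2 < 1) {z c t : K} (hz : v.valuation K z = 1)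
    (hc : v.valuation K c ≤ 1) (ht : v.valuation K (t ^ 2 + z * t + c) < 1) :
    IsSquare (algebraMap K (v.adicCompletion K) (z ^ 2 - 4 * c)) := by
  have ht1 : v.valuation K t ≤ 1 := Hf_le _ hz hc ht.le
  have hu : v.valuation K (2 * t + z) = 1 := by
    rw [← hz]
    refine Valuation.map_add_eq_of_lt_right _ ?_
    rw [hz, map_mul]
    exact mul_lt_one_of_lt_of_le h2 ht1
  have h4 : v.valuation K 4 ≠ 0 := (Valuation.ne_zero_iff _).2 (by norm_num)
  have hcz : CharZero (v.adicCompletion K) := H36CY.char_zero v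
  obtain ⟨r, -, hr⟩ := H36CY.sq_near
    (y := algebraMap K (v.adicCompletion K) (z ^ 2 - 4 * c))
    (z := algebraMap K (v.adicCompletion K) ((2 * t + z) ^ 2)) (by
    have e4 : (4 : v.adicCompletion K) = algebraMap K (v.adicCompletion K) 4 :=
      (map_ofNat _ 4).symm
    rw [e4, ← map_sub, ← map_mul, Hf_val, Hf_val]
    have e1 : z ^ 2 - 4 * c - (2 * t + z) ^ 2 = -(4 * (t ^ 2 + z * t + c)) := by ring
    rw [e1, Valuation.map_neg, map_mul, map_mul, map_pow, hu, one_pow]
    exact mul_lt_mul_of_pos_left ht (zero_lt_iff.2 h4))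
  refine ⟨algebraMap K (v.adicCompletion K) (2 * t + z) * r, ?_⟩
  rw [hr, map_pow]
  ring

private theorem Hf_nsq {z c : K} (hz : v.valuation K z = 1)
    (hc : v.valuation K c ≤ 1) (hk : ¬ ∃ t : K, v.valuation K (t ^ 2 + z * t + c) < 1) :
    ¬ IsSquare (algebraMap K (v.adicCompletion K) (z ^ 2 - 4 * c)) := by
  rintro ⟨R, hR⟩
  have hcz : CharZero (v.adicCompletion K) := H36CY.char_zero v
  have h20 : (2 : v.adicCompletion K) ≠ 0 := by norm_num
  have h40 : (4 : v.adicCompletion K) ≠ 0 := by norm_num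
  obtain ⟨T, hT⟩ : ∃ T : v.adicCompletion K,
      R = 2 * T + algebraMap K (v.adicCompletion K) z :=
    ⟨(R - algebraMap K (v.adicCompletion K) z) / 2, by
      rw [mul_div_cancel₀ _ h20]; ring⟩
  have e0 : T ^ 2 + algebraMap K (v.adicCompletion K) z * T +
      algebraMap K (v.adicCompletion K) c = 0 := by
    have e1 : (4 : v.adicCompletion K) * (T ^ 2 + algebraMap K (v.adicCompletion K) z * T +
        algebraMap K (v.adicCompletion K) c) = 0 := by
      rw [map_sub, map_mul, map_pow, map_ofNat, hT] at hR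
      linear_combination -hR
    exact (mul_eq_zero.1 e1).resolve_left h40
  have hT1 : Valued.v T ≤ 1 := by
    refine Hf_le Valued.v (z := algebraMap K (v.adicCompletion K) z)
      (c := algebraMap K (v.adicCompletion K) c) ?_ ?_ ?_
    · rw [Hf_val]; exact hz
    · rw [Hf_val]; exact hc
    · rw [e0, map_zero]; exact zero_le
  obtain ⟨k, hk1⟩ := H36CY.near_coe v T one_ne_zero
  rw [map_one] at hk1
  apply hk
  refine ⟨k, ?_⟩
  rw [← Hf_val]
  have e1 : algebraMap K (v.adicCompletion K) (k ^ 2 + z * k + c) =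
      (algebraMap K (v.adicCompletion K) k - T) *
        (algebraMap K (v.adicCompletion K) k + T + algebraMap K (v.adicCompletion K) z) := by
    rw [map_add, map_add, map_mul, map_pow]
    linear_combination e0
  rw [e1, map_mul]
  refine mul_lt_one_of_lt_of_le hk1 ?_
  have hk2 : Valued.v (algebraMap K (v.adicCompletion K) k) ≤ 1 := by
    have e2 : algebraMap K (v.adicCompletion K) k =
        (algebraMap K (v.adicCompletion K) k - T) + T := by ring
    rw [e2]
    exact Valuation.map_add_le _ hk1.le hT1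
  refine Valuation.map_add_le _ (Valuation.map_add_le _ hk2 hT1) ?_
  rw [Hf_val]
  exact hz.le

private theorem Hf_zmod (w : ZMod 2) (h : w ≠ 0) : w = 1 := by
  revert w
  decide

theorem hs_pri (h2 : v.valuation K 2 < 1) (hF : HF (v.adicCompletion K)) {x y : K} (hx : x ≠ 0)
    (hy : y ≠ 0) (hP : Pri v (sc y)) : hsv v x y = eo v (sc x) * ka v (sc y) := by
  obtain ⟨s, hs0, hrep⟩ := H38T1.rep_sc hy
  obtain ⟨t, z, c, ht, hz, hc, he⟩ := hP
  obtain ⟨q, d, ψ, hl⟩ := H38T1.loc_of v
  have hka : ka v (sc y) = kap (v.valuation K) z c :=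
    kp_eq hl h2 two_ne_zero ht hz hc he
  have hcz : CharZero (v.adicCompletion K) := H36CY.char_zero v
  have hιx : algebraMap K (v.adicCompletion K) x ≠ 0 := (map_ne_zero _).2 hx
  have hιs : algebraMap K (v.adicCompletion K) s ≠ 0 := (map_ne_zero _).2 hs0
  have hιt : algebraMap K (v.adicCompletion K) t ≠ 0 := (map_ne_zero _).2 ht
  have hιz : algebraMap K (v.adicCompletion K) z ≠ 0 := by
    refine (map_ne_zero _).2 ?_
    rintro rfl
    rw [map_zero] at hz
    exact zero_ne_one hz
  have hD0 : algebraMap K (v.adicCompletion K) (z ^ 2 - 4 * c) ≠ 0 := by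
    refine (map_ne_zero _).2 ?_
    intro h
    rw [h, mul_zero, hrep] at he
    exact mul_ne_zero hy (pow_ne_zero 2 hs0) he
  have e1 : algebraMap K (v.adicCompletion K) y =
      algebraMap K (v.adicCompletion K) (z ^ 2 - 4 * c) *
        (algebraMap K (v.adicCompletion K) t / algebraMap K (v.adicCompletion K) s) ^ 2 := by
    have e2 : algebraMap K (v.adicCompletion K) (y * s ^ 2) =
        algebraMap K (v.adicCompletion K) (t ^ 2 * (z ^ 2 - 4 * c)) := by
      rw [← hrep, he]
    rw [map_mul, map_mul, map_pow, map_pow] at e2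
    rw [div_pow, mul_div_assoc', eq_div_iff (pow_ne_zero 2 hιs), e2]
    ring
  have e3 : hsv v x y = hs (algebraMap K (v.adicCompletion K) x)
      (algebraMap K (v.adicCompletion K) (z ^ 2 - 4 * c)) :=
    hs_congr_right (div_ne_zero hιt hιs) e1
  rw [e3, hka]
  by_cases hk : ∃ t : K, v.valuation K (t ^ 2 + z * t + c) < 1
  · have hk0 : kap (v.valuation K) z c = 0 := if_pos hk
    obtain ⟨t₀, ht₀⟩ := hk
    rw [hk0, mul_zero, hs_comm]
    exact hs_of_sq hD0 (Hf_sq h2 hz hc ht₀)
  · have hk1 : kap (v.valuation K) z c = 1 := if_neg hk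
    have hns := Hf_nsq (v := v) hz hc hk
    obtain ⟨g, hg⟩ := exists_unr (v := v) h2
    have hg0 : g ≠ 0 := by
      intro h
      have h1 := unr_one h2 hg
      rw [h, map_zero] at h1
      exact zero_ne_one h1
    obtain ⟨u, hu⟩ : ∃ u : v.adicCompletion K,
        u = -(4 * algebraMap K (v.adicCompletion K) c /
          (algebraMap K (v.adicCompletion K) z) ^ 2) := ⟨_, rfl⟩
    have hDu : algebraMap K (v.adicCompletion K) (z ^ 2 - 4 * c) =
        (algebraMap K (v.adicCompletion K) z) ^ 2 * (1 + u) := by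
      rw [hu, map_sub, map_mul, map_pow, map_ofNat]
      field_simp
      ring
    have huv : Valued.v u ≤ Valued.v (4 : v.adicCompletion K) := by
      rw [hu, Valuation.map_neg, map_div₀, map_mul, map_pow, Hf_val, Hf_val, hz, one_pow, div_one]
      exact mul_le_of_le_one_right' hc
    rcases unr_cases h2 hg huv with h | h
    · exfalso
      obtain ⟨r, hr⟩ := h
      exact hns ⟨algebraMap K (v.adicCompletion K) z * r, by rw [hDu, hr]; ring⟩
    · obtain ⟨r, hr⟩ := h
      have e4 : algebraMap K (v.adicCompletion K) (z ^ 2 - 4 * c) =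
          g * (algebraMap K (v.adicCompletion K) z * r / g) ^ 2 := by
        rw [hDu, div_pow, mul_pow, sq r, ← hr]
        field_simp
      have hr0 : algebraMap K (v.adicCompletion K) z * r / g ≠ 0 := by
        intro h0
        rw [h0] at e4
        apply hD0
        rw [e4]
        ring
      have e5 : hs (algebraMap K (v.adicCompletion K) x)
          (algebraMap K (v.adicCompletion K) (z ^ 2 - 4 * c)) =
          hs g (algebraMap K (v.adicCompletion K) x) := by
        rw [hs_congr_right hr0 e4, hs_comm]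
      rw [e5, hk1, mul_one, H38T1.eo_sc hx]
      have hev := unr_even h2 hF hg hιx
      have hvx : v.valuation K x ≠ 0 := (Valuation.ne_zero_iff _).2 hx
      rw [Hf_val] at hev
      have hord : (∃ n : ℤ, v.valuation K x = exp (2 * n)) ↔
          ((ord (v.valuation K) x : ℤ) : ZMod 2) = 0 := by
        rw [ZMod.intCast_zmod_eq_zero_iff_dvd]
        unfold ord
        constructor
        · rintro ⟨n, hn⟩
          rw [hn, log_exp]
          exact ⟨-n, by push_cast; ring⟩
        · rintro ⟨n, hn⟩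
          refine ⟨-n, ?_⟩
          rw [← exp_log hvx]
          congr 1
          push_cast at hn
          linarith
      by_cases h0 : hs g (algebraMap K (v.adicCompletion K) x) = 0
      · rw [h0, hord.1 (hev.1 h0)]
      · have h3 : ((ord (v.valuation K) x : ℤ) : ZMod 2) ≠ 0 := fun h4 => h0 (hev.2 (hord.2 h4))
        rw [Hf_zmod _ h0, Hf_zmod _ h3]

end H36MX

end S_H36_MX_Hf

section S_H36_MX_Hg

set_option autoImplicit false
set_option linter.unusedSectionVars false
open scoped Classical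

open WithZero NumberField IsDedekindDomain H38RT
open H38T1 (SC sc scu rep rep_ne sc_rep sc_mul sc_eq_zero sc_surj eo la si Pri OddP tp unif ka)
open H76PP

namespace H36MX

variable {K : Type} [Field K] [NumberField K]

private theorem Hg_eo {v : HeightOneSpectrum (𝓞 K)} {a : K} (ha : a ≠ 0)
    (h : v.valuation K a = 1) : eo v (sc a) = 0 := by
  rw [H38T1.eo_sc ha, ord, h, log_one]
  simp

private theorem Hg_fin {a b : K} (ha : a ≠ 0) (hb : b ≠ 0) :
    ∃ T : Finset (HeightOneSpectrum (𝓞 K)), ∀ v : HeightOneSpectrum (𝓞 K), v ∉ T →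
      OddP v ∧ eo v (sc a) = 0 ∧ eo v (sc b) = 0 := by
  refine ⟨(fin_bad (two_ne_zero (α := K))).toFinset ∪ ((fin_bad ha).toFinset ∪
    (fin_bad hb).toFinset), fun v hv => ?_⟩
  rw [Finset.mem_union, Finset.mem_union, not_or, not_or] at hv
  obtain ⟨h1, h2, h3⟩ := hv
  rw [Set.Finite.mem_toFinset, Set.mem_ofPred_eq, not_not] at h1 h2 h3
  exact ⟨h1, Hg_eo ha h2, Hg_eo hb h3⟩

private theorem Hg_two (v : HeightOneSpectrum (𝓞 K)) : (2 : v.adicCompletion K) ≠ 0 := by
  have _ := H36CY.char_zero v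
  exact two_ne_zero

private theorem Hg_ne (v : HeightOneSpectrum (𝓞 K)) {a : K} (ha : a ≠ 0) :
    algebraMap K (v.adicCompletion K) a ≠ 0 := (map_ne_zero _).2 ha

theorem hf_all (v : HeightOneSpectrum (𝓞 K)) : HF (v.adicCompletion K) := by
  by_cases hv : OddP v
  · exact hf_odd hv
  · exact hf_two (H38T1.not_oddP.1 hv)

theorem hsv_supp {a b : K} (ha : a ≠ 0) (hb : b ≠ 0) {v : HeightOneSpectrum (𝓞 K)} (hv : OddP v)
    (h1 : eo v (sc a) = 0) (h2 : eo v (sc b) = 0) : hsv v a b = 0 := by
  rw [hs_odd hv ha hb, tp, h1, h2]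
  ring

theorem hsv_fin {a b : K} (ha : a ≠ 0) (hb : b ≠ 0) :
    (Function.support fun v : HeightOneSpectrum (𝓞 K) => hsv v a b).Finite := by
  obtain ⟨T, hT⟩ := Hg_fin ha hb
  refine T.finite_toSet.subset fun v hv => ?_
  by_contra h
  obtain ⟨h1, h2, h3⟩ := hT v h
  exact hv (hsv_supp ha hb h1 h2 h3)

theorem BB_eq {a b : K} (T : Finset (HeightOneSpectrum (𝓞 K)))
    (hT : ∀ v : HeightOneSpectrum (𝓞 K), v ∉ T → hsv v a b = 0) :
    BB a b = ∑ v ∈ T, hsv v a b + ∑ s : K →+* ℝ, si s (sc a) * si s (sc b) := by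
  unfold BB
  congr 1
  refine finsum_eq_sum_of_support_subset _ fun v hv => ?_
  by_contra h
  exact hv (hT v h)

theorem BB_comm (a b : K) : BB a b = BB b a := by
  unfold BB
  congr 1
  · exact finsum_congr fun v => hs_comm _ _
  · exact Finset.sum_congr rfl fun s _ => mul_comm _ _

theorem BB_mul {a b c : K} (ha : a ≠ 0) (hb : b ≠ 0) (hc : c ≠ 0) :
    BB a (b * c) = BB a b + BB a c := by
  have h1 : ∀ v : HeightOneSpectrum (𝓞 K), hsv v a (b * c) = hsv v a b + hsv v a c := by
    intro v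
    unfold hsv
    rw [map_mul]
    exact hs_mul_right (hf_all v) (Hg_ne v hb) (Hg_ne v hc) (Hg_ne v ha)
  have h2 : ∀ s : K →+* ℝ, si s (sc a) * si s (sc (b * c)) =
      si s (sc a) * si s (sc b) + si s (sc a) * si s (sc c) := by
    intro s
    rw [sc_mul hb hc, H38T1.si_add, mul_add]
  unfold BB
  rw [finsum_congr h1, finsum_add_distrib (hsv_fin ha hb) (hsv_fin ha hc),
    Finset.sum_congr rfl fun s _ => h2 s, Finset.sum_add_distrib]
  ring

theorem BB_pri {a b : K} (ha : a ≠ 0) (hb : b ≠ 0)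
    (hP : ∀ v : HeightOneSpectrum (𝓞 K), ¬ OddP v → Pri v (sc b)) : BB a b = 0 := by
  obtain ⟨T, hT⟩ := Hg_fin ha hb
  rw [BB_eq T fun v hv => hsv_supp ha hb (hT v hv).1 (hT v hv).2.1 (hT v hv).2.2]
  rw [← H88T7.recip_sc7 (c := sc a) (c' := sc b) T
    (fun v hv => by
      by_contra h
      exact hv (hT v h).1)
    (fun v hv => (hT v hv).2.1) (fun v hv => (hT v hv).2.2) hP]
  congr 1
  refine Finset.sum_congr rfl fun v _ => ?_
  split_ifs with hv
  · exact hs_odd hv ha hb
  · exact hs_pri (H38T1.not_oddP.1 hv) (hf_all v) ha hb (hP v hv)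

private theorem Hg_four (v : HeightOneSpectrum (𝓞 K)) :
    Valued.v (4 : v.adicCompletion K) ≤ 1 := by
  have e4 : (4 : v.adicCompletion K) = algebraMap K (v.adicCompletion K) (2 * 2) := by
    rw [map_mul, map_ofNat]
    norm_num
  rw [e4, H36CY.val_coe, map_mul]
  exact mul_le_one' (val_two_le v) (val_two_le v)

private theorem Hg_prm {v : HeightOneSpectrum (𝓞 K)} (h2 : v.valuation K 2 < 1) {b : K}
    (hb : b ≠ 0) {g r : v.adicCompletion K}
    (hg : Valued.v (g - 1) ≤ Valued.v (4 : v.adicCompletion K))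
    (h : algebraMap K (v.adicCompletion K) b = g * r ^ 2) : Pri v (sc b) := by
  have _ := H36CY.char_zero v
  have hr : r ≠ 0 := by
    rintro rfl
    rw [zero_pow two_ne_zero, mul_zero] at h
    exact Hg_ne v hb h
  have h40 : (4 : v.adicCompletion K) ≠ 0 := by norm_num
  obtain ⟨t, ht⟩ := H36CY.near_coe v r (mul_ne_zero h40 hr)
  have ht1 : Valued.v (algebraMap K (v.adicCompletion K) t - r) <
      Valued.v (4 : v.adicCompletion K) * Valued.v r := by
    rw [← map_mul]
    exact ht
  have hrr : Valued.v (algebraMap K (v.adicCompletion K) t - r) < Valued.v r :=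
    lt_of_lt_of_le ht1 (mul_le_of_le_one_left' (Hg_four v))
  have htr : Valued.v (algebraMap K (v.adicCompletion K) t) = Valued.v r :=
    Valuation.map_eq_of_sub_lt _ hrr
  have hvr : Valued.v r ≠ 0 := (Valuation.ne_zero_iff _).2 hr
  have ht0 : t ≠ 0 := by
    rintro rfl
    rw [map_zero, map_zero] at htr
    exact hvr htr.symm
  have h3 : Valued.v (algebraMap K (v.adicCompletion K) t ^ 2 - r ^ 2) ≤
      Valued.v (4 : v.adicCompletion K) * Valued.v r ^ 2 := by
    have e : algebraMap K (v.adicCompletion K) t ^ 2 - r ^ 2 =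
        (algebraMap K (v.adicCompletion K) t - r) * (algebraMap K (v.adicCompletion K) t + r) := by
      ring
    rw [e, map_mul, sq, ← mul_assoc]
    refine mul_le_mul' ht1.le ?_
    refine (Valuation.map_add _ _ _).trans ?_
    rw [htr, max_self]
  have h4 : Valued.v (algebraMap K (v.adicCompletion K) b - r ^ 2) ≤
      Valued.v (4 : v.adicCompletion K) * Valued.v r ^ 2 := by
    have e : algebraMap K (v.adicCompletion K) b - r ^ 2 = (g - 1) * r ^ 2 := by
      rw [h]
      ring
    rw [e, map_mul, map_pow]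
    exact mul_le_mul_left hg _
  have h5 : Valued.v (algebraMap K (v.adicCompletion K) (b - t ^ 2)) ≤
      Valued.v (4 : v.adicCompletion K) * Valued.v r ^ 2 := by
    have e : algebraMap K (v.adicCompletion K) (b - t ^ 2) =
        (algebraMap K (v.adicCompletion K) b - r ^ 2) -
          (algebraMap K (v.adicCompletion K) t ^ 2 - r ^ 2) := by
      rw [map_sub, map_pow]
      ring
    rw [e]
    exact (Valuation.map_sub _ _ _).trans (max_le h4 h3)
  have h6 : v.valuation K (b - t ^ 2) ≤ v.valuation K (4 * t ^ 2) := by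
    rw [← H36CY.val_coe v, ← H36CY.val_coe v]
    refine h5.trans (le_of_eq ?_)
    have e4 : algebraMap K (v.adicCompletion K) 4 = 4 := map_ofNat _ _
    rw [map_mul, map_mul, map_pow, map_pow, htr, e4]
  rw [H38T1.pri_sc (H38T1.not_oddP.2 h2) hb]
  have h4K : (4 : K) * t ^ 2 ≠ 0 := mul_ne_zero (by norm_num) (pow_ne_zero 2 ht0)
  refine ⟨t, 1, -((b - t ^ 2) / (4 * t ^ 2)), ht0, map_one _, ?_, ?_⟩
  · rw [Valuation.map_neg, map_div₀]
    exact div_le_one_of_le₀ h6 zero_le
  · field_simp
    ring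

theorem pri_sq {v : HeightOneSpectrum (𝓞 K)} (h2 : v.valuation K 2 < 1) {b : K} (hb : b ≠ 0)
    (h : IsSquare (algebraMap K (v.adicCompletion K) b)) : Pri v (sc b) := by
  obtain ⟨r, hr⟩ := h
  refine Hg_prm h2 hb (g := 1) (r := r) ?_ ?_
  · rw [sub_self, map_zero]
    exact zero_le
  · rw [hr]
    ring

theorem pri_unr {v : HeightOneSpectrum (𝓞 K)} (h2 : v.valuation K 2 < 1) {b : K} (hb : b ≠ 0)
    {g : v.adicCompletion K} (hg : Unr g) {r : v.adicCompletion K}
    (h : algebraMap K (v.adicCompletion K) b = g * r ^ 2) : Pri v (sc b) := by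
  obtain ⟨ρ, h1, -, h3⟩ := hg
  refine Hg_prm h2 hb (g := g) (r := r) ?_ h
  have e : g - 1 = 4 * ρ := by
    rw [h3]
    ring
  rw [e, map_mul]
  exact mul_le_of_le_one_right' h1

theorem BB_norm {a n x y : K} (ha : a ≠ 0) (hn : n ≠ 0) (h : n = x ^ 2 - a * y ^ 2) :
    BB a n = 0 := by
  have h1 : ∀ v : HeightOneSpectrum (𝓞 K), hsv v a n = 0 := by
    intro v
    refine hs_eq_zero.2 ((sol_iff (Hg_two v) (Hg_ne v ha) (Hg_ne v hn)).2
      ⟨algebraMap K _ x, algebraMap K _ y, ?_⟩)
    rw [h, map_sub, map_mul, map_pow, map_pow]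
  have h2 : ∀ s : K →+* ℝ, si s (sc a) * si s (sc n) = 0 := by
    intro s
    rw [H38T1.si_sc s ha, H38T1.si_sc s hn]
    unfold sw
    split_ifs with h3 h4
    · exfalso
      rw [h, map_sub, map_mul, map_pow, map_pow] at h4
      have h5 := mul_nonneg (neg_nonneg.2 h3.le) (sq_nonneg (s y))
      have h6 := sq_nonneg (s x)
      linarith
    · rw [mul_zero]
    · rw [zero_mul]
    · rw [zero_mul]
  unfold BB
  rw [finsum_congr h1, finsum_zero, Finset.sum_congr rfl fun s _ => h2 s, Finset.sum_const_zero,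
    add_zero]

private noncomputable def Hg_eps (β μ : WithZero (Multiplicative ℤ)) :
    WithZero (Multiplicative ℤ) := min 1 (β / max 1 μ)

private theorem Hg_max_ne (μ : WithZero (Multiplicative ℤ)) : max 1 μ ≠ 0 :=
  (lt_of_lt_of_le zero_lt_one (le_max_left _ _)).ne'

private theorem Hg_eps_ne {β : WithZero (Multiplicative ℤ)} (hβ : β ≠ 0)
    (μ : WithZero (Multiplicative ℤ)) : Hg_eps β μ ≠ 0 := by
  have h1 : (0 : WithZero (Multiplicative ℤ)) < 1 := zero_lt_one
  have h2 : (0 : WithZero (Multiplicative ℤ)) < β / max 1 μ :=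
    zero_lt_iff.2 (div_ne_zero hβ (Hg_max_ne μ))
  exact (lt_min h1 h2).ne'

private theorem Hg_est (v : HeightOneSpectrum (𝓞 K)) {β : WithZero (Multiplicative ℤ)}
    {X x : v.adicCompletion K} (h : Valued.v (X - x) < Hg_eps β (Valued.v x)) :
    Valued.v (X ^ 2 - x ^ 2) < β := by
  obtain ⟨h1, h2⟩ := lt_min_iff.1 h
  rw [lt_div_iff₀ (zero_lt_iff.2 (Hg_max_ne _))] at h2
  have e : X ^ 2 - x ^ 2 = (X - x) * ((X - x) + 2 * x) := by ring
  rw [e, map_mul]
  refine lt_of_le_of_lt (mul_le_mul_right ?_ _) h2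
  refine (Valuation.map_add _ _ _).trans (max_le (h1.le.trans (le_max_left _ _)) ?_)
  refine le_trans ?_ (le_max_right _ _)
  rw [map_mul]
  refine mul_le_of_le_one_left' ?_
  have e2 : (2 : v.adicCompletion K) = algebraMap K (v.adicCompletion K) 2 := by
    rw [map_ofNat]
  rw [e2, H36CY.val_coe]
  exact val_two_le v

theorem BB_sol {a b : K} (ha : a ≠ 0) (hb : b ≠ 0)
    (h : ∀ v : HeightOneSpectrum (𝓞 K), v.valuation K 2 < 1 → hsv v a b = 0) : BB a b = 0 := by
  obtain ⟨S2, hS2⟩ : ∃ S2 : Finset (HeightOneSpectrum (𝓞 K)),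
      ∀ v : HeightOneSpectrum (𝓞 K), v ∈ S2 ↔ ¬ OddP v := by
    refine ⟨(fin_bad (two_ne_zero (α := K))).toFinset, fun v => ?_⟩
    rw [Set.Finite.mem_toFinset]
    rfl
  by_cases hS : S2.Nonempty
  swap
  · refine BB_pri ha hb fun v hv => ?_
    exact absurd ⟨v, (hS2 v).2 hv⟩ hS
  have hex : ∀ v : HeightOneSpectrum (𝓞 K), ∃ x y : v.adicCompletion K, v ∈ S2 →
      algebraMap K (v.adicCompletion K) b = x ^ 2 - algebraMap K (v.adicCompletion K) a * y ^ 2 := by
    intro v
    by_cases hv : v ∈ S2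
    · have h1 := h v (H38T1.not_oddP.1 ((hS2 v).1 hv))
      obtain ⟨x, y, hxy⟩ := (sol_iff (Hg_two v) (Hg_ne v ha) (Hg_ne v hb)).1 (hs_eq_zero.1 h1)
      exact ⟨x, y, fun _ => hxy⟩
    · exact ⟨0, 0, fun h1 => absurd h1 hv⟩
  choose x y hxy using hex
  have hb4 : ∀ v : HeightOneSpectrum (𝓞 K),
      Valued.v (4 * algebraMap K (v.adicCompletion K) b) ≠ 0 := by
    intro v
    have _ := H36CY.char_zero v
    exact (Valuation.ne_zero_iff _).2 (mul_ne_zero (by norm_num) (Hg_ne v hb))
  have hva : ∀ v : HeightOneSpectrum (𝓞 K),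
      Valued.v (algebraMap K (v.adicCompletion K) a) ≠ 0 :=
    fun v => (Valuation.ne_zero_iff _).2 (Hg_ne v ha)
  obtain ⟨X, hX⟩ := weak_F S2 x
    (ε := fun v => Hg_eps (Valued.v (4 * algebraMap K (v.adicCompletion K) b)) (Valued.v (x v)))
    (fun v => Hg_eps_ne (hb4 v) _)
  obtain ⟨Y, hY⟩ := weak_F S2 y
    (ε := fun v => Hg_eps (Valued.v (4 * algebraMap K (v.adicCompletion K) b) /
      Valued.v (algebraMap K (v.adicCompletion K) a)) (Valued.v (y v)))
    (fun v => Hg_eps_ne (div_ne_zero (hb4 v) (hva v)) _)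
  have hsq : ∀ v ∈ S2, ∃ r : v.adicCompletion K, r ≠ 0 ∧
      algebraMap K (v.adicCompletion K) (X ^ 2 - a * Y ^ 2) =
        algebraMap K (v.adicCompletion K) b * r ^ 2 := by
    intro v hv
    have _ := H36CY.char_zero v
    refine H36CY.sq_near ?_
    have h1 := Hg_est v (hX v hv)
    have h2 := Hg_est v (hY v hv)
    have e : algebraMap K (v.adicCompletion K) (X ^ 2 - a * Y ^ 2) -
        algebraMap K (v.adicCompletion K) b =
        (algebraMap K (v.adicCompletion K) X ^ 2 - x v ^ 2) -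
          algebraMap K (v.adicCompletion K) a *
            (algebraMap K (v.adicCompletion K) Y ^ 2 - y v ^ 2) := by
      rw [hxy v hv, map_sub, map_mul, map_pow, map_pow]
      ring
    rw [e]
    refine lt_of_le_of_lt (Valuation.map_sub _ _ _) (max_lt h1 ?_)
    rw [map_mul, mul_comm]
    exact (lt_div_iff₀ (zero_lt_iff.2 (hva v))).1 h2
  have hn : X ^ 2 - a * Y ^ 2 ≠ 0 := by
    obtain ⟨v, hv⟩ := hS
    obtain ⟨r, hr, he⟩ := hsq v hv
    intro h0
    rw [h0, map_zero] at he
    exact mul_ne_zero (Hg_ne v hb) (pow_ne_zero 2 hr) he.symm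
  have h1 : BB a ((X ^ 2 - a * Y ^ 2) * b) = 0 := by
    refine BB_pri ha (mul_ne_zero hn hb) fun v hv => ?_
    obtain ⟨r, hr, he⟩ := hsq v ((hS2 v).2 hv)
    refine pri_sq (H38T1.not_oddP.1 hv) (mul_ne_zero hn hb)
      ⟨algebraMap K (v.adicCompletion K) b * r, ?_⟩
    rw [map_mul, he]
    ring
  have h2 : BB a (X ^ 2 - a * Y ^ 2) = 0 := BB_norm ha hn rfl
  rw [BB_mul ha hn hb, h2, zero_add] at h1
  exact h1

end H36MX

end S_H36_MX_Hg

section S_H36_MX_Hk

set_option autoImplicit false
set_option linter.unusedSectionVars false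
open scoped Classical

open WithZero NumberField IsDedekindDomain H38RT
open H38T1 (SC sc scu rep rep_ne sc_rep sc_mul sc_eq_zero sc_surj eo la si Pri OddP tp unif ka)
open H76PP

namespace H36MX

variable {K : Type} [Field K] [NumberField K]

private theorem Hk_S : ∃ S : Finset (HeightOneSpectrum (𝓞 K)),
    ∀ v : HeightOneSpectrum (𝓞 K), v ∈ S ↔ v.valuation K 2 < 1 := by
  have h2 : (2 : K) ≠ 0 := two_ne_zero
  refine ⟨(H38RT.fin_bad h2).toFinset, fun v => ?_⟩
  rw [Set.Finite.mem_toFinset, Set.mem_ofPred_eq]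
  constructor
  · intro h
    exact lt_of_le_of_ne (val_two_le v) h
  · intro h
    exact h.ne

private theorem Hk_sq {v : HeightOneSpectrum (𝓞 K)} {x y : K} (hy : y ≠ 0)
    (h : IsSquare (algebraMap K (v.adicCompletion K) y)) : hsv v x y = 0 := by
  unfold hsv
  rw [hs_comm]
  exact hs_of_sq ((map_ne_zero _).2 hy) h

private theorem Hk_B1 {v : HeightOneSpectrum (𝓞 K)} {e : K}
    (he : e ≠ 0) (heB : ∀ x : K, x ≠ 0 → BB x e = 0) {x y : K} (hx : x ≠ 0) (hy : y ≠ 0)
    (hsq : ∀ u : HeightOneSpectrum (𝓞 K), u.valuation K 2 < 1 → u ≠ v →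
      IsSquare (algebraMap K (u.adicCompletion K) y))
    (h1 : hsv v e y = 1) : BB x y = 0 := by
  have key : ∀ z : K, z ≠ 0 → hsv v z y = 0 → BB z y = 0 := by
    intro z hz h0
    refine BB_sol hz hy fun u hu => ?_
    by_cases huv : u = v
    · rw [huv]
      exact h0
    · exact Hk_sq hy (hsq u hu huv)
  by_cases h0 : hsv v x y = 0
  · exact key x hx h0
  · have h2 : hsv v x y = 1 := by
      revert h0
      generalize hsv v x y = t
      revert t
      decide
    have h3 : hsv v (x * e) y = 0 := by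
      have h4 := (hf_all v).mul (algebraMap K _ x) (algebraMap K _ e) (algebraMap K _ y)
        ((map_ne_zero _).2 hx) ((map_ne_zero _).2 he) ((map_ne_zero _).2 hy)
      unfold hsv at h1 h2 ⊢
      rw [map_mul, h4, h1, h2]
      decide
    have h5 := key (x * e) (mul_ne_zero hx he) h3
    rw [BB_comm, BB_mul hy hx he, heB y hy, add_zero] at h5
    rw [BB_comm]
    exact h5

private theorem Hk_exp {z : WithZero (Multiplicative ℤ)} (hz : z ≠ 0) {n : ℤ}
    (h : exp (-1 : ℤ) * z ^ 2 = exp (2 * n)) : False := by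
  have h1 := congrArg log h
  rw [log_mul exp_ne_zero (pow_ne_zero 2 hz), log_exp, log_exp, log_pow] at h1
  simp only [nsmul_eq_mul, Nat.cast_ofNat] at h1
  omega

private theorem Hk_B {v : HeightOneSpectrum (𝓞 K)} (hv : v.valuation K 2 < 1) {x y : K}
    (hx : x ≠ 0) (hy : y ≠ 0)
    (hsq : ∀ u : HeightOneSpectrum (𝓞 K), u.valuation K 2 < 1 → u ≠ v →
      IsSquare (algebraMap K (u.adicCompletion K) y)) : BB x y = 0 := by
  obtain ⟨S, hS⟩ := Hk_S (K := K)
  obtain ⟨g, hg⟩ := exists_unr hv
  have hg0 : g ≠ 0 := by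
    intro h
    have h1 := unr_one hv hg
    rw [h, map_zero] at h1
    exact zero_ne_one h1
  -- the element e
  have hex : ∃ G : ∀ u : HeightOneSpectrum (𝓞 K), u.adicCompletion K, (∀ u, G u ≠ 0) ∧
      G v = g ∧ ∀ u, u ≠ v → G u = 1 := by
    refine ⟨Function.update (fun u => 1) v g, fun u => ?_, Function.update_self .., fun u hu =>
      Function.update_of_ne hu _ _⟩
    by_cases hu : u = v
    · subst hu
      rw [Function.update_self]
      exact hg0
    · rw [Function.update_of_ne hu]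
      exact one_ne_zero
  obtain ⟨G, hG0, hGv, hGu⟩ := hex
  obtain ⟨e, he, hes⟩ := weak_sq S G hG0
  obtain ⟨r, hr, her⟩ := hes v ((hS v).2 hv)
  rw [hGv] at her
  have heB : ∀ z : K, z ≠ 0 → BB z e = 0 := by
    intro z hz
    refine BB_pri hz he fun u hu => ?_
    have hu2 : u.valuation K 2 < 1 := lt_of_le_of_ne (val_two_le u) hu
    by_cases huv : u = v
    · subst huv
      exact pri_unr hv he hg her
    · refine pri_sq hu2 he ?_
      obtain ⟨t, _, ht⟩ := hes u ((hS u).2 hu2)
      rw [ht, hGu u huv, one_mul]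
      exact ⟨t, sq t⟩
  -- the element γ
  have hex : ∃ G : ∀ u : HeightOneSpectrum (𝓞 K), u.adicCompletion K, (∀ u, G u ≠ 0) ∧
      G v = algebraMap K _ (unif v) ∧ ∀ u, u ≠ v → G u = 1 := by
    have hu0 : algebraMap K (v.adicCompletion K) (unif v) ≠ 0 := by
      refine (map_ne_zero _).2 fun h => ?_
      have h1 := H38T1.unif_spec v
      rw [h, map_zero] at h1
      exact exp_ne_zero h1.symm
    refine ⟨Function.update (fun u => 1) v (algebraMap K _ (unif v)), fun u => ?_,
      Function.update_self .., fun u hu => Function.update_of_ne hu _ _⟩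
    by_cases hu : u = v
    · subst hu
      rw [Function.update_self]
      exact hu0
    · rw [Function.update_of_ne hu]
      exact one_ne_zero
  obtain ⟨P, hP0, hPv, hPu⟩ := hex
  obtain ⟨γ, hγ, hγs⟩ := weak_sq S P hP0
  have hγsq : ∀ u : HeightOneSpectrum (𝓞 K), u.valuation K 2 < 1 → u ≠ v →
      IsSquare (algebraMap K (u.adicCompletion K) γ) := by
    intro u hu2 huv
    obtain ⟨t, _, ht⟩ := hγs u ((hS u).2 hu2)
    rw [ht, hPu u huv, one_mul]
    exact ⟨t, sq t⟩
  have h1 : hsv v e γ = 1 := by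
    obtain ⟨t, ht0, ht⟩ := hγs v ((hS v).2 hv)
    rw [hPv] at ht
    unfold hsv
    rw [her, hs_congr hr rfl]
    have h2 : ¬ hs g (algebraMap K (v.adicCompletion K) γ) = 0 := by
      rw [unr_even hv (hf_all v) hg ((map_ne_zero _).2 hγ)]
      rintro ⟨n, hn⟩
      rw [ht, map_mul, map_pow, H36CY.val_coe, H38T1.unif_spec] at hn
      exact Hk_exp ((Valuation.ne_zero_iff _).2 ht0) hn
    revert h2
    generalize hs g (algebraMap K (v.adicCompletion K) γ) = t
    revert t
    decide
  by_cases h0 : hsv v e y = 0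
  · have h2 : hsv v e (y * γ) = 1 := by
      have h3 := hs_mul_right (hf_all v) (a := algebraMap K _ y) (b := algebraMap K _ γ)
        (c := algebraMap K _ e) ((map_ne_zero _).2 hy) ((map_ne_zero _).2 hγ)
        ((map_ne_zero _).2 he)
      unfold hsv at h0 h1 ⊢
      rw [map_mul, h3, h0, h1, zero_add]
    have h4 : BB x (y * γ) = 0 := by
      refine Hk_B1 (v := v) he heB hx (mul_ne_zero hy hγ) (fun u hu huv => ?_) h2
      rw [map_mul]
      exact (hsq u hu huv).mul (hγsq u hu huv)
    have h5 : BB x γ = 0 := Hk_B1 (v := v) he heB hx hγ hγsq h1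
    rw [BB_mul hx hy hγ, h5, add_zero] at h4
    exact h4
  · have h2 : hsv v e y = 1 := by
      revert h0
      generalize hsv v e y = t
      revert t
      decide
    exact Hk_B1 (v := v) he heB hx hy hsq h2

private theorem Hk_A {a : K} (ha : a ≠ 0) (T : Finset (HeightOneSpectrum (𝓞 K))) :
    ∀ b : K, b ≠ 0 → (∀ u : HeightOneSpectrum (𝓞 K), u.valuation K 2 < 1 → u ∉ T →
      IsSquare (algebraMap K (u.adicCompletion K) b)) → BB a b = 0 := by
  induction T using Finset.induction_on with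
  | empty =>
    intro b hb h
    exact BB_sol ha hb fun u hu => Hk_sq hb (h u hu (Finset.notMem_empty u))
  | insert v T hvT ih =>
    intro b hb h
    by_cases hv : v.valuation K 2 < 1
    · obtain ⟨S, hS⟩ := Hk_S (K := K)
      have hex : ∃ G : ∀ u : HeightOneSpectrum (𝓞 K), u.adicCompletion K, (∀ u, G u ≠ 0) ∧
          G v = algebraMap K _ b ∧ ∀ u, u ≠ v → G u = 1 := by
        have hu0 : algebraMap K (v.adicCompletion K) b ≠ 0 := (map_ne_zero _).2 hb
        refine ⟨Function.update (fun u => 1) v (algebraMap K _ b), fun u => ?_,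
          Function.update_self .., fun u hu => Function.update_of_ne hu _ _⟩
        by_cases hu : u = v
        · subst hu
          rw [Function.update_self]
          exact hu0
        · rw [Function.update_of_ne hu]
          exact one_ne_zero
      obtain ⟨P, hP0, hPv, hPu⟩ := hex
      obtain ⟨y, hy, hys⟩ := weak_sq S P hP0
      have hysq : ∀ u : HeightOneSpectrum (𝓞 K), u.valuation K 2 < 1 → u ≠ v →
          IsSquare (algebraMap K (u.adicCompletion K) y) := by
        intro u hu2 huv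
        obtain ⟨t, _, ht⟩ := hys u ((hS u).2 hu2)
        rw [ht, hPu u huv, one_mul]
        exact ⟨t, sq t⟩
      have h1 : BB a y = 0 := Hk_B hv ha hy hysq
      have h2 : BB a (b * y) = 0 := by
        refine ih (b * y) (mul_ne_zero hb hy) fun u hu huT => ?_
        by_cases huv : u = v
        · subst huv
          obtain ⟨t, _, ht⟩ := hys u ((hS u).2 hv)
          rw [map_mul, ht, hPv]
          exact ⟨algebraMap K _ b * t, by ring⟩
        · rw [map_mul]
          refine (h u hu ?_).mul (hysq u hu huv)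
          rw [Finset.mem_insert, not_or]
          exact ⟨huv, huT⟩
      rw [BB_mul ha hb hy, h1, add_zero] at h2
      exact h2
    · refine ih b hb fun u hu huT => h u hu ?_
      rw [Finset.mem_insert, not_or]
      exact ⟨fun h1 => hv (h1 ▸ hu), huT⟩

theorem BB_zero {a b : K} (ha : a ≠ 0) (hb : b ≠ 0) : BB a b = 0 := by
  obtain ⟨S, hS⟩ := Hk_S (K := K)
  exact Hk_A ha S b hb fun u hu huS => absurd ((hS u).2 hu) huS

/-- The product formula. -/
theorem prodH (T : Finset (HeightOneSpectrum (𝓞 K))) {a b : K} (ha : a ≠ 0) (hb : b ≠ 0)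
    (hT : ∀ v : HeightOneSpectrum (𝓞 K), v ∉ T → OddP v ∧ eo v (sc a) = 0 ∧ eo v (sc b) = 0) :
    ∑ v ∈ T, hsv v a b + ∑ s : K →+* ℝ, si s (sc a) * si s (sc b) = 0 := by
  have h1 := BB_eq (a := a) (b := b) T fun v hv => by
    obtain ⟨h1, h2, h3⟩ := hT v hv
    exact hsv_supp ha hb h1 h2 h3
  rw [← h1]
  exact BB_zero ha hb

end H36MX

end S_H36_MX_Hk

section S_H36_MX_Fi

set_option autoImplicit false
set_option linter.unusedSectionVars false
open scoped Classical

open WithZero NumberField IsDedekindDomain H38RT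
open H38T1 (SC sc scu rep eo la si Pri OddP tp unif ka)
open H76PP H76MX

namespace H36MX

theorem hilb (K : Type) [Field K] [NumberField K] : Hilb K where
  hf := hf_all
  odd _ hv _ _ ha hb := hs_odd hv ha hb
  prod _ _ ha hb := BB_zero ha hb

theorem conicSplit (K : Type) [Field K] [NumberField K] : ConicSplit K :=
  fun L _ _ _ A B θ h u e hs y hy hN ha hb => conic_all L A B θ h u e hs y hy hN ha hb

end H36MX

end S_H36_MX_Fi
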